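import Pool.Agent.Helper23.GR.Defs

open MeasureTheory Real Finset

namespace Pool.Agent.Helper23.GR

open Pool.Agent.Helper42.Ent Pool.Agent.Helper70.C4

variable {E : Type*} [MeasurableSpace E] {α β γ : Type*}
  [Fintype α] [MeasurableSpace α] [MeasurableSingletonClass α]
  [Fintype β] [MeasurableSpace β] [MeasurableSingletonClass β]
  [Fintype γ] [MeasurableSpace γ] [MeasurableSingletonClass γ]

/-- GR-E1. The Donsker-Varadhan lower bound for mutual information. -/
theorem dv (P : Measure E) [IsProbabilityMeasure P] {X : E → α} {Y : E → β} (hX : Measurable X)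
    (hY : Measurable Y) (g : α × β → ℝ) :
    ∑ s, pr P (fun x => (X x, Y x)) s * g s -
      Real.log (∑ s : α × β, pr P X s.1 * pr P Y s.2 * Real.exp (g s)) ≤ MI P X Y := by
  set W : E → α × β := fun x => (X x, Y x) with hW
  have hWm : Measurable W := hX.prodMk hY
  have hfst : (Prod.fst : α × β → α) ∘ W = X := rfl
  have hsnd : (Prod.snd : α × β → β) ∘ W = Y := rfl
  set Z : ℝ := ∑ s : α × β, pr P X s.1 * pr P Y s.2 * Real.exp (g s) with hZ
  have hWX : ∀ s, pr P W s ≤ pr P X s.1 := by
    intro s
    have := pr_le_pr_comp P W Prod.fst s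
    rwa [hfst] at this
  have hWY : ∀ s, pr P W s ≤ pr P Y s.2 := by
    intro s
    have := pr_le_pr_comp P W Prod.snd s
    rwa [hsnd] at this
  have hterm : ∀ s : α × β, 0 ≤ pr P X s.1 * pr P Y s.2 * Real.exp (g s) := by
    intro s
    have := pr_nonneg P X s.1
    have := pr_nonneg P Y s.2
    positivity
  have hZpos : 0 < Z := by
    have h1 : ∃ s, 0 < pr P W s := by
      by_contra hcon
      push Not at hcon
      have h2 := sum_pr P hWm
      have h3 : ∑ s, pr P W s ≤ 0 := sum_nonpos fun s _ => hcon s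
      linarith
    obtain ⟨s, hs⟩ := h1
    have h4 : 0 < pr P X s.1 := lt_of_lt_of_le hs (hWX s)
    have h5 : 0 < pr P Y s.2 := lt_of_lt_of_le hs (hWY s)
    have h6 : 0 < pr P X s.1 * pr P Y s.2 * Real.exp (g s) := by positivity
    exact lt_of_lt_of_le h6 (single_le_sum (fun t _ => hterm t) (mem_univ s))
  let r : α × β → ℝ := fun s => pr P X s.1 * pr P Y s.2 * Real.exp (g s) / Z
  have hr0 : ∀ s, 0 ≤ r s := fun s => div_nonneg (hterm s) hZpos.le
  have hrz : ∀ s, r s = 0 → pr P W s = 0 := by
    intro s hs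
    by_contra hne
    have hp : 0 < pr P W s := lt_of_le_of_ne (pr_nonneg P W s) (Ne.symm hne)
    have h4 : 0 < pr P X s.1 := lt_of_lt_of_le hp (hWX s)
    have h5 : 0 < pr P Y s.2 := lt_of_lt_of_le hp (hWY s)
    have : 0 < r s := by simp only [r]; positivity
    linarith
  have hsum : ∑ s, r s ≤ ∑ s, pr P W s := by
    rw [sum_pr P hWm]
    simp only [r]
    rw [← sum_div, ← hZ, div_self hZpos.ne']
  have hG := gibbs (p := pr P W) (r := r) (pr_nonneg P W) hr0 hrz hsum
  have hlog : ∑ s, pr P W s * Real.log (r s) =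
      ∑ s, pr P W s * Real.log (pr P X s.1) + ∑ s, pr P W s * Real.log (pr P Y s.2) +
      ∑ s, pr P W s * g s - ∑ s, pr P W s * Real.log Z := by
    rw [← sum_add_distrib, ← sum_add_distrib, ← sum_sub_distrib]
    apply sum_congr rfl
    intro s _
    rcases (pr_nonneg P W s).eq_or_lt with h | h
    · rw [← h]; ring
    · have h4 : 0 < pr P X s.1 := lt_of_lt_of_le h (hWX s)
      have h5 : 0 < pr P Y s.2 := lt_of_lt_of_le h (hWY s)
      simp only [r]
      rw [Real.log_div (by positivity) (by positivity), Real.log_mul (by positivity) (by positivity),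
        Real.log_mul (by positivity) (by positivity), Real.log_exp]
      ring
  have k1 : ent P X = - ∑ s, pr P W s * Real.log (pr P X s.1) := by
    have := ent_comp_eq P hWm (Prod.fst : α × β → α)
    rwa [hfst] at this
  have k2 : ent P Y = - ∑ s, pr P W s * Real.log (pr P Y s.2) := by
    have := ent_comp_eq P hWm (Prod.snd : α × β → β)
    rwa [hsnd] at this
  have k3 : ∑ s, pr P W s * Real.log Z = Real.log Z := by
    rw [← sum_mul, sum_pr P hWm, one_mul]
  have k0 : ent P W = ∑ s, negMulLog (pr P W s) := rfl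
  rw [← k0, hlog, k3] at hG
  unfold MI
  rw [← hW]
  linarith

end Pool.Agent.Helper23.GR
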