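import Pool.Agent.Helper23.GR.Defs
import Pool.Agent.Helper23.GR.St.E1

open MeasureTheory Real Finset

namespace Pool.Agent.Helper23.GR

open Pool.Agent.Helper42.Ent Pool.Agent.Helper70.C4

variable {E : Type*} [MeasurableSpace E] {α β γ : Type*}
  [Fintype α] [MeasurableSpace α] [MeasurableSingletonClass α]
  [Fintype β] [MeasurableSpace β] [MeasurableSingletonClass β]
  [Fintype γ] [MeasurableSpace γ] [MeasurableSingletonClass γ]

namespace GRE2aux

theorem sum_pr_finset (P : Measure E) [IsProbabilityMeasure P] {W : E → γ} (hW : Measurable W)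
    (A : Finset γ) : ∑ s ∈ A, pr P W s = P.real (W ⁻¹' (A : Set γ)) := by
  have h1 : W ⁻¹' (A : Set γ) = ⋃ s ∈ A, W ⁻¹' {s} := by
    ext x
    simp
  rw [h1, measureReal_biUnion_finset]
  · rfl
  · intro i _ j _ hij
    refine Set.disjoint_left.2 fun x hx hy => hij ?_
    simp only [Set.mem_preimage, Set.mem_singleton_iff] at hx hy
    rw [← hx, ← hy]
  · intro i _
    exact hW (measurableSet_singleton i)

theorem sum_prod_eq (P : Measure E) [IsProbabilityMeasure P] {X : E → α} {Y : E → β}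
    (hX : Measurable X) (hY : Measurable Y) (A : Finset α) (B : Finset β) :
    ∑ s ∈ A ×ˢ B, pr P X s.1 * pr P Y s.2 =
      P.real (X ⁻¹' (A : Set α)) * P.real (Y ⁻¹' (B : Set β)) := by
  rw [← sum_pr_finset P hX, ← sum_pr_finset P hY, Finset.sum_mul_sum, Finset.sum_product]

end GRE2aux

/-- GR-E2. Linear form for a set of pairs. -/
theorem lin (P : Measure E) [IsProbabilityMeasure P] {X : E → α} {Y : E → β} (hX : Measurable X)
    (hY : Measurable Y) (A : Finset (α × β)) (t : ℝ) :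
    t * ∑ s ∈ A, pr P (fun x => (X x, Y x)) s -
      (Real.exp t - 1) * ∑ s ∈ A, pr P X s.1 * pr P Y s.2 ≤ MI P X Y := by
  classical
  have h := dv P hX hY (fun s => if s ∈ A then t else 0)
  have h1 : ∑ s, pr P (fun x => (X x, Y x)) s * (if s ∈ A then t else 0) =
      t * ∑ s ∈ A, pr P (fun x => (X x, Y x)) s := by
    rw [Finset.mul_sum]
    simp only [mul_ite, mul_zero]
    rw [Finset.sum_ite_mem, Finset.univ_inter]
    exact Finset.sum_congr rfl fun s _ => mul_comm _ _
  have htot : ∑ s : α × β, pr P X s.1 * pr P Y s.2 = 1 := by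
    rw [Fintype.sum_prod_type]
    simp only [← Finset.mul_sum]
    rw [sum_pr P hY]
    simp only [mul_one]
    exact sum_pr P hX
  have h2 : ∑ s : α × β, pr P X s.1 * pr P Y s.2 * Real.exp (if s ∈ A then t else 0) =
      1 + (Real.exp t - 1) * ∑ s ∈ A, pr P X s.1 * pr P Y s.2 := by
    have e1 : ∀ s : α × β, pr P X s.1 * pr P Y s.2 * Real.exp (if s ∈ A then t else 0) =
        pr P X s.1 * pr P Y s.2 +
          (if s ∈ A then (Real.exp t - 1) * (pr P X s.1 * pr P Y s.2) else 0) := by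
      intro s
      split_ifs
      · ring
      · rw [Real.exp_zero]; ring
    rw [Finset.sum_congr rfl fun s _ => e1 s, Finset.sum_add_distrib, htot, Finset.sum_ite_mem,
      Finset.univ_inter, Finset.mul_sum]
  have hpos : 0 < ∑ s : α × β, pr P X s.1 * pr P Y s.2 * Real.exp (if s ∈ A then t else 0) := by
    have h3 : ∑ s : α × β, pr P X s.1 * pr P Y s.2 * Real.exp (-|t|) ≤
        ∑ s : α × β, pr P X s.1 * pr P Y s.2 * Real.exp (if s ∈ A then t else 0) := by
      refine Finset.sum_le_sum fun s _ => ?_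
      have h4 : 0 ≤ pr P X s.1 * pr P Y s.2 := mul_nonneg (pr_nonneg _ _ _) (pr_nonneg _ _ _)
      refine mul_le_mul_of_nonneg_left (Real.exp_le_exp.2 ?_) h4
      split_ifs
      · exact neg_abs_le t
      · exact neg_nonpos.2 (abs_nonneg t)
    rw [← Finset.sum_mul, htot, one_mul] at h3
    exact lt_of_lt_of_le (Real.exp_pos _) h3
  have h5 := Real.log_le_sub_one_of_pos hpos
  rw [h1] at h
  rw [h2] at h h5
  linarith

/-- coincidences -/
theorem lin_diag (P : Measure E) [IsProbabilityMeasure P] {X Y : E → α} (hX : Measurable X)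
    (hY : Measurable Y) :
    P.real {x | X x = Y x} ≤ MI P X Y + 2 * ∑ s, pr P X s * pr P Y s := by
  classical
  have h := lin P hX hY (Finset.univ.image fun s : α => (s, s)) 1
  have hinj : Set.InjOn (fun s : α => (s, s)) (Finset.univ : Finset α) := by
    intro s _ t _ hst
    exact (Prod.ext_iff.1 hst).1
  have h1 : ∑ s ∈ Finset.univ.image (fun s : α => (s, s)), pr P (fun x => (X x, Y x)) s =
      P.real {x | X x = Y x} := by
    rw [GRE2aux.sum_pr_finset P (hX.prodMk hY)]
    congr 1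
    ext x
    simp only [Finset.coe_image, Finset.coe_univ, Set.image_univ, Set.mem_preimage, Set.mem_range,
      Prod.mk.injEq, Set.mem_setOf_eq]
    constructor
    · rintro ⟨y, hy1, hy2⟩
      rw [← hy1, ← hy2]
    · intro hx
      exact ⟨X x, rfl, hx⟩
  rw [h1, Finset.sum_image hinj, one_mul] at h
  have h2 : 0 ≤ ∑ s, pr P X s * pr P Y s :=
    Finset.sum_nonneg fun s _ => mul_nonneg (pr_nonneg _ _ _) (pr_nonneg _ _ _)
  have h3 : Real.exp 1 - 1 ≤ 2 := by
    have := Real.exp_one_lt_d9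
    linarith
  have h4 : (Real.exp 1 - 1) * ∑ s, pr P X s * pr P Y s ≤ 2 * ∑ s, pr P X s * pr P Y s :=
    mul_le_mul_of_nonneg_right h3 h2
  linarith

/-- events -/
theorem lin_prod (P : Measure E) [IsProbabilityMeasure P] {X : E → α} {Y : E → β}
    (hX : Measurable X) (hY : Measurable Y) (A : Set α) (B : Set β) :
    P.real {x | X x ∈ A ∧ Y x ∈ B} ≤
      MI P X Y + 2 * (P.real {x | X x ∈ A} * P.real {x | Y x ∈ B}) := by
  classical
  have h := lin P hX hY (A.toFinset ×ˢ B.toFinset) 1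
  have h1 : ∑ s ∈ A.toFinset ×ˢ B.toFinset, pr P (fun x => (X x, Y x)) s =
      P.real {x | X x ∈ A ∧ Y x ∈ B} := by
    rw [GRE2aux.sum_pr_finset P (hX.prodMk hY)]
    congr 1
    ext x
    simp
  rw [h1, GRE2aux.sum_prod_eq P hX hY, Set.coe_toFinset, Set.coe_toFinset, one_mul] at h
  have h2 : 0 ≤ P.real (X ⁻¹' A) * P.real (Y ⁻¹' B) :=
    mul_nonneg measureReal_nonneg measureReal_nonneg
  have h3 : Real.exp 1 - 1 ≤ 2 := by
    have := Real.exp_one_lt_d9
    linarith
  have h4 : (Real.exp 1 - 1) * (P.real (X ⁻¹' A) * P.real (Y ⁻¹' B)) ≤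
      2 * (P.real (X ⁻¹' A) * P.real (Y ⁻¹' B)) := mul_le_mul_of_nonneg_right h3 h2
  have h5 : P.real {x | X x ∈ A} = P.real (X ⁻¹' A) := rfl
  have h6 : P.real {x | Y x ∈ B} = P.real (Y ⁻¹' B) := rfl
  rw [h5, h6]
  linarith

/-- disjoint events -/
theorem lin_zero (P : Measure E) [IsProbabilityMeasure P] {X : E → α} {Y : E → β}
    (hX : Measurable X) (hY : Measurable Y) (A : Set α) (B : Set β)
    (h : ∀ x, ¬ (X x ∈ A ∧ Y x ∈ B)) :
    P.real {x | X x ∈ A} * P.real {x | Y x ∈ B} / 2 ≤ MI P X Y := by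
  classical
  have h0 := lin P hX hY (A.toFinset ×ˢ B.toFinset) (-1)
  have h1 : ∑ s ∈ A.toFinset ×ˢ B.toFinset, pr P (fun x => (X x, Y x)) s = 0 := by
    rw [GRE2aux.sum_pr_finset P (hX.prodMk hY)]
    have e1 : (fun x => (X x, Y x)) ⁻¹' ((A.toFinset ×ˢ B.toFinset : Finset (α × β)) : Set (α × β)) =
        ∅ := by
      ext x
      have := h x
      simpa using this
    rw [e1, measureReal_empty]
  rw [h1, GRE2aux.sum_prod_eq P hX hY, Set.coe_toFinset, Set.coe_toFinset, mul_zero] at h0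
  have h2 : 0 ≤ P.real (X ⁻¹' A) * P.real (Y ⁻¹' B) :=
    mul_nonneg measureReal_nonneg measureReal_nonneg
  have h3 : Real.exp (-1) ≤ 1 / 2 := by
    rw [Real.exp_neg]
    have h7 : (2 : ℝ) ≤ Real.exp 1 := by
      have := Real.add_one_le_exp (1 : ℝ)
      linarith
    rw [inv_eq_one_div]
    exact one_div_le_one_div_of_le (by norm_num) h7
  have h4 : (1 / 2 : ℝ) * (P.real (X ⁻¹' A) * P.real (Y ⁻¹' B)) ≤
      (1 - Real.exp (-1)) * (P.real (X ⁻¹' A) * P.real (Y ⁻¹' B)) :=
    mul_le_mul_of_nonneg_right (by linarith) h2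
  have h5 : P.real {x | X x ∈ A} = P.real (X ⁻¹' A) := rfl
  have h6 : P.real {x | Y x ∈ B} = P.real (Y ⁻¹' B) := rfl
  rw [h5, h6]
  linarith

end Pool.Agent.Helper23.GR
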