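import Pool.Agent.Helper23.GR.Defs

open MeasureTheory Real Finset

namespace Pool.Agent.Helper23.GR

open Pool.Agent.Helper42.Ent Pool.Agent.Helper70.C4

/-- GR-R1. Running words. -/
theorem run_append {X : Type*} (T : Fin 3 → X → X) (u v : List (Fin 3)) (x : X) :
    run T (u ++ v) x = run T v (run T u x) := by
  induction u generalizing x with
  | nil => rfl
  | cons i u ih =>
    show run T (u ++ v) (T i x) = run T v (run T u (T i x))
    exact ih (T i x)

theorem run_reverse {X : Type*} {T : Fin 3 → X → X} (hT : ∀ i x, T i (T i x) = x)
    (u : List (Fin 3)) (x : X) : run T u.reverse (run T u x) = x := by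
  induction u generalizing x with
  | nil => rfl
  | cons i u ih =>
    rw [List.reverse_cons, run_append]
    show T i (run T u.reverse (run T u (T i x))) = x
    rw [ih (T i x), hT]

theorem run_rel {X : Type*} {T : Fin 3 → X → X} (hT : ∀ i x, T i (T i x) = x)
    (u v : List (Fin 3)) (x : X) : run T (rel u v) (run T u x) = run T v x := by
  induction u generalizing v x with
  | nil => rw [rel]; rfl
  | cons i u ih =>
    cases v with
    | nil =>
      have h : rel (i :: u) [] = (i :: u).reverse := by
        rw [rel]
        simp
      rw [h, run_reverse hT]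
      rfl
    | cons j v =>
      rw [rel]
      split_ifs with hij
      · subst hij
        show run T (rel u v) (run T u (T i x)) = run T v (T i x)
        exact ih v (T i x)
      · rw [run_append, run_reverse hT]

/-- measure preservation -/
theorem mp_run {Ω : Type} [MeasurableSpace Ω] (S : Sys Ω) (w : List (Fin 3)) :
    MeasurePreserving (run S.T w) S.μ S.μ := by
  induction w with
  | nil => exact MeasurePreserving.id S.μ
  | cons i w ih => exact ih.comp (S.mp i)

theorem ent_run {Ω : Type} [MeasurableSpace Ω] (S : Sys Ω) (w : List (Fin 3)) {α : Type*}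
    [Fintype α] [MeasurableSpace α] [MeasurableSingletonClass α] {ψ : Ω → α} (hψ : Measurable ψ) :
    ent S.μ (fun x => ψ (run S.T w x)) = ent S.μ ψ := by
  unfold ent
  apply Finset.sum_congr rfl
  intro s _
  congr 1
  unfold pr
  exact (mp_run S w).measureReal_preimage (hψ (measurableSet_singleton s)).nullMeasurableSet

/-- joint events at two words -/
theorem prob_pair {Ω : Type} [MeasurableSpace Ω] (S : Sys Ω) (u v : List (Fin 3)) {α β : Type*}
    [Finite α] [MeasurableSpace α] [MeasurableSingletonClass α] [Finite β] [MeasurableSpace β]
    [MeasurableSingletonClass β] {g : Ω → α} (hg : Measurable g) {g' : Ω → β} (hg' : Measurable g')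
    (Q : α → β → Prop) :
    S.μ.real {x | Q (g (run S.T u x)) (g' (run S.T v x))} =
      S.μ.real {x | Q (g x) (g' (run S.T (rel u v) x))} := by
  have hm : MeasurableSet {x | Q (g x) (g' (run S.T (rel u v) x))} := by
    have hp : Measurable (fun x => (g x, g' (run S.T (rel u v) x))) :=
      hg.prodMk (hg'.comp (mp_run S (rel u v)).measurable)
    have hs : MeasurableSet {z : α × β | Q z.1 z.2} := (Set.toFinite _).measurableSet
    exact hp hs
  rw [← (mp_run S u).measureReal_preimage hm.nullMeasurableSet]
  congr 1
  ext x
  simp only [Set.mem_ofPred_eq, Set.mem_preimage]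
  rw [run_rel S.invol]

end Pool.Agent.Helper23.GR
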