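import Pool.Agent.Helper23.GR.Defs

open MeasureTheory Real Finset

namespace Pool.Agent.Helper23.GR

open Pool.Agent.Helper42.Ent Pool.Agent.Helper70.C4

variable {E : Type*} [MeasurableSpace E] {α β γ : Type*}
  [Fintype α] [MeasurableSpace α] [MeasurableSingletonClass α]
  [Fintype β] [MeasurableSpace β] [MeasurableSingletonClass β]
  [Fintype γ] [MeasurableSpace γ] [MeasurableSingletonClass γ]

/-- GR-E4. Basic facts. -/
theorem MI_nonneg (P : Measure E) [IsProbabilityMeasure P] {X : E → α} {Y : E → β}
    (hX : Measurable X) (hY : Measurable Y) : 0 ≤ MI P X Y := by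
  have h := ent_pair_le P hX hY
  unfold MI
  linarith

theorem MI_le_left (P : Measure E) [IsProbabilityMeasure P] {X : E → α} {Y : E → β}
    (hX : Measurable X) (hY : Measurable Y) : MI P X Y ≤ ent P X := by
  have h : ent P ((Prod.snd : α × β → β) ∘ (fun x => (X x, Y x))) ≤ ent P (fun x => (X x, Y x)) :=
    ent_comp_le P (hX.prodMk hY) _
  have h2 : (Prod.snd : α × β → β) ∘ (fun x => (X x, Y x)) = Y := rfl
  rw [h2] at h
  unfold MI
  linarith

private theorem star_step (P : Measure E) [IsProbabilityMeasure P] {X : E → α} {Z : E → γ}
    {Y : E → β} (hX : Measurable X) (hZ : Measurable Z) (hY : Measurable Y) :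
    ent P (fun x => ((X x, Z x), (X x, Y x))) ≤
      ent P (fun x => (X x, Z x)) + (ent P Y - MI P X Y) := by
  have h := data_processing P (hX.prodMk hZ) (hX.prodMk hY) (Prod.fst : α × γ → α)
    (Prod.fst : α × β → α)
  have h1 : (Prod.fst : α × γ → α) ∘ (fun x => (X x, Z x)) = X := rfl
  have h2 : (Prod.fst : α × β → α) ∘ (fun x => (X x, Y x)) = X := rfl
  rw [h1, h2] at h
  have h3 : ent P ((fun a : α => (a, a)) ∘ X) ≤ ent P X := ent_comp_le P hX _
  have h4 : ((fun a : α => (a, a)) ∘ X) =
      (fun x => ((Prod.fst : α × γ → α) (X x, Z x), (Prod.fst : α × β → α) (X x, Y x))) := rfl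
  rw [h4] at h3
  unfold MI
  linarith

/-- stars: conditionally on `X` the entropy is subadditive -/
theorem ent_star_le (P : Measure E) [IsProbabilityMeasure P] {ι : Type*} [Fintype ι]
    [DecidableEq ι] {X : E → α} {Y : ι → E → β} (hX : Measurable X) (hY : ∀ i, Measurable (Y i)) :
    ent P (fun x => (X x, fun i => Y i x)) ≤ ent P X + ∑ i, (ent P (Y i) - MI P X (Y i)) := by
  have hne : Nonempty E := by
    by_contra h
    rw [not_nonempty_iff] at h
    have : (P Set.univ) = 0 := by rw [Set.univ_eq_empty_iff.mpr h]; simp
    rw [measure_univ] at this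
    exact one_ne_zero this
  obtain ⟨x0⟩ := hne
  letI : MeasurableSpace (Option β) := ⊤
  haveI : MeasurableSingletonClass (Option β) := ⟨fun _ => trivial⟩
  have hsome : Measurable (some : β → Option β) := measurable_of_countable _
  have hZm : ∀ s : Finset ι, Measurable (fun x => fun i : ι =>
      if i ∈ s then some (Y i x) else (none : Option β)) := by
    intro s
    refine measurable_pi_lambda _ fun i => ?_
    by_cases hi : i ∈ s
    · simp only [hi, if_true]
      exact hsome.comp (hY i)
    · simp only [hi, if_false]
      exact measurable_const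
  have key : ∀ s : Finset ι, ent P (fun x => (X x, fun i : ι =>
      if i ∈ s then some (Y i x) else (none : Option β))) ≤
      ent P X + ∑ i ∈ s, (ent P (Y i) - MI P X (Y i)) := by
    intro s
    induction s using Finset.induction_on with
    | empty =>
      have h : ent P ((fun a : α => (a, fun _ : ι => (none : Option β))) ∘ X) ≤ ent P X :=
        ent_comp_le P hX _
      rw [Finset.sum_empty, add_zero]
      refine le_trans (le_of_eq ?_) h
      congr 1
    | insert i s hi ih =>
      have h1 := star_step P hX (hZm s) (hY i)
      have h2 : ent P ((fun p : (α × (ι → Option β)) × (α × β) =>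
          (p.1.1, Function.update p.1.2 i (some p.2.2))) ∘
          (fun x => ((X x, fun i : ι => if i ∈ s then some (Y i x) else (none : Option β)),
            (X x, Y i x)))) ≤
          ent P (fun x => ((X x, fun i : ι => if i ∈ s then some (Y i x) else (none : Option β)),
            (X x, Y i x))) :=
        ent_comp_le P ((hX.prodMk (hZm s)).prodMk (hX.prodMk (hY i))) _
      have h3 : ((fun p : (α × (ι → Option β)) × (α × β) =>
          (p.1.1, Function.update p.1.2 i (some p.2.2))) ∘
          (fun x => ((X x, fun i : ι => if i ∈ s then some (Y i x) else (none : Option β)),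
            (X x, Y i x)))) = (fun x => (X x, fun j : ι =>
            if j ∈ insert i s then some (Y j x) else (none : Option β))) := by
        funext x
        refine Prod.ext rfl ?_
        funext j
        show Function.update (fun i : ι => if i ∈ s then some (Y i x) else (none : Option β)) i
          (some (Y i x)) j = if j ∈ insert i s then some (Y j x) else (none : Option β)
        by_cases hj : j = i
        · subst hj
          rw [Function.update_self, if_pos (Finset.mem_insert_self _ _)]
        · rw [Function.update_of_ne hj]
          by_cases hjs : j ∈ s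
          · rw [if_pos hjs, if_pos (Finset.mem_insert_of_mem hjs)]
          · rw [if_neg hjs, if_neg (fun h => (Finset.mem_insert.1 h).elim hj hjs)]
      rw [h3] at h2
      rw [Finset.sum_insert hi]
      linarith
  have h1 : ent P ((fun p : α × (ι → Option β) => (p.1, fun i => (p.2 i).getD (Y i x0))) ∘
      (fun x => (X x, fun i : ι => if i ∈ (Finset.univ : Finset ι) then some (Y i x)
        else (none : Option β)))) ≤ ent P (fun x => (X x, fun i : ι =>
        if i ∈ (Finset.univ : Finset ι) then some (Y i x) else (none : Option β))) :=
    ent_comp_le P (hX.prodMk (hZm _)) _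
  have h2 : ((fun p : α × (ι → Option β) => (p.1, fun i => (p.2 i).getD (Y i x0))) ∘
      (fun x => (X x, fun i : ι => if i ∈ (Finset.univ : Finset ι) then some (Y i x)
        else (none : Option β)))) = (fun x => (X x, fun i => Y i x)) := by
    funext x
    refine Prod.ext rfl ?_
    funext i
    show (if i ∈ (Finset.univ : Finset ι) then some (Y i x) else (none : Option β)).getD
      (Y i x0) = Y i x
    rw [if_pos (Finset.mem_univ i)]
    rfl
  rw [h2] at h1
  exact h1.trans (key Finset.univ)

/-- subadditivity for families -/
theorem ent_pi_le (P : Measure E) [IsProbabilityMeasure P] {ι : Type*} [Fintype ι]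
    [DecidableEq ι] {Y : ι → E → β} (hY : ∀ i, Measurable (Y i)) :
    ent P (fun x => fun i => Y i x) ≤ ∑ i, ent P (Y i) := by
  have hX : Measurable (fun _ : E => ()) := measurable_const
  have hYm : Measurable (fun x => fun i => Y i x) := measurable_pi_lambda _ hY
  have h1 := ent_star_le P hX hY
  have h2 : ent P ((Prod.snd : Unit × (ι → β) → (ι → β)) ∘ (fun x => ((), fun i => Y i x))) ≤
      ent P (fun x => ((), fun i => Y i x)) := ent_comp_le P (hX.prodMk hYm) _
  have h3 : ((Prod.snd : Unit × (ι → β) → (ι → β)) ∘ (fun x => ((), fun i => Y i x))) =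
      (fun x => fun i => Y i x) := rfl
  rw [h3] at h2
  have h4 : ent P (fun _ : E => ()) = 0 := ent_const P ()
  rw [h4, zero_add] at h1
  refine h2.trans (h1.trans ?_)
  refine Finset.sum_le_sum fun i _ => ?_
  have := MI_nonneg P hX (hY i)
  linarith

end Pool.Agent.Helper23.GR
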