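import Pool.Agent.Helper23.GR.Defs
import Pool.Agent.Helper23.GR.St.E4

open MeasureTheory Real Finset

namespace Pool.Agent.Helper23.GR

open Pool.Agent.Helper42.Ent Pool.Agent.Helper70.C4

variable {E : Type*} [MeasurableSpace E] {α β γ : Type*}
  [Fintype α] [MeasurableSpace α] [MeasurableSingletonClass α]
  [Fintype β] [MeasurableSpace β] [MeasurableSingletonClass β]
  [Fintype γ] [MeasurableSpace γ] [MeasurableSingletonClass γ]

/-- GR-E5. A variable `Z` and a family `p` cut into disjoint pairs. -/
theorem match_le (P : Measure E) [IsProbabilityMeasure P] {ι κ : Type*} [Fintype ι]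
    [DecidableEq ι] [Fintype κ] [DecidableEq κ] (e : κ × Bool ≃ ι) {Z : E → β} (hZ : Measurable Z)
    {p : ι → E → α} (hp : ∀ i, Measurable (p i)) :
    ∑ k, MI P Z (fun x => (p (e (k, false)) x, p (e (k, true)) x)) ≤
      ent P Z + ∑ i, ent P (p i) - ent P (fun x => fun i => p i x) := by
  have hY : ∀ k, Measurable (fun x => (p (e (k, false)) x, p (e (k, true)) x)) := fun k =>
    (hp _).prodMk (hp _)
  have h1 := ent_star_le P (X := Z)
    (Y := fun k x => (p (e (k, false)) x, p (e (k, true)) x)) hZ hY
  have hm : Measurable (fun x => (Z x, fun k => (p (e (k, false)) x, p (e (k, true)) x))) :=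
    hZ.prodMk (measurable_pi_lambda _ hY)
  let f : β × (κ → α × α) → (ι → α) := fun z i =>
    if (e.symm i).2 then (z.2 (e.symm i).1).2 else (z.2 (e.symm i).1).1
  have h2 := ent_comp_le P hm f
  have h3 : f ∘ (fun x => (Z x, fun k => (p (e (k, false)) x, p (e (k, true)) x))) =
      (fun x => fun i => p i x) := by
    funext x i
    simp only [f, Function.comp_apply]
    obtain ⟨⟨k, b⟩, rfl⟩ := e.surjective i
    rw [Equiv.symm_apply_apply]
    cases b <;> simp
  rw [h3] at h2
  have h4 : ∀ k, ent P (fun x => (p (e (k, false)) x, p (e (k, true)) x)) ≤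
      ent P (p (e (k, false))) + ent P (p (e (k, true))) := fun k => ent_pair_le P (hp _) (hp _)
  have h5 : ∑ i, ent P (p i) = ∑ k, (ent P (p (e (k, false))) + ent P (p (e (k, true)))) := by
    rw [← Equiv.sum_comp e (fun i => ent P (p i)), Fintype.sum_prod_type]
    apply sum_congr rfl
    intro k _
    rw [Fintype.sum_bool, add_comm]
  have h6 : ∑ k, ent P (fun x => (p (e (k, false)) x, p (e (k, true)) x)) ≤
      ∑ k, (ent P (p (e (k, false))) + ent P (p (e (k, true)))) := sum_le_sum fun k _ => h4 k
  rw [sum_sub_distrib] at h1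
  rw [h5]
  linarith

end Pool.Agent.Helper23.GR
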