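import Pool.Agent.Helper23.GR.Defs

open MeasureTheory Real Finset

namespace Pool.Agent.Helper23.GR

open Pool.Agent.Helper42.Ent Pool.Agent.Helper70.C4

namespace GRW1aux

theorem take_mem_W {m j : ℕ} {a : List (Fin 3)} (ha : a ∈ W m) (hj : j ≤ m) : a.take j ∈ W j := by
  rw [mem_W] at ha ⊢
  refine ⟨by rw [List.length_take, ha.1]; omega, ?_⟩
  exact ha.2.take j

theorem card_two (i : Fin 3) : (Finset.univ.filter (fun x : Fin 3 => i ≠ x)).card = 2 := by
  revert i
  decide

open Classical in
theorem card_ext {j : ℕ} {u : List (Fin 3)} (hu : u ∈ W j) (hj : 1 ≤ j) (k : ℕ) :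
    ((W (j + k)).filter (fun a => a.take j = u)).card = 2 ^ k := by
  induction k with
  | zero =>
    have h : (W (j + 0)).filter (fun a => a.take j = u) = {u} := by
      ext a
      simp only [Finset.mem_filter, Finset.mem_singleton, add_zero]
      constructor
      · rintro ⟨h1, h2⟩
        rw [mem_W] at h1
        rw [List.take_of_length_le (by omega)] at h2
        exact h2
      · rintro rfl
        refine ⟨hu, ?_⟩
        rw [mem_W] at hu
        exact List.take_of_length_le (by omega)
    rw [h]
    simp
  | succ k ih =>
    have hmaps : ∀ a ∈ (W (j + (k + 1))).filter (fun a => a.take j = u),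
        a.take (j + k) ∈ (W (j + k)).filter (fun a => a.take j = u) := by
      intro a ha
      rw [Finset.mem_filter] at ha ⊢
      refine ⟨take_mem_W ha.1 (by omega), ?_⟩
      rw [List.take_take, min_eq_left (by omega)]
      exact ha.2
    rw [Finset.card_eq_sum_card_fiberwise hmaps]
    rw [Finset.sum_congr rfl (g := fun _ => 2), Finset.sum_const, ih, smul_eq_mul, pow_succ]
    intro b hb
    rw [Finset.mem_filter, mem_W] at hb
    obtain ⟨⟨hb1, hb2⟩, hb3⟩ := hb
    have hne : b ≠ [] := by
      rintro rfl
      simp at hb1
      omega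
    have himg : ((W (j + (k + 1))).filter (fun a => a.take j = u)).filter
        (fun a => a.take (j + k) = b) =
        (Finset.univ.filter (fun x : Fin 3 => b.getLast hne ≠ x)).image (fun x => b ++ [x]) := by
      ext a
      simp only [Finset.mem_filter, Finset.mem_image, mem_W, Finset.mem_univ, true_and]
      constructor
      · rintro ⟨⟨⟨h1, h2⟩, h3⟩, h4⟩
        have hlen : (a.drop (j + k)).length = 1 := by
          rw [List.length_drop, h1]; omega
        obtain ⟨x, hx⟩ := List.length_eq_one_iff.1 hlen
        have hab : a = b ++ [x] := by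
          rw [← h4, ← hx, List.take_append_drop]
        refine ⟨x, ?_, hab.symm⟩
        rw [hab] at h2
        have h5 := (List.isChain_append.1 h2).2.2
        exact h5 _ (by rw [List.getLast?_eq_getLast_of_ne_nil hne]; rfl) x (by simp)
      · rintro ⟨x, hx, rfl⟩
        refine ⟨⟨⟨by simp [hb1]; omega, ?_⟩, ?_⟩, ?_⟩
        · refine List.isChain_append.2 ⟨hb2, by simp, ?_⟩
          intro y hy z hz
          rw [List.getLast?_eq_getLast_of_ne_nil hne] at hy
          simp at hy hz
          subst hy
          subst hz
          exact hx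
        · rw [List.take_append_of_le_length (by omega)]
          exact hb3
        · rw [List.take_append_of_le_length (by omega)]
          exact List.take_of_length_le (by omega)
    rw [himg, Finset.card_image_of_injective _ (fun x y h => by simpa using h)]
    exact card_two _

theorem card_W_one : (W 1).card = 3 := by
  classical
  have h : W 1 = (Finset.univ : Finset (Fin 3)).image (fun x => [x]) := by
    ext a
    rw [mem_W]
    simp only [Finset.mem_image, Finset.mem_univ, true_and]
    constructor
    · rintro ⟨h1, _⟩
      obtain ⟨x, hx⟩ := List.length_eq_one_iff.1 h1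
      exact ⟨x, hx.symm⟩
    · rintro ⟨x, rfl⟩
      exact ⟨rfl, by simp⟩
  rw [h, Finset.card_image_of_injective _ (fun x y h => by simpa using h)]
  simp

end GRW1aux

open GRW1aux in
/-- GR-W1. The number of nonbacktracking words. -/
theorem card_W (n : ℕ) : (W (n + 1)).card = 3 * 2 ^ n := by
  classical
  have hmaps : ∀ a ∈ W (n + 1), a.take 1 ∈ W 1 := fun a ha => take_mem_W ha (by omega)
  rw [Finset.card_eq_sum_card_fiberwise hmaps]
  rw [Finset.sum_congr rfl (g := fun _ => 2 ^ n), Finset.sum_const, card_W_one, smul_eq_mul]
  intro u hu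
  have h := card_ext hu le_rfl n
  rwa [add_comm 1 n] at h

open Classical in
/-- words with a given prefix -/
theorem card_take_eq {m j : ℕ} {u : List (Fin 3)} (hu : u ∈ W j) (hj : 1 ≤ j) (hjm : j ≤ m) :
    ((W m).filter (fun a => a.take j = u)).card = 2 ^ (m - j) := by
  obtain ⟨k, rfl⟩ := Nat.exists_eq_add_of_le hjm
  rw [Nat.add_sub_cancel_left]
  exact GRW1aux.card_ext hu hj k

open Classical in
/-- words whose last letters are determined by the first ones -/
theorem card_det_le {m j : ℕ} (hj : j ≤ m) (P : List (Fin 3) → Prop)
    (φ : List (Fin 3) → List (Fin 3)) :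
    ((W m).filter (fun a => P (a.take (m - j)) ∧ a.reverse.take j = φ (a.take (m - j)))).card ≤
      ((W (m - j)).filter P).card := by
  refine Finset.card_le_card_of_injOn (fun a => a.take (m - j)) ?_ ?_
  · intro a ha
    rw [Finset.mem_coe, Finset.mem_filter] at ha ⊢
    exact ⟨GRW1aux.take_mem_W ha.1 (Nat.sub_le m j), ha.2.1⟩
  · intro a ha b hb hab
    rw [Finset.mem_coe, Finset.mem_filter, mem_W] at ha hb
    obtain ⟨⟨ha1, _⟩, _, ha3⟩ := ha
    obtain ⟨⟨hb1, _⟩, _, hb3⟩ := hb
    have hab' : a.take (m - j) = b.take (m - j) := hab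
    have key : ∀ c : List (Fin 3), c.length = m → c.reverse.take j = (c.drop (m - j)).reverse := by
      intro c hc
      rw [List.take_reverse, hc]
    rw [key a ha1] at ha3
    rw [key b hb1] at hb3
    have h1 : a.drop (m - j) = b.drop (m - j) := by
      apply List.reverse_injective
      rw [ha3, hb3, hab']
    rw [← List.take_append_drop (m - j) a, ← List.take_append_drop (m - j) b, hab', h1]

end Pool.Agent.Helper23.GR
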