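import Pool.Agent.Helper23.GR.Defs
import Pool.Agent.Helper23.GR.St.W1

open MeasureTheory Real Finset

namespace Pool.Agent.Helper23.GR

open Pool.Agent.Helper42.Ent Pool.Agent.Helper70.C4

namespace GRW2aux

open Classical in
theorem card_pref_le {k p : ℕ} (hp : 0 < p) (hpk : 2 * p ≤ k) {u : List (Fin 3)} (hu : u ∈ W p) :
    ((W k).filter (fun w => w.take p = u)).card ≤ (W (k - p)).card := by
  rw [card_take_eq hu hp (by omega)]
  obtain ⟨n, hn⟩ : ∃ n, k - p = n + 1 := ⟨k - p - 1, by omega⟩
  rw [hn, card_W, pow_succ]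
  omega

open Classical in
theorem card_suf_le {k p : ℕ} (hpk : 2 * p ≤ k) (u : List (Fin 3)) :
    ((W k).filter (fun w => w.reverse.take p = u)).card ≤ (W (k - p)).card := by
  obtain ⟨P, hP⟩ : ∃ P : List (Fin 3) → Prop, ∀ v, P v := ⟨fun _ => True, fun _ => trivial⟩
  have h := card_det_le (m := k) (j := p) (by omega) P (fun _ => u)
  refine le_trans ?_ (h.trans (Finset.card_filter_le _ _))
  apply Finset.card_le_card
  intro w hw
  rw [Finset.mem_filter] at hw ⊢
  exact ⟨hw.1, hP _, hw.2⟩

open Classical in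
theorem card_self_le {k p : ℕ} (hpk : 2 * p ≤ k) :
    ((W k).filter (fun w => w.take p = w.reverse.take p)).card ≤ (W (k - p)).card := by
  obtain ⟨P, hP⟩ : ∃ P : List (Fin 3) → Prop, ∀ v, P v := ⟨fun _ => True, fun _ => trivial⟩
  have h := card_det_le (m := k) (j := p) (by omega) P (fun v => v.take p)
  refine le_trans ?_ (h.trans (Finset.card_filter_le _ _))
  apply Finset.card_le_card
  intro w hw
  rw [Finset.mem_filter] at hw ⊢
  refine ⟨hw.1, hP _, ?_⟩
  rw [List.take_take, min_eq_left (by omega)]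
  exact hw.2.symm

theorem reverse_mem {k : ℕ} {w : List (Fin 3)} (hw : w ∈ W k) : w.reverse ∈ W k := by
  rw [mem_W] at hw ⊢
  refine ⟨by rw [List.length_reverse]; exact hw.1, ?_⟩
  rw [NB, List.isChain_reverse]
  exact hw.2.imp (fun a b h => Ne.symm h)

theorem sg_mem {k : ℕ} {w : List (Fin 3)} (hw : w ∈ W k) (b : Bool) : sg w b ∈ W k := by
  unfold sg
  split
  · exact reverse_mem hw
  · exact hw

open Classical in
/-- words in conflict with the family -/
noncomputable def bad (k p n : ℕ) (a : Fin n → List (Fin 3)) : Finset (List (Fin 3)) :=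
  ((W k).filter (fun w => w.take p = w.reverse.take p)) ∪
    (Finset.univ : Finset (Fin n × Bool × Bool)).biUnion (fun x =>
      (W k).filter (fun w => (sg w x.2.2).take p = (sg (a x.1) x.2.1).take p))

theorem bad_subset (k p n : ℕ) (a : Fin n → List (Fin 3)) : bad k p n a ⊆ W k := by
  classical
  unfold bad
  apply Finset.union_subset (Finset.filter_subset _ _)
  rw [Finset.biUnion_subset]
  intro x _
  exact Finset.filter_subset _ _

theorem card_bad_le {k p n : ℕ} {a : Fin n → List (Fin 3)} (h : Sep p k a) :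
    (bad k p n a).card ≤ (4 * n + 1) * (W (k - p)).card := by
  classical
  unfold bad
  refine (Finset.card_union_le _ _).trans ?_
  have h1 := card_self_le h.le
  have h2 : ((Finset.univ : Finset (Fin n × Bool × Bool)).biUnion (fun x =>
      (W k).filter (fun w => (sg w x.2.2).take p = (sg (a x.1) x.2.1).take p))).card ≤
      (Finset.univ : Finset (Fin n × Bool × Bool)).card * (W (k - p)).card := by
    apply Finset.card_biUnion_le_card_mul
    rintro ⟨i, b', b⟩ _
    have hp := h.pos
    have hle := h.le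
    have hu : (sg (a i) b').take p ∈ W p := GRW1aux.take_mem_W (sg_mem (h.mem i) b') (by omega)
    cases b with
    | false =>
      exact card_pref_le hp hle hu
    | true =>
      exact card_suf_le hle _
  have h3 : (Finset.univ : Finset (Fin n × Bool × Bool)).card = n * 4 := by
    simp [Finset.card_univ, Fintype.card_prod]
  rw [h3] at h2
  calc _ ≤ (W (k - p)).card + n * 4 * (W (k - p)).card := Nat.add_le_add h1 h2
    _ = (4 * n + 1) * (W (k - p)).card := by ring

theorem sep_cons {k p n : ℕ} {a : Fin n → List (Fin 3)} (h : Sep p k a) {w : List (Fin 3)}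
    (hw : w ∈ W k) (hnb : w ∉ bad k p n a) :
    Sep p k (Fin.cons w a : Fin (n + 1) → List (Fin 3)) := by
  classical
  unfold bad at hnb
  rw [Finset.mem_union, not_or] at hnb
  obtain ⟨h1, h2⟩ := hnb
  have h1' : w.take p ≠ w.reverse.take p := by
    intro h3
    exact h1 (Finset.mem_filter.2 ⟨hw, h3⟩)
  have h2' : ∀ i b b', (sg w b).take p ≠ (sg (a i) b').take p := by
    intro i b b' h3
    apply h2
    rw [Finset.mem_biUnion]
    exact ⟨(i, b', b), Finset.mem_univ _, Finset.mem_filter.2 ⟨hw, h3⟩⟩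
  refine ⟨h.pos, h.le, ?_, ?_⟩
  · intro i
    refine Fin.cases ?_ ?_ i
    · exact hw
    · intro j
      exact h.mem j
  · rintro ⟨i, b⟩ ⟨j, b'⟩ hij
    have hij' : (sg ((Fin.cons w a : Fin (n + 1) → List (Fin 3)) i) b).take p =
        (sg ((Fin.cons w a : Fin (n + 1) → List (Fin 3)) j) b').take p := hij
    clear hij
    revert hij'
    refine Fin.cases ?_ ?_ i
    · refine Fin.cases ?_ ?_ j
      · intro hij
        simp only [Fin.cons_zero] at hij
        cases b <;> cases b' <;> first | rfl | (exfalso; simp only [sg] at hij; first | exact h1' hij | exact h1' hij.symm)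
      · intro j hij
        simp only [Fin.cons_zero, Fin.cons_succ] at hij
        exact absurd hij (h2' _ _ _)
    · intro i
      refine Fin.cases ?_ ?_ j
      · intro hij
        simp only [Fin.cons_zero, Fin.cons_succ] at hij
        exact absurd hij.symm (h2' _ _ _)
      · intro j hij
        simp only [Fin.cons_succ] at hij
        have h3 := h.inj (a₁ := (i, b)) (a₂ := (j, b')) hij
        rw [Prod.mk.injEq] at h3
        rw [h3.1, h3.2]

theorem card_W_split {k p : ℕ} (hp : 0 < p) (hpk : 2 * p ≤ k) :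
    (W k).card = 2 ^ p * (W (k - p)).card := by
  obtain ⟨n, hn⟩ : ∃ n, k - p = n + 1 := ⟨k - p - 1, by omega⟩
  have hk : k = (p + n) + 1 := by omega
  rw [hn, card_W, hk, card_W, pow_add]
  ring

theorem greedy {k p N : ℕ} (hp : 0 < p) (hpk : 2 * p ≤ k) (hN : 4 * N < 2 ^ p) (B τ : ℝ)
    (F : List (Fin 3) → ℝ) (hB : 0 ≤ B) (hFB : ∀ w ∈ W k, F w ≤ B) (hτ : 0 < τ)
    (hτ2 : ((W k).card : ℝ) * τ + 4 * N * (W (k - p)).card * B ≤ ∑ w ∈ W k, F w) :
    ∀ n, n ≤ N → ∃ a : Fin n → List (Fin 3), Sep p k a ∧ (n : ℝ) * τ ≤ ∑ i, F (a i) := by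
  classical
  intro n
  induction n with
  | zero =>
    intro _
    refine ⟨fun i => i.elim0, ⟨hp, hpk, fun i => i.elim0, ?_⟩, by simp⟩
    rintro ⟨i, _⟩
    exact i.elim0
  | succ n ih =>
    intro hn
    obtain ⟨a, ha, hs⟩ := ih (by omega)
    have hcb : (bad k p n a).card ≤ (4 * n + 1) * (W (k - p)).card := card_bad_le ha
    have hM : 0 < (W (k - p)).card := by
      obtain ⟨m, hm⟩ : ∃ m, k - p = m + 1 := ⟨k - p - 1, by omega⟩
      rw [hm, card_W]
      positivity
    have hlt : (bad k p n a).card < (W k).card := by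
      rw [card_W_split hp hpk]
      refine lt_of_le_of_lt hcb ?_
      apply Nat.mul_lt_mul_of_pos_right _ hM
      omega
    obtain ⟨w, hw, hwb, hFw⟩ : ∃ w ∈ W k, w ∉ bad k p n a ∧ τ ≤ F w := by
      by_contra hcon
      push Not at hcon
      have hsub := bad_subset k p n a
      rw [← Finset.sum_sdiff hsub] at hτ2
      have h1 : ∑ x ∈ bad k p n a, F x ≤ 4 * N * (W (k - p)).card * B := by
        calc ∑ x ∈ bad k p n a, F x ≤ ∑ x ∈ bad k p n a, B :=
              Finset.sum_le_sum (fun x hx => hFB x (hsub hx))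
          _ = (bad k p n a).card * B := by rw [Finset.sum_const, nsmul_eq_mul]
          _ ≤ 4 * N * (W (k - p)).card * B := by
            apply mul_le_mul_of_nonneg_right _ hB
            have h2 : (bad k p n a).card ≤ 4 * N * (W (k - p)).card :=
              hcb.trans (Nat.mul_le_mul_right _ (by omega))
            exact_mod_cast h2
      have hne : (W k \ bad k p n a).Nonempty := by
        rw [← Finset.card_pos, Finset.card_sdiff_of_subset hsub]
        omega
      have h3 : ∑ x ∈ W k \ bad k p n a, F x < ((W k).card : ℝ) * τ := by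
        calc ∑ x ∈ W k \ bad k p n a, F x < ∑ x ∈ W k \ bad k p n a, τ := by
              apply Finset.sum_lt_sum_of_nonempty hne
              intro x hx
              rw [Finset.mem_sdiff] at hx
              exact hcon x hx.1 hx.2
          _ = ((W k \ bad k p n a).card : ℝ) * τ := by rw [Finset.sum_const, nsmul_eq_mul]
          _ ≤ ((W k).card : ℝ) * τ := by
            apply mul_le_mul_of_nonneg_right _ hτ.le
            exact_mod_cast Finset.card_le_card Finset.sdiff_subset
      linarith
    refine ⟨Fin.cons w a, sep_cons ha hw hwb, ?_⟩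
    rw [Fin.sum_univ_succ]
    simp only [Fin.cons_zero, Fin.cons_succ]
    push_cast
    linarith

end GRW2aux

open GRW2aux in
/-- GR-W2. Averages over all words from sums over separated families. -/
theorem comb_avg (k : ℕ) (hk : 2 ≤ k) (B : ℝ) (F : List (Fin 3) → ℝ) (hF0 : ∀ w ∈ W k, 0 ≤ F w)
    (hFB : ∀ w ∈ W k, F w ≤ B)
    (hS : ∀ (N p : ℕ) (a : Fin N → List (Fin 3)), Sep p k a → ∑ i, F (a i) ≤ B) :
    ∑ w ∈ W k, F w ≤ 3 / 2 ^ (k / 8) * (W k).card * B := by
  have hWpos : 0 < (W k).card := by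
    obtain ⟨m, hm⟩ : ∃ m, k = m + 1 := ⟨k - 1, by omega⟩
    rw [hm, card_W]
    positivity
  have hB : 0 ≤ B := by
    obtain ⟨w, hw⟩ := Finset.card_pos.1 hWpos
    exact (hF0 w hw).trans (hFB w hw)
  have hWr : (0 : ℝ) < (W k).card := by exact_mod_cast hWpos
  have htriv : ∑ w ∈ W k, F w ≤ (W k).card * B := by
    calc ∑ w ∈ W k, F w ≤ ∑ w ∈ W k, B := Finset.sum_le_sum hFB
      _ = (W k).card * B := by rw [Finset.sum_const, nsmul_eq_mul]
  rcases Nat.lt_or_ge k 16 with hk16 | hk16
  · have h1 : k / 8 ≤ 1 := by omega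
    have h2 : (1 : ℝ) ≤ 3 / 2 ^ (k / 8) := by
      rw [le_div_iff₀ (by positivity), one_mul]
      calc (2 : ℝ) ^ (k / 8) ≤ 2 ^ 1 := pow_le_pow_right₀ (by norm_num) h1
        _ ≤ 3 := by norm_num
    calc ∑ w ∈ W k, F w ≤ (W k).card * B := htriv
      _ = 1 * ((W k).card * B) := by ring
      _ ≤ 3 / 2 ^ (k / 8) * ((W k).card * B) := mul_le_mul_of_nonneg_right h2 (by positivity)
      _ = 3 / 2 ^ (k / 8) * (W k).card * B := by ring
  · set p := k / 2 with hp
    set N := 2 ^ (k / 8) with hN
    have hp0 : 0 < p := by omega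
    have hpk : 2 * p ≤ k := by omega
    have hN4 : 4 ≤ N := by
      calc 4 = 2 ^ 2 := by norm_num
        _ ≤ 2 ^ (k / 8) := Nat.pow_le_pow_right (by norm_num) (by omega)
    have hNp : N ^ 4 ≤ 2 ^ p := by
      rw [hN, ← pow_mul]
      exact Nat.pow_le_pow_right (by norm_num) (by omega)
    have hN2 : 16 * (N * N) ≤ 2 ^ p := by
      refine le_trans ?_ hNp
      have : N ^ 4 = (N * N) * (N * N) := by ring
      rw [this]
      exact Nat.mul_le_mul_right _ (Nat.mul_le_mul hN4 hN4)
    have hN1 : 4 * N < 2 ^ p := by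
      refine lt_of_lt_of_le ?_ hN2
      have h5 : N ≤ N * N := Nat.le_mul_of_pos_left N (by omega)
      omega
    have hNr : (0 : ℝ) < N := by
      have : 0 < N := by omega
      exact_mod_cast this
    have hpr : (0 : ℝ) < (2 : ℝ) ^ p := by positivity
    have hsplit : ((W k).card : ℝ) = 2 ^ p * (W (k - p)).card := by
      have := card_W_split hp0 hpk
      rw [this]
      push_cast
      ring
    have hc : 4 * (N : ℝ) / 2 ^ p ≤ 2 / N := by
      rw [div_le_div_iff₀ hpr hNr]
      have h5 : 4 * (N * N) ≤ 2 * 2 ^ p := by omega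
      have h6 : (4 : ℝ) * (N * N) ≤ 2 * 2 ^ p := by exact_mod_cast h5
      linarith
    have hpow : ((2 : ℝ) ^ (k / 8)) = (N : ℝ) := by
      rw [hN]
      push_cast
      ring
    rw [hpow]
    set avg := (∑ w ∈ W k, F w) / (W k).card with havg
    have hsum : ∑ w ∈ W k, F w = avg * (W k).card := by
      rw [havg, div_mul_cancel₀ _ hWr.ne']
    have key : avg ≤ 3 / N * B := by
      rcases le_or_gt (avg - 4 * N / 2 ^ p * B) 0 with hτ | hτ
      · have h7 : 4 * (N : ℝ) / 2 ^ p * B ≤ 2 / N * B := mul_le_mul_of_nonneg_right hc hB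
        have h8 : 2 / (N : ℝ) * B ≤ 3 / N * B := by
          apply mul_le_mul_of_nonneg_right _ hB
          apply div_le_div_of_nonneg_right _ hNr.le
          norm_num
        linarith
      · obtain ⟨a, ha, hs⟩ := greedy hp0 hpk hN1 B _ F hB hFB hτ (by
          rw [hsum, hsplit]
          have : (2 : ℝ) ^ p * (W (k - p)).card * (avg - 4 * N / 2 ^ p * B) +
              4 * N * (W (k - p)).card * B = avg * (2 ^ p * (W (k - p)).card) := by
            have h12 : (2 : ℝ) ^ p * (4 * N / 2 ^ p) = 4 * N := mul_div_cancel₀ _ hpr.ne'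
            linear_combination (-((W (k - p)).card : ℝ) * B) * h12
          exact this.le) N le_rfl
        have h9 := hs.trans (hS N p a ha)
        have h10 : avg - 4 * N / 2 ^ p * B ≤ 1 / N * B := by
          rw [one_div, inv_mul_eq_div, le_div_iff₀ hNr]
          linarith
        have h7 : 4 * (N : ℝ) / 2 ^ p * B ≤ 2 / N * B := mul_le_mul_of_nonneg_right hc hB
        have h11 : 3 / (N : ℝ) * B = 1 / N * B + 2 / N * B := by ring
        linarith
    rw [hsum]
    calc avg * (W k).card ≤ 3 / N * B * (W k).card := mul_le_mul_of_nonneg_right key hWr.le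
      _ = 3 / N * (W k).card * B := by ring

end Pool.Agent.Helper23.GR
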