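import Pool.Agent.Helper23.GR.Defs
import Pool.Agent.Helper23.GR.St.W2
import Pool.Agent.Helper23.GR.St.E4
import Pool.Agent.Helper23.GR.St.E5
import Pool.Agent.Helper23.GR.St.R1

open MeasureTheory Real Finset

namespace Pool.Agent.Helper23.GR

open Pool.Agent.Helper42.Ent Pool.Agent.Helper70.C4

variable {Ω : Type} [MeasurableSpace Ω] {α β : Type} [Fintype α] [MeasurableSpace α]
  [MeasurableSingletonClass α] [Fintype β] [MeasurableSpace β] [MeasurableSingletonClass β]

/-- GR-S1. Consequences of the forward star inequality. -/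
theorem MI_sum_le (S : Sys Ω) {ι : Type} [Fintype ι] [DecidableEq ι] {p m : ℕ}
    {a : ι → List (Fin 3)} (ha : Sep p m a) {ψ : Ω → α} (hψ : Measurable ψ) :
    ∑ i, MI S.μ ψ (fun x => ψ (run S.T (a i) x)) ≤ ent S.μ ψ := by
  have hY : ∀ i, Measurable (fun x => ψ (run S.T (a i) x)) := fun i =>
    hψ.comp (mp_run S (a i)).measurable
  have h1 := S.fs ι α p m a ha ψ hψ
  have h2 := ent_star_le S.μ (X := ψ) (Y := fun i x => ψ (run S.T (a i) x)) hψ hY
  rw [sum_sub_distrib] at h2
  have h3 : ∑ i, ent S.μ (fun x => ψ (run S.T (a i) x)) = (Fintype.card ι : ℝ) * ent S.μ ψ := by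
    rw [sum_congr rfl fun i _ => ent_run S (a i) hψ, sum_const, card_univ, nsmul_eq_mul]
  rw [h3] at h2
  linarith

theorem matching (S : Sys Ω) {ι κ : Type} [Fintype ι] [DecidableEq ι] [Fintype κ]
    [DecidableEq κ] (e : κ × Bool ≃ ι) {p m : ℕ} {a : ι → List (Fin 3)} (ha : Sep p m a)
    {q : Ω → α} (hq : Measurable q) {Z : Ω → β} (hZ : Measurable Z) :
    ∑ k, MI S.μ Z (fun x => (q (run S.T (a (e (k, false))) x), q (run S.T (a (e (k, true))) x))) ≤
      ent S.μ q + ent S.μ Z := by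
  have hY : ∀ i, Measurable (fun x => q (run S.T (a i) x)) := fun i =>
    hq.comp (mp_run S (a i)).measurable
  have h1 := S.fs ι α p m a ha q hq
  have h2 := match_le S.μ e hZ (p := fun i x => q (run S.T (a i) x)) hY
  have h3 : ∑ i, ent S.μ (fun x => q (run S.T (a i) x)) = (Fintype.card ι : ℝ) * ent S.μ q := by
    rw [sum_congr rfl fun i _ => ent_run S (a i) hq, sum_const, card_univ, nsmul_eq_mul]
  have h4 := ent_pair_le S.μ hq (measurable_pi_lambda (fun x => fun i => q (run S.T (a i) x)) hY)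
  rw [h3] at h2
  linarith

/-- averages over all words -/
theorem avg_MI (S : Sys Ω) {k : ℕ} (hk : 2 ≤ k) {ψ : Ω → α} (hψ : Measurable ψ) :
    ∑ w ∈ W k, MI S.μ ψ (fun x => ψ (run S.T w x)) ≤
      3 / 2 ^ (k / 8) * (W k).card * ent S.μ ψ := by
  refine comb_avg k hk (ent S.μ ψ) (fun w => MI S.μ ψ (fun x => ψ (run S.T w x))) ?_ ?_ ?_
  · intro w _
    exact MI_nonneg S.μ hψ (hψ.comp (mp_run S w).measurable)
  · intro w _
    exact MI_le_left S.μ hψ (hψ.comp (mp_run S w).measurable)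
  · intro N p a ha
    exact MI_sum_le S ha hψ

end Pool.Agent.Helper23.GR
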