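import Pool.Agent.Helper23.GR.Defs
import Pool.Agent.Helper23.GR.St.W1

open MeasureTheory Real Finset

namespace Pool.Agent.Helper23.GR

open Pool.Agent.Helper42.Ent Pool.Agent.Helper70.C4

namespace GRW4aux

/-- letter `j` of the `i`-th word -/
def g (N i j : ℕ) : Fin 3 :=
  if j = i ∨ j + (N + i) = 4 * N + 3 then 2 else if j % 2 = 0 then 0 else 1

theorem g_ne {N i : ℕ} (j : ℕ) (hi : i < N) : g N i j ≠ g N i (j + 1) := by
  unfold g
  split_ifs with h1 h2 h2 <;> first | decide | (exfalso; omega)

theorem g_two {N i : ℕ} (j : ℕ) : g N i j = 2 ↔ (j = i ∨ j + (N + i) = 4 * N + 3) := by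
  unfold g
  split_ifs with h1 h2
  · simp [h1]
  · simp only [h1, iff_false]; decide
  · simp only [h1, iff_false]; decide

/-- the `i`-th word -/
def wd (N i : ℕ) : List (Fin 3) := (List.range (4 * N + 4)).map (g N i)

theorem wd_length (N i : ℕ) : (wd N i).length = 4 * N + 4 := by
  simp [wd]

theorem wd_get {N i j : ℕ} (h : j < (wd N i).length) : (wd N i)[j] = g N i j := by
  simp [wd]

theorem wd_mem {N i : ℕ} (hi : i < N) : wd N i ∈ W (4 * N + 4) := by
  rw [mem_W]
  refine ⟨wd_length N i, ?_⟩
  unfold NB
  rw [List.isChain_iff_getElem]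
  intro j hj
  rw [wd_get, wd_get]
  exact g_ne j hi

theorem sg_get {N i j : ℕ} (b : Bool) (hi : i < N) (hj : j < 2 * N + 1)
    (h : j < (sg (wd N i) b).length) :
    (sg (wd N i) b)[j] = 2 ↔ j = (if b then N + i else i) := by
  cases b
  · simp only [sg, Bool.false_eq_true, if_false]
    rw [wd_get, g_two]
    omega
  · simp only [sg, if_true]
    rw [List.getElem_reverse, wd_get, g_two, wd_length]
    omega

theorem inj {N i i' : ℕ} {b b' : Bool} (hi : i < N) (hi' : i' < N)
    (h : (sg (wd N i) b).take (2 * N + 1) = (sg (wd N i') b').take (2 * N + 1)) :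
    i = i' ∧ b = b' := by
  have hl : ∀ (i : ℕ) (b : Bool), (sg (wd N i) b).length = 4 * N + 4 := by
    intro i b
    cases b <;> simp [sg, wd_length]
  have key : (if b then N + i else i) = (if b' then N + i' else i') := by
    have hk : (if b then N + i else i) < 2 * N + 1 := by split_ifs <;> omega
    have h1 : (if b then N + i else i) < (sg (wd N i) b).length := by rw [hl]; omega
    have h2 : (if b then N + i else i) < (sg (wd N i') b').length := by rw [hl]; omega
    rw [← sg_get b' hi' hk h2]
    have h3 : (sg (wd N i) b)[(if b then N + i else i)] = 2 := (sg_get b hi hk h1).2 rfl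
    have h4 : ((sg (wd N i) b).take (2 * N + 1))[(if b then N + i else i)]? =
      ((sg (wd N i') b').take (2 * N + 1))[(if b then N + i else i)]? := by rw [h]
    rw [List.getElem?_take_of_lt hk, List.getElem?_take_of_lt hk,
      List.getElem?_eq_getElem h1, List.getElem?_eq_getElem h2] at h4
    rw [← Option.some_injective _ h4]
    exact h3
  cases b <;> cases b' <;> simp only [Bool.false_eq_true, if_true, if_false] at key
  · exact ⟨key, rfl⟩
  · omega
  · omega
  · exact ⟨by omega, rfl⟩

end GRW4aux

/-- GR-W4. Two separated words of even length. -/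
theorem sep_two : Sep 2 6 (fun b : Fin 2 =>
    if b = 0 then ([0, 1, 0, 1, 2, 0] : List (Fin 3)) else [1, 0, 1, 0, 2, 1]) where
  pos := by norm_num
  le := by norm_num
  mem := by
    intro i
    rw [mem_W]
    unfold NB
    revert i
    decide
  inj := by
    intro x y
    revert x y
    decide

/-- Separated families of any size exist. -/
theorem sep_exists (N : ℕ) : ∃ (p m : ℕ) (a : Fin N → List (Fin 3)), Sep p m a := by
  refine ⟨2 * N + 1, 4 * N + 4, fun i => GRW4aux.wd N i, by omega, by omega, ?_, ?_⟩
  · intro i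
    exact GRW4aux.wd_mem i.2
  · rintro ⟨i, b⟩ ⟨i', b'⟩ h
    obtain ⟨h1, h2⟩ := GRW4aux.inj i.2 i'.2 h
    exact Prod.ext (Fin.ext h1) h2

end Pool.Agent.Helper23.GR
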