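import Pool.Agent.Helper23.GR.Defs
import Pool.Agent.Helper23.GR.St.S1
import Pool.Agent.Helper23.GR.St.W4
import Pool.Agent.Helper23.GR.St.E2
import Pool.Agent.Helper23.GR.St.R1

open MeasureTheory Real Finset

namespace Pool.Agent.Helper23.GR

open Pool.Agent.Helper42.Ent Pool.Agent.Helper70.C4

namespace GRA1aux

/-- a homomorphism moves at most `length` along a word -/
theorem edist_run {Ω : Type} [MeasurableSpace Ω] {S : Sys Ω} {V : Type} {H : SimpleGraph V}
    {f : Ω → V} (hf : IsHom S H f) (w : List (Fin 3)) (x : Ω) :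
    H.edist (f x) (f (run S.T w x)) ≤ w.length := by
  induction w generalizing x with
  | nil => simp [run]
  | cons i w ih =>
    rw [run]
    refine (SimpleGraph.edist_triangle (v := f (S.T i x))).trans ?_
    have h1 : H.edist (f x) (f (S.T i x)) ≤ 1 := by
      have h2 := SimpleGraph.edist_eq_one_iff_adj.2 (hf.adj i x)
      exact le_of_eq h2
    calc H.edist (f x) (f (S.T i x)) + H.edist (f (S.T i x)) (f (run S.T w (S.T i x)))
        ≤ 1 + (w.length : ℕ∞) := add_le_add h1 (ih _)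
      _ = ((i :: w).length : ℕ∞) := by
        rw [List.length_cons]
        push_cast
        rw [add_comm]

theorem meas_pre {Ω : Type} [MeasurableSpace Ω] {S : Sys Ω} {V : Type} [Finite V]
    {H : SimpleGraph V} {f : Ω → V} (hf : IsHom S H f) (A : Set V) : MeasurableSet (f ⁻¹' A) := by
  have h1 : f ⁻¹' A = ⋃ v ∈ A, f ⁻¹' {v} := by
    ext x
    simp
  rw [h1]
  exact MeasurableSet.biUnion (Set.toFinite A).countable fun v _ => hf.meas v

end GRA1aux

/-- GR-A1. If the colour is often in `S0` then it is almost always close to `S0`. -/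
theorem caseA (θ : ℝ) (hθ : 0 < θ) : ∃ ℓ : ℕ, ∀ {Ω : Type} [MeasurableSpace Ω] (S : Sys Ω)
    {V : Type} [Finite V] {H : SimpleGraph V} {f : Ω → V}, IsHom S H f → ∀ S0 : Finset V,
    θ ≤ S.μ.real {x | f x ∈ S0} →
    S.μ.real {x | ¬ ∃ s ∈ S0, H.edist s (f x) ≤ ℓ} ≤ 1 / 700 := by
  classical
  obtain ⟨N, hN⟩ := exists_nat_ge (2800 / θ)
  obtain ⟨p, m, a, ha⟩ := sep_exists N
  refine ⟨m, ?_⟩
  intro Ω _ S V _ H f hf S0 hS0
  set Wx : Set Ω := {x | ¬ ∃ s ∈ S0, H.edist s (f x) ≤ m} with hWx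
  have hWm : MeasurableSet Wx := by
    have h1 : Wx = f ⁻¹' {v | ¬ ∃ s ∈ S0, H.edist s v ≤ m} := rfl
    rw [h1]
    exact GRA1aux.meas_pre hf _
  have hSm : MeasurableSet {x | f x ∈ S0} := GRA1aux.meas_pre hf {v | v ∈ S0}
  let ψ : Ω → Bool × Bool := fun x => (decide (x ∈ Wx), decide (f x ∈ S0))
  have hψ : Measurable ψ := by
    refine Measurable.prodMk ?_ ?_
    · exact measurable_to_bool (by
        have h1 : (fun x => decide (x ∈ Wx)) ⁻¹' {true} = Wx := by
          ext x
          simp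
        rw [h1]
        exact hWm)
    · exact measurable_to_bool (by
        have h1 : (fun x => decide (f x ∈ S0)) ⁻¹' {true} = {x | f x ∈ S0} := by
          ext x
          simp
        rw [h1]
        exact hSm)
  have hMI : ∀ i, S.μ.real Wx * S.μ.real {x | f x ∈ S0} / 2 ≤
      MI S.μ ψ (fun x => ψ (run S.T (a i) x)) := by
    intro i
    have h1 := lin_zero S.μ (X := ψ) (Y := fun x => ψ (run S.T (a i) x)) hψ
      (hψ.comp (mp_run S (a i)).measurable) {b | b.1 = true} {b | b.2 = true} ?_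
    · have h2 : {x | ψ x ∈ {b : Bool × Bool | b.1 = true}} = Wx := by
        ext x
        simp [ψ]
      have h3 : {x | ψ (run S.T (a i) x) ∈ {b : Bool × Bool | b.2 = true}} =
          run S.T (a i) ⁻¹' {x | f x ∈ S0} := by
        ext x
        simp [ψ]
      rw [h2, h3] at h1
      have h4 : S.μ.real (run S.T (a i) ⁻¹' {x | f x ∈ S0}) = S.μ.real {x | f x ∈ S0} := by
        rw [measureReal_def, (mp_run S (a i)).measure_preimage hSm.nullMeasurableSet,
          measureReal_def]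
      rw [h4] at h1
      exact h1
    · rintro x ⟨hx1, hx2⟩
      have hx1' : x ∈ Wx := by simpa [ψ] using hx1
      have hx2' : f (run S.T (a i) x) ∈ S0 := by simpa [ψ] using hx2
      apply hx1'
      refine ⟨_, hx2', ?_⟩
      rw [SimpleGraph.edist_comm]
      refine (GRA1aux.edist_run hf (a i) x).trans ?_
      rw [(mem_W.1 (ha.mem i)).1]
  have hsum := MI_sum_le S ha hψ
  have hent := ent_le_log_card S.μ hψ
  have hcard : Fintype.card (Bool × Bool) = 4 := rfl
  rw [hcard] at hent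
  have hlog : Real.log ((4 : ℕ) : ℝ) ≤ 14 / 10 := by
    have h1 : ((4 : ℕ) : ℝ) = 2 ^ 2 := by norm_num
    rw [h1, Real.log_pow]
    have := Real.log_two_lt_d9
    push_cast
    linarith
  have hlow : (N : ℝ) * (S.μ.real Wx * S.μ.real {x | f x ∈ S0} / 2) ≤ 14 / 10 := by
    have h1 : ∑ i : Fin N, (S.μ.real Wx * S.μ.real {x | f x ∈ S0} / 2) ≤
        ∑ i, MI S.μ ψ (fun x => ψ (run S.T (a i) x)) := Finset.sum_le_sum fun i _ => hMI i
    rw [Finset.sum_const, Finset.card_univ, Fintype.card_fin, nsmul_eq_mul] at h1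
    exact h1.trans (hsum.trans (hent.trans hlog))
  have hW0 : 0 ≤ S.μ.real Wx := measureReal_nonneg
  have hNθ : 2800 ≤ (N : ℝ) * θ := by
    rw [div_le_iff₀ hθ] at hN
    exact hN
  have h5 : (N : ℝ) * (S.μ.real Wx * θ / 2) ≤ (N : ℝ) * (S.μ.real Wx * S.μ.real {x | f x ∈ S0} / 2) := by
    gcongr
  have h6 : 2800 * S.μ.real Wx ≤ (N : ℝ) * θ * S.μ.real Wx :=
    mul_le_mul_of_nonneg_right hNθ hW0
  nlinarith

end Pool.Agent.Helper23.GR
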