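import Pool.Agent.Helper23.GR.Defs

open MeasureTheory Real Finset

namespace Pool.Agent.Helper23.GR

open Pool.Agent.Helper42.Ent Pool.Agent.Helper70.C4

namespace GRE8aux

theorem ent_bool_eq {E : Type*} [MeasurableSpace E] (P : Measure E) [IsProbabilityMeasure P]
    {b : E → Bool} (hb : Measurable b) :
    ent P b = binEntropy (P.real {x | b x = true}) := by
  have h1 : pr P b true = P.real {x | b x = true} := rfl
  have h2 := sum_pr P hb
  rw [Fintype.sum_bool] at h2
  unfold ent
  rw [Fintype.sum_bool, binEntropy_eq_negMulLog_add_negMulLog_one_sub, ← h1]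
  congr 2
  linarith

theorem log_le_five : Real.log 100 ≤ 5 := by
  rw [Real.log_le_iff_le_exp (by norm_num)]
  have h1 : (2.7 : ℝ) ≤ Real.exp 1 := by
    have := Real.exp_one_gt_d9
    linarith
  have h2 : Real.exp 5 = Real.exp 1 ^ 5 := by
    rw [← Real.exp_nat_mul]; norm_num
  rw [h2]
  calc (100 : ℝ) ≤ (2.7 : ℝ) ^ 5 := by norm_num
    _ ≤ Real.exp 1 ^ 5 := by gcongr

theorem bin_small : binEntropy (1 / 100 : ℝ) ≤ 1 / 10 := by
  have h1 := log_le_five
  have h2 : Real.log (100 / 99 : ℝ) ≤ 100 / 99 - 1 := Real.log_le_sub_one_of_pos (by norm_num)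
  have h3 : (1 / 100 : ℝ)⁻¹ = 100 := by norm_num
  have h4 : (1 - 1 / 100 : ℝ)⁻¹ = 100 / 99 := by norm_num
  unfold binEntropy
  rw [h3, h4]
  linarith

theorem bin_large : 1 / 2 ≤ binEntropy (2 / 5 : ℝ) := by
  have h0 := Real.log_two_gt_d9
  have h1 : 1 - (5 / 4 : ℝ)⁻¹ ≤ Real.log (5 / 4 : ℝ) :=
    Real.one_sub_inv_le_log_of_pos (by norm_num)
  have h2 : 1 - (5 / 3 : ℝ)⁻¹ ≤ Real.log (5 / 3 : ℝ) :=
    Real.one_sub_inv_le_log_of_pos (by norm_num)
  have h3 : (2 / 5 : ℝ)⁻¹ = 2 * (5 / 4) := by norm_num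
  have h4 : (1 - 2 / 5 : ℝ)⁻¹ = 5 / 3 := by norm_num
  unfold binEntropy
  rw [h3, h4, Real.log_mul (by norm_num) (by norm_num)]
  norm_num at h1 h2
  linarith

end GRE8aux

/-- GR-E8. Numerical facts about the binary entropy. If `b` is true with probability at most
`1/100` then its entropy is at most `1/10`; if `b` is true with probability between `2/5` and `3/5`
then its entropy is at least `1/2`. -/
theorem ent_bool_le {E : Type*} [MeasurableSpace E] (P : Measure E) [IsProbabilityMeasure P]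
    {b : E → Bool} (hb : Measurable b) (h : P.real {x | b x = true} ≤ 1 / 100) :
    ent P b ≤ 1 / 10 := by
  rw [GRE8aux.ent_bool_eq P hb]
  refine le_trans ?_ GRE8aux.bin_small
  exact binEntropy_strictMonoOn.monotoneOn
    ⟨measureReal_nonneg, by norm_num; linarith⟩ ⟨by norm_num, by norm_num⟩ h

theorem ent_bool_ge {E : Type*} [MeasurableSpace E] (P : Measure E) [IsProbabilityMeasure P]
    {b : E → Bool} (hb : Measurable b) (h : 2 / 5 ≤ P.real {x | b x = true})
    (h' : P.real {x | b x = true} ≤ 3 / 5) : 1 / 2 ≤ ent P b := by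
  rw [GRE8aux.ent_bool_eq P hb]
  refine GRE8aux.bin_large.trans ?_
  rcases le_total (P.real {x | b x = true}) (1 / 2) with hc | hc
  · exact binEntropy_strictMonoOn.monotoneOn
      ⟨by norm_num, by norm_num⟩ ⟨by linarith, by norm_num; linarith⟩ h
  · rw [← binEntropy_one_sub (P.real {x | b x = true})]
    exact binEntropy_strictMonoOn.monotoneOn
      ⟨by norm_num, by norm_num⟩ ⟨by linarith, by norm_num; linarith⟩ (by linarith)

end Pool.Agent.Helper23.GR
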