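import Pool.Agent.Helper23.GR.Defs
import Pool.Agent.Helper23.GR.St.S1
import Pool.Agent.Helper23.GR.St.W4
import Pool.Agent.Helper23.GR.St.E8
import Pool.Agent.Helper23.GR.St.R1

open MeasureTheory Real Finset

namespace Pool.Agent.Helper23.GR

open Pool.Agent.Helper42.Ent Pool.Agent.Helper70.C4

namespace GRB1aux

variable {Ω : Type} [MeasurableSpace Ω] {V : Type}

open Classical in
/-- a boolean colouring of the vertices of `F` -/
noncomputable def col {H : SimpleGraph V} {F : Set V} (C : (H.induce F).Coloring (Fin 2)) (v : V) :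
    Bool := if h : v ∈ F then decide (C ⟨v, h⟩ = 0) else false

theorem col_ne {H : SimpleGraph V} {F : Set V} (C : (H.induce F).Coloring (Fin 2)) {v w : V}
    (hv : v ∈ F) (hw : w ∈ F) (h : H.Adj v w) : col C w = ! col C v := by
  have h1 : C ⟨v, hv⟩ ≠ C ⟨w, hw⟩ := C.valid (by simpa using h)
  unfold col
  rw [dif_pos hv, dif_pos hw]
  generalize C ⟨v, hv⟩ = a at h1
  generalize C ⟨w, hw⟩ = b at h1
  revert h1
  revert a b
  decide

theorem meas_set [Finite V] {f : Ω → V} (hf : ∀ v, MeasurableSet (f ⁻¹' {v})) (A : Set V) :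
    MeasurableSet {x | f x ∈ A} := by
  have h1 : {x | f x ∈ A} = ⋃ v ∈ A, f ⁻¹' {v} := by
    ext x
    simp
  rw [h1]
  exact MeasurableSet.biUnion (Set.to_countable A) fun v _ => hf v

theorem flips (S : Sys Ω) {H : SimpleGraph V} {f : Ω → V} (hadj : ∀ i x, H.Adj (f x) (f (S.T i x)))
    {F : Set V} (C : (H.induce F).Coloring (Fin 2)) :
    ∀ (w : List (Fin 3)) (x : Ω), (∀ j, f (run S.T (w.take j) x) ∈ F) →
      col C (f (run S.T w x)) = xor (col C (f x)) (Nat.bodd w.length) := by
  intro w
  induction w with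
  | nil =>
    intro x _
    simp [run]
  | cons i l ih =>
    intro x hx
    have h0 : f x ∈ F := by
      have := hx 0
      simpa [run] using this
    have h1 : f (S.T i x) ∈ F := by
      have := hx 1
      simpa [run] using this
    have h2 := ih (S.T i x) (by
      intro j
      have := hx (j + 1)
      simpa [run] using this)
    have h3 : run S.T (i :: l) x = run S.T l (S.T i x) := rfl
    rw [h3, h2, col_ne C h0 h1 (hadj i x), List.length_cons, Nat.bodd_succ]
    generalize col C (f x) = a
    generalize Nat.bodd l.length = b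
    revert a b
    decide

theorem real_preimage (S : Sys Ω) {A : Set Ω} (hA : MeasurableSet A) (w : List (Fin 3)) :
    S.μ.real {x | run S.T w x ∈ A} = S.μ.real A := by
  have := (mp_run S w).measure_preimage hA.nullMeasurableSet
  unfold Measure.real
  rw [← this]
  rfl

theorem prob_ne [Finite V] (S : Sys Ω) {H : SimpleGraph V} {f : Ω → V} (hf : IsHom S H f)
    {F : Set V} (C : (H.induce F).Coloring (Fin 2)) (hP : S.μ.real {x | f x ∉ F} ≤ 1 / 700)
    (w : List (Fin 3)) (hw : w.length = 6) :
    S.μ.real {x | decide (col C (f x) ≠ col C (f (run S.T w x))) = true} ≤ 1 / 100 := by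
  have hZ : MeasurableSet {x | f x ∉ F} := meas_set hf.meas Fᶜ
  have hsub : {x | decide (col C (f x) ≠ col C (f (run S.T w x))) = true} ⊆
      ⋃ j ∈ Finset.range 7, {x | run S.T (w.take j) x ∈ {x | f x ∉ F}} := by
    intro x hx
    by_contra hcon
    simp only [Set.mem_iUnion, not_exists, Finset.mem_range] at hcon
    have hall : ∀ j, f (run S.T (w.take j) x) ∈ F := by
      intro j
      rcases lt_or_ge j 7 with h | h
      · by_contra h'
        exact hcon j h h'
      · have h6 : w.take j = w.take 6 := by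
          rw [List.take_of_length_le (by omega), List.take_of_length_le (by omega)]
        rw [h6]
        by_contra h'
        exact hcon 6 (by norm_num) h'
    have h1 := flips S hf.adj C w x hall
    rw [hw] at h1
    have h2 : (Nat.bodd 6) = false := rfl
    rw [h2, Bool.xor_false] at h1
    rw [Set.mem_setOf_eq, decide_eq_true_eq] at hx
    exact hx h1.symm
  calc S.μ.real {x | decide (col C (f x) ≠ col C (f (run S.T w x))) = true}
      ≤ S.μ.real (⋃ j ∈ Finset.range 7, {x | run S.T (w.take j) x ∈ {x | f x ∉ F}}) :=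
        measureReal_mono hsub (measure_ne_top _ _)
    _ ≤ ∑ j ∈ Finset.range 7, S.μ.real {x | run S.T (w.take j) x ∈ {x | f x ∉ F}} :=
        measureReal_biUnion_finset_le _ _
    _ = ∑ _j ∈ Finset.range 7, S.μ.real {x | f x ∉ F} :=
        Finset.sum_congr rfl fun j _ => real_preimage S hZ _
    _ = 7 * S.μ.real {x | f x ∉ F} := by
        rw [Finset.sum_const, Finset.card_range, nsmul_eq_mul]
        norm_num
    _ ≤ 1 / 100 := by linarith

theorem balance [Finite V] (S : Sys Ω) {H : SimpleGraph V} {f : Ω → V} (hf : IsHom S H f)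
    {F : Set V} (C : (H.induce F).Coloring (Fin 2)) (hP : S.μ.real {x | f x ∉ F} ≤ 1 / 700)
    (t : Bool) : S.μ.real {x | col C (f x) = t} ≤ S.μ.real {x | col C (f x) = !t} + 2 / 700 := by
  have hZ : MeasurableSet {x | f x ∉ F} := meas_set hf.meas Fᶜ
  have hB : MeasurableSet {x | col C (f x) = t} := meas_set hf.meas {v | col C v = t}
  have h1 : S.μ.real {x | run S.T [0] x ∈ {x | col C (f x) = t}} =
      S.μ.real {x | col C (f x) = t} := real_preimage S hB [0]
  have h2 : S.μ.real {x | run S.T [0] x ∈ {x | f x ∉ F}} = S.μ.real {x | f x ∉ F} :=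
    real_preimage S hZ [0]
  have hsub : {x | run S.T [0] x ∈ {x | col C (f x) = t}} ⊆
      {x | col C (f x) = !t} ∪ ({x | f x ∉ F} ∪ {x | run S.T [0] x ∈ {x | f x ∉ F}}) := by
    intro x hx
    by_cases hx1 : f x ∈ F
    · by_cases hx2 : f (S.T 0 x) ∈ F
      · left
        have h3 := col_ne C hx1 hx2 (hf.adj 0 x)
        have h4 : col C (f (S.T 0 x)) = t := hx
        rw [h4] at h3
        show col C (f x) = !t
        rw [h3, Bool.not_not]
      · right; right
        exact hx2
    · right; left
      exact hx1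
  rw [← h1]
  calc S.μ.real {x | run S.T [0] x ∈ {x | col C (f x) = t}}
      ≤ S.μ.real ({x | col C (f x) = !t} ∪
          ({x | f x ∉ F} ∪ {x | run S.T [0] x ∈ {x | f x ∉ F}})) :=
        measureReal_mono hsub (measure_ne_top _ _)
    _ ≤ S.μ.real {x | col C (f x) = !t} +
          S.μ.real ({x | f x ∉ F} ∪ {x | run S.T [0] x ∈ {x | f x ∉ F}}) :=
        measureReal_union_le _ _
    _ ≤ S.μ.real {x | col C (f x) = !t} + (S.μ.real {x | f x ∉ F} +
          S.μ.real {x | run S.T [0] x ∈ {x | f x ∉ F}}) := by
        gcongr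
        exact measureReal_union_le _ _
    _ ≤ S.μ.real {x | col C (f x) = !t} + 2 / 700 := by
        rw [h2]
        linarith

theorem mi_ge (S : Sys Ω) {b : Ω → Bool} (hb : Measurable b) (w : List (Fin 3))
    (h : S.μ.real {x | decide (b x ≠ b (run S.T w x)) = true} ≤ 1 / 100) :
    ent S.μ b - 1 / 10 ≤ MI S.μ b (fun x => b (run S.T w x)) := by
  have hb' : Measurable (fun x => b (run S.T w x)) := hb.comp (mp_run S w).measurable
  have hc : Measurable (fun x => decide (b x ≠ b (run S.T w x))) :=
    (measurable_of_countable (fun p : Bool × Bool => decide (p.1 ≠ p.2))).comp (hb.prodMk hb')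
  have h1 : ent S.μ (fun x => b (run S.T w x)) = ent S.μ b := ent_run S w hb
  have h2 := ent_bool_le S.μ hc h
  have h3 : ent S.μ (fun x => (b x, b (run S.T w x))) ≤
      ent S.μ (fun x => (b x, decide (b x ≠ b (run S.T w x)))) := by
    have h4 := ent_comp_le S.μ (X := fun x => (b x, decide (b x ≠ b (run S.T w x))))
      (hb.prodMk hc) (fun p : Bool × Bool => (p.1, xor p.1 p.2))
    have h5 : (fun p : Bool × Bool => (p.1, xor p.1 p.2)) ∘
        (fun x => (b x, decide (b x ≠ b (run S.T w x)))) = fun x => (b x, b (run S.T w x)) := by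
      funext x
      show (b x, xor (b x) (decide (b x ≠ b (run S.T w x)))) = (b x, b (run S.T w x))
      generalize b x = s
      generalize b (run S.T w x) = t
      revert s t
      decide
    rw [h5] at h4
    exact h4
  have h6 := ent_pair_le S.μ hb hc
  unfold MI
  rw [h1]
  linarith

end GRB1aux

/-- GR-B1. The colours cannot almost always lie in a set inducing a bipartite subgraph. -/
theorem cut {Ω : Type} [MeasurableSpace Ω] (S : Sys Ω) {V : Type} [Finite V] {H : SimpleGraph V}
    {f : Ω → V} (hf : IsHom S H f) (F : Set V) (hcol : (H.induce F).Colorable 2)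
    (hP : S.μ.real {x | f x ∉ F} ≤ 1 / 700) : False := by
  obtain ⟨C⟩ := hcol
  have hmt : Measurable (fun x => GRB1aux.col C (f x)) := by
    apply measurable_to_bool
    exact GRB1aux.meas_set hf.meas {v | GRB1aux.col C v = true}
  have hB : MeasurableSet {x | GRB1aux.col C (f x) = true} :=
    GRB1aux.meas_set hf.meas {v | GRB1aux.col C v = true}
  have hsum : S.μ.real {x | GRB1aux.col C (f x) = true} +
      S.μ.real {x | GRB1aux.col C (f x) = false} = 1 := by
    have h1 := probReal_compl_eq_one_sub (μ := S.μ) hB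
    have h2 : {x | GRB1aux.col C (f x) = true}ᶜ = {x | GRB1aux.col C (f x) = false} := by
      ext x
      simp
    rw [h2] at h1
    linarith
  have h1 := GRB1aux.balance S hf C hP true
  have h2 := GRB1aux.balance S hf C hP false
  rw [Bool.not_true] at h1
  rw [Bool.not_false] at h2
  have hge : 1 / 2 ≤ ent S.μ (fun x => GRB1aux.col C (f x)) := by
    apply ent_bool_ge S.μ hmt
    · linarith
    · linarith
  have hmi := MI_sum_le S sep_two hmt
  rw [Fin.sum_univ_two] at hmi
  have g0 := GRB1aux.mi_ge S hmt ([0, 1, 0, 1, 2, 0] : List (Fin 3))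
    (GRB1aux.prob_ne S hf C hP _ rfl)
  have g1 := GRB1aux.mi_ge S hmt ([1, 0, 1, 0, 2, 1] : List (Fin 3))
    (GRB1aux.prob_ne S hf C hP _ rfl)
  simp only [if_true, Fin.isValue, one_ne_zero, if_false] at hmi
  linarith

end Pool.Agent.Helper23.GR
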