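import Pool.Agent.Helper23.GR.Defs

open MeasureTheory Real Finset

namespace Pool.Agent.Helper23.GR

open Pool.Agent.Helper42.Ent Pool.Agent.Helper70.C4

namespace GRF0aux

theorem bypass_parity {V : Type*} [DecidableEq V] {H : SimpleGraph V} {u v : V} (p : H.Walk u v)
    (hp : (p.length : ℕ∞) < H.egirth) : p.length % 2 = p.bypass.length % 2 := by
  induction p with
  | nil => simp [SimpleGraph.Walk.bypass]
  | @cons u x v h p' ih =>
    have hlt : (p'.length : ℕ∞) < H.egirth := by
      refine lt_of_le_of_lt ?_ hp
      rw [SimpleGraph.Walk.length_cons]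
      exact_mod_cast Nat.le_succ _
    have ih' := ih hlt
    rw [SimpleGraph.Walk.bypass]
    split_ifs with hs
    · have hpath := p'.bypass_isPath
      have hsum : (p'.bypass.takeUntil u hs).length + (p'.bypass.dropUntil u hs).length =
          p'.bypass.length := by
        rw [← SimpleGraph.Walk.length_append, SimpleGraph.Walk.take_spec]
      have h1 : (p'.bypass.takeUntil u hs).length = 1 := by
        by_contra hne
        have hq : (SimpleGraph.Walk.cons h.symm SimpleGraph.Walk.nil : H.Walk x u).IsPath := by
          simp [h.ne.symm]
        have hne' : p'.bypass.takeUntil u hs ≠ SimpleGraph.Walk.cons h.symm SimpleGraph.Walk.nil := by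
          intro he
          apply hne
          rw [he]
          rfl
        obtain ⟨w, -, -, c, hc, hcl⟩ :=
          (hpath.takeUntil hs).exists_isCycle_length_le_add_of_ne hq hne'
        have h2 : H.egirth ≤ c.length := SimpleGraph.egirth_le_length hc
        have h3 : c.length ≤ (SimpleGraph.Walk.cons h p').length := by
          refine hcl.trans ?_
          have h4 : (SimpleGraph.Walk.cons h.symm SimpleGraph.Walk.nil : H.Walk x u).length = 1 := rfl
          have h5 := p'.length_bypass_le_length
          rw [h4, SimpleGraph.Walk.length_cons]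
          omega
        have h6 : H.egirth ≤ ((SimpleGraph.Walk.cons h p').length : ℕ∞) :=
          h2.trans (by exact_mod_cast h3)
        exact absurd h6 (not_le.mpr hp)
      rw [SimpleGraph.Walk.length_cons]
      omega
    · rw [SimpleGraph.Walk.length_cons, SimpleGraph.Walk.length_cons]
      omega

end GRF0aux

/-- GR-F0. A closed walk of odd length contains a cycle that is not longer. -/
theorem egirth_le_of_odd {V : Type*} {H : SimpleGraph V} {v : V} (c : H.Walk v v)
    (hc : Odd c.length) : H.egirth ≤ c.length := by
  classical
  by_contra hlt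
  push Not at hlt
  have h1 := GRF0aux.bypass_parity c hlt
  have h2 : c.bypass = SimpleGraph.Walk.nil := by
    exact SimpleGraph.Walk.eq_nil_iff_nil.mpr (SimpleGraph.Walk.isPath_iff_nil.mp c.bypass_isPath)
  rw [h2, SimpleGraph.Walk.length_nil] at h1
  obtain ⟨k, hk⟩ := hc
  omega

end Pool.Agent.Helper23.GR
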