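import Pool.Agent.Helper23.GR.Defs
import Pool.Agent.Helper23.GR.St.F0

open MeasureTheory Real Finset

namespace Pool.Agent.Helper23.GR

open Pool.Agent.Helper42.Ent Pool.Agent.Helper70.C4

namespace GRF1aux

/-- auxiliary graph on centres with a parity -/
def AG {V : Type} (H : SimpleGraph V) (S : Finset V) (r : ℕ) :
    SimpleGraph ({s // s ∈ S} × ZMod 2) where
  Adj x y := x ≠ y ∧ ∃ w : H.Walk x.1.1 y.1.1, w.length ≤ 2 * r + 1 ∧
    ((w.length : ℕ) : ZMod 2) = y.2 - x.2
  symm := ⟨by
    rintro x y ⟨hne, w, hw, hp⟩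
    refine ⟨hne.symm, w.reverse, by rw [SimpleGraph.Walk.length_reverse]; exact hw, ?_⟩
    rw [SimpleGraph.Walk.length_reverse, hp]
    generalize y.2 = b
    generalize x.2 = a
    revert a b
    decide⟩
  loopless := ⟨fun x h => h.1 rfl⟩

theorem lift_walk {V : Type} (H : SimpleGraph V) (S : Finset V) (r : ℕ)
    {x y : {s // s ∈ S} × ZMod 2} (p : (AG H S r).Walk x y) :
    ∃ w : H.Walk x.1.1 y.1.1, w.length ≤ (2 * r + 1) * p.length ∧
      ((w.length : ℕ) : ZMod 2) = y.2 - x.2 := by
  induction p with
  | nil => exact ⟨SimpleGraph.Walk.nil, by simp, by simp⟩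
  | cons h p ih =>
    obtain ⟨w, hw, hp⟩ := ih
    obtain ⟨_, w', hw', hp'⟩ := h
    refine ⟨w'.append w, ?_, ?_⟩
    · rw [SimpleGraph.Walk.length_append, SimpleGraph.Walk.length_cons]
      calc w'.length + w.length ≤ (2 * r + 1) + (2 * r + 1) * p.length := Nat.add_le_add hw' hw
        _ = (2 * r + 1) * (p.length + 1) := by ring
    · rw [SimpleGraph.Walk.length_append, Nat.cast_add, hp, hp']
      ring

theorem push_walk {V : Type} (H : SimpleGraph V) (S : Finset V) (r : ℕ) (B : Set V)
    (c : B → {s // s ∈ S}) (q : ∀ v : B, H.Walk (c v).1 v.1) (hq : ∀ v, (q v).length ≤ r)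
    {u v : B} (p : (H.induce B).Walk u v) : ∀ a : ZMod 2,
    (AG H S r).Reachable (c u, a) (c v, a + ((q u).length : ZMod 2) + (p.length : ZMod 2) +
      ((q v).length : ZMod 2)) := by
  induction p with
  | nil =>
    intro a
    rename_i w
    have h : a + ((q w).length : ZMod 2) + ((0 : ℕ) : ZMod 2) + ((q w).length : ZMod 2) = a := by
      generalize (((q w).length : ℕ) : ZMod 2) = b
      revert a b
      decide
    rw [SimpleGraph.Walk.length_nil, h]
  | cons h p ih =>
    intro a
    rename_i u' v' w'
    have hadj : H.Adj u'.1 v'.1 := h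
    let W : H.Walk (c u').1 (c v').1 := ((q u').concat hadj).append (q v').reverse
    have hWl : W.length = (q u').length + 1 + (q v').length := by
      show (((q u').concat hadj).append (q v').reverse).length = _
      rw [SimpleGraph.Walk.length_append, SimpleGraph.Walk.length_concat,
        SimpleGraph.Walk.length_reverse]
    have hstep : (AG H S r).Reachable (c u', a) (c v', a + ((q u').length : ZMod 2) + 1 +
        ((q v').length : ZMod 2)) := by
      by_cases heq : ((c u', a) : {s // s ∈ S} × ZMod 2) =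
          (c v', a + ((q u').length : ZMod 2) + 1 + ((q v').length : ZMod 2))
      · rw [← heq]
      · apply SimpleGraph.Adj.reachable
        refine ⟨heq, W, ?_, ?_⟩
        · rw [hWl]
          have h1 := hq u'
          have h2 := hq v'
          omega
        · rw [hWl]
          push_cast
          ring
    have h2 := ih (a + ((q u').length : ZMod 2) + 1 + ((q v').length : ZMod 2))
    have h3 : a + ((q u').length : ZMod 2) + 1 + ((q v').length : ZMod 2) +
        ((q v').length : ZMod 2) + (p.length : ZMod 2) + ((q w').length : ZMod 2) =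
        a + ((q u').length : ZMod 2) + (((SimpleGraph.Walk.cons h p).length : ℕ) : ZMod 2) +
        ((q w').length : ZMod 2) := by
      rw [SimpleGraph.Walk.length_cons, Nat.cast_add, Nat.cast_one]
      generalize (((q u').length : ℕ) : ZMod 2) = b1
      generalize (((q v').length : ℕ) : ZMod 2) = b2
      generalize (((q w').length : ℕ) : ZMod 2) = b3
      generalize ((p.length : ℕ) : ZMod 2) = b4
      clear ih h2 hstep
      revert a b1 b2 b3 b4
      decide
    rw [h3] at h2
    exact hstep.trans h2

end GRF1aux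

open GRF1aux in
/-- GR-F1. A union of few small balls in a graph of large girth induces a bipartite graph. -/
theorem ball_two_col {V : Type} [Finite V] (H : SimpleGraph V) (S : Finset V) (r : ℕ)
    (hg : ((2 * (2 * r + 1) * S.card : ℕ) : ℕ∞) < H.egirth) :
    (H.induce {v | ∃ s ∈ S, H.edist s v ≤ r}).Colorable 2 := by
  classical
  rw [SimpleGraph.two_colorable_iff_forall_loop_even]
  intro u w
  by_contra hodd
  rw [Nat.not_even_iff_odd] at hodd
  have hex : ∀ v : ({v | ∃ s ∈ S, H.edist s v ≤ r} : Set V), ∃ s : {s // s ∈ S},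
      ∃ q : H.Walk s.1 v.1, q.length ≤ r := by
    rintro ⟨v, s, hs, hsv⟩
    have hne : H.edist s v ≠ ⊤ := ne_top_of_le_ne_top (ENat.natCast_ne_top r) hsv
    obtain ⟨p, hp⟩ := SimpleGraph.exists_walk_of_edist_ne_top hne
    refine ⟨⟨s, hs⟩, p, ?_⟩
    rw [← hp] at hsv
    exact_mod_cast hsv
  choose c q hq using hex
  have hreach := push_walk H S r _ c q hq w 0
  have h1 : (0 : ZMod 2) + ((q u).length : ZMod 2) + (w.length : ZMod 2) +
      ((q u).length : ZMod 2) = 1 := by
    have h2 : ((w.length : ℕ) : ZMod 2) = 1 := by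
      rw [ZMod.natCast_eq_one_iff_odd]
      exact hodd
    rw [h2]
    generalize (((q u).length : ℕ) : ZMod 2) = b
    revert b
    decide
  rw [h1] at hreach
  obtain ⟨p⟩ := hreach
  have hlen := (p.toPath.2).length_lt
  rw [Fintype.card_prod, Fintype.card_coe, ZMod.card] at hlen
  obtain ⟨w', hw', hpar⟩ := lift_walk H S r p.toPath.1
  have hodd' : Odd w'.length := by
    rw [← ZMod.natCast_eq_one_iff_odd, hpar]
    exact sub_zero _
  have h3 := egirth_le_of_odd w' hodd'
  have h4 : w'.length ≤ 2 * (2 * r + 1) * S.card := by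
    refine hw'.trans ?_
    calc (2 * r + 1) * p.toPath.1.length ≤ (2 * r + 1) * (S.card * 2) :=
          Nat.mul_le_mul_left _ hlen.le
      _ = 2 * (2 * r + 1) * S.card := by ring
  have h5 : H.egirth ≤ ((2 * (2 * r + 1) * S.card : ℕ) : ℕ∞) :=
    h3.trans (by exact_mod_cast h4)
  exact absurd hg (not_lt.mpr h5)

end Pool.Agent.Helper23.GR
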