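import Pool.Agent.Helper23.GR.Defs
import Pool.Agent.Helper23.GR.St.A1
import Pool.Agent.Helper23.GR.St.B1
import Pool.Agent.Helper23.GR.St.F1

open MeasureTheory Real Finset

namespace Pool.Agent.Helper23.GR

open Pool.Agent.Helper42.Ent Pool.Agent.Helper70.C4

/-- GR-A2. In large girth the colour is rarely in a given small set. -/
theorem heavy (θ : ℝ) (hθ : 0 < θ) (M : ℕ) : ∃ G : ℕ, ∀ {Ω : Type} [MeasurableSpace Ω]
    (S : Sys Ω) {V : Type} [Finite V] {H : SimpleGraph V} {f : Ω → V}, IsHom S H f →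
    (G : ℕ∞) < H.egirth → ∀ S0 : Finset V, S0.card ≤ M → S.μ.real {x | f x ∈ S0} < θ := by
  obtain ⟨ℓ, hℓ⟩ := caseA θ hθ
  refine ⟨2 * (2 * ℓ + 1) * M, ?_⟩
  intro Ω _ S V _ H f hf hG S0 hS0
  by_contra hcon
  rw [not_lt] at hcon
  have h1 := hℓ S hf S0 hcon
  have h2 : (H.induce {v | ∃ s ∈ S0, H.edist s v ≤ ℓ}).Colorable 2 := by
    apply ball_two_col H S0 ℓ
    refine lt_of_le_of_lt ?_ hG
    exact_mod_cast Nat.mul_le_mul_left _ hS0
  exact cut S hf {v | ∃ s ∈ S0, H.edist s v ≤ ℓ} h2 h1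

end Pool.Agent.Helper23.GR
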