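import Pool.Agent.Helper23.GR.Defs
import Pool.Agent.Helper23.GR.St.B1
import Pool.Agent.Helper23.GR.St.F1

open MeasureTheory Real Finset

namespace Pool.Agent.Helper23.GR

open Pool.Agent.Helper42.Ent Pool.Agent.Helper70.C4

namespace GRC1aux

/-- values of small probability have small total probability -/
theorem small_mass {E : Type*} [MeasurableSpace E] (P : Measure E) [IsProbabilityMeasure P]
    {α : Type*} [Fintype α] [MeasurableSpace α] [MeasurableSingletonClass α]
    (q : E → α) (C : ℝ) (hent : ent P q ≤ C) (T : Finset α)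
    (hT : ∀ z ∈ T, pr P q z < Real.exp (-(3000 * C))) : ∑ z ∈ T, pr P q z ≤ 1 / 3000 := by
  have hnn : ∀ z, 0 ≤ negMulLog (pr P q z) := fun z =>
    negMulLog_nonneg (pr_nonneg P q z) (pr_le_one P q z)
  have hC0 : 0 ≤ C := le_trans (Finset.sum_nonneg fun z _ => hnn z) hent
  have hsum : ∑ z ∈ T, negMulLog (pr P q z) ≤ C :=
    le_trans (Finset.sum_le_univ_sum_of_nonneg hnn) hent
  rcases hC0.eq_or_lt with h0 | hpos
  · -- C = 0
    have hz : ∀ z ∈ T, pr P q z = 0 := by
      intro z hz
      have h1 : negMulLog (pr P q z) = 0 := by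
        have h2 : negMulLog (pr P q z) ≤ ∑ z ∈ T, negMulLog (pr P q z) :=
          Finset.single_le_sum (fun i _ => hnn i) hz
        have h3 := hnn z
        linarith
      have h4 := hT z hz
      rw [← h0] at h4
      simp only [mul_zero, neg_zero, Real.exp_zero] at h4
      by_contra hne
      have h5 : 0 < pr P q z := lt_of_le_of_ne (pr_nonneg P q z) (Ne.symm hne)
      have h6 : Real.log (pr P q z) < 0 := Real.log_neg h5 h4
      have h7 : 0 < negMulLog (pr P q z) := by
        unfold negMulLog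
        nlinarith
      linarith
    rw [Finset.sum_eq_zero hz]
    norm_num
  · have h1 : 3000 * C * ∑ z ∈ T, pr P q z ≤ C := by
      refine le_trans ?_ hsum
      rw [Finset.mul_sum]
      refine Finset.sum_le_sum fun z hz => ?_
      rcases (pr_nonneg P q z).eq_or_lt with h | h
      · rw [← h]; simp
      · have h2 : Real.log (pr P q z) < -(3000 * C) := by
          rw [Real.log_lt_iff_lt_exp h]
          exact hT z hz
        unfold negMulLog
        nlinarith
    have h2 : 0 < 3000 * C := by positivity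
    have h3 : ∑ z ∈ T, pr P q z ≤ C / (3000 * C) := by
      rw [le_div_iff₀ h2]
      linarith
    have h4 : C / (3000 * C) = 1 / 3000 := by field_simp
    rwa [h4] at h3

end GRC1aux

/-- GR-C1. A random vertex of small entropy cannot almost always be close to the colour. -/
theorem lemC {Ω : Type} [MeasurableSpace Ω] (S : Sys Ω) {V : Type} [Fintype V]
    [MeasurableSpace (Option V)] [MeasurableSingletonClass (Option V)] {H : SimpleGraph V}
    {f : Ω → V} (hf : IsHom S H f) (κ : ℕ) {q : Ω → Option V} (hq : Measurable q) (C : ℝ)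
    (hent : ent S.μ q ≤ C) (hbad : S.μ.real {x | ¬ Close H κ (q x) (f x)} ≤ 1 / 3000) (M : ℕ)
    (hM : Real.exp (3000 * C) ≤ M) :
    ¬ ((2 * (2 * κ + 1) * M : ℕ) : ℕ∞) < H.egirth := by
  classical
  intro hg
  set θ : ℝ := Real.exp (-(3000 * C)) with hθ
  have hθ0 : 0 < θ := Real.exp_pos _
  set S0 : Finset V := Finset.univ.filter fun z => θ ≤ pr S.μ q (some z) with hS0
  have hmemS0 : ∀ z, z ∈ S0 ↔ θ ≤ pr S.μ q (some z) := by
    intro z
    simp [hS0]
  -- size of S0
  have hcard : (S0.card : ℝ) ≤ M := by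
    have h1 : (S0.card : ℝ) * θ ≤ 1 := by
      have h2 : ∑ z ∈ S0, pr S.μ q (some z) ≤ 1 := by
        rw [← sum_pr S.μ hq]
        have h3 : ∑ z ∈ S0, pr S.μ q (some z) =
            ∑ o ∈ S0.map Function.Embedding.some, pr S.μ q o := by
          rw [Finset.sum_map]
          rfl
        rw [h3]
        exact Finset.sum_le_univ_sum_of_nonneg fun o => pr_nonneg _ _ _
      have h4 : (S0.card : ℝ) * θ ≤ ∑ z ∈ S0, pr S.μ q (some z) := by
        rw [← nsmul_eq_mul, ← Finset.sum_const]
        exact Finset.sum_le_sum fun z hz => (hmemS0 z).1 hz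
      linarith
    have h5 : (S0.card : ℝ) ≤ 1 / θ := by
      rw [le_div_iff₀ hθ0]
      exact h1
    have h6 : 1 / θ = Real.exp (3000 * C) := by
      rw [hθ, Real.exp_neg, one_div, inv_inv]
    rw [h6] at h5
    linarith
  have hcardN : S0.card ≤ M := by exact_mod_cast hcard
  -- the colouring
  have hcol : (H.induce {v | ∃ s ∈ S0, H.edist s v ≤ κ}).Colorable 2 := by
    apply ball_two_col H S0 κ
    refine lt_of_le_of_lt ?_ hg
    exact_mod_cast Nat.mul_le_mul_left _ hcardN
  -- the probability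
  refine cut S hf _ hcol ?_
  set T : Finset (Option V) := Finset.univ.filter fun o => ∃ z, o = some z ∧ z ∉ S0 with hT
  have hTm : ∑ o ∈ T, pr S.μ q o ≤ 1 / 3000 := by
    apply GRC1aux.small_mass S.μ q C hent
    intro o ho
    obtain ⟨z, rfl, hz⟩ := (Finset.mem_filter.1 ho).2
    rw [hmemS0, not_le] at hz
    exact hz
  have hE2 : S.μ.real (q ⁻¹' (T : Set (Option V))) ≤ 1 / 3000 := by
    have h1 : q ⁻¹' (T : Set (Option V)) = ⋃ o ∈ T, q ⁻¹' {o} := by
      ext x
      simp
    rw [h1]
    refine le_trans (measureReal_biUnion_finset_le T _) ?_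
    exact hTm
  have hsub : {x | f x ∉ {v | ∃ s ∈ S0, H.edist s v ≤ κ}} ⊆
      {x | ¬ Close H κ (q x) (f x)} ∪ q ⁻¹' (T : Set (Option V)) := by
    intro x hx
    by_contra hcon
    rw [Set.mem_union, not_or] at hcon
    obtain ⟨h1, h2⟩ := hcon
    simp only [Set.mem_setOf_eq, not_not] at h1
    obtain ⟨z, hz1, hz2⟩ := h1
    apply hx
    refine ⟨z, ?_, hz2⟩
    by_contra hz3
    apply h2
    simp only [Set.mem_preimage, Finset.mem_coe]
    rw [hT, Finset.mem_filter]
    exact ⟨Finset.mem_univ _, z, hz1, hz3⟩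
  have h1 : S.μ.real {x | f x ∉ {v | ∃ s ∈ S0, H.edist s v ≤ κ}} ≤
      S.μ.real ({x | ¬ Close H κ (q x) (f x)} ∪ q ⁻¹' (T : Set (Option V))) :=
    measureReal_mono hsub (measure_ne_top _ _)
  have h2 := measureReal_union_le (μ := S.μ) {x | ¬ Close H κ (q x) (f x)} (q ⁻¹' (T : Set (Option V)))
  linarith

end Pool.Agent.Helper23.GR
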