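import Pool.Agent.Helper23.GR.Defs

open MeasureTheory Real Finset

namespace Pool.Agent.Helper23.GR

open Pool.Agent.Helper42.Ent Pool.Agent.Helper70.C4

namespace GRD1aux

open Classical in
/-- extend a partial point by `false` -/
noncomputable def ext {A : Type} (D : Finset A) (g : D → Bool) : A → Bool :=
  fun a => if h : a ∈ D then g ⟨a, h⟩ else false

theorem factor {A α : Type} {D : Finset A} {Φ : (A → Bool) → α}
    (hΦ : DepOn (D : Set A) Φ) (ω : A → Bool) : Φ ω = Φ (ext D (fun a => ω a)) := by
  apply hΦ
  intro x hx
  have hx' : x ∈ D := hx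
  simp [ext, hx']

end GRD1aux

/-- GR-D1. Functions of finitely many coin tosses are measurable. -/
theorem measurable_of_depOn {A α : Type} [MeasurableSpace α] {D : Finset A} {Φ : (A → Bool) → α}
    (hΦ : DepOn (D : Set A) Φ) : Measurable Φ := by
  have h1 : Φ = (fun g : D → Bool => Φ (GRD1aux.ext D g)) ∘ (fun ω (a : D) => ω a) := by
    funext ω
    exact GRD1aux.factor hΦ ω
  rw [h1]
  apply Measurable.comp
  · exact measurable_of_finite _
  · fun_prop

theorem bern_map_inj {A B : Type} {κ : A → B} (hκ : Function.Injective κ) :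
    (bern B).map (fun η a => η (κ a)) = bern A := by
  classical
  unfold bern
  apply Measure.eq_infinitePi
  intro s t ht
  rw [Measure.map_apply (by fun_prop) (MeasurableSet.pi s.countable_toSet (fun i _ => ht i))]
  have h1 : (fun (η : B → Bool) a => η (κ a)) ⁻¹' (Set.pi (s : Set A) t) =
      Set.pi ((s.map ⟨κ, hκ⟩ : Finset B) : Set B) (Function.extend κ t (fun _ => Set.univ)) := by
    ext η
    simp only [Set.mem_preimage, Set.mem_pi, Finset.mem_coe, Finset.mem_map,
      Function.Embedding.coeFn_mk, forall_exists_index, and_imp, forall_apply_eq_imp_iff₂]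
    constructor
    · intro h a ha
      rw [hκ.extend_apply]
      exact h a ha
    · intro h a ha
      have := h a ha
      rwa [hκ.extend_apply] at this
  rw [h1, Measure.infinitePi_pi]
  · rw [Finset.prod_map]
    apply Finset.prod_congr rfl
    intro a _
    simp only [Function.Embedding.coeFn_mk]
    rw [hκ.extend_apply]
  · intro i _
    by_cases hi : ∃ a, κ a = i
    · obtain ⟨a, rfl⟩ := hi
      rw [hκ.extend_apply]
      exact ht a
    · rw [Function.extend_apply' _ _ _ hi]
      exact MeasurableSet.univ

theorem law_transfer {A B α : Type} {D : Finset A} {Φ : (A → Bool) → α}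
    (hΦ : DepOn (D : Set A) Φ) {κ : A → B} (hκ : Set.InjOn κ D) (s : α) :
    (bern B).real {η | Φ (fun a => η (κ a)) = s} = (bern A).real {ω | Φ ω = s} := by
  classical
  have hS : MeasurableSet {g : D → Bool | Φ (GRD1aux.ext D g) = s} := Set.Finite.measurableSet
    (Set.toFinite _)
  have hinj : Function.Injective (fun a : D => κ a) := by
    intro a b hab
    exact Subtype.ext (hκ a.2 b.2 hab)
  have h1 : (bern B).real {η | Φ (fun a => η (κ a)) = s} =
      (bern D).real {g : D → Bool | Φ (GRD1aux.ext D g) = s} := by
    rw [← bern_map_inj hinj, measureReal_def, measureReal_def, Measure.map_apply (by fun_prop) hS]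
    congr 2
    ext η
    simp only [Set.mem_ofPred_eq, Set.mem_preimage]
    rw [GRD1aux.factor hΦ]
  have h2 : (bern A).real {ω | Φ ω = s} =
      (bern D).real {g : D → Bool | Φ (GRD1aux.ext D g) = s} := by
    have hinj2 : Function.Injective (fun a : D => (a : A)) := Subtype.val_injective
    rw [← bern_map_inj hinj2, measureReal_def, measureReal_def, Measure.map_apply (by fun_prop) hS]
    congr 2
    ext η
    simp only [Set.mem_ofPred_eq, Set.mem_preimage]
    rw [GRD1aux.factor hΦ]
  rw [h1, h2]

theorem law_indep {A α : Type} {D : Finset A} {Φ : (A → Bool) → α}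
    (hΦ : DepOn (D : Set A) Φ) {M : ℕ} (s : Fin M → α) :
    (bern (Fin M × A)).real {ω | ∀ m, Φ (fun x => ω (m, x)) = s m} =
      ∏ m, (bern A).real {ω | Φ ω = s m} := by
  classical
  have hm : ∀ m, MeasurableSet {ω | Φ ω = s m} := by
    intro m
    let _ : MeasurableSpace α := ⊤
    exact (measurable_of_depOn hΦ) (MeasurableSpace.measurableSet_top : MeasurableSet {s m})
  have h0 := Measure.infinitePi_map_curry (ι := Fin M) (κ := A) (X := Bool)
    (fun _ _ => coin)
  have h1 : (bern (Fin M × A)).real {ω | ∀ m, Φ (fun x => ω (m, x)) = s m} =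
      (Measure.infinitePi (fun _ : Fin M => bern A)).real
        (Set.pi ((Finset.univ : Finset (Fin M)) : Set (Fin M)) (fun m => {ω | Φ ω = s m})) := by
    unfold bern
    rw [← h0, measureReal_def, measureReal_def, Measure.map_apply (by fun_prop)
      (MeasurableSet.pi (Finset.countable_toSet _) (fun i _ => hm i))]
    congr 2
    ext ω
    simp only [Set.mem_ofPred_eq, Set.mem_preimage, Set.mem_pi, Finset.coe_univ, Set.mem_univ,
      forall_const]
    rfl
  rw [h1, measureReal_def, Measure.infinitePi_pi (μ := fun _ : Fin M => bern A)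
    (fun i _ => hm i), ENNReal.toReal_prod]
  rfl

end Pool.Agent.Helper23.GR
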