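import Pool.Agent.Helper23.GR.Defs

open MeasureTheory Real Finset

namespace Pool.Agent.Helper23.GR

open Pool.Agent.Helper42.Ent Pool.Agent.Helper70.C4

/-- GR-D10. A free action decomposes into copies of the group. -/
theorem orbit_decomp {G X : Type} [Group G] (ρ : G →* Equiv.Perm X)
    (hρ : ∀ g x, ρ g x = x → g = 1) :
    ∃ (J : Type) (e : G × J ≃ X), ∀ g h j, ρ g (e (h, j)) = e (g * h, j) := by
  classical
  let st : Setoid X :=
    { r := fun x y => ∃ g, ρ g x = y
      iseqv :=
        { refl := fun x => ⟨1, by rw [map_one]; rfl⟩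
          symm := by
            rintro x y ⟨g, rfl⟩
            exact ⟨g⁻¹, by rw [← Equiv.Perm.mul_apply, ← map_mul, inv_mul_cancel, map_one]; rfl⟩
          trans := by
            rintro x y z ⟨g, rfl⟩ ⟨h, rfl⟩
            exact ⟨h * g, by rw [map_mul]; rfl⟩ } }
  let F : G × Quotient st → X := fun z => ρ z.1 (Quotient.out z.2)
  have hmk : ∀ g (x : X), (Quotient.mk st (ρ g x)) = Quotient.mk st x := by
    intro g x
    apply Quotient.sound
    exact ⟨g⁻¹, by rw [← Equiv.Perm.mul_apply, ← map_mul, inv_mul_cancel, map_one]; rfl⟩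
  have hF : Function.Bijective F := by
    constructor
    · rintro ⟨g, j⟩ ⟨h, k⟩ hgh
      have h1 : ρ g (Quotient.out j) = ρ h (Quotient.out k) := hgh
      have h2 : j = k := by
        have := congrArg (Quotient.mk st) h1
        rw [hmk, hmk, Quotient.out_eq, Quotient.out_eq] at this
        exact this
      subst h2
      have h3 : ρ (h⁻¹ * g) (Quotient.out j) = Quotient.out j := by
        rw [map_mul, Equiv.Perm.mul_apply, h1, ← Equiv.Perm.mul_apply, ← map_mul, inv_mul_cancel,
          map_one]
        rfl
      have h4 := hρ _ _ h3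
      have h5 : g = h := by
        rw [inv_mul_eq_one] at h4
        exact h4.symm
      rw [h5]
    · intro x
      have h1 : (Quotient.mk st (Quotient.out (Quotient.mk st x))) = Quotient.mk st x :=
        Quotient.out_eq _
      obtain ⟨g, hg⟩ := Quotient.exact h1
      exact ⟨(g, Quotient.mk st x), hg⟩
  refine ⟨Quotient st, Equiv.ofBijective F hF, ?_⟩
  intro g h j
  show ρ g (ρ h (Quotient.out j)) = ρ (g * h) (Quotient.out j)
  rw [map_mul]
  rfl

end Pool.Agent.Helper23.GR
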