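import Pool.Agent.Helper23.GR.Defs

open MeasureTheory Real Finset

namespace Pool.Agent.Helper23.GR

open Pool.Agent.Helper42.Ent Pool.Agent.Helper70.C4

namespace GRW5aux

theorem run_append {X : Type} (τ : Fin 3 → X → X) (u v : List (Fin 3)) (x : X) :
    run τ (u ++ v) x = run τ v (run τ u x) := by
  induction u generalizing x with
  | nil => rfl
  | cons i u ih =>
    show run τ (u ++ v) (τ i x) = run τ v (run τ u (τ i x))
    exact ih _

theorem run_cancel {X : Type} (τ : Fin 3 → X → X) (hτ : ∀ i x, τ i (τ i x) = x)
    (s : List (Fin 3)) (x : X) : run τ s (run τ s.reverse x) = x := by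
  induction s generalizing x with
  | nil => rfl
  | cons i s ih =>
    rw [List.reverse_cons, run_append]
    show run τ s (τ i (τ i (run τ s.reverse x))) = x
    rw [hτ, ih]

theorem cancel (p : ℕ) : ∀ r w : List (Fin 3), p ≤ r.length → p ≤ w.length →
    r.take p ≠ w.take p → ∃ s r' w' : List (Fin 3), r = s ++ r' ∧ w = s ++ w' ∧ s.length < p ∧
      ∀ a ∈ r'.head?, ∀ b ∈ w'.head?, a ≠ b := by
  induction p with
  | zero =>
    intro r w _ _ h
    exact absurd (by simp) h
  | succ p ih =>
    intro r w hr hw h
    match r, w with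
    | [], _ => simp at hr
    | _ :: _, [] => simp at hw
    | a :: r, b :: w =>
      by_cases hab : a = b
      · subst hab
        rw [List.take_succ_cons, List.take_succ_cons] at h
        have h' : r.take p ≠ w.take p := fun h2 => h (by rw [h2])
        obtain ⟨s, r', w', h1, h2, h3, h4⟩ := ih r w (by simpa using hr) (by simpa using hw) h'
        refine ⟨a :: s, r', w', by rw [h1]; rfl, by rw [h2]; rfl, ?_, h4⟩
        rw [List.length_cons]
        omega
      · refine ⟨[], a :: r, b :: w, rfl, rfl, Nat.succ_pos _, ?_⟩
        intro x hx y hy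
        simp only [List.head?_cons, Option.mem_def, Option.some.injEq] at hx hy
        rw [← hx, ← hy]
        exact hab

theorem nb_reverse {w : List (Fin 3)} (h : NB w) : NB w.reverse := by
  rw [NB, List.isChain_reverse]
  exact h.imp (fun _ _ hab => hab.symm)

theorem sg_mem {m : ℕ} {a : List (Fin 3)} (h : a ∈ W m) (b : Bool) : sg a b ∈ W m := by
  cases b with
  | false => exact h
  | true =>
    rw [mem_W] at h ⊢
    exact ⟨by rw [sg, if_pos rfl, List.length_reverse]; exact h.1, nb_reverse h.2⟩

theorem sg_reverse (a : List (Fin 3)) (b : Bool) : (sg a b).reverse = sg a (!b) := by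
  cases b with
  | false => rfl
  | true => exact List.reverse_reverse a

end GRW5aux

open GRW5aux

/-- GR-W5. One ping-pong step: the product of a word `u` and a word `w'` that does not begin like
the inverse of `u` is a nonbacktracking word that begins like `u`. -/
theorem pingpong_step {p m : ℕ} (hp : 0 < p) (hpm : 2 * p ≤ m) {u w' : List (Fin 3)}
    (hu : u ∈ W m) (hw' : NB w') (hlen : p ≤ w'.length) (hne : u.reverse.take p ≠ w'.take p) :
    ∃ w : List (Fin 3), NB w ∧ p ≤ w.length ∧ w.take p = u.take p ∧
      ∀ {X : Type} (τ : Fin 3 → X → X), (∀ i x, τ i (τ i x) = x) →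
        ∀ x, run τ (u ++ w') x = run τ w x := by
  rw [mem_W] at hu
  obtain ⟨s, r', v', h1, h2, h3, h4⟩ := cancel p u.reverse w'
    (by rw [List.length_reverse]; omega) hlen hne
  have hu1 : u = r'.reverse ++ s.reverse := by
    rw [← List.reverse_append, ← h1, List.reverse_reverse]
  have hlu : r'.length + s.length = m := by
    rw [← hu.1, hu1, List.length_append, List.length_reverse, List.length_reverse]
  have hr' : NB r' := by
    have h5 := nb_reverse hu.2
    rw [h1] at h5
    exact (List.isChain_append.1 h5).2.1
  have hv' : NB v' := by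
    rw [h2] at hw'
    exact (List.isChain_append.1 hw').2.1
  refine ⟨r'.reverse ++ v', ?_, ?_, ?_, ?_⟩
  · refine List.IsChain.append (nb_reverse hr') hv' ?_
    intro x hx y hy
    rw [List.getLast?_reverse] at hx
    exact h4 x hx y hy
  · rw [List.length_append, List.length_reverse]
    omega
  · rw [hu1, List.take_append_of_le_length (by rw [List.length_reverse]; omega),
      List.take_append_of_le_length (by rw [List.length_reverse]; omega)]
  · intro X τ hτ x
    rw [run_append, run_append, hu1, h2, run_append, run_append, run_cancel τ hτ]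

/-- The product of a reduced nonempty sequence of signed words of a separated family is a
nonempty nonbacktracking word. `L` is a reduced word in the sense of `FreeGroup`
(`(i, true)` stands for the generator `a i`, `(i, false)` for its inverse). -/
theorem pingpong {ι : Type} {p m : ℕ} {a : ι → List (Fin 3)} (ha : Sep p m a)
    (L : List (ι × Bool)) (hL : L ≠ []) (hred : FreeGroup.IsReduced L) :
    ∃ w : List (Fin 3), NB w ∧ w ≠ [] ∧
      ∀ {X : Type} (τ : Fin 3 → X → X), (∀ i x, τ i (τ i x) = x) →
        ∀ x, run τ ((L.map (fun y => sg (a y.1) (!y.2))).flatten) x = run τ w x := by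
  have key : ∀ (L : List (ι × Bool)) (i : ι) (b : Bool), FreeGroup.IsReduced ((i, b) :: L) →
      ∃ w : List (Fin 3), NB w ∧ p ≤ w.length ∧ w.take p = (sg (a i) (!b)).take p ∧
        ∀ {X : Type} (τ : Fin 3 → X → X), (∀ i x, τ i (τ i x) = x) → ∀ x,
          run τ ((((i, b) :: L).map (fun y => sg (a y.1) (!y.2))).flatten) x = run τ w x := by
    intro L
    induction L with
    | nil =>
      intro i b _
      have h1 := mem_W.1 (sg_mem (ha.mem i) (!b))
      refine ⟨sg (a i) (!b), h1.2, ?_, rfl, ?_⟩
      · have := ha.le
        omega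
      · intro X τ hτ x
        simp
    | cons y L ih =>
      intro i b hr
      obtain ⟨j, b'⟩ := y
      rw [FreeGroup.IsReduced, List.isChain_cons_cons] at hr
      obtain ⟨w', hw1, hw2, hw3, hw4⟩ := ih j b' hr.2
      have hne : (sg (a i) (!b)).reverse.take p ≠ w'.take p := by
        rw [sg_reverse, hw3]
        intro h
        have h2 : ((i, !!b) : ι × Bool) = (j, !b') := ha.inj h
        rw [Prod.mk.injEq, Bool.not_not] at h2
        have h3 := hr.1 h2.1
        rw [h2.2] at h3
        cases b' <;> simp at h3
      obtain ⟨w, h1, h2, h3, h4⟩ := pingpong_step ha.pos ha.le (sg_mem (ha.mem i) (!b)) hw1 hw2 hne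
      refine ⟨w, h1, h2, h3, ?_⟩
      intro X τ hτ x
      rw [← h4 τ hτ x, List.map_cons, List.flatten_cons, run_append, run_append]
      exact hw4 τ hτ _
  match L, hL with
  | (i, b) :: L, _ =>
    obtain ⟨w, h1, h2, _, h4⟩ := key L i b hred
    refine ⟨w, h1, ?_, h4⟩
    rintro rfl
    have := ha.pos
    simp at h2
    omega

end Pool.Agent.Helper23.GR
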