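import Pool.Agent.Helper23.GR.Defs
import Pool.Agent.Helper23.GR.St.R1
import Pool.Agent.Helper23.GR.St.D1
import Pool.Agent.Helper23.GR.St.W5

open MeasureTheory Real Finset

namespace Pool.Agent.Helper23.GR

open Pool.Agent.Helper42.Ent Pool.Agent.Helper70.C4

/-- the involution on coin tosses -/
def TT {X : Type} (τ : Fin 3 → X → X) (i : Fin 3) (ω : X → Bool) : X → Bool := fun x => ω (τ i x)

/-- `run (TT τ) w ω = ω ∘ run τ w.reverse` -/
theorem run_TT {X : Type} (τ : Fin 3 → X → X) (w : List (Fin 3)) (ω : X → Bool) :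
    run (TT τ) w ω = fun x => ω (run τ w.reverse x) := by
  induction w generalizing ω with
  | nil => rfl
  | cons i w ih =>
    funext x
    show run (TT τ) w (TT τ i ω) x = _
    rw [ih, List.reverse_cons, run_append]
    rfl

theorem mp_TT {X : Type} {τ : Fin 3 → X → X} (hτ : ∀ i x, τ i (τ i x) = x) (i : Fin 3) :
    MeasurePreserving (TT τ i) (bern X) (bern X) := by
  have hinj : Function.Injective (τ i) := by
    intro x y h
    rw [← hτ i x, h, hτ]
  refine ⟨?_, bern_map_inj hinj⟩
  unfold TT
  fun_prop

/-- The permutations of `X` defined by the words of a separated family generate a free group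
acting freely. -/
theorem sep_free {X : Type} {τ : Fin 3 → X → X} (hτ : ∀ i x, τ i (τ i x) = x) (hF : FreeW τ)
    {ι : Type} {p m : ℕ} {a : ι → List (Fin 3)} (ha : Sep p m a) :
    ∃ ρ : FreeGroup ι →* Equiv.Perm X, (∀ i x, ρ (FreeGroup.of i) x = run τ (a i).reverse x) ∧
      ∀ g x, ρ g x = x → g = 1 := by
  classical
  let f : ι → Equiv.Perm X := fun i =>
    { toFun := run τ (a i).reverse
      invFun := run τ (a i)
      left_inv := fun x => by
        have h := run_reverse hτ (a i).reverse x
        rwa [List.reverse_reverse] at h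
      right_inv := fun x => run_reverse hτ (a i) x }
  have hf : ∀ (y : ι × Bool) (x : X), (cond y.2 (f y.1) (f y.1)⁻¹) x = run τ (sg (a y.1) y.2) x := by
    rintro ⟨i, b⟩ x
    cases b
    · rfl
    · rfl
  have key : ∀ (L : List (ι × Bool)) (x : X), FreeGroup.lift f (FreeGroup.mk L) x =
      run τ (((FreeGroup.invRev L).map (fun y => sg (a y.1) (!y.2))).flatten) x := by
    intro L
    induction L with
    | nil =>
      intro x
      rfl
    | cons y L ih =>
      intro x
      rw [FreeGroup.lift_mk, List.map_cons, List.prod_cons, Equiv.Perm.mul_apply, hf]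
      rw [FreeGroup.lift_mk] at ih
      rw [ih x]
      have h1 : FreeGroup.invRev (y :: L) = FreeGroup.invRev L ++ [(y.1, !y.2)] := by
        simp [FreeGroup.invRev]
      rw [h1, List.map_append, List.flatten_append, run_append]
      simp
  refine ⟨FreeGroup.lift f, ?_, ?_⟩
  · intro i x
    rw [FreeGroup.lift_apply_of]
    rfl
  · intro g x hg
    by_contra hne
    have h1 : (g⁻¹).toWord ≠ [] := by
      intro h
      rw [FreeGroup.toWord_eq_nil_iff] at h
      exact hne (inv_eq_one.1 h)
    obtain ⟨w, hw1, hw2, hw3⟩ := pingpong ha (g⁻¹).toWord h1 FreeGroup.isReduced_toWord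
    have h2 := key g.toWord x
    rw [FreeGroup.mk_toWord, ← FreeGroup.toWord_inv, hw3 τ hτ x, hg] at h2
    exact hF w hw2 hw1 x h2.symm

end Pool.Agent.Helper23.GR
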