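import Pool.Agent.Helper23.GR.Defs

open MeasureTheory Real Finset

namespace Pool.Agent.Helper23.GR

open Pool.Agent.Helper42.Ent Pool.Agent.Helper70.C4

namespace GRD2aux

theorem cyl_approx {A : Type} {s : Set (A → Bool)} (hs : MeasurableSet s) {ε : ENNReal}
    (hε : 0 < ε) : ∃ (D : Finset A) (t : Set (A → Bool)),
      (∀ ω ω' : A → Bool, (∀ x ∈ D, ω x = ω' x) → (ω ∈ t ↔ ω' ∈ t)) ∧
      (bern A) (symmDiff t s) < ε := by
  classical
  obtain ⟨t, ht, h1⟩ := exists_measure_symmDiff_lt_of_generateFrom_isSetRing (μ := bern A)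
    (C := measurableCylinders (fun _ : A => Bool)) isSetRing_measurableCylinders
    ⟨{Set.univ}, Set.countable_singleton _, by
      intro x hx
      rw [Set.mem_singleton_iff] at hx
      subst hx
      exact univ_mem_measurableCylinders _, by simp⟩
    generateFrom_measurableCylinders.symm hs hε
  rw [mem_measurableCylinders] at ht
  obtain ⟨D, S, hS, rfl⟩ := ht
  refine ⟨D, _, ?_, h1⟩
  intro ω ω' h
  rw [mem_cylinder, mem_cylinder]
  have : D.restrict ω = D.restrict ω' := by
    funext x
    exact h x x.2
  rw [this]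

end GRD2aux

/-- GR-D2. Measurable finitely valued functions are almost functions of finitely many
coordinates. -/
theorem local_approx {A α : Type} [Fintype α] [MeasurableSpace α] [MeasurableSingletonClass α]
    {ψ : (A → Bool) → α} (hψ : Measurable ψ) (ε : ℝ) (hε : 0 < ε) :
    ∃ (D : Finset A) (Φ : (A → Bool) → α), DepOn (D : Set A) Φ ∧
      (bern A).real {ω | Φ ω ≠ ψ ω} ≤ ε := by
  classical
  have : Nonempty α := ⟨ψ (fun _ => false)⟩
  set N : ℝ := (Fintype.card α : ℝ) with hN
  have hN0 : 0 < N := by
    rw [hN]; exact_mod_cast Fintype.card_pos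
  have hεN : 0 < ε / N := by positivity
  have h := fun s : α => GRD2aux.cyl_approx (hψ (measurableSet_singleton s))
    (ε := ENNReal.ofReal (ε / N)) (ENNReal.ofReal_pos.2 hεN)
  choose D t hDt hm using h
  let F : Set α → α := fun S => if h : S.Nonempty then h.some else Classical.arbitrary α
  refine ⟨Finset.univ.biUnion D, fun ω => F {s | ω ∈ t s}, ?_, ?_⟩
  · intro ω ω' hω
    have : {s | ω ∈ t s} = {s | ω' ∈ t s} := by
      ext s
      exact hDt s ω ω' (fun x hx => hω x (by
        rw [Finset.mem_coe, Finset.mem_biUnion]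
        exact ⟨s, Finset.mem_univ s, hx⟩))
    simp only [this]
  · have hsub : {ω | F {s | ω ∈ t s} ≠ ψ ω} ⊆ ⋃ s ∈ (Finset.univ : Finset α),
        symmDiff (t s) (ψ ⁻¹' {s}) := by
      intro ω hω
      by_contra hcon
      apply hω
      simp only [Finset.mem_univ, Set.iUnion_true, Set.mem_iUnion, not_exists,
        Set.mem_symmDiff, Set.mem_preimage, Set.mem_singleton_iff] at hcon
      have h1 : {s | ω ∈ t s} = {ψ ω} := by
        ext s
        rw [Set.mem_ofPred_eq, Set.mem_singleton_iff]
        have := hcon s
        constructor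
        · intro hs
          by_contra hne
          exact this (Or.inl ⟨hs, fun e => hne e.symm⟩)
        · intro hs
          by_contra hne
          exact this (Or.inr ⟨hs.symm, hne⟩)
      rw [h1]
      have h2 : ({ψ ω} : Set α).Nonempty := Set.singleton_nonempty _
      have h3 : F {ψ ω} = h2.some := by simp only [F, h2, dif_pos]
      rw [h3]
      exact h2.some_mem
    calc (bern A).real {ω | F {s | ω ∈ t s} ≠ ψ ω} ≤
        (bern A).real (⋃ s ∈ (Finset.univ : Finset α), symmDiff (t s) (ψ ⁻¹' {s})) :=
          measureReal_mono hsub (measure_ne_top _ _)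
      _ ≤ ∑ s, (bern A).real (symmDiff (t s) (ψ ⁻¹' {s})) := measureReal_biUnion_finset_le _ _
      _ ≤ ∑ s : α, ε / N := by
          apply Finset.sum_le_sum
          intro s _
          rw [measureReal_def]
          exact ENNReal.toReal_le_of_le_ofReal hεN.le (hm s).le
      _ = ε := by
          rw [Finset.sum_const, Finset.card_univ, nsmul_eq_mul, ← hN]
          field_simp

end Pool.Agent.Helper23.GR
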