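import Pool.Agent.Helper23.GR.Defs

open MeasureTheory Real Finset

namespace Pool.Agent.Helper23.GR

open Pool.Agent.Helper42.Ent Pool.Agent.Helper70.C4

open Classical in
/-- the colourings with the same numbers of points of each colour -/
noncomputable def cl {α : Type} [Fintype α] {M : ℕ} (c : Fin M → α) : Finset (Fin M → α) :=
  univ.filter (fun c' => ∀ a, (univ.filter (fun m => c' m = a)).card =
    (univ.filter (fun m => c m = a)).card)

open Classical in
/-- two colourings with the same colour counts differ by a permutation -/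
theorem GRD3aux_exists_perm {α : Type} [Fintype α] {M : ℕ} (c c' : Fin M → α) (h : c' ∈ cl c) :
    ∃ g : Equiv.Perm (Fin M), ∀ m, c (g m) = c' m := by
  have h' : ∀ a, (univ.filter (fun m => c' m = a)).card =
      (univ.filter (fun m => c m = a)).card := by
    have := (mem_filter.mp h).2
    exact this
  have e : ∀ a, {m // c' m = a} ≃ {m // c m = a} := fun a =>
    Fintype.equivOfCardEq (by rw [Fintype.card_subtype, Fintype.card_subtype]; exact h' a)
  refine ⟨(Equiv.sigmaFiberEquiv c').symm.trans
    ((Equiv.sigmaCongrRight e).trans (Equiv.sigmaFiberEquiv c)), fun m => ?_⟩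
  exact (e (c' m) ⟨m, rfl⟩).2

open Classical in
/-- GR-D3. The number of permutations carrying one colouring to another. -/
theorem perm_count {α : Type} [Fintype α] {M : ℕ} (c τ : Fin M → α) :
    (univ.filter (fun σ : Equiv.Perm (Fin M) => ∀ m, c (σ m) = τ m)).card * (cl c).card ≤
      M.factorial := by
  rcases (univ.filter (fun σ : Equiv.Perm (Fin M) => ∀ m, c (σ m) = τ m)).eq_empty_or_nonempty
    with h | ⟨σ₀, h₀⟩
  · rw [h, card_empty, zero_mul]
    exact Nat.zero_le _
  have h₀' : ∀ m, c (σ₀ m) = τ m := (mem_filter.mp h₀).2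
  choose! g hg using fun c' (hc' : c' ∈ cl c) => GRD3aux_exists_perm c c' hc'
  have hM : M.factorial = (univ : Finset (Equiv.Perm (Fin M))).card := by
    rw [card_univ, Fintype.card_perm, Fintype.card_fin]
  rw [hM, ← card_product]
  apply card_le_card_of_injOn (fun x => (g x.2).trans (σ₀.symm.trans x.1))
  · intro x _
    exact mem_coe.mpr (mem_univ _)
  · rintro ⟨σ, c1⟩ h1 ⟨σ', c2⟩ h2 h12
    rw [mem_coe, mem_product, mem_filter] at h1 h2
    have key : ∀ (σ : Equiv.Perm (Fin M)) (hσ : ∀ m, c (σ m) = τ m) (c' : Fin M → α)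
        (hc' : c' ∈ cl c) (m : Fin M), c (((g c').trans (σ₀.symm.trans σ)) m) = c' m := by
      intro σ hσ c' hc' m
      rw [Equiv.trans_apply, Equiv.trans_apply, hσ, ← h₀', Equiv.apply_symm_apply]
      exact hg c' hc' m
    have hc : c1 = c2 := by
      funext m
      rw [← key σ h1.1.2 c1 h1.2 m, ← key σ' h2.1.2 c2 h2.2 m]
      exact congrArg (fun e : Equiv.Perm (Fin M) => c (e m)) h12
    subst hc
    have hs : σ = σ' := by
      apply Equiv.ext
      intro m
      have := congrArg (fun e : Equiv.Perm (Fin M) => e ((g c1).symm (σ₀ m))) h12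
      simpa using this
    rw [hs]

end Pool.Agent.Helper23.GR
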