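import Pool.Agent.Helper23.GR.Defs

open MeasureTheory Real Finset

namespace Pool.Agent.Helper23.GR

open Pool.Agent.Helper42.Ent Pool.Agent.Helper70.C4

variable {E : Type*} [MeasurableSpace E] {α β γ : Type*}
  [Fintype α] [MeasurableSpace α] [MeasurableSingletonClass α]
  [Fintype β] [MeasurableSpace β] [MeasurableSingletonClass β]
  [Fintype γ] [MeasurableSpace γ] [MeasurableSingletonClass γ]

/-- GR-E7. Entropy of a variable in terms of a function of it and the sizes of the fibres. -/
theorem ent_le_fibre (P : Measure E) [IsProbabilityMeasure P] {X : E → α} (hX : Measurable X)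
    (g : α → β) [DecidableEq β] :
    ent P X ≤ ent P (g ∘ X) +
      ∑ t, pr P (g ∘ X) t * Real.log ((univ.filter (fun s => g s = t)).card) := by
  have hcard : ∀ s, (0 : ℝ) < ((univ.filter (fun s' => g s' = g s)).card : ℝ) := by
    intro s
    have : s ∈ univ.filter (fun s' => g s' = g s) := by simp
    exact_mod_cast card_pos.2 ⟨s, this⟩
  have h := gibbs (p := pr P X)
    (r := fun s => pr P (g ∘ X) (g s) / ((univ.filter (fun s' => g s' = g s)).card : ℝ))
    (pr_nonneg P X) (fun s => div_nonneg (pr_nonneg _ _ _) (hcard s).le)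
    (fun s hs => by
      have h1 : pr P (g ∘ X) (g s) = 0 := by
        rcases div_eq_zero_iff.1 hs with h1 | h1
        · exact h1
        · exact absurd h1 (hcard s).ne'
      exact le_antisymm (h1 ▸ pr_le_pr_comp P X g s) (pr_nonneg _ _ _))
    (by
      rw [sum_pr P hX, ← sum_fiberwise univ g]
      have hgm : Measurable g := measurable_of_countable g
      rw [← sum_pr P (hgm.comp hX)]
      apply sum_le_sum
      intro t _
      have e : ∀ s ∈ univ.filter (fun s => g s = t),
          pr P (g ∘ X) (g s) / ((univ.filter (fun s' => g s' = g s)).card : ℝ) =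
          pr P (g ∘ X) t / ((univ.filter (fun s' => g s' = t)).card : ℝ) := by
        intro s hs
        rw [mem_filter] at hs
        rw [hs.2]
      rw [sum_congr rfl e, sum_const, nsmul_eq_mul]
      rcases Nat.eq_zero_or_pos (univ.filter (fun s' => g s' = t)).card with h0 | h0
      · rw [h0]
        simpa using pr_nonneg P (g ∘ X) t
      · have h1 : (0 : ℝ) < ((univ.filter (fun s' => g s' = t)).card : ℝ) := by exact_mod_cast h0
        rw [mul_div_cancel₀ _ h1.ne'])
  have e1 : ∑ s, pr P X s *
      Real.log (pr P (g ∘ X) (g s) / ((univ.filter (fun s' => g s' = g s)).card : ℝ)) =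
      ∑ s, pr P X s * Real.log (pr P (g ∘ X) (g s)) -
      ∑ s, pr P X s * Real.log ((univ.filter (fun s' => g s' = g s)).card : ℝ) := by
    rw [← sum_sub_distrib]
    apply sum_congr rfl
    intro s _
    rcases (pr_nonneg P X s).eq_or_lt with h0 | h0
    · rw [← h0]; ring
    · have h1 : 0 < pr P (g ∘ X) (g s) := lt_of_lt_of_le h0 (pr_le_pr_comp P X g s)
      rw [Real.log_div h1.ne' (hcard s).ne']
      ring
  have e2 := sum_pr_comp P hX g
    (fun t => Real.log ((univ.filter (fun s' => g s' = t)).card : ℝ))
  have e3 := ent_comp_eq P hX g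
  rw [e1] at h
  have e4 : ent P X = ∑ s, negMulLog (pr P X s) := rfl
  rw [← e4] at h
  rw [e3, ← e2]
  linarith

/-- entropy depends continuously on the variable -/
theorem ent_tendsto (P : Measure E) [IsProbabilityMeasure P] {X : E → α} (hX : Measurable X)
    {Xn : ℕ → E → α} (hXn : ∀ n, Measurable (Xn n))
    (h : Filter.Tendsto (fun n => P.real {x | Xn n x ≠ X x}) Filter.atTop (nhds 0)) :
    Filter.Tendsto (fun n => ent P (Xn n)) Filter.atTop (nhds (ent P X)) := by
  unfold ent
  apply tendsto_finsetSum
  intro s _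
  apply (Real.continuous_negMulLog.tendsto _).comp
  rw [tendsto_iff_dist_tendsto_zero]
  apply squeeze_zero (fun _ => dist_nonneg) _ h
  intro n
  have key : ∀ Y Z : E → α, Measurable Y → Measurable Z →
      pr P Y s ≤ pr P Z s + P.real {x | Y x ≠ Z x} := by
    intro Y Z _ _
    unfold pr
    have h1 : Y ⁻¹' {s} ⊆ Z ⁻¹' {s} ∪ {x | Y x ≠ Z x} := by
      intro x hx
      by_cases h2 : Y x = Z x
      · left
        simpa [← h2] using hx
      · right
        exact h2
    exact (measureReal_mono h1 (measure_ne_top _ _)).trans (measureReal_union_le _ _)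
  have h1 := key (Xn n) X (hXn n) hX
  have h2 := key X (Xn n) hX (hXn n)
  have h3 : {x | X x ≠ Xn n x} = {x | Xn n x ≠ X x} := by
    ext x
    exact ⟨fun h => Ne.symm h, fun h => Ne.symm h⟩
  rw [h3] at h2
  rw [Real.dist_eq, abs_le]
  constructor <;> linarith

end Pool.Agent.Helper23.GR
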