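import Pool.Agent.Helper23.GR.Defs
import Pool.Agent.Helper23.GR.St.D3
import Pool.Agent.Helper23.GR.St.E7

open MeasureTheory Real Finset

namespace Pool.Agent.Helper23.GR

open Pool.Agent.Helper42.Ent Pool.Agent.Helper70.C4

namespace GRD4aux

theorem negMulLog_prod {ι : Type*} [DecidableEq ι] (S : Finset ι) (x : ι → ℝ) :
    negMulLog (∏ m ∈ S, x m) =
      ∑ m ∈ S, ∏ m' ∈ S, (if m' = m then negMulLog (x m') else x m') := by
  induction S using Finset.induction_on with
  | empty => simp
  | insert a S ha ih =>
    rw [Finset.prod_insert ha, negMulLog_mul, ih, Finset.sum_insert ha, Finset.prod_insert ha,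
      if_pos rfl]
    congr 1
    · rw [mul_comm]
      congr 1
      refine Finset.prod_congr rfl fun m' hm' => ?_
      have hne : m' ≠ a := by rintro rfl; exact ha hm'
      rw [if_neg hne]
    · rw [Finset.mul_sum]
      refine Finset.sum_congr rfl fun m hm => ?_
      have hne : a ≠ m := by rintro rfl; exact ha hm
      rw [Finset.prod_insert ha, if_neg hne]

theorem ent_iid {E α : Type} [MeasurableSpace E] [Fintype α] [MeasurableSpace α]
    [MeasurableSingletonClass α] (P : Measure E) {M : ℕ}
    {c : E → (Fin M → α)} (p : α → ℝ)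
    (h1 : ∑ a, p a = 1) (h : ∀ s, pr P c s = ∏ m, p (s m)) :
    ent P c = M * ∑ a, negMulLog (p a) := by
  classical
  unfold ent
  simp_rw [h, negMulLog_prod]
  rw [Finset.sum_comm]
  have key : ∀ m : Fin M, ∑ s : Fin M → α, ∏ m', (if m' = m then negMulLog (p (s m')) else p (s m'))
      = ∑ a, negMulLog (p a) := by
    intro m
    have h2 := Finset.prod_univ_sum (fun _ : Fin M => (Finset.univ : Finset α))
      (fun m' a => if m' = m then negMulLog (p a) else p a)
    rw [Fintype.piFinset_univ] at h2
    rw [← h2, Finset.prod_eq_single m]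
    · simp
    · intro m' _ hm'
      simp [hm', h1]
    · intro hm
      exact absurd (Finset.mem_univ _) hm
  simp_rw [key]
  simp

end GRD4aux

/-- GR-D4. The type class of an independent sample is large. -/
theorem iid_class {E α : Type} [MeasurableSpace E] [Fintype α] [MeasurableSpace α]
    [MeasurableSingletonClass α] (P : Measure E) [IsProbabilityMeasure P] {M : ℕ}
    {c : E → (Fin M → α)} (hc : Measurable c) (p : α → ℝ) (h0 : ∀ a, 0 ≤ p a)
    (h1 : ∑ a, p a = 1) (h : ∀ s, pr P c s = ∏ m, p (s m)) :
    M * ∑ a, negMulLog (p a) - Fintype.card α * Real.log (M + 1) ≤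
      ∑ s, pr P c s * Real.log ((cl s).card) := by
  classical
  rw [← GRD4aux.ent_iid P p h1 h]
  let g : (Fin M → α) → (α → Fin (M + 1)) := fun s a =>
    ⟨(univ.filter (fun m => s m = a)).card, Nat.lt_succ_of_le (by
      refine (Finset.card_filter_le _ _).trans ?_
      rw [Finset.card_univ, Fintype.card_fin])⟩
  have hg := ent_le_fibre P hc g
  have hgm : Measurable g := measurable_of_countable g
  have hlog := ent_le_log_card P (hgm.comp hc)
  have hcard : Real.log (Fintype.card (α → Fin (M + 1)) : ℕ) =
      Fintype.card α * Real.log (M + 1) := by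
    rw [Fintype.card_fun, Fintype.card_fin]
    push_cast
    rw [Real.log_pow]
  rw [hcard] at hlog
  have hfib : ∑ t, pr P (g ∘ c) t * Real.log ((univ.filter (fun s => g s = t)).card) =
      ∑ s, pr P c s * Real.log ((cl s).card) := by
    rw [← sum_pr_comp P hc g (fun t => Real.log ((univ.filter (fun s => g s = t)).card))]
    refine Finset.sum_congr rfl fun s _ => ?_
    congr 3
    unfold cl
    congr 1
    ext s'
    simp only [Finset.mem_filter, Finset.mem_univ, true_and]
    constructor
    · intro hs a
      have := congrArg Fin.val (congrFun hs a)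
      simp only [g] at this
      convert this
    · intro hs
      funext a
      apply Fin.ext
      simp only [g]
      convert hs a
  rw [hfib] at hg
  linarith

end Pool.Agent.Helper23.GR
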