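import Pool.Agent.Helper23.GR.Defs
import Pool.Agent.Helper23.GR.St.D3
import Pool.Agent.Helper23.GR.St.E7

open MeasureTheory Real Finset

namespace Pool.Agent.Helper23.GR

open Pool.Agent.Helper42.Ent Pool.Agent.Helper70.C4

open Classical in
/-- the number of families of permutations compatible with the colours -/
theorem GRD5aux_card {α ι Q : Type} [Fintype α] [Fintype ι] [DecidableEq ι] [Fintype Q]
    [DecidableEq Q] {M : ℕ} (r : ι → Equiv.Perm Q) (c : Q × Fin M → α)
    (τ : Q × Fin M → ι → α) :
    (univ.filter (fun s : ι → Q → Equiv.Perm (Fin M) =>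
      ∀ i q m, c (r i q, s i q m) = τ (q, m) i)).card =
      ∏ i, ∏ q, (univ.filter (fun σ : Equiv.Perm (Fin M) =>
        ∀ m, c (r i q, σ m) = τ (q, m) i)).card := by
  have h : (univ.filter (fun s : ι → Q → Equiv.Perm (Fin M) =>
      ∀ i q m, c (r i q, s i q m) = τ (q, m) i)) =
      Fintype.piFinset (fun i => Fintype.piFinset (fun q =>
        (univ.filter (fun σ : Equiv.Perm (Fin M) => ∀ m, c (r i q, σ m) = τ (q, m) i)))) := by
    ext s
    simp only [mem_filter, mem_univ, true_and, Fintype.mem_piFinset]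
  rw [h, Fintype.card_piFinset]
  apply prod_congr rfl
  intro i _
  rw [Fintype.card_piFinset]

theorem GRD5aux_cl_pos {α : Type} [Fintype α] {M : ℕ} (c : Fin M → α) : 0 < (cl c).card := by
  classical
  apply card_pos.mpr
  exact ⟨c, mem_filter.mpr ⟨mem_univ _, fun _ => rfl⟩⟩

open Classical in
theorem GRD5aux_log {α ι Q : Type} [Fintype α] [Fintype ι] [DecidableEq ι] [Fintype Q]
    [DecidableEq Q] {M : ℕ} (r : ι → Equiv.Perm Q) (c : Q × Fin M → α)
    (τ : Q × Fin M → ι → α)
    (hne : (univ.filter (fun s : ι → Q → Equiv.Perm (Fin M) =>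
      ∀ i q m, c (r i q, s i q m) = τ (q, m) i)).Nonempty) :
    Real.log ((univ.filter (fun s : ι → Q → Equiv.Perm (Fin M) =>
      ∀ i q m, c (r i q, s i q m) = τ (q, m) i)).card) ≤
      (Fintype.card ι : ℝ) * ((Fintype.card Q : ℝ) * Real.log (M.factorial) -
        ∑ q, Real.log ((cl (fun m => c (q, m))).card)) := by
  have hcard := GRD5aux_card r c τ
  have hpos := card_pos.mpr hne
  rw [hcard] at hpos ⊢
  have hpos' : ∀ i q, 0 < (univ.filter (fun σ : Equiv.Perm (Fin M) =>
        ∀ m, c (r i q, σ m) = τ (q, m) i)).card := by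
    intro i q
    have h1 : ∏ q, (univ.filter (fun σ : Equiv.Perm (Fin M) =>
        ∀ m, c (r i q, σ m) = τ (q, m) i)).card ≠ 0 :=
      prod_ne_zero_iff.mp hpos.ne' i (mem_univ i)
    exact Nat.pos_of_ne_zero (prod_ne_zero_iff.mp h1 q (mem_univ q))
  push_cast
  rw [Real.log_prod (fun i _ => by
    apply (prod_pos (fun q _ => ?_)).ne'
    exact_mod_cast hpos' i q)]
  have hi : ∀ i, Real.log (∏ q, ((univ.filter (fun σ : Equiv.Perm (Fin M) =>
        ∀ m, c (r i q, σ m) = τ (q, m) i)).card : ℝ)) ≤
      (Fintype.card Q : ℝ) * Real.log (M.factorial) -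
        ∑ q, Real.log ((cl (fun m => c (q, m))).card) := by
    intro i
    rw [Real.log_prod (fun q _ => by exact_mod_cast (hpos' i q).ne')]
    have hsum : ∑ q, Real.log ((cl (fun m => c (q, m))).card) =
        ∑ q, Real.log ((cl (fun m => c (r i q, m))).card) :=
      (Equiv.sum_comp (r i) (fun q => Real.log ((cl (fun m => c (q, m))).card))).symm
    have hconst : (Fintype.card Q : ℝ) * Real.log (M.factorial) =
        ∑ _q : Q, Real.log (M.factorial) := by
      rw [sum_const, card_univ, nsmul_eq_mul]
    rw [hsum, hconst, ← sum_sub_distrib]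
    apply sum_le_sum
    intro q _
    have h1 := perm_count (fun m => c (r i q, m)) (fun m => τ (q, m) i)
    have h2 : (0 : ℝ) < (cl (fun m => c (r i q, m))).card := by
      exact_mod_cast GRD5aux_cl_pos _
    have h3 : (0 : ℝ) < (univ.filter (fun σ : Equiv.Perm (Fin M) =>
        ∀ m, c (r i q, σ m) = τ (q, m) i)).card := by exact_mod_cast hpos' i q
    rw [le_sub_iff_add_le, ← Real.log_mul h3.ne' h2.ne']
    apply Real.log_le_log (by positivity)
    exact_mod_cast h1
  calc ∑ i, Real.log (∏ q, ((univ.filter (fun σ : Equiv.Perm (Fin M) =>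
        ∀ m, c (r i q, σ m) = τ (q, m) i)).card : ℝ))
      ≤ ∑ _i : ι, ((Fintype.card Q : ℝ) * Real.log (M.factorial) -
        ∑ q, Real.log ((cl (fun m => c (q, m))).card)) := sum_le_sum (fun i _ => hi i)
    _ = _ := by rw [sum_const, card_univ, nsmul_eq_mul]

/-- GR-D5. Entropy of random permutations against the colours at the two ends of the edges. -/
theorem perm_entropy {E α ι Q : Type} [MeasurableSpace E] [Fintype α] [MeasurableSpace α]
    [MeasurableSingletonClass α] [Fintype ι] [DecidableEq ι] [Fintype Q] [DecidableEq Q]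
    (P : Measure E) [IsProbabilityMeasure P] {M : ℕ} (r : ι → Equiv.Perm Q)
    (σ : E → ι → Q → Equiv.Perm (Fin M)) (hσ : ∀ s, MeasurableSet (σ ⁻¹' {s}))
    (hunif : ∀ s, P.real (σ ⁻¹' {s}) = 1 / ((M.factorial : ℝ) ^ (Fintype.card Q)) ^ (Fintype.card ι))
    (c : E → Q × Fin M → α) (hc : Measurable c) :
    (Fintype.card ι : ℝ) * ∑ q, ∑ s, pr P (fun x => fun m => c x (q, m)) s *
      Real.log ((cl s).card) ≤
      ent P (fun x => fun v : Q × Fin M => (c x v, fun i => c x (r i v.1, σ x i v.1 v.2))) := by
  classical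
  let _ : MeasurableSpace (ι → Q → Equiv.Perm (Fin M)) := ⊤
  have _ : MeasurableSingletonClass (ι → Q → Equiv.Perm (Fin M)) := ⟨fun _ => trivial⟩
  have hσm : Measurable σ := measurable_to_countable' hσ
  have hX : Measurable (fun x => (σ x, c x)) := hσm.prodMk hc
  set N : ℝ := ((M.factorial : ℝ) ^ (Fintype.card Q)) ^ (Fintype.card ι) with hN
  have hNpos : 0 < N := by positivity
  have hcardS : (Fintype.card (ι → Q → Equiv.Perm (Fin M)) : ℝ) = N := by
    rw [Fintype.card_fun, Fintype.card_fun, Fintype.card_perm, Fintype.card_fin]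
    push_cast
    rfl
  have hent : ent P σ = Real.log N := by
    have h1 : ∀ s, pr P σ s = 1 / N := hunif
    unfold ent
    simp only [h1]
    rw [sum_const, card_univ, nsmul_eq_mul, hcardS]
    unfold negMulLog
    rw [one_div, Real.log_inv]
    field_simp
  have hle1 : ent P σ ≤ ent P (fun x => (σ x, c x)) :=
    ent_comp_le P hX (fun y => y.1)
  set g : (ι → Q → Equiv.Perm (Fin M)) × (Q × Fin M → α) → (Q × Fin M → α × (ι → α)) :=
    fun y v => (y.2 v, fun i => y.2 (r i v.1, y.1 i v.1 v.2)) with hg
  have hle2 := ent_le_fibre P hX g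
  have hcomp : g ∘ (fun x => (σ x, c x)) =
      fun x => fun v : Q × Fin M => (c x v, fun i => c x (r i v.1, σ x i v.1 v.2)) := rfl
  rw [hcomp] at hle2
  set Y := fun x => fun v : Q × Fin M => (c x v, fun i => c x (r i v.1, σ x i v.1 v.2)) with hY
  have hYm : Measurable Y := by
    rw [← hcomp]
    exact (measurable_of_countable g).comp hX
  -- the size of the fibres
  have hfib : ∀ t : Q × Fin M → α × (ι → α),
      (univ.filter (fun s => g s = t)).card =
        (univ.filter (fun s : ι → Q → Equiv.Perm (Fin M) =>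
          ∀ i q m, (t (r i q, s i q m)).1 = (t (q, m)).2 i)).card := by
    intro t
    symm
    apply card_bij' (fun s _ => (s, fun v => (t v).1)) (fun y _ => y.1)
    · intro s hs
      have hs' := (mem_filter.mp hs).2
      apply mem_filter.mpr ⟨mem_univ _, ?_⟩
      funext v
      exact Prod.ext rfl (funext fun i => hs' i v.1 v.2)
    · intro y hy
      have hy' := (mem_filter.mp hy).2
      apply mem_filter.mpr ⟨mem_univ _, ?_⟩
      intro i q m
      rw [← hy']
    · intro s hs
      rfl
    · intro y hy
      have hy' := (mem_filter.mp hy).2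
      have h2 : (fun v => (t v).1) = y.2 := by
        funext v
        rw [← hy']
      exact Prod.ext (Eq.refl y.1) h2
  have hterm : ∀ t, pr P Y t * Real.log ((univ.filter (fun s => g s = t)).card) ≤
      pr P Y t * ((Fintype.card ι : ℝ) * ((Fintype.card Q : ℝ) * Real.log (M.factorial) -
        ∑ q, Real.log ((cl (fun m => (t (q, m)).1)).card))) := by
    intro t
    rcases (univ.filter (fun s : ι → Q → Equiv.Perm (Fin M) =>
          ∀ i q m, (t (r i q, s i q m)).1 = (t (q, m)).2 i)).eq_empty_or_nonempty with h | h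
    · have h0 : pr P Y t = 0 := by
        have : Y ⁻¹' {t} = ∅ := by
          rw [Set.eq_empty_iff_forall_notMem]
          intro x hx
          have hx' : Y x = t := hx
          have hm : (σ x) ∈ (univ.filter (fun s : ι → Q → Equiv.Perm (Fin M) =>
              ∀ i q m, (t (r i q, s i q m)).1 = (t (q, m)).2 i)) := by
            apply mem_filter.mpr ⟨mem_univ _, ?_⟩
            intro i q m
            rw [← hx']
          rw [h] at hm
          exact absurd hm (notMem_empty _)
        unfold pr
        rw [this, measureReal_empty]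
      rw [h0, zero_mul, zero_mul]
    · apply mul_le_mul_of_nonneg_left _ (pr_nonneg P Y t)
      rw [hfib t]
      exact GRD5aux_log r (fun v => (t v).1) (fun v => (t v).2) h
  have hsum : ∑ t, pr P Y t * Real.log ((univ.filter (fun s => g s = t)).card) ≤
      (Fintype.card ι : ℝ) * ((Fintype.card Q : ℝ) * Real.log (M.factorial)) -
        (Fintype.card ι : ℝ) * ∑ q, ∑ s, pr P (fun x => fun m => c x (q, m)) s *
          Real.log ((cl s).card) := by
    refine (sum_le_sum (fun t _ => hterm t)).trans (le_of_eq ?_)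
    have h1 : ∀ t, pr P Y t * ((Fintype.card ι : ℝ) *
        ((Fintype.card Q : ℝ) * Real.log (M.factorial) -
          ∑ q, Real.log ((cl (fun m => (t (q, m)).1)).card))) =
        pr P Y t * ((Fintype.card ι : ℝ) * ((Fintype.card Q : ℝ) * Real.log (M.factorial))) -
          (Fintype.card ι : ℝ) * ∑ q, pr P Y t *
            Real.log ((cl (fun m => (t (q, m)).1)).card) := by
      intro t
      rw [← mul_sum]
      ring
    simp only [h1]
    rw [sum_sub_distrib, ← sum_mul, sum_pr P hYm, one_mul, ← mul_sum, sum_comm]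
    congr 2
    apply sum_congr rfl
    intro q _
    exact sum_pr_comp P hYm (fun t => fun m => (t (q, m)).1)
      (fun s => Real.log ((cl s).card))
  have hlogN : Real.log N = (Fintype.card ι : ℝ) *
      ((Fintype.card Q : ℝ) * Real.log (M.factorial)) := by
    rw [hN, Real.log_pow, Real.log_pow]
  rw [hent, hlogN] at hle1
  have := hle2
  linarith

end Pool.Agent.Helper23.GR
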