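import Pool.Agent.Helper23.GR.Defs

open MeasureTheory Real Finset

namespace Pool.Agent.Helper23.GR

open Pool.Agent.Helper42.Ent Pool.Agent.Helper70.C4

variable {ι Q : Type} [Group Q] {M : ℕ}

/-- the permutation of the random lift given by the generator `i` -/
def sp (ρ : FreeGroup ι →* Q) (σ : ι → Q → Equiv.Perm (Fin M)) (i : ι) :
    Equiv.Perm (Q × Fin M) where
  toFun v := (v.1 * ρ (FreeGroup.of i), σ i v.1 v.2)
  invFun v := (v.1 * (ρ (FreeGroup.of i))⁻¹, (σ i (v.1 * (ρ (FreeGroup.of i))⁻¹))⁻¹ v.2)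
  left_inv v := by simp
  right_inv v := by simp

/-- the vertex reached from `v` along the group element `h` -/
def wk (ρ : FreeGroup ι →* Q) (σ : ι → Q → Equiv.Perm (Fin M)) (v : Q × Fin M)
    (h : FreeGroup ι) : Q × Fin M :=
  (FreeGroup.lift (fun i => (sp ρ σ i)⁻¹) h)⁻¹ v

/-- GR-D6. Walks in random lifts. -/
theorem wk_of (ρ : FreeGroup ι →* Q) (σ : ι → Q → Equiv.Perm (Fin M)) (v : Q × Fin M) (i : ι) :
    wk ρ σ v (FreeGroup.of i) = (v.1 * ρ (FreeGroup.of i), σ i v.1 v.2) := by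
  unfold wk
  rw [FreeGroup.lift_apply_of, inv_inv]
  rfl

theorem wk_mul (ρ : FreeGroup ι →* Q) (σ : ι → Q → Equiv.Perm (Fin M)) (v : Q × Fin M)
    (g h : FreeGroup ι) : wk ρ σ v (g * h) = wk ρ σ (wk ρ σ v g) h := by
  unfold wk
  rw [map_mul, mul_inv_rev, Equiv.Perm.mul_apply]

theorem wk_fst (ρ : FreeGroup ι →* Q) (σ : ι → Q → Equiv.Perm (Fin M)) (v : Q × Fin M)
    (h : FreeGroup ι) : (wk ρ σ v h).1 = v.1 * ρ h := by
  induction h using FreeGroup.induction_on generalizing v with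
  | C1 =>
    unfold wk
    rw [map_one, map_one, inv_one, mul_one]
    rfl
  | of i => rw [wk_of]
  | inv_of i _ =>
    have h1 : wk ρ σ (wk ρ σ v (FreeGroup.of i)⁻¹) (FreeGroup.of i) = v := by
      rw [← wk_mul, inv_mul_cancel]
      unfold wk
      rw [map_one, inv_one]
      rfl
    have h2 := congrArg Prod.fst h1
    rw [wk_of] at h2
    simp only at h2
    rw [map_inv, ← h2, mul_assoc, mul_inv_cancel, mul_one]
  | mul g h hg hh => rw [wk_mul, hh, hg, map_mul, mul_assoc]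

theorem wk_inj (ρ : FreeGroup ι →* Q) (σ : ι → Q → Equiv.Perm (Fin M)) {v v' : Q × Fin M}
    {h : FreeGroup ι} (e : wk ρ σ v h = wk ρ σ v' h) : v = v' :=
  (Equiv.injective _) e

end Pool.Agent.Helper23.GR
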