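import Pool.Agent.Helper23.GR.Defs
import Pool.Agent.Helper23.GR.St.D1
import Pool.Agent.Helper23.GR.St.D4
import Pool.Agent.Helper23.GR.St.D5
import Pool.Agent.Helper23.GR.St.D6
import Pool.Agent.Helper23.GR.St.E4

open MeasureTheory Real Finset

namespace Pool.Agent.Helper23.GR

open Pool.Agent.Helper42.Ent Pool.Agent.Helper70.C4

/-- the forward star of a function on the Bernoulli shift of a free group -/
def star {ι J α : Type} (Φ : (FreeGroup ι × J → Bool) → α) (ω : FreeGroup ι × J → Bool) :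
    α × (ι → α) :=
  (Φ ω, fun i => Φ (fun x => ω (FreeGroup.of i * x.1, x.2)))

namespace GRD7aux

set_option linter.unusedSectionVars false

theorem prod_law {S Ω' : Type} [Nonempty S] [MeasurableSpace S]
    [MeasurableSpace Ω'] (U : Measure S) [IsProbabilityMeasure U] (μ : Measure Ω')
    [IsProbabilityMeasure μ] {A : Set (S × Ω')} (hA : MeasurableSet A) (t : ℝ)
    (h : ∀ σ, μ.real (Prod.mk σ ⁻¹' A) = t) : (U.prod μ).real A = t := by
  rw [Measure.real, Measure.prod_apply hA]
  have h1 : ∀ σ, μ (Prod.mk σ ⁻¹' A) = ENNReal.ofReal t := fun σ => by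
    rw [← h σ, Measure.real, ENNReal.ofReal_toReal (measure_ne_top _ _)]
  have ht : 0 ≤ t := by
    obtain ⟨σ⟩ := ‹Nonempty S›
    rw [← h σ]
    exact measureReal_nonneg
  simp only [h1]
  rw [lintegral_const, measure_univ, mul_one, ENNReal.toReal_ofReal ht]

variable {ι J α Q : Type} [Fintype ι] [DecidableEq ι] [Fintype α] [MeasurableSpace α]
    [MeasurableSingletonClass α] [Group Q] {D : Finset (FreeGroup ι × J)}
    {Φ : (FreeGroup ι × J → Bool) → α}

open Classical in
/-- the coordinates of the star -/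
noncomputable def D' (D : Finset (FreeGroup ι × J)) : Finset (FreeGroup ι × J) :=
  D ∪ univ.biUnion fun i => D.image fun x => (FreeGroup.of i * x.1, x.2)

theorem mem_D'_left {x : FreeGroup ι × J} (hx : x ∈ D) : x ∈ D' D := by
  classical
  unfold D'
  exact mem_union_left _ hx

theorem mem_D'_right {x : FreeGroup ι × J} (hx : x ∈ D) (i : ι) :
    (FreeGroup.of i * x.1, x.2) ∈ D' D := by
  classical
  unfold D'
  exact mem_union_right _ (mem_biUnion.2 ⟨i, mem_univ _, mem_image.2 ⟨x, hx, rfl⟩⟩)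

theorem of_mem_D' {a : FreeGroup ι × J} (ha : a ∈ D' D) :
    ∃ g ∈ ({1} ∪ Set.range FreeGroup.of : Set (FreeGroup ι)), ∃ x ∈ D, a = (g * x.1, x.2) := by
  classical
  unfold D' at ha
  rcases mem_union.1 ha with h | h
  · exact ⟨1, Or.inl rfl, a, h, by rw [one_mul]⟩
  · obtain ⟨i, _, hi⟩ := mem_biUnion.1 h
    obtain ⟨x, hx, rfl⟩ := mem_image.1 hi
    exact ⟨_, Or.inr ⟨i, rfl⟩, x, hx, rfl⟩

theorem star_dep (hΦ : DepOn (D : Set (FreeGroup ι × J)) Φ) :
    DepOn (D' D : Set (FreeGroup ι × J)) (star Φ) := by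
  intro ω ω' h
  unfold star
  have h1 : Φ ω = Φ ω' := hΦ _ _ fun x hx => h x (mem_coe.2 (mem_D'_left (mem_coe.1 hx)))
  have h2 : ∀ i, Φ (fun x => ω (FreeGroup.of i * x.1, x.2)) =
      Φ (fun x => ω' (FreeGroup.of i * x.1, x.2)) := fun i =>
    hΦ _ _ fun x hx => h _ (mem_coe.2 (mem_D'_right (mem_coe.1 hx) i))
  rw [h1]
  exact Prod.ext rfl (funext h2)

theorem star_law (hΦ : DepOn (D : Set (FreeGroup ι × J)) Φ) (ρ : FreeGroup ι →* Q)
    (hρ : ∀ g ∈ ({1} ∪ Set.range FreeGroup.of : Set (FreeGroup ι)),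
      ∀ g' ∈ ({1} ∪ Set.range FreeGroup.of : Set (FreeGroup ι)), ∀ x ∈ D, ∀ y ∈ D,
      ρ (g * x.1) = ρ (g' * y.1) → g * x.1 = g' * y.1) {M : ℕ}
    (σ : ι → Q → Equiv.Perm (Fin M)) (v : Q × Fin M) (s : α × (ι → α)) :
    (bern ((Q × Fin M) × J)).real {η | ((Φ (fun y => η (wk ρ σ v y.1, y.2)),
      fun i => Φ (fun y => η (wk ρ σ (v.1 * ρ (FreeGroup.of i), σ i v.1 v.2) y.1, y.2))) :
        α × (ι → α)) = s} =
      (bern (FreeGroup ι × J)).real {ω | star Φ ω = s} := by
  have h := law_transfer (star_dep hΦ) (B := (Q × Fin M) × J)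
    (κ := fun y => (wk ρ σ v y.1, y.2)) ?_ s
  · rw [← h]
    congr 1
    ext η
    simp only [Set.mem_ofPred_eq, star, wk_mul, wk_of]
  · intro a ha b hb hab
    obtain ⟨g, hg, x, hx, rfl⟩ := of_mem_D' (mem_coe.1 ha)
    obtain ⟨g', hg', y, hy, rfl⟩ := of_mem_D' (mem_coe.1 hb)
    have h1 := congrArg (fun z : (Q × Fin M) × J => z.1.1) hab
    have h2 := congrArg (fun z : (Q × Fin M) × J => z.2) hab
    simp only [wk_fst, mul_right_inj] at h1 h2
    rw [hρ g hg g' hg' x hx y hy h1, h2]

theorem fibre_law (hΦ : DepOn (D : Set (FreeGroup ι × J)) Φ) (ρ : FreeGroup ι →* Q)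
    (hρ : ∀ g ∈ ({1} ∪ Set.range FreeGroup.of : Set (FreeGroup ι)),
      ∀ g' ∈ ({1} ∪ Set.range FreeGroup.of : Set (FreeGroup ι)), ∀ x ∈ D, ∀ y ∈ D,
      ρ (g * x.1) = ρ (g' * y.1) → g * x.1 = g' * y.1) {M : ℕ}
    (σ : ι → Q → Equiv.Perm (Fin M)) (q : Q) (s : Fin M → α) :
    (bern ((Q × Fin M) × J)).real {η | (fun m => Φ (fun y => η (wk ρ σ (q, m) y.1, y.2))) = s} =
      ∏ m, (bern (FreeGroup ι × J)).real {ω | Φ ω = s m} := by
  classical
  have hdep : DepOn ((univ ×ˢ D : Finset (Fin M × (FreeGroup ι × J))) :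
      Set (Fin M × (FreeGroup ι × J)))
      (fun (ω : Fin M × (FreeGroup ι × J) → Bool) (m : Fin M) => Φ (fun x => ω (m, x))) := by
    intro ω ω' h
    funext m
    exact hΦ _ _ fun x hx => h (m, x) (mem_coe.2 (mem_product.2 ⟨mem_univ _, mem_coe.1 hx⟩))
  have h := law_transfer hdep (B := (Q × Fin M) × J)
    (κ := fun y => (wk ρ σ (q, y.1) y.2.1, y.2.2)) ?_ s
  · have h2 := law_indep hΦ s
    rw [← h2]
    have h3 : {ω : Fin M × (FreeGroup ι × J) → Bool | ∀ m, Φ (fun x => ω (m, x)) = s m} =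
        {ω | (fun m => Φ (fun x => ω (m, x))) = s} := by
      ext ω
      exact funext_iff.symm
    rw [h3, ← h]
  · rintro ⟨m, x⟩ ha ⟨m', y⟩ hb hab
    have hx := (mem_product.1 (mem_coe.1 ha)).2
    have hy := (mem_product.1 (mem_coe.1 hb)).2
    have h1 := congrArg (fun z : (Q × Fin M) × J => z.1.1) hab
    have h2 := congrArg (fun z : (Q × Fin M) × J => z.2) hab
    have h3 := congrArg (fun z : (Q × Fin M) × J => z.1) hab
    simp only [wk_fst, mul_right_inj] at h1 h2 h3
    have h4 := hρ 1 (Or.inl rfl) 1 (Or.inl rfl) x hx y hy (by rw [one_mul, one_mul]; exact h1)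
    rw [one_mul, one_mul] at h4
    rw [h4] at h3
    have h5 := wk_inj ρ σ h3
    have h6 : m = m' := congrArg Prod.snd h5
    rw [h6, Prod.ext h4 h2]

end GRD7aux

open GRD7aux

/-- GR-D7. The forward star inequality with error term, for local functions. -/
theorem fs_fin {ι J α Q : Type} [Fintype ι] [DecidableEq ι] [Fintype α] [MeasurableSpace α]
    [MeasurableSingletonClass α] [Group Q] [Fintype Q] {D : Finset (FreeGroup ι × J)}
    {Φ : (FreeGroup ι × J → Bool) → α} (hΦ : DepOn (D : Set (FreeGroup ι × J)) Φ)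
    (ρ : FreeGroup ι →* Q)
    (hρ : ∀ g ∈ ({1} ∪ Set.range FreeGroup.of : Set (FreeGroup ι)),
      ∀ g' ∈ ({1} ∪ Set.range FreeGroup.of : Set (FreeGroup ι)), ∀ x ∈ D, ∀ y ∈ D,
      ρ (g * x.1) = ρ (g' * y.1) → g * x.1 = g' * y.1) (M : ℕ) (hM : 0 < M) :
    (Fintype.card ι : ℝ) * (ent (bern (FreeGroup ι × J)) Φ -
      Fintype.card α * Real.log (M + 1) / M) ≤ ent (bern (FreeGroup ι × J)) (star Φ) := by
  classical
  set S := ι → Q → Equiv.Perm (Fin M) with hS
  let mS : MeasurableSpace S := ⊤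
  have : MeasurableSingletonClass S := ⟨fun _ => trivial⟩
  set U : Measure S := (PMF.uniformOfFintype S).toMeasure with hU
  have : IsProbabilityMeasure U := PMF.toMeasure.isProbabilityMeasure _
  set B := (Q × Fin M) × J with hB
  set P : Measure (S × (B → Bool)) := U.prod (bern B) with hP
  have : IsProbabilityMeasure P := by rw [hP]; infer_instance
  set c : S × (B → Bool) → Q × Fin M → α :=
    fun x v => Φ (fun y => x.2 (wk ρ x.1 v y.1, y.2)) with hc
  -- measurability
  have hmeas : ∀ (σ : S) (v : Q × Fin M), Measurable fun η : B → Bool =>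
      Φ (fun y => η (wk ρ σ v y.1, y.2)) := by
    intro σ v
    exact (measurable_of_depOn hΦ).comp (measurable_pi_lambda _ fun y => measurable_pi_apply _)
  have hcv : ∀ v, Measurable fun x => c x v := fun v =>
    measurable_from_prod_countable_right fun σ => hmeas σ v
  have hcm : Measurable c := measurable_pi_lambda _ hcv
  have hpair : ∀ v : Q × Fin M, Measurable fun x : S × (B → Bool) =>
      (c x v, fun i => c x (v.1 * ρ (FreeGroup.of i), x.1 i v.1 v.2)) := by
    intro v
    apply measurable_from_prod_countable_right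
    intro σ
    exact (hmeas σ v).prodMk (measurable_pi_lambda _ fun i =>
      hmeas σ (v.1 * ρ (FreeGroup.of i), σ i v.1 v.2))
  -- the laws
  have hlaw1 : ∀ q (s : Fin M → α), pr P (fun x => fun m => c x (q, m)) s =
      ∏ m, pr (bern (FreeGroup ι × J)) Φ (s m) := by
    intro q s
    apply prod_law
    · exact (measurable_pi_lambda _ fun m => hcv (q, m)) (measurableSet_singleton s)
    · intro σ
      exact fibre_law hΦ ρ hρ σ q s
  have hlaw2 : ∀ v : Q × Fin M, ent P (fun x : S × (B → Bool) =>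
      (c x v, fun i => c x (v.1 * ρ (FreeGroup.of i), x.1 i v.1 v.2))) =
      ent (bern (FreeGroup ι × J)) (star Φ) := by
    intro v
    unfold ent
    apply sum_congr rfl
    intro s _
    congr 1
    apply prod_law
    · exact hpair v (measurableSet_singleton s)
    · intro σ
      exact star_law hΦ ρ hρ σ v s
  -- the permutations
  have hσm : ∀ s : S, MeasurableSet ((fun x : S × (B → Bool) => x.1) ⁻¹' {s}) := fun s =>
    measurable_fst (measurableSet_singleton s)
  have hunif : ∀ s : S, P.real ((fun x : S × (B → Bool) => x.1) ⁻¹' {s}) =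
      1 / ((M.factorial : ℝ) ^ (Fintype.card Q)) ^ (Fintype.card ι) := by
    intro s
    have h1 : (fun x : S × (B → Bool) => x.1) ⁻¹' {s} = {s} ×ˢ Set.univ := by
      ext x
      simp
    rw [h1, hP, Measure.real, Measure.prod_prod, measure_univ, mul_one, hU,
      PMF.toMeasure_apply_singleton _ _ (measurableSet_singleton s), PMF.uniformOfFintype_apply,
      ENNReal.toReal_inv, one_div]
    congr 1
    have hcard : Fintype.card S = (M.factorial ^ Fintype.card Q) ^ Fintype.card ι := by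
      show Fintype.card (ι → Q → Equiv.Perm (Fin M)) = _
      rw [Fintype.card_fun, Fintype.card_fun, Fintype.card_perm, Fintype.card_fin]
    rw [hcard]
    simp
  have h5 := perm_entropy P (fun i => Equiv.mulRight (ρ (FreeGroup.of i)))
    (fun x : S × (B → Bool) => x.1) hσm hunif c hcm
  have h6 := ent_pi_le P (Y := fun (v : Q × Fin M) (x : S × (B → Bool)) =>
      (c x v, fun i => c x (v.1 * ρ (FreeGroup.of i), x.1 i v.1 v.2))) hpair
  simp only [hlaw2] at h6
  have hΦm : Measurable Φ := measurable_of_depOn hΦ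
  have h4 : ∀ q : Q, (M : ℝ) * ent (bern (FreeGroup ι × J)) Φ -
      Fintype.card α * Real.log (M + 1) ≤
      ∑ s, pr P (fun x => fun m => c x (q, m)) s * Real.log ((cl s).card) := by
    intro q
    exact iid_class P (measurable_pi_lambda _ fun m => hcv (q, m))
      (pr (bern (FreeGroup ι × J)) Φ) (fun a => measureReal_nonneg) (sum_pr _ hΦm) (hlaw1 q)
  have h7 : (Fintype.card ι : ℝ) * ∑ _q : Q, ((M : ℝ) * ent (bern (FreeGroup ι × J)) Φ -
      Fintype.card α * Real.log (M + 1)) ≤
      ∑ _v : Q × Fin M, ent (bern (FreeGroup ι × J)) (star Φ) := by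
    refine le_trans (mul_le_mul_of_nonneg_left (sum_le_sum fun q _ => h4 q) (Nat.cast_nonneg _)) ?_
    exact le_trans h5 h6
  rw [sum_const, sum_const, card_univ, card_univ, Fintype.card_prod, Fintype.card_fin,
    nsmul_eq_mul, nsmul_eq_mul] at h7
  have hQ : (0 : ℝ) < Fintype.card Q := by
    have : 0 < Fintype.card Q := Fintype.card_pos
    exact_mod_cast this
  have hMR : (0 : ℝ) < M := by exact_mod_cast hM
  have h8 : ((Fintype.card Q : ℝ) * M) * ((Fintype.card ι : ℝ) * (ent (bern (FreeGroup ι × J)) Φ -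
      Fintype.card α * Real.log (M + 1) / M)) ≤
      ((Fintype.card Q : ℝ) * M) * ent (bern (FreeGroup ι × J)) (star Φ) := by
    calc _ = (Fintype.card ι : ℝ) * ((Fintype.card Q : ℝ) *
          ((M : ℝ) * ent (bern (FreeGroup ι × J)) Φ - Fintype.card α * Real.log (M + 1))) := by
          field_simp
      _ ≤ _ := by
          refine h7.trans (le_of_eq ?_)
          push_cast
          ring
  exact le_of_mul_le_mul_left h8 (mul_pos hQ hMR)

end Pool.Agent.Helper23.GR
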