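import Pool.Agent.Helper23.GR.Defs
import Pool.Agent.Helper23.GR.St.D7
import Pool.Agent.Helper59.EX.St.A6

open MeasureTheory Real Finset

namespace Pool.Agent.Helper23.GR

open Pool.Agent.Helper42.Ent Pool.Agent.Helper70.C4

/-- GR-D8. The forward star inequality for local functions. -/
theorem fs_local {ι J α : Type} [Fintype ι] [DecidableEq ι] [Fintype α] [MeasurableSpace α]
    [MeasurableSingletonClass α] {D : Finset (FreeGroup ι × J)}
    {Φ : (FreeGroup ι × J → Bool) → α} (hΦ : DepOn (D : Set (FreeGroup ι × J)) Φ) :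
    (Fintype.card ι : ℝ) * ent (bern (FreeGroup ι × J)) Φ ≤
      ent (bern (FreeGroup ι × J)) (star Φ) := by
  classical
  obtain ⟨Q, gQ, fQ, θ, hθ⟩ := Pool.Agent.Helper59.EX.exists_finite_quotients ι
  -- the finite set of group elements that must be separated
  let S : Set (FreeGroup ι) := {1} ∪ Set.range FreeGroup.of
  have hS : S.Finite := (Set.finite_singleton 1).union (Set.finite_range _)
  have hE : {z : FreeGroup ι | ∃ g ∈ S, ∃ g' ∈ S, ∃ x ∈ D, ∃ y ∈ D,
      z = (g' * y.1)⁻¹ * (g * x.1)}.Finite := by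
    have h1 : ((fun w : (FreeGroup ι × FreeGroup ι) × ((FreeGroup ι × J) × (FreeGroup ι × J)) =>
        (w.1.2 * w.2.2.1)⁻¹ * (w.1.1 * w.2.1.1)) ''
        ((S ×ˢ S) ×ˢ ((D : Set (FreeGroup ι × J)) ×ˢ (D : Set (FreeGroup ι × J))))).Finite :=
      Set.Finite.image _ ((hS.prod hS).prod (D.finite_toSet.prod D.finite_toSet))
    refine h1.subset ?_
    rintro z ⟨g, hg, g', hg', x, hx, y, hy, rfl⟩
    exact ⟨((g, g'), (x, y)), ⟨⟨hg, hg'⟩, ⟨hx, hy⟩⟩, rfl⟩
  obtain ⟨n, hn⟩ : ∃ n, ∀ z ∈ {z : FreeGroup ι | ∃ g ∈ S, ∃ g' ∈ S, ∃ x ∈ D, ∃ y ∈ D,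
      z = (g' * y.1)⁻¹ * (g * x.1)}, z ≠ 1 → θ n z ≠ 1 := by
    have h2 : ∀ᶠ n in Filter.atTop, ∀ z ∈ {z : FreeGroup ι | ∃ g ∈ S, ∃ g' ∈ S, ∃ x ∈ D,
        ∃ y ∈ D, z = (g' * y.1)⁻¹ * (g * x.1)}, z ≠ 1 → θ n z ≠ 1 := by
      rw [Filter.eventually_all_finite hE]
      intro z _
      by_cases hz : z = 1
      · exact Filter.Eventually.of_forall (fun n h => absurd hz h)
      · filter_upwards [hθ z hz] with n hn _
        exact hn
    exact h2.exists
  have : Fintype (Q n) := Fintype.ofFinite _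
  have hρ : ∀ g ∈ S, ∀ g' ∈ S, ∀ x ∈ D, ∀ y ∈ D,
      θ n (g * x.1) = θ n (g' * y.1) → g * x.1 = g' * y.1 := by
    intro g hg g' hg' x hx y hy h
    by_contra hne
    have h1 : (g' * y.1)⁻¹ * (g * x.1) ≠ 1 := by
      intro h2
      apply hne
      rw [inv_mul_eq_one] at h2
      exact h2.symm
    refine hn _ ⟨g, hg, g', hg', x, hx, y, hy, rfl⟩ h1 ?_
    rw [map_mul, map_inv, h, inv_mul_cancel]
  have key := fun M hM => fs_fin hΦ (θ n) hρ M hM
  -- the limit
  have hlim : Filter.Tendsto (fun M : ℕ => (Fintype.card ι : ℝ) * (ent (bern (FreeGroup ι × J)) Φ -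
      Fintype.card α * Real.log (M + 1) / M)) Filter.atTop
      (nhds ((Fintype.card ι : ℝ) * (ent (bern (FreeGroup ι × J)) Φ - Fintype.card α * 0))) := by
    apply Filter.Tendsto.const_mul
    apply Filter.Tendsto.const_sub
    have h1 : Filter.Tendsto (fun M : ℕ => Real.log ((M : ℝ) + 1) / (M : ℝ)) Filter.atTop (nhds 0) := by
      have h2 : Filter.Tendsto (fun M : ℕ => Real.log (((M + 1 : ℕ) : ℝ)) / (((M + 1 : ℕ) : ℝ)))
          Filter.atTop (nhds 0) := by
        have h3 : Filter.Tendsto (fun x : ℝ => Real.log x / x) Filter.atTop (nhds 0) :=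
          Real.isLittleO_log_id_atTop.tendsto_div_nhds_zero
        exact h3.comp (tendsto_natCast_atTop_atTop.comp (Filter.tendsto_add_atTop_nat 1))
      have h4 : Filter.Tendsto (fun M : ℕ => (((M + 1 : ℕ) : ℝ)) / (M : ℝ)) Filter.atTop (nhds 1) := by
        have h5 : Filter.Tendsto (fun M : ℕ => 1 + 1 / (M : ℝ)) Filter.atTop (nhds (1 + 0)) :=
          Filter.Tendsto.const_add 1 tendsto_one_div_atTop_nhds_zero_nat
        rw [add_zero] at h5
        refine h5.congr' ?_
        filter_upwards [Filter.eventually_gt_atTop 0] with M hM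
        have : (M : ℝ) ≠ 0 := by positivity
        push_cast
        field_simp
      have h6 := h2.mul h4
      rw [zero_mul] at h6
      refine h6.congr' ?_
      filter_upwards [Filter.eventually_gt_atTop 0] with M hM
      have h7 : (M : ℝ) ≠ 0 := by positivity
      have h8 : ((M : ℝ) + 1) ≠ 0 := by positivity
      push_cast
      field_simp
    have h2 := h1.const_mul (Fintype.card α : ℝ)
    refine h2.congr ?_
    intro M
    rw [mul_div_assoc]
  rw [mul_zero, sub_zero] at hlim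
  refine le_of_tendsto hlim ?_
  filter_upwards [Filter.eventually_gt_atTop 0] with M hM
  exact key M hM

end Pool.Agent.Helper23.GR
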