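import Pool.Agent.Helper23.GR.Defs
import Pool.Agent.Helper23.GR.St.D8
import Pool.Agent.Helper23.GR.St.D1
import Pool.Agent.Helper23.GR.St.D2
import Pool.Agent.Helper23.GR.St.E7

open MeasureTheory Real Finset

namespace Pool.Agent.Helper23.GR

open Pool.Agent.Helper42.Ent Pool.Agent.Helper70.C4

namespace GRD9aux

/-- the shift by a generator -/
def sh {ι J : Type} (i : ι) (ω : FreeGroup ι × J → Bool) : FreeGroup ι × J → Bool :=
  fun x => ω (FreeGroup.of i * x.1, x.2)

theorem measurable_sh {ι J : Type} (i : ι) : Measurable (sh (J := J) i) := by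
  unfold sh
  fun_prop

theorem map_sh {ι J : Type} (i : ι) :
    (bern (FreeGroup ι × J)).map (sh i) = bern (FreeGroup ι × J) := by
  have hκ : Function.Injective
      (fun x : FreeGroup ι × J => ((FreeGroup.of i * x.1, x.2) : FreeGroup ι × J)) := by
    intro x y hxy
    obtain ⟨h1, h2⟩ := Prod.mk.inj hxy
    exact Prod.ext (mul_left_cancel h1) h2
  exact bern_map_inj hκ

theorem real_sh {ι J : Type} (i : ι) {s : Set (FreeGroup ι × J → Bool)} (hs : MeasurableSet s) :
    (bern (FreeGroup ι × J)).real (sh i ⁻¹' s) = (bern (FreeGroup ι × J)).real s := by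
  rw [← map_measureReal_apply (measurable_sh i) hs, map_sh]

theorem measurable_star {ι J α : Type} [MeasurableSpace α]
    {Φ : (FreeGroup ι × J → Bool) → α} (h : Measurable Φ) : Measurable (star Φ) := by
  unfold star
  refine h.prodMk (measurable_pi_lambda _ fun i => ?_)
  exact h.comp (measurable_sh i)

theorem star_ne {ι J α : Type} [Fintype ι] [Fintype α] [MeasurableSpace α]
    [MeasurableSingletonClass α] {Φ ψ : (FreeGroup ι × J → Bool) → α}
    (h : Measurable Φ) (h' : Measurable ψ) :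
    (bern (FreeGroup ι × J)).real {ω | star Φ ω ≠ star ψ ω} ≤
      (1 + (Fintype.card ι : ℝ)) * (bern (FreeGroup ι × J)).real {ω | Φ ω ≠ ψ ω} := by
  classical
  have hm : MeasurableSet {ω | Φ ω ≠ ψ ω} := (measurableSet_eq_fun h h').compl
  have hsub : {ω | star Φ ω ≠ star ψ ω} ⊆ {ω | Φ ω ≠ ψ ω} ∪
      ⋃ i ∈ (Finset.univ : Finset ι), sh i ⁻¹' {ω | Φ ω ≠ ψ ω} := by
    intro ω hω
    by_contra hcon
    apply hω
    simp only [Set.mem_union, Set.mem_iUnion, Finset.mem_univ, exists_const, Set.mem_preimage,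
      Set.mem_ofPred_eq, not_or, not_exists, not_not] at hcon
    unfold star
    refine Prod.ext hcon.1 (funext fun i => ?_)
    exact hcon.2 i
  calc (bern (FreeGroup ι × J)).real {ω | star Φ ω ≠ star ψ ω}
      ≤ (bern (FreeGroup ι × J)).real ({ω | Φ ω ≠ ψ ω} ∪
        ⋃ i ∈ (Finset.univ : Finset ι), sh i ⁻¹' {ω | Φ ω ≠ ψ ω}) :=
        measureReal_mono hsub (measure_ne_top _ _)
    _ ≤ (bern (FreeGroup ι × J)).real {ω | Φ ω ≠ ψ ω} +
        (bern (FreeGroup ι × J)).real
          (⋃ i ∈ (Finset.univ : Finset ι), sh i ⁻¹' {ω | Φ ω ≠ ψ ω}) :=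
        measureReal_union_le _ _
    _ ≤ (bern (FreeGroup ι × J)).real {ω | Φ ω ≠ ψ ω} +
        ∑ i : ι, (bern (FreeGroup ι × J)).real (sh i ⁻¹' {ω | Φ ω ≠ ψ ω}) := by
        gcongr
        exact measureReal_biUnion_finset_le _ _
    _ = (1 + (Fintype.card ι : ℝ)) * (bern (FreeGroup ι × J)).real {ω | Φ ω ≠ ψ ω} := by
        rw [Finset.sum_congr rfl (fun i _ => real_sh i hm), Finset.sum_const, Finset.card_univ,
          nsmul_eq_mul]
        ring

end GRD9aux

/-- GR-D9. The forward star inequality for the Bernoulli shift of a free group. -/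
theorem fs_free {ι J α : Type} [Fintype ι] [DecidableEq ι] [Fintype α] [MeasurableSpace α]
    [MeasurableSingletonClass α] {ψ : (FreeGroup ι × J → Bool) → α} (hψ : Measurable ψ) :
    (Fintype.card ι : ℝ) * ent (bern (FreeGroup ι × J)) ψ ≤
      ent (bern (FreeGroup ι × J)) (star ψ) := by
  have happ := fun n : ℕ => local_approx hψ (1 / ((n : ℝ) + 1)) (by positivity)
  choose D Φ hD hΦ using happ
  have hmeas : ∀ n, Measurable (Φ n) := fun n => measurable_of_depOn (hD n)
  have h0 : Filter.Tendsto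
      (fun n => (bern (FreeGroup ι × J)).real {ω | Φ n ω ≠ ψ ω}) Filter.atTop (nhds 0) :=
    squeeze_zero (fun _ => measureReal_nonneg) hΦ tendsto_one_div_add_atTop_nhds_zero_nat
  have h1 : Filter.Tendsto
      (fun n => (bern (FreeGroup ι × J)).real {ω | star (Φ n) ω ≠ star ψ ω}) Filter.atTop
      (nhds 0) := by
    apply squeeze_zero (fun _ => measureReal_nonneg)
      (fun n => GRD9aux.star_ne (hmeas n) hψ)
    simpa using h0.const_mul (1 + (Fintype.card ι : ℝ))
  have t1 := ent_tendsto (bern (FreeGroup ι × J)) hψ hmeas h0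
  have t2 := ent_tendsto (bern (FreeGroup ι × J)) (GRD9aux.measurable_star hψ)
    (fun n => GRD9aux.measurable_star (hmeas n)) h1
  exact le_of_tendsto_of_tendsto' (t1.const_mul _) t2 (fun n => fs_local (hD n))

end Pool.Agent.Helper23.GR
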