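import Pool.Agent.Helper23.GR.Defs
import Pool.Agent.Helper23.GR.St.D9
import Pool.Agent.Helper23.GR.St.D10
import Pool.Agent.Helper23.GR.St.D11
import Pool.Agent.Helper23.GR.St.D1

open MeasureTheory Real Finset

namespace Pool.Agent.Helper23.GR

open Pool.Agent.Helper42.Ent Pool.Agent.Helper70.C4

namespace GRD12aux

theorem ent_map {E F α : Type*} [MeasurableSpace E] [MeasurableSpace F] [Fintype α]
    [MeasurableSpace α] [MeasurableSingletonClass α] (P : Measure E) {g : E → F}
    (hg : Measurable g) {Y : F → α} (hY : Measurable Y) :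
    ent (P.map g) Y = ent P (fun x => Y (g x)) := by
  unfold ent
  apply sum_congr rfl
  intro s _
  congr 1
  unfold pr
  rw [map_measureReal_apply hg (hY (measurableSet_singleton s))]
  rfl

theorem measurable_reindex {A B : Type} (κ : A → B) :
    Measurable (fun (η : B → Bool) a => η (κ a)) :=
  measurable_pi_lambda _ (fun a => measurable_pi_apply (κ a))

end GRD12aux

open GRD12aux in
/-- GR-D12. The forward star inequality for Bernoulli shifts over free actions of
`Z2 * Z2 * Z2`. -/
theorem fs_bern {X : Type} {τ : Fin 3 → X → X} (hτ : ∀ i x, τ i (τ i x) = x) (hF : FreeW τ)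
    (ι α : Type) [Fintype ι] [DecidableEq ι] [Fintype α] [MeasurableSpace α]
    [MeasurableSingletonClass α] (p m : ℕ) (a : ι → List (Fin 3)) (ha : Sep p m a)
    (ψ : (X → Bool) → α) (hψ : Measurable ψ) :
    (Fintype.card ι : ℝ) * ent (bern X) ψ ≤
      ent (bern X) (fun ω => (ψ ω, fun i => ψ (run (TT τ) (a i) ω))) := by
  obtain ⟨ρ, hρ1, hρ2⟩ := sep_free hτ hF ha
  obtain ⟨J, e, he⟩ := orbit_decomp ρ hρ2
  let ψ' : (FreeGroup ι × J → Bool) → α := fun ω' => ψ (fun x => ω' (e.symm x))
  have hψ' : Measurable ψ' := hψ.comp (measurable_reindex e.symm)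
  have hmap : (bern X).map (fun ω z => ω (e z)) = bern (FreeGroup ι × J) :=
    bern_map_inj e.injective
  have hstar : Measurable (star ψ') := by
    refine hψ'.prodMk (measurable_pi_lambda _ (fun i => ?_))
    exact hψ'.comp (measurable_reindex (fun x : FreeGroup ι × J => (FreeGroup.of i * x.1, x.2)))
  have key := fs_free hψ'
  rw [← hmap, ent_map _ (measurable_reindex e) hψ', ent_map _ (measurable_reindex e) hstar] at key
  have h1 : ∀ ω : X → Bool, ψ' (fun z => ω (e z)) = ψ ω := by
    intro ω
    simp only [ψ', Equiv.apply_symm_apply]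
  have h2 : ∀ ω : X → Bool, star ψ' (fun z => ω (e z)) =
      (ψ ω, fun i => ψ (run (TT τ) (a i) ω)) := by
    intro ω
    unfold star
    rw [h1]
    congr 1
    funext i
    simp only [ψ']
    congr 1
    rw [run_TT]
    funext x
    rw [← hρ1]
    have := he (FreeGroup.of i) (e.symm x).1 (e.symm x).2
    rw [Prod.mk.eta, Equiv.apply_symm_apply] at this
    rw [this]
  simp only [h1, h2] at key
  exact key

end Pool.Agent.Helper23.GR
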