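import Pool.Agent.Helper23.GR.Defs
import Pool.Agent.Helper23.GR.St.D11
import Pool.Agent.Helper23.GR.St.D1
import Pool.Agent.Helper23.GR.St.R1

open MeasureTheory Real Finset

namespace Pool.Agent.Helper23.GR

open Pool.Agent.Helper42.Ent Pool.Agent.Helper70.C4

namespace GRD13aux

theorem coin_singleton (b : Bool) : coin {b} = 2⁻¹ := by
  rw [coin, Measure.smul_apply, Measure.add_apply]
  cases b <;> simp

theorem run_prod {X : Type} (τ : Fin 3 → X → X) (u : List (Fin 3)) (x : X) (n : ℕ) :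
    run (fun i (x : X × ℕ) => (τ i x.1, x.2)) u (x, n) = (run τ u x, n) := by
  induction u generalizing x with
  | nil => rfl
  | cons i u ih => exact ih (τ i x)

theorem pair_bound {X : Type} (x y : X) (hxy : x ≠ y) (N : ℕ) :
    bern (X × ℕ) {ω | ∀ n, ω (y, n) = ω (x, n)} ≤ (2⁻¹ : ENNReal) ^ N := by
  classical
  set s : Finset (X × ℕ) := ({x, y} : Finset X) ×ˢ Finset.range N with hs
  have hcard : s.card = 2 * N := by
    rw [hs, Finset.card_product, Finset.card_range, Finset.card_pair hxy]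
  let t : (Fin N → Bool) → X × ℕ → Set Bool :=
    fun c p => if h : p.2 < N then {c ⟨p.2, h⟩} else Set.univ
  have hsub : {ω : X × ℕ → Bool | ∀ n, ω (y, n) = ω (x, n)} ⊆
      ⋃ c : Fin N → Bool, Set.pi (s : Set (X × ℕ)) (t c) := by
    intro ω hω
    refine Set.mem_iUnion.2 ⟨fun n => ω (x, n), ?_⟩
    rintro ⟨z, n⟩ hp
    have hp' : (z, n) ∈ s := hp
    rw [hs, Finset.mem_product, Finset.mem_range] at hp'
    obtain ⟨hz, hn⟩ := hp'
    have hz' : z = x ∨ z = y := by simpa using hz
    show ω (z, n) ∈ t (fun n => ω (x, n)) (z, n)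
    have ht : t (fun n => ω (x, n)) (z, n) = {ω (x, n)} := by
      simp only [t]
      rw [dif_pos hn]
    rw [ht, Set.mem_singleton_iff]
    rcases hz' with rfl | rfl
    · rfl
    · exact hω n
  refine (measure_mono hsub).trans ((measure_iUnion_le _).trans ?_)
  have hm : ∀ c : Fin N → Bool, bern (X × ℕ) (Set.pi (s : Set (X × ℕ)) (t c)) =
      (2⁻¹ : ENNReal) ^ (2 * N) := by
    intro c
    unfold bern
    rw [Measure.infinitePi_pi (fun _ : X × ℕ => coin) (s := s) (t := t c)
      (fun i _ => MeasurableSet.of_discrete)]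
    rw [← hcard, ← Finset.prod_const]
    refine Finset.prod_congr rfl fun p hp => ?_
    have hn : p.2 < N := by
      rw [hs, Finset.mem_product, Finset.mem_range] at hp
      exact hp.2
    have ht : t c p = {c ⟨p.2, hn⟩} := by
      simp only [t]
      rw [dif_pos hn]
    rw [ht, coin_singleton]
  rw [tsum_fintype]
  simp only [hm]
  rw [Finset.sum_const, Finset.card_univ, Fintype.card_fun, Fintype.card_bool, Fintype.card_fin,
    nsmul_eq_mul]
  have h2 : ((2 ^ N : ℕ) : ENNReal) * (2⁻¹ : ENNReal) ^ (2 * N) = (2⁻¹ : ENNReal) ^ N := by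
    rw [two_mul, pow_add, ← mul_assoc]
    have : ((2 ^ N : ℕ) : ENNReal) * (2⁻¹ : ENNReal) ^ N = 1 := by
      push_cast
      rw [← mul_pow, ENNReal.mul_inv_cancel (by norm_num) (by norm_num), one_pow]
    rw [this, one_mul]
  exact h2.le

end GRD13aux

open GRD13aux in
/-- GR-D13. Almost all coin tosses have no symmetry. -/
theorem free_ae {X : Type} [Nonempty X] {τ : Fin 3 → X → X} (hτ : ∀ i x, τ i (τ i x) = x)
    (hF : FreeW τ) (w : List (Fin 3)) (hw : w ≠ []) (hw' : NB w) :
    (bern (X × ℕ)) {ω | run (TT (fun i (x : X × ℕ) => (τ i x.1, x.2))) w ω = ω} = 0 := by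
  classical
  obtain ⟨x0⟩ := ‹Nonempty X›
  have hne : run τ w.reverse x0 ≠ x0 := by
    refine hF w.reverse (by simpa using hw) ?_ x0
    rw [List.isChain_reverse]
    exact List.IsChain.imp (fun a b h => h.symm) hw'
  set y0 := run τ w.reverse x0 with hy
  have hsub : {ω : X × ℕ → Bool | run (TT (fun i (x : X × ℕ) => (τ i x.1, x.2))) w ω = ω} ⊆
      {ω | ∀ n, ω (y0, n) = ω (x0, n)} := by
    intro ω hω n
    have h1 : run (TT (fun i (x : X × ℕ) => (τ i x.1, x.2))) w ω = ω := hω
    rw [run_TT] at h1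
    have h2 := congrFun h1 (x0, n)
    simp only [run_prod] at h2
    exact h2
  have hbound : ∀ N : ℕ, bern (X × ℕ)
      {ω | run (TT (fun i (x : X × ℕ) => (τ i x.1, x.2))) w ω = ω} ≤ (2⁻¹ : ENNReal) ^ N :=
    fun N => (measure_mono hsub).trans (pair_bound x0 y0 hne.symm N)
  have hlim : Filter.Tendsto (fun N : ℕ => (2⁻¹ : ENNReal) ^ N) Filter.atTop (nhds 0) :=
    ENNReal.tendsto_pow_atTop_nhds_zero_of_lt_one (ENNReal.inv_lt_one.2 (by norm_num))
  exact le_antisymm (ge_of_tendsto' hlim hbound) zero_le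

end Pool.Agent.Helper23.GR
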