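import Pool.Agent.Helper23.GR.Defs
import Pool.Agent.Helper23.GR.St.R1

open MeasureTheory Real Finset

namespace Pool.Agent.Helper23.GR

open Pool.Agent.Helper42.Ent Pool.Agent.Helper70.C4

namespace GRD14aux

theorem comap_real {Ω : Type} [MeasurableSpace Ω] (μ : Measure Ω) {A : Set Ω}
    (hA : MeasurableSet A) (hfull : μ Aᶜ = 0) (B : Set Ω) :
    (μ.comap (Subtype.val : A → Ω)) (Subtype.val ⁻¹' B) = μ B := by
  rw [(MeasurableEmbedding.subtype_coe hA).comap_apply, Subtype.image_preimage_coe]
  apply le_antisymm (measure_mono Set.inter_subset_right)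
  calc μ B ≤ μ ((A ∩ B) ∪ Aᶜ) := by
        apply measure_mono
        intro x hx
        by_cases h : x ∈ A
        · exact Or.inl ⟨h, hx⟩
        · exact Or.inr h
    _ ≤ μ (A ∩ B) + μ Aᶜ := measure_union_le _ _
    _ = μ (A ∩ B) := by rw [hfull, add_zero]

theorem ent_comap {Ω : Type} [MeasurableSpace Ω] (μ : Measure Ω) {A : Set Ω}
    (hA : MeasurableSet A) (hfull : μ Aᶜ = 0) {β : Type*} [Fintype β] (g : Ω → β) (f : A → β)
    (hf : ∀ x : A, f x = g x) :
    ent (μ.comap (Subtype.val : A → Ω)) f = ent μ g := by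
  unfold ent
  refine Finset.sum_congr rfl fun s _ => ?_
  congr 1
  unfold pr
  rw [Measure.real, Measure.real]
  congr 1
  have : f ⁻¹' {s} = Subtype.val ⁻¹' (g ⁻¹' {s}) := by
    ext x
    simp [hf x]
  rw [this, comap_real μ hA hfull]

end GRD14aux

/-- GR-D14. Restriction of a system to an invariant set of full measure. -/
theorem sys_restrict {Ω : Type} [MeasurableSpace Ω] (S : Sys Ω) {A : Set Ω}
    (hA : MeasurableSet A) (hfull : S.μ Aᶜ = 0) (hinv : ∀ i x, x ∈ A → S.T i x ∈ A) :
    ∃ S' : Sys A, (∀ i (x : A), (S'.T i x : Ω) = S.T i x) ∧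
      S'.μ = S.μ.comap (Subtype.val : A → Ω) := by
  classical
  have hprob : IsProbabilityMeasure (S.μ.comap (Subtype.val : A → Ω)) := by
    constructor
    have := GRD14aux.comap_real S.μ hA hfull Set.univ
    rw [Set.preimage_univ] at this
    rw [this]
    exact measure_univ
  let T' : Fin 3 → A → A := fun i x => ⟨S.T i x, hinv i x x.2⟩
  have hmeas : ∀ i, Measurable (T' i) := fun i =>
    ((S.mp i).measurable.comp measurable_subtype_coe).subtype_mk
  have hrun : ∀ (w : List (Fin 3)) (x : A), ((run T' w x : A) : Ω) = run S.T w x := by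
    intro w
    induction w with
    | nil => intro x; rfl
    | cons i l ih => intro x; exact ih (T' i x)
  refine ⟨⟨S.μ.comap (Subtype.val : A → Ω), hprob, T', ?_, ?_, ?_⟩, fun i x => rfl, rfl⟩
  · intro i
    refine ⟨hmeas i, ?_⟩
    ext B hB
    rw [Measure.map_apply (hmeas i) hB]
    have h1 : (T' i) ⁻¹' B = Subtype.val ⁻¹' (S.T i ⁻¹' (Subtype.val '' B)) := by
      ext x
      constructor
      · intro hx
        exact ⟨T' i x, hx, rfl⟩
      · rintro ⟨y, hy, hyx⟩
        have : T' i x = y := Subtype.ext hyx.symm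
        change T' i x ∈ B
        rw [this]
        exact hy
    have h2 : B = Subtype.val ⁻¹' (Subtype.val '' B : Set Ω) :=
      (Set.preimage_image_eq B Subtype.val_injective).symm
    rw [h1, GRD14aux.comap_real S.μ hA hfull]
    conv_rhs => rw [h2, GRD14aux.comap_real S.μ hA hfull]
    have hB' : MeasurableSet (Subtype.val '' B : Set Ω) :=
      (MeasurableEmbedding.subtype_coe hA).measurableSet_image.2 hB
    exact (S.mp i).measure_preimage hB'.nullMeasurableSet
  · intro i x
    exact Subtype.ext (S.invol i x)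
  · intro ι α _ _ _ _ _ p m a hsep ψ hψ
    have hne : Nonempty A := by
      by_contra hcon
      rw [not_nonempty_iff] at hcon
      have h1 : (S.μ.comap (Subtype.val : A → Ω)) Set.univ = 1 := measure_univ
      rw [Set.univ_eq_empty_iff.2 hcon, measure_empty] at h1
      exact zero_ne_one h1
    obtain ⟨x0⟩ := hne
    let ψ' : Ω → α := fun x => if h : x ∈ A then ψ ⟨x, h⟩ else ψ x0
    have hψ' : Measurable ψ' := by
      exact Measurable.dite (s := A) (g := fun _ => ψ x0) hψ measurable_const hA
    have hψv : ∀ x : A, ψ x = ψ' x := by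
      intro x
      simp only [ψ']
      rw [dif_pos x.2]
    have h1 := S.fs ι α p m a hsep ψ' hψ'
    rw [GRD14aux.ent_comap S.μ hA hfull ψ' ψ hψv,
      GRD14aux.ent_comap S.μ hA hfull (fun x => (ψ' x, fun i => ψ' (run S.T (a i) x)))
        (fun x => (ψ x, fun i => ψ (run T' (a i) x)))]
    · exact h1
    · intro x
      refine Prod.ext (hψv x) ?_
      funext i
      change ψ (run T' (a i) x) = ψ' (run S.T (a i) x)
      rw [← hrun, hψv]

/-- the largest invariant subset of a set of full measure -/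
theorem exists_invariant {Ω : Type} [MeasurableSpace Ω] (S : Sys Ω) {B : Set Ω}
    (hB : MeasurableSet B) (hfull : S.μ Bᶜ = 0) :
    ∃ A : Set Ω, MeasurableSet A ∧ S.μ Aᶜ = 0 ∧ A ⊆ B ∧ ∀ i x, x ∈ A → S.T i x ∈ A := by
  refine ⟨⋂ w : List (Fin 3), run S.T w ⁻¹' B, ?_, ?_, ?_, ?_⟩
  · exact MeasurableSet.iInter fun w => (mp_run S w).measurable hB
  · rw [Set.compl_iInter, measure_iUnion_null_iff]
    intro w
    rw [← Set.preimage_compl, (mp_run S w).measure_preimage hB.compl.nullMeasurableSet]
    exact hfull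
  · intro x hx
    exact Set.mem_iInter.1 hx []
  · intro i x hx
    rw [Set.mem_iInter] at hx ⊢
    intro w
    exact hx (i :: w)

end Pool.Agent.Helper23.GR
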