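import Pool.Agent.Helper23.GR.Defs
import Pool.Agent.Helper23.GR.St.D12
import Pool.Agent.Helper23.GR.St.D13
import Pool.Agent.Helper23.GR.St.D14
import Pool.Agent.Helper70.C4.UnivSpace

open MeasureTheory Real Finset

namespace Pool.Agent.Helper23.GR

open Pool.Agent.Helper42.Ent Pool.Agent.Helper70.C4

namespace GRD15aux

theorem rho_up (w : List (Fin 3)) : ∀ x : RW, NB w →
    (∀ i ∈ w.head?, ∀ j ∈ x.1.head?, i ≠ j) → (run rho w x).1 = w.reverse ++ x.1 := by
  induction w with
  | nil => intro x _ _; rfl
  | cons i l ih =>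
    intro x hc hx
    have h1 : (rho i x).1 = i :: x.1 := by
      obtain ⟨x, hx'⟩ := x
      cases x with
      | nil => rfl
      | cons j t =>
        have hj : j ≠ i := by
          have := hx i (by simp) j (by simp)
          exact fun e => this e.symm
        simp only [rho, dif_neg hj]
    have h2 := ih (rho i x) (List.IsChain.tail hc) (by
      intro a ha b hb
      rw [h1] at hb
      have hb' : b = i := by simpa using hb.symm
      rw [hb']
      cases l with
      | nil => simp at ha
      | cons k t =>
        have ha' : a = k := by simpa using ha.symm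
        rw [ha']
        exact (List.isChain_cons_cons.1 hc).1.symm)
    show (run rho l (rho i x)).1 = _
    rw [h2, h1, List.reverse_cons, List.append_assoc]
    rfl

theorem rho_run (w : List (Fin 3)) : ∀ x : RW, NB w →
    ∃ p w' x' : List (Fin 3), w = p ++ w' ∧ x.1 = p ++ x' ∧
      (run rho w x).1 = w'.reverse ++ x' := by
  induction w with
  | nil => intro x _; exact ⟨[], [], x.1, rfl, rfl, rfl⟩
  | cons i l ih =>
    intro x hc
    by_cases hx : ∀ j ∈ x.1.head?, i ≠ j
    · refine ⟨[], i :: l, x.1, rfl, rfl, ?_⟩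
      exact rho_up (i :: l) x hc (by
        intro a ha b hb
        have ha' : a = i := by simpa using ha.symm
        rw [ha']
        exact hx b hb)
    · push Not at hx
      obtain ⟨j, hj, hij⟩ := hx
      obtain ⟨x, hx'⟩ := x
      cases x with
      | nil => simp at hj
      | cons k t =>
        have hk : k = i := by
          have : k = j := by simpa using hj
          rw [this, hij]
        subst hk
        have h1 : rho k ⟨k :: t, hx'⟩ = ⟨t, hx'.tail⟩ := by
          simp only [rho, dif_pos]
        obtain ⟨p, w', x', e1, e2, e3⟩ := ih ⟨t, hx'.tail⟩ (List.IsChain.tail hc)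
        refine ⟨k :: p, w', x', by rw [e1]; rfl, ?_, ?_⟩
        · show k :: t = k :: p ++ x'
          rw [List.cons_append]
          exact congrArg _ e2
        · show (run rho l (rho k ⟨k :: t, hx'⟩)).1 = _
          rw [h1]
          exact e3

theorem free_rho : FreeW rho := by
  intro w hw hc x hx
  obtain ⟨p, w', x', e1, e2, e3⟩ := rho_run w x hc
  rw [hx, e2] at e3
  have h1 : p = w'.reverse := List.append_cancel_right e3
  have h2 : w' = p.reverse := by rw [h1, List.reverse_reverse]
  rw [h2] at e1
  have h3 : p ≠ [] := by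
    rintro rfl
    exact hw (by simpa using e1)
  have h4 : NB (p ++ p.reverse) := e1 ▸ hc
  rw [NB, List.isChain_append] at h4
  have h5 := h4.2.2 (p.getLast h3) (by simp [List.getLast?_eq_some_getLast h3])
    (p.getLast h3) (by rw [List.head?_reverse]; simp [List.getLast?_eq_some_getLast h3])
  exact h5 rfl

end GRD15aux

open GRD15aux GRD13aux in
/-- GR-D15. There is a free system on a standard Borel space. -/
theorem exists_sys : ∃ (Ω : Type) (_ : MeasurableSpace Ω) (_ : StandardBorelSpace Ω)
    (S : Sys Ω), FreeW S.T := by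
  classical
  haveI : Nonempty RW := ⟨rnil⟩
  let τ' : Fin 3 → RW × ℕ → RW × ℕ := fun i x => (rho i x.1, x.2)
  have hτ' : ∀ i x, τ' i (τ' i x) = x := by
    rintro i ⟨x, n⟩
    show (rho i (rho i x), n) = (x, n)
    rw [rho_rho]
  have hF' : FreeW τ' := by
    rintro w hw hc ⟨x, n⟩ h
    have h1 := run_prod rho w x n
    have h2 : (run rho w x, n) = (x, n) := h1.symm.trans h
    exact free_rho w hw hc x (congrArg Prod.fst h2)
  let S0 : Sys (RW × ℕ → Bool) :=
    { μ := bern (RW × ℕ)
      prob := inferInstance
      T := TT τ'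
      mp := fun i => mp_TT hτ' i
      invol := fun i ω => by
        funext x
        show ω (τ' i (τ' i x)) = ω x
        rw [hτ']
      fs := fun ι α _ _ _ _ _ p m a ha ψ hψ => fs_bern hτ' hF' ι α p m a ha ψ hψ }
  let B : Set (RW × ℕ → Bool) := ⋂ w : {w : List (Fin 3) // w ≠ [] ∧ NB w},
    {ω | run S0.T w.1 ω = ω}ᶜ
  have hmeas : ∀ w : List (Fin 3), MeasurableSet {ω | run S0.T w ω = ω} := by
    intro w
    have hr : Measurable (run S0.T w) := (mp_run S0 w).measurable
    have : {ω | run S0.T w ω = ω} = ⋂ x : RW × ℕ, {ω | run S0.T w ω x = ω x} := by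
      ext ω
      simp only [Set.mem_setOf_eq, Set.mem_iInter]
      exact funext_iff
    rw [this]
    refine MeasurableSet.iInter fun x => ?_
    exact measurableSet_eq_fun ((measurable_pi_apply x).comp hr)
      (measurable_pi_apply x)
  have hB : MeasurableSet B := MeasurableSet.iInter fun w => (hmeas w.1).compl
  have hfull : S0.μ Bᶜ = 0 := by
    show S0.μ (⋂ w : {w : List (Fin 3) // w ≠ [] ∧ NB w}, {ω | run S0.T w.1 ω = ω}ᶜ)ᶜ = 0
    rw [Set.compl_iInter, measure_iUnion_null_iff]
    rintro ⟨w, hw, hw'⟩
    rw [compl_compl]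
    exact free_ae (τ := rho) rho_rho free_rho w hw hw'
  obtain ⟨A, hA, hAfull, hAB, hAinv⟩ := exists_invariant S0 hB hfull
  obtain ⟨S', hS', -⟩ := sys_restrict S0 hA hAfull hAinv
  refine ⟨A, inferInstance, hA.standardBorel, S', ?_⟩
  intro w hw hc x hx
  have hrun : ∀ (w : List (Fin 3)) (x : A), ((run S'.T w x : A) : RW × ℕ → Bool) =
      run S0.T w x := by
    intro w
    induction w with
    | nil => intro x; rfl
    | cons i l ih =>
      intro x
      show ((run S'.T l (S'.T i x) : A) : RW × ℕ → Bool) = run S0.T l (S0.T i x)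
      rw [ih, hS']
  have h1 : run S0.T w x = x := by rw [← hrun, hx]
  have h2 := Set.mem_iInter.1 (hAB x.2) ⟨w, hw, hc⟩
  exact h2 h1

end Pool.Agent.Helper23.GR
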