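import Pool.Agent.Helper23.GR.Defs
import Pool.Agent.Helper23.GR.St.E1

open MeasureTheory Real Finset

namespace Pool.Agent.Helper23.GR

open Pool.Agent.Helper42.Ent Pool.Agent.Helper70.C4

variable {E : Type*} [MeasurableSpace E] {α β γ : Type*}
  [Fintype α] [MeasurableSpace α] [MeasurableSingletonClass α]
  [Fintype β] [MeasurableSpace β] [MeasurableSingletonClass β]
  [Fintype γ] [MeasurableSpace γ] [MeasurableSingletonClass γ]

open Classical in
/-- GR-E3. If `X` is often in a short list determined by `Y` then the mutual information is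
large. -/
theorem list_bound (P : Measure E) [IsProbabilityMeasure P] {X : E → α} {Y : E → β}
    (hX : Measurable X) (hY : Measurable Y) (Ls : β → Finset α) (L : ℕ)
    (hL : ∀ y, (Ls y).card ≤ L) :
    (∑ s : α × β, if s.1 ∈ Ls s.2 then
      pr P (fun x => (X x, Y x)) s * (-Real.log (pr P X s.1)) else 0) - Real.log (L + 1) ≤
      MI P X Y := by
  have hd := dv P hX hY (fun s : α × β => if s.1 ∈ Ls s.2 then -Real.log (pr P X s.1) else 0)
  have e1 : (∑ s : α × β, if s.1 ∈ Ls s.2 then
      pr P (fun x => (X x, Y x)) s * (-Real.log (pr P X s.1)) else 0) =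
      ∑ s : α × β, pr P (fun x => (X x, Y x)) s *
        (if s.1 ∈ Ls s.2 then -Real.log (pr P X s.1) else 0) := by
    apply sum_congr rfl
    intro s _
    split_ifs <;> simp
  rw [e1]
  have hprod : ∑ s : α × β, pr P X s.1 * pr P Y s.2 = 1 := by
    rw [Fintype.sum_prod_type]
    simp_rw [← Finset.mul_sum]
    rw [sum_pr P hY]
    simp [sum_pr P hX]
  have hlow : (1 : ℝ) ≤ ∑ s : α × β, pr P X s.1 * pr P Y s.2 *
      Real.exp (if s.1 ∈ Ls s.2 then -Real.log (pr P X s.1) else 0) := by
    rw [← hprod]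
    apply sum_le_sum
    intro s _
    have h0 : 0 ≤ pr P X s.1 * pr P Y s.2 := mul_nonneg (pr_nonneg _ _ _) (pr_nonneg _ _ _)
    have h1 : (1 : ℝ) ≤ Real.exp (if s.1 ∈ Ls s.2 then -Real.log (pr P X s.1) else 0) := by
      apply Real.one_le_exp
      split_ifs
      · have := Real.log_nonpos (pr_nonneg P X s.1) (pr_le_one P X s.1)
        linarith
      · exact le_rfl
    nlinarith
  have hup : ∑ s : α × β, pr P X s.1 * pr P Y s.2 *
      Real.exp (if s.1 ∈ Ls s.2 then -Real.log (pr P X s.1) else 0) ≤ (L : ℝ) + 1 := by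
    have hterm : ∀ s : α × β, pr P X s.1 * pr P Y s.2 *
        Real.exp (if s.1 ∈ Ls s.2 then -Real.log (pr P X s.1) else 0) ≤
        pr P X s.1 * pr P Y s.2 + pr P Y s.2 * (if s.1 ∈ Ls s.2 then 1 else 0) := by
      intro s
      have hX0 := pr_nonneg P X s.1
      have hY0 := pr_nonneg P Y s.2
      have hXY : 0 ≤ pr P X s.1 * pr P Y s.2 := mul_nonneg hX0 hY0
      split_ifs
      · rcases hX0.eq_or_lt with h | h
        · rw [← h]; simpa using hY0
        · rw [Real.exp_neg, Real.exp_log h]
          have : pr P X s.1 * pr P Y s.2 * (pr P X s.1)⁻¹ = pr P Y s.2 := by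
            field_simp
          rw [this]
          linarith
      · simp
    refine (sum_le_sum fun s _ => hterm s).trans ?_
    rw [sum_add_distrib, hprod, Fintype.sum_prod_type_right]
    have h2 : ∀ y : β, ∑ x : α, pr P Y y * (if x ∈ Ls y then (1 : ℝ) else 0) =
        pr P Y y * ((Ls y).card : ℝ) := by
      intro y
      rw [← Finset.mul_sum]
      congr 1
      rw [Finset.sum_ite_mem]
      simp
    have h3 : ∑ y : β, ∑ x : α, pr P Y y * (if x ∈ Ls y then (1 : ℝ) else 0) ≤ (L : ℝ) := by
      calc ∑ y : β, ∑ x : α, pr P Y y * (if x ∈ Ls y then (1 : ℝ) else 0)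
          = ∑ y : β, pr P Y y * ((Ls y).card : ℝ) := sum_congr rfl fun y _ => h2 y
        _ ≤ ∑ y : β, pr P Y y * (L : ℝ) := by
            apply sum_le_sum
            intro y _
            apply mul_le_mul_of_nonneg_left _ (pr_nonneg _ _ _)
            exact_mod_cast hL y
        _ = L := by rw [← Finset.sum_mul, sum_pr P hY, one_mul]
    linarith
  have hlog := Real.log_le_log (lt_of_lt_of_le one_pos hlow) hup
  linarith

end Pool.Agent.Helper23.GR
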