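import Pool.Agent.Helper23.GR.Defs

open MeasureTheory Real Finset

namespace Pool.Agent.Helper23.GR

open Pool.Agent.Helper42.Ent Pool.Agent.Helper70.C4

namespace GRE6aux

lemma card_hash {V : Type*} [Fintype V] [DecidableEq V] (K : ℕ) {u v : V} (huv : u ≠ v) :
    (∑ h : V → Fin K, (if h u = h v then (1 : ℝ) else 0)) * K =
      (Fintype.card (V → Fin K) : ℝ) := by
  have e : {h : V → Fin K // h u = h v} × Fin K ≃ (V → Fin K) :=
    { toFun := fun p => Function.update p.1.1 u p.2
      invFun := fun g => (⟨Function.update g u (g v), by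
        rw [Function.update_self, Function.update_of_ne huv.symm]⟩, g u)
      left_inv := by
        rintro ⟨⟨h, hh⟩, c⟩
        have hh' : h u = h v := hh
        refine Prod.ext (Subtype.ext ?_) ?_
        · change Function.update (Function.update h u c) u ((Function.update h u c) v) = h
          rw [Function.update_idem, Function.update_of_ne huv.symm, ← hh',
            Function.update_eq_self]
        · change (Function.update h u c) u = c
          rw [Function.update_self]
      right_inv := by
        intro g
        change Function.update (Function.update g u (g v)) u (g u) = g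
        rw [Function.update_idem, Function.update_eq_self] }
  have h1 := Fintype.card_congr e
  rw [Fintype.card_prod, Fintype.card_fin, Fintype.card_subtype] at h1
  rw [← h1, Finset.sum_boole, Nat.cast_mul]

end GRE6aux

/-- GR-E6. Hashing a probability vector to `K` values with few new collisions. -/
theorem exists_hash {V : Type*} [Fintype V] [DecidableEq V] (ν : V → ℝ) (h0 : ∀ v, 0 ≤ ν v)
    (h1 : ∑ v, ν v = 1) (K : ℕ) (hK : 0 < K) :
    ∃ h : V → Fin K, ∑ c, (∑ v ∈ univ.filter (fun v => h v = c), ν v) ^ 2 ≤
      ∑ v, ν v ^ 2 + 1 / K := by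
  classical
  have hne : NeZero K := ⟨hK.ne'⟩
  have hK' : (0 : ℝ) < K := by exact_mod_cast hK
  set N : ℝ := (Fintype.card (V → Fin K) : ℝ) with hN
  have hN0 : 0 ≤ N := Nat.cast_nonneg _
  have expand : ∀ h : V → Fin K, ∑ c, (∑ v ∈ univ.filter (fun v => h v = c), ν v) ^ 2 =
      ∑ u, ∑ v, ν u * ν v * (if h u = h v then 1 else 0) := by
    intro h
    have s1 : ∀ c, (∑ v ∈ univ.filter (fun v => h v = c), ν v) ^ 2 =
        ∑ u, ∑ v, (if h u = c then ν u else 0) * (if h v = c then ν v else 0) := by
      intro c
      rw [Finset.sum_filter, sq, Finset.sum_mul_sum]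
    simp_rw [s1]
    rw [Finset.sum_comm]
    refine Finset.sum_congr rfl fun u _ => ?_
    rw [Finset.sum_comm]
    refine Finset.sum_congr rfl fun v _ => ?_
    rw [Finset.sum_eq_single (h u)]
    · by_cases hh : h u = h v
      · simp [hh]
      · simp [hh, Ne.symm hh]
    · intro c _ hc
      rw [if_neg (Ne.symm hc), zero_mul]
    · intro hh
      exact absurd (Finset.mem_univ _) hh
  have hsum : ∑ h : V → Fin K, ∑ c, (∑ v ∈ univ.filter (fun v => h v = c), ν v) ^ 2 ≤
      ∑ _h : V → Fin K, (∑ v, ν v ^ 2 + 1 / (K : ℝ)) := by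
    simp_rw [expand]
    rw [Finset.sum_comm]
    have s2 : ∀ u, ∑ h : V → Fin K, ∑ v, ν u * ν v * (if h u = h v then (1 : ℝ) else 0) ≤
        ∑ v, ((if u = v then N * (ν v) ^ 2 else 0) + ν u * ν v * (N / K)) := by
      intro u
      rw [Finset.sum_comm]
      refine Finset.sum_le_sum fun v _ => ?_
      rw [← Finset.mul_sum]
      by_cases huv : u = v
      · subst huv
        rw [if_pos rfl]
        have : ∑ h : V → Fin K, (if h u = h u then (1 : ℝ) else 0) = N := by
          simp [hN]
        rw [this]
        have h3 : 0 ≤ ν u * ν u * (N / K) :=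
          mul_nonneg (mul_nonneg (h0 u) (h0 u)) (div_nonneg hN0 hK'.le)
        nlinarith
      · rw [if_neg huv, zero_add]
        have h3 := GRE6aux.card_hash K huv
        rw [← eq_div_iff hK'.ne'] at h3
        rw [h3]
    refine (Finset.sum_le_sum fun u _ => s2 u).trans ?_
    simp_rw [Finset.sum_add_distrib]
    have s3 : ∑ u, ∑ v, (if u = v then N * (ν v) ^ 2 else 0) = N * ∑ v, ν v ^ 2 := by
      rw [Finset.mul_sum]
      refine Finset.sum_congr rfl fun u _ => ?_
      rw [Finset.sum_ite_eq]
      simp
    have s4 : ∑ u, ∑ v, ν u * ν v * (N / K) = N / K := by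
      simp_rw [← Finset.sum_mul, ← Finset.mul_sum]
      rw [h1]
      simp [h1]
    rw [s3, s4]
    simp only [Finset.sum_const, Finset.card_univ, nsmul_eq_mul]
    rw [← hN]
    apply le_of_eq
    ring
  obtain ⟨h, _, hh⟩ := Finset.exists_le_of_sum_le (Finset.univ_nonempty) hsum
  exact ⟨h, hh⟩

end Pool.Agent.Helper23.GR
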