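import Pool.Agent.Helper23.GR.Defs

open MeasureTheory Real Finset

namespace Pool.Agent.Helper23.GR

open Pool.Agent.Helper42.Ent Pool.Agent.Helper70.C4

/-- GR-G1. Short paths in a graph of large girth are determined by their ends. -/
theorem path_unique_short {V : Type*} {H : SimpleGraph V} {u v : V} (p q : H.Walk u v)
    (hp : p.IsPath) (hq : q.IsPath) (h : ((p.length + q.length : ℕ) : ℕ∞) < H.egirth) :
    p = q := by
  classical
  let K : SimpleGraph V := SimpleGraph.fromEdgeSet {e | e ∈ p.edges ∨ e ∈ q.edges}
  have hmem : ∀ e ∈ H.edgeSet, (e ∈ p.edges ∨ e ∈ q.edges) → e ∈ K.edgeSet := by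
    intro e he hpq
    rw [SimpleGraph.edgeSet_fromEdgeSet]
    exact ⟨hpq, H.not_isDiag_of_mem_edgeSet he⟩
  have hmem' : ∀ e ∈ K.edgeSet, e ∈ p.edges ∨ e ∈ q.edges := by
    intro e he
    rw [SimpleGraph.edgeSet_fromEdgeSet] at he
    exact he.1
  have hKH : K ≤ H := by
    rw [← SimpleGraph.edgeSet_subset_edgeSet]
    intro e he
    rcases hmem' e he with h1 | h1
    · exact p.edges_subset_edgeSet h1
    · exact q.edges_subset_edgeSet h1
  have hac : K.IsAcyclic := by
    intro a c hc
    have h1 : H.egirth ≤ ((c.mapLe hKH).length : ℕ∞) :=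
      SimpleGraph.egirth_le_length (hc.mapLe hKH)
    have h2 : c.edges ⊆ p.edges ++ q.edges := by
      intro e he
      rw [List.mem_append]
      exact hmem' e (c.edges_subset_edgeSet he)
    have h3 : c.edges.length ≤ (p.edges ++ q.edges).length :=
      (hc.edges_nodup.subperm h2).length_le
    rw [List.length_append, SimpleGraph.Walk.length_edges, SimpleGraph.Walk.length_edges,
      SimpleGraph.Walk.length_edges] at h3
    have h4 : (c.mapLe hKH).length = c.length := SimpleGraph.Walk.length_map _ _
    rw [h4] at h1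
    have h5 : ((p.length + q.length : ℕ) : ℕ∞) < (c.length : ℕ∞) := lt_of_lt_of_le h h1
    have h6 : p.length + q.length < c.length := by exact_mod_cast h5
    omega
  have hp1 : ∀ e ∈ p.edges, e ∈ K.edgeSet := fun e he =>
    hmem e (p.edges_subset_edgeSet he) (Or.inl he)
  have hq1 : ∀ e ∈ q.edges, e ∈ K.edgeSet := fun e he =>
    hmem e (q.edges_subset_edgeSet he) (Or.inr he)
  have huniq : p.transfer K hp1 = q.transfer K hq1 := by
    have := (hac.subsingleton_path u v).elim ⟨p.transfer K hp1, hp.transfer hp1⟩
      ⟨q.transfer K hq1, hq.transfer hq1⟩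
    exact congrArg Subtype.val this
  apply SimpleGraph.Walk.ext_support
  have h1 : (p.transfer K hp1).support = p.support := SimpleGraph.Walk.support_transfer _ _
  have h2 : (q.transfer K hq1).support = q.support := SimpleGraph.Walk.support_transfer _ _
  rw [← h1, ← h2, huniq]

end Pool.Agent.Helper23.GR
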