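import Pool.Agent.Helper23.GR.Defs
import Pool.Agent.Helper23.GR.St.G1

open MeasureTheory Real Finset

namespace Pool.Agent.Helper23.GR

open Pool.Agent.Helper42.Ent Pool.Agent.Helper70.C4

namespace GRG2aux

/-- the walk of a sequence -/
theorem exists_walk {V : Type*} {H : SimpleGraph V} (x : ℕ → V) (n : ℕ)
    (hadj : ∀ t, t < n → H.Adj (x t) (x (t + 1))) :
    ∃ p : H.Walk (x 0) (x n), p.length = n ∧
      p.support = (List.range (n + 1)).map x := by
  induction n with
  | zero => exact ⟨SimpleGraph.Walk.nil, rfl, by simp⟩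
  | succ n ih =>
    obtain ⟨p, hp, hs⟩ := ih fun t ht => hadj t (by omega)
    refine ⟨p.concat (hadj n (by omega)), ?_, ?_⟩
    · rw [SimpleGraph.Walk.length_concat, hp]
    · rw [SimpleGraph.Walk.support_concat, hs, List.range_succ (n := n + 1), List.map_append]
      simp

/-- the walk is a path if the sequence is injective -/
theorem exists_path {V : Type*} {H : SimpleGraph V} (x : ℕ → V) (n : ℕ)
    (hadj : ∀ t, t < n → H.Adj (x t) (x (t + 1)))
    (hinj : ∀ i j, i < j → j ≤ n → x i ≠ x j) :
    ∃ p : H.Walk (x 0) (x n), p.IsPath ∧ p.length = n := by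
  obtain ⟨p, hp, hs⟩ := exists_walk x n hadj
  refine ⟨p, ?_, hp⟩
  rw [SimpleGraph.Walk.isPath_def, hs]
  apply List.Nodup.map_on _ List.nodup_range
  intro i hi j hj hij
  rw [List.mem_range] at hi hj
  by_contra hne
  rcases Nat.lt_or_gt_of_ne hne with h | h
  · exact hinj i j h (by omega) hij
  · exact hinj j i h (by omega) hij.symm

theorem inj {V : Type*} {H : SimpleGraph V} (n : ℕ) : ∀ x : ℕ → V,
    (∀ t, t < n → H.Adj (x t) (x (t + 1))) → (∀ t, t + 2 ≤ n → x t ≠ x (t + 2)) →
    (((2 * n : ℕ) : ℕ∞) < H.egirth) → ∀ i j, i < j → j ≤ n → x i ≠ x j := by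
  induction n with
  | zero =>
    intro x _ _ _ i j hij hj
    omega
  | succ n ih =>
    intro x hadj hnb hg i j hij hj
    have hg' : ((2 * n : ℕ) : ℕ∞) < H.egirth := by
      refine lt_of_le_of_lt ?_ hg
      exact_mod_cast (by omega : 2 * n ≤ 2 * (n + 1))
    have h1 := ih x (fun t ht => hadj t (by omega)) (fun t ht => hnb t (by omega)) hg'
    by_cases hjn : j ≤ n
    · exact h1 i j hij hjn
    have hjn' : j = n + 1 := by omega
    subst hjn'
    by_cases hi : i = 0
    · subst hi
      intro heq
      by_cases hn : n = 0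
      · subst hn
        exact (hadj 0 (by omega)).ne heq
      obtain ⟨p, hp, hpl⟩ := exists_path x n (fun t ht => hadj t (by omega)) h1
      have hadj' : H.Adj (x 0) (x n) := by
        rw [heq]
        exact (hadj n (by omega)).symm
      have hq : (SimpleGraph.Walk.cons hadj' SimpleGraph.Walk.nil).IsPath := by
        rw [SimpleGraph.Walk.cons_isPath_iff]
        refine ⟨SimpleGraph.Walk.IsPath.nil, ?_⟩
        simpa using hadj'.ne
      have h2 := path_unique_short p _ hp hq (by
        refine lt_of_le_of_lt ?_ hg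
        have : p.length + (SimpleGraph.Walk.cons hadj' SimpleGraph.Walk.nil).length
            ≤ 2 * (n + 1) := by
          rw [hpl, SimpleGraph.Walk.length_cons, SimpleGraph.Walk.length_nil]
          omega
        exact_mod_cast this)
      have h3 : p.length = 1 := by
        rw [h2]
        simp
      rw [hpl] at h3
      subst h3
      exact hnb 0 (by omega) heq
    · have h2 := ih (fun t => x (t + 1)) (fun t ht => hadj (t + 1) (by omega))
        (fun t ht => hnb (t + 1) (by omega)) hg' (i - 1) n (by omega) le_rfl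
      simpa [Nat.sub_add_cancel (by omega : 1 ≤ i)] using h2

end GRG2aux

open GRG2aux in
/-- GR-G2. A short nonbacktracking walk is a geodesic (sequence form). -/
theorem nb_edist {V : Type*} {H : SimpleGraph V} {x : ℕ → V} {n : ℕ}
    (hadj : ∀ t, t < n → H.Adj (x t) (x (t + 1))) (hnb : ∀ t, t + 2 ≤ n → x t ≠ x (t + 2))
    (hg : ((2 * n : ℕ) : ℕ∞) < H.egirth) : H.edist (x 0) (x n) = n := by
  obtain ⟨p, hp, hpl⟩ := exists_path x n hadj (inj n x hadj hnb hg)
  have hreach : H.Reachable (x 0) (x n) := ⟨p⟩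
  obtain ⟨q, hq, hql⟩ := hreach.exists_path_of_dist
  have hle : H.dist (x 0) (x n) ≤ n := le_of_le_of_eq (SimpleGraph.dist_le p) hpl
  have h2 := path_unique_short p q hp hq (by
    refine lt_of_le_of_lt ?_ hg
    exact_mod_cast (by omega : p.length + q.length ≤ 2 * n))
  rw [← hreach.coe_dist_eq_edist, ← hql, ← h2, hpl]

end Pool.Agent.Helper23.GR
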