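import Pool.Agent.Helper23.GR.Defs
import Pool.Agent.Helper23.GR.St.G1
import Pool.Agent.Helper23.GR.St.G2

open MeasureTheory Real Finset

namespace Pool.Agent.Helper23.GR

open Pool.Agent.Helper42.Ent Pool.Agent.Helper70.C4

namespace GRG3aux

theorem exists_geo {V : Type*} {H : SimpleGraph V} {z p : V} {d : ℕ} (h : H.edist z p = d) :
    ∃ q : H.Walk z p, q.length = d ∧ q.IsPath := by
  obtain ⟨q, hq⟩ := SimpleGraph.exists_walk_of_edist_ne_top (G := H) (u := z) (v := p)
    (by rw [h]; exact ENat.natCast_ne_top d)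
  rw [h] at hq
  have hq' : q.length = d := by exact_mod_cast hq
  refine ⟨q, hq', ?_⟩
  apply SimpleGraph.Walk.isPath_of_length_eq_dist
  rw [hq', SimpleGraph.dist, h]
  rfl

theorem edist_adj {V : Type*} {H : SimpleGraph V} {z z' : V} (h : H.Adj z z') :
    H.edist z z' = 1 := SimpleGraph.edist_eq_one_iff_adj.2 h

theorem pred_eq {V : Type*} {H : SimpleGraph V} {z z' p : V} {d : ℕ} (h : H.edist z p = (d + 1 : ℕ))
    (ha : H.Adj z z') (hl : H.edist z' p < H.edist z p) : H.edist z' p = d := by
  rw [h] at hl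
  obtain ⟨e, he⟩ := ENat.ne_top_iff_exists.1 (ne_top_of_lt hl)
  rw [← he] at hl ⊢
  have h1 : e < d + 1 := by exact_mod_cast hl
  have h2 : H.edist z p ≤ H.edist z z' + H.edist z' p := SimpleGraph.edist_triangle
  rw [h, edist_adj ha, ← he] at h2
  have h3 : d + 1 ≤ 1 + e := by exact_mod_cast h2
  have h4 : e = d := by omega
  rw [h4]

end GRG3aux

open GRG3aux

/-- GR-G3. First steps of geodesics. -/
theorem exists_dir {V : Type*} {H : SimpleGraph V} {z p : V} {d : ℕ} (h : H.edist z p = (d + 1 : ℕ)) :
    ∃ z', H.Adj z z' ∧ H.edist z' p = d := by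
  obtain ⟨q, hq, -⟩ := exists_geo h
  cases q with
  | nil => simp at hq
  | cons ha q' =>
    rename_i z'
    refine ⟨z', ha, ?_⟩
    apply pred_eq h ha
    rw [h]
    refine lt_of_le_of_lt (SimpleGraph.edist_le q') ?_
    rw [SimpleGraph.Walk.length_cons] at hq
    have : q'.length < d + 1 := by omega
    exact_mod_cast this

theorem dir_unique {V : Type*} {H : SimpleGraph V} {z p z' z'' : V} {n : ℕ}
    (hn : H.edist z p ≤ n) (hg : ((2 * n : ℕ) : ℕ∞) < H.egirth) (h' : H.Adj z z')
    (h'' : H.Adj z z'') (hd' : H.edist z' p < H.edist z p) (hd'' : H.edist z'' p < H.edist z p) :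
    z' = z'' := by
  obtain ⟨D, hD⟩ := ENat.ne_top_iff_exists.1 (ne_top_of_le_ne_top (ENat.natCast_ne_top n) hn)
  have hD0 : D ≠ 0 := by
    rintro rfl
    rw [← hD] at hd'
    exact absurd hd' (by simp)
  obtain ⟨d, rfl⟩ := Nat.exists_eq_succ_of_ne_zero hD0
  have hzp : H.edist z p = (d + 1 : ℕ) := hD.symm
  have hdn : d + 1 ≤ n := by
    rw [hzp] at hn
    exact_mod_cast hn
  obtain ⟨q', hq', -⟩ := exists_geo (pred_eq hzp h' hd')
  obtain ⟨q'', hq'', -⟩ := exists_geo (pred_eq hzp h'' hd'')
  have hp : ∀ (w : V) (ha : H.Adj z w) (q : H.Walk w p), q.length = d →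
      (SimpleGraph.Walk.cons ha q).IsPath := by
    intro w ha q hq
    apply SimpleGraph.Walk.isPath_of_length_eq_dist
    rw [SimpleGraph.Walk.length_cons, hq, SimpleGraph.dist, hzp]
    rfl
  have key := path_unique_short (SimpleGraph.Walk.cons h' q') (SimpleGraph.Walk.cons h'' q'')
    (hp _ _ _ hq') (hp _ _ _ hq'') (by
      refine lt_of_le_of_lt ?_ hg
      rw [SimpleGraph.Walk.length_cons, SimpleGraph.Walk.length_cons, hq', hq'']
      have : d + 1 + (d + 1) ≤ 2 * n := by omega
      exact_mod_cast this)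
  have h1 := congrArg (fun w : H.Walk z p => w.getVert 1) key
  simpa using h1

/-- concatenation of two geodesics with different first steps -/
theorem edist_add {V : Type*} {H : SimpleGraph V} {z p p' : V} {n : ℕ}
    (hp : H.edist z p ≤ n) (hp' : H.edist z p' ≤ n) (hg : ((4 * n : ℕ) : ℕ∞) < H.egirth)
    (h : ∀ z', H.Adj z z' → H.edist z' p < H.edist z p → ¬ H.edist z' p' < H.edist z p') :
    H.edist p z + H.edist z p' = H.edist p p' := by
  obtain ⟨a, ha⟩ := ENat.ne_top_iff_exists.1 (ne_top_of_le_ne_top (ENat.natCast_ne_top n) hp)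
  obtain ⟨b, hb⟩ := ENat.ne_top_iff_exists.1 (ne_top_of_le_ne_top (ENat.natCast_ne_top n) hp')
  have han : a ≤ n := by rw [← ha] at hp; exact_mod_cast hp
  have hbn : b ≤ n := by rw [← hb] at hp'; exact_mod_cast hp'
  obtain ⟨q, hq, hqp⟩ := exists_geo ha.symm
  obtain ⟨r, hr, hrp⟩ := exists_geo hb.symm
  set x : ℕ → V := fun t => if t ≤ a then q.getVert (a - t) else r.getVert (t - a) with hx
  have x1 : ∀ t, t ≤ a → x t = q.getVert (a - t) := fun t ht => by simp only [hx]; rw [if_pos ht]
  have x2 : ∀ t, a ≤ t → x t = r.getVert (t - a) := by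
    intro t ht
    rcases Nat.eq_or_lt_of_le ht with h1 | h1
    · rw [← h1, x1 a le_rfl, Nat.sub_self, SimpleGraph.Walk.getVert_zero,
        SimpleGraph.Walk.getVert_zero]
    · simp only [hx]
      rw [if_neg (by omega)]
  have x0 : x 0 = p := by rw [x1 0 (Nat.zero_le _), Nat.sub_zero, ← hq, SimpleGraph.Walk.getVert_length]
  have xe : x (a + b) = p' := by
    rw [x2 _ (Nat.le_add_right _ _), Nat.add_sub_cancel_left, ← hr, SimpleGraph.Walk.getVert_length]
  have key := nb_edist (H := H) (x := x) (n := a + b) ?_ ?_ ?_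
  · rw [x0, xe] at key
    rw [key, SimpleGraph.edist_comm, ← ha, ← hb]
    push_cast
    rfl
  · intro t ht
    rcases Nat.lt_or_ge t a with h1 | h1
    · rw [x1 t h1.le, x1 (t + 1) h1]
      have h2 := q.adj_getVert_succ (i := a - (t + 1)) (by omega)
      have h3 : a - (t + 1) + 1 = a - t := by omega
      rw [h3] at h2
      exact h2.symm
    · rw [x2 t h1, x2 (t + 1) (by omega)]
      have h2 := r.adj_getVert_succ (i := t - a) (by omega)
      have h3 : t - a + 1 = t + 1 - a := by omega
      rw [h3] at h2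
      exact h2
  · intro t ht heq
    rcases Nat.lt_or_ge a (t + 2) with h1 | h1
    · rcases Nat.lt_or_ge t a with h2 | h2
      · -- the junction
        have hta : t + 1 = a := by omega
        rw [x1 t h2.le, x2 (t + 2) (by omega)] at heq
        have e1 : a - t = 1 := by omega
        have e2 : t + 2 - a = 1 := by omega
        rw [e1, e2] at heq
        have hadj : H.Adj z (q.getVert 1) := by
          have := q.adj_getVert_succ (i := 0) (by omega)
          rwa [SimpleGraph.Walk.getVert_zero] at this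
        apply h _ hadj
        · rw [← ha]
          refine lt_of_le_of_lt (SimpleGraph.edist_le (q.drop 1)) ?_
          rw [SimpleGraph.Walk.drop_length, hq]
          have : a - 1 < a := by omega
          exact_mod_cast this
        · rw [heq, ← hb]
          refine lt_of_le_of_lt (SimpleGraph.edist_le (r.drop 1)) ?_
          rw [SimpleGraph.Walk.drop_length, hr]
          have : b - 1 < b := by omega
          exact_mod_cast this
      · rw [x2 t h2, x2 (t + 2) (by omega)] at heq
        have := hrp.getVert_injOn (by simp only [Set.mem_ofPred_eq]; omega)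
          (by simp only [Set.mem_ofPred_eq]; omega) heq
        omega
    · rw [x1 t (by omega), x1 (t + 2) h1] at heq
      have := hqp.getVert_injOn (by simp only [Set.mem_ofPred_eq]; omega)
        (by simp only [Set.mem_ofPred_eq]; omega) heq
      omega
  · refine lt_of_le_of_lt ?_ hg
    have : 2 * (a + b) ≤ 4 * n := by omega
    exact_mod_cast this

end Pool.Agent.Helper23.GR
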