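import Pool.Agent.Helper23.GR.Defs
import Pool.Agent.Helper23.GR.St.G1

open MeasureTheory Real Finset

namespace Pool.Agent.Helper23.GR

open Pool.Agent.Helper42.Ent Pool.Agent.Helper70.C4

/-- GR-G4. The number of vertices on a short geodesic. -/
theorem card_Lst_le {V : Type} [Fintype V] (H : SimpleGraph V) (D : ℕ)
    (hg : ((2 * D : ℕ) : ℕ∞) < H.egirth) (u v : V) : (Lst H D u v).card ≤ D + 1 := by
  classical
  by_cases hD : H.edist u v ≤ D
  · have hne : H.edist u v ≠ ⊤ := ne_top_of_le_ne_top (ENat.natCast_ne_top D) hD
    obtain ⟨p, hp⟩ := SimpleGraph.exists_walk_of_edist_ne_top hne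
    have hpD : p.length ≤ D := by
      rw [← hp] at hD
      exact_mod_cast hD
    have isP : ∀ q : H.Walk u v, (q.length : ℕ∞) = H.edist u v → q.IsPath := by
      intro q hq
      refine q.isPath_of_length_eq_dist ?_
      have := (SimpleGraph.Reachable.coe_dist_eq_edist ⟨q⟩ : ((H.dist u v : ℕ) : ℕ∞) = H.edist u v)
      rw [← this] at hq
      exact_mod_cast hq
    have hsub : Lst H D u v ⊆ p.support.toFinset := by
      intro z hz
      rw [Lst, Finset.mem_filter] at hz
      obtain ⟨-, hz, -⟩ := hz
      have h1 : H.edist u z ≠ ⊤ := fun h => hne (by rw [← hz, h, top_add])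
      have h2 : H.edist z v ≠ ⊤ := fun h => hne (by rw [← hz, h, add_top])
      obtain ⟨q1, hq1⟩ := SimpleGraph.exists_walk_of_edist_ne_top h1
      obtain ⟨q2, hq2⟩ := SimpleGraph.exists_walk_of_edist_ne_top h2
      have hq : ((q1.append q2).length : ℕ∞) = H.edist u v := by
        rw [SimpleGraph.Walk.length_append, Nat.cast_add, hq1, hq2, hz]
      have hlen : (q1.append q2).length = p.length := by
        have := hq.trans hp.symm
        exact_mod_cast this
      have heq : p = q1.append q2 := by
        refine path_unique_short _ _ (isP _ hp) (isP _ hq) (lt_of_le_of_lt ?_ hg)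
        rw [hlen]
        exact_mod_cast (by omega : p.length + p.length ≤ 2 * D)
      rw [List.mem_toFinset, heq, SimpleGraph.Walk.mem_support_append_iff]
      exact Or.inl q1.end_mem_support
    refine (Finset.card_le_card hsub).trans ((List.toFinset_card_le _).trans ?_)
    rw [SimpleGraph.Walk.length_support]
    omega
  · have : Lst H D u v = ∅ := by
      rw [Lst, Finset.filter_eq_empty_iff]
      intro z _ h
      exact hD h.2
    rw [this, Finset.card_empty]
    omega

theorem card_LstO_le {V : Type} [Fintype V] (H : SimpleGraph V) (D : ℕ)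
    (hg : ((2 * D : ℕ) : ℕ∞) < H.egirth) (y : Option V × Option V) :
    (LstO H D y).card ≤ D + 1 := by
  rcases y with ⟨_ | u, _ | v⟩
  · exact Nat.zero_le _
  · exact Nat.zero_le _
  · exact Nat.zero_le _
  · change ((Lst H D u v).map Function.Embedding.some).card ≤ D + 1
    rw [Finset.card_map]
    exact card_Lst_le H D hg u v

end Pool.Agent.Helper23.GR
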