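import Pool.Agent.Helper23.GR.Defs
import Pool.Agent.Helper23.GR.St.G1

open MeasureTheory Real Finset

namespace Pool.Agent.Helper23.GR

open Pool.Agent.Helper42.Ent Pool.Agent.Helper70.C4

theorem exists_walk_of_seq {V : Type*} {H : SimpleGraph V} {x : ℕ → V} (n : ℕ)
    (hadj : ∀ t, t < n → H.Adj (x t) (x (t + 1))) :
    ∃ w : H.Walk (x 0) (x n), w.length = n ∧ ∀ v ∈ w.support, ∃ t, t ≤ n ∧ x t = v := by
  induction n with
  | zero =>
    refine ⟨SimpleGraph.Walk.nil, rfl, ?_⟩
    intro v hv
    rw [SimpleGraph.Walk.support_nil, List.mem_singleton] at hv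
    exact ⟨0, le_rfl, hv.symm⟩
  | succ n ih =>
    obtain ⟨w, hw, hs⟩ := ih fun t ht => hadj t (by omega)
    refine ⟨w.concat (hadj n (by omega)), ?_, ?_⟩
    · rw [SimpleGraph.Walk.length_concat, hw]
    · intro v hv
      rw [SimpleGraph.Walk.support_concat] at hv
      have hv' : v ∈ w.support ∨ v = x (n + 1) := by simpa using hv
      rcases hv' with h | h
      · obtain ⟨t, ht, hxt⟩ := hs v h
        exact ⟨t, by omega, hxt⟩
      · exact ⟨n + 1, le_rfl, h.symm⟩

/-- GR-G5. A walk passes through every vertex of the geodesic between its ends. -/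
theorem visits {V : Type*} {H : SimpleGraph V} {x : ℕ → V} {n : ℕ} {z : V}
    (hadj : ∀ t, t < n → H.Adj (x t) (x (t + 1)))
    (hz : H.edist (x 0) z + H.edist z (x n) = H.edist (x 0) (x n))
    (hg : ((2 * n : ℕ) : ℕ∞) < H.egirth) : ∃ t, t ≤ n ∧ x t = z := by
  classical
  obtain ⟨w, hw, hs⟩ := exists_walk_of_seq n hadj
  have hle : H.edist (x 0) (x n) ≤ (n : ℕ∞) := by
    have := SimpleGraph.edist_le w
    rwa [hw] at this
  have htop : H.edist (x 0) z + H.edist z (x n) ≠ ⊤ := by
    rw [hz]
    exact ne_top_of_le_ne_top (ENat.natCast_ne_top n) hle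
  obtain ⟨q1, hq1⟩ := SimpleGraph.exists_walk_of_edist_ne_top
    (fun h => htop (by rw [h, top_add]) : H.edist (x 0) z ≠ ⊤)
  obtain ⟨q2, hq2⟩ := SimpleGraph.exists_walk_of_edist_ne_top
    (fun h => htop (by rw [h, add_top]) : H.edist z (x n) ≠ ⊤)
  have hq : ((q1.append q2).length : ℕ∞) = H.edist (x 0) (x n) := by
    rw [SimpleGraph.Walk.length_append, Nat.cast_add, hq1, hq2, hz]
  have hreach : H.Reachable (x 0) (x n) := ⟨w⟩
  have hq' : (q1.append q2).length = H.dist (x 0) (x n) := by
    have := hreach.coe_dist_eq_edist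
    rw [← hq] at this
    exact_mod_cast this.symm
  have hqp : (q1.append q2).IsPath := (q1.append q2).isPath_of_length_eq_dist hq'
  have hqn : (q1.append q2).length ≤ n := by
    rw [← hq] at hle
    exact_mod_cast hle
  have hbn : w.bypass.length ≤ n := by
    have := w.length_bypass_le_length
    rwa [hw] at this
  have heq := path_unique_short w.bypass (q1.append q2) w.bypass_isPath hqp
    (lt_of_le_of_lt (by exact_mod_cast (by omega : w.bypass.length + (q1.append q2).length ≤ 2 * n))
      hg)
  have hz1 : z ∈ (q1.append q2).support := by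
    rw [SimpleGraph.Walk.mem_support_append_iff]
    exact Or.inl q1.end_mem_support
  rw [← heq] at hz1
  exact hs z (w.support_bypass_subset_support hz1)

end Pool.Agent.Helper23.GR
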