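import Pool.Agent.Helper23.GR.Defs
import Pool.Agent.Helper23.GR.St.G5
import Pool.Agent.Helper23.GR.St.G3

open MeasureTheory Real Finset

namespace Pool.Agent.Helper23.GR

open Pool.Agent.Helper42.Ent Pool.Agent.Helper70.C4

namespace GRG6aux

theorem far' {V : Type*} {H : SimpleGraph V} {κ : ℕ} (hκ : 3 ≤ κ) :
    ∀ (r : ℕ) (x : ℕ → V) (m : ℕ), (∀ t, t < m → H.Adj (x t) (x (t + 1))) →
    (∀ s t, s + κ ≤ t → t ≤ m → x s ≠ x t) → κ * (r + 1) < m →
    ((2 * m : ℕ) : ℕ∞) < H.egirth → (r : ℕ∞) < H.edist (x 0) (x m) := by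
  classical
  intro r
  induction r with
  | zero =>
    intro x m _ hne hm _
    have h1 : x 0 ≠ x m := hne 0 m (by omega) le_rfl
    rw [Nat.cast_zero]
    exact pos_iff_ne_zero.2 (fun h => h1 (SimpleGraph.edist_eq_zero_iff.1 h))
  | succ r ih =>
    intro x m hadj hne hm hg
    -- the last visit to `x 0`
    have hex : ∃ s, s ≤ m ∧ x s = x 0 ∧ ∀ t, s < t → t ≤ m → x t ≠ x 0 := by
      have hS : ((Finset.range (m + 1)).filter fun s => x s = x 0).Nonempty :=
        ⟨0, Finset.mem_filter.2 ⟨Finset.mem_range.2 (Nat.succ_pos _), rfl⟩⟩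
      obtain ⟨s, hs, hmax⟩ := Finset.exists_max_image _ (fun t : ℕ => t) hS
      have hs' := Finset.mem_filter.1 hs
      refine ⟨s, by have := Finset.mem_range.1 hs'.1; omega, hs'.2, fun t hst htm htx => ?_⟩
      have := hmax t (Finset.mem_filter.2 ⟨Finset.mem_range.2 (by omega), htx⟩)
      omega
    obtain ⟨s, hsm, hsx, hlast⟩ := hex
    have hsκ : s < κ := by
      by_contra hcon
      exact hne 0 s (by omega) hsm hsx.symm
    have hmul : κ * (r + 1 + 1) = κ * (r + 1) + κ := by ring
    have hs1 : s + 1 ≤ m := by omega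
    have h3r : 3 * (r + 1) ≤ κ * (r + 1) := Nat.mul_le_mul_right _ hκ
    have hsadj : H.Adj (x 0) (x (s + 1)) := by
      have := hadj s (by omega)
      rwa [hsx] at this
    -- the rest of the walk
    have key := ih (fun t => x (s + 1 + t)) (m - (s + 1)) (by
        intro t ht
        have := hadj (s + 1 + t) (by omega)
        exact this) (by
        intro a b hab hb
        exact hne (s + 1 + a) (s + 1 + b) (by omega) (by omega)) (by omega) (by
        refine lt_of_le_of_lt ?_ hg
        have : 2 * (m - (s + 1)) ≤ 2 * m := by omega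
        exact_mod_cast this)
    simp only [Nat.add_zero] at key
    have hend : s + 1 + (m - (s + 1)) = m := by omega
    rw [hend] at key
    by_contra hcon
    rw [not_lt] at hcon
    have hadd := edist_add (H := H) (z := x 0) (p := x (s + 1)) (p' := x m) (n := r + 1)
      (by
        rw [SimpleGraph.edist_eq_one_iff_adj.2 hsadj]
        have : 1 ≤ r + 1 := by omega
        exact_mod_cast this) hcon (by
        refine lt_of_le_of_lt ?_ hg
        have : 4 * (r + 1) ≤ 2 * m := by omega
        exact_mod_cast this) (by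
        intro z' hz' hlt hlt'
        rw [SimpleGraph.edist_eq_one_iff_adj.2 hsadj] at hlt
        have h0 : H.edist z' (x (s + 1)) = 0 := Order.lt_one_iff.1 hlt
        have h1 : z' = x (s + 1) := SimpleGraph.edist_eq_zero_iff.1 h0
        rw [h1] at hlt'
        have h2 := lt_of_lt_of_le hlt' hcon
        have h3 : (r : ℕ∞) + 1 ≤ H.edist (x (s + 1)) (x m) := Order.add_one_le_of_lt key
        have h4 := lt_of_le_of_lt h3 h2
        push_cast at h4
        exact lt_irrefl _ h4)
    obtain ⟨t, ht, htx⟩ := visits (H := H) (x := fun t => x (s + 1 + t)) (n := m - (s + 1))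
      (z := x 0) (by
        intro t ht
        exact hadj (s + 1 + t) (by omega)) (by
        simp only [Nat.add_zero]
        rw [hend]
        exact hadd) (by
        refine lt_of_le_of_lt ?_ hg
        have : 2 * (m - (s + 1)) ≤ 2 * m := by omega
        exact_mod_cast this)
    exact hlast (s + 1 + t) (by omega) (by omega) htx

end GRG6aux

/-- GR-G6. A long walk that returns only after short times goes far away. -/
theorem far {V : Type*} {H : SimpleGraph V} {x : ℕ → V} {m κ r : ℕ}
    (hadj : ∀ t, t < m → H.Adj (x t) (x (t + 1)))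
    (hne : ∀ s t, s + κ ≤ t → t ≤ m → x s ≠ x t) (hm : κ * (r + 1) < m)
    (hg : ((2 * m : ℕ) : ℕ∞) < H.egirth) : (r : ℕ∞) < H.edist (x 0) (x m) := by
  rcases Nat.lt_or_ge κ 3 with h | h
  · have hκ : 1 ≤ κ := by
      by_contra hcon
      have h0 : κ = 0 := by omega
      exact hne 0 0 (by omega) (Nat.zero_le _) rfl
    have h1 := nb_edist (H := H) (x := x) (n := m) hadj
      (fun t ht => hne t (t + 2) (by omega) ht) hg
    rw [h1]
    have h2 : r + 1 ≤ κ * (r + 1) := Nat.le_mul_of_pos_left _ hκ
    have : r < m := by omega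
    exact_mod_cast this
  · exact GRG6aux.far' h r x m hadj hne hm hg

end Pool.Agent.Helper23.GR
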