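import Pool.Agent.Helper23.GR.Defs
import Pool.Agent.Helper23.GR.St.G2
import Pool.Agent.Helper23.GR.St.G3
import Pool.Agent.Helper23.GR.St.G5
import Pool.Agent.Helper23.GR.St.G6
import Pool.Agent.Helper23.GR.St.W1

open MeasureTheory Real Finset

namespace Pool.Agent.Helper23.GR

open Pool.Agent.Helper42.Ent Pool.Agent.Helper70.C4

namespace GRG7aux

/-- the end of a walk of `n` steps is at distance at most `n` -/
theorem seq_edist_le {V : Type} {H : SimpleGraph V} (y : ℕ → V) :
    ∀ n : ℕ, (∀ t, t < n → H.Adj (y t) (y (t + 1))) → H.edist (y 0) (y n) ≤ n := by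
  intro n
  induction n with
  | zero => intro _; simp
  | succ n ih =>
    intro h
    have h1 := ih fun t ht => h t (by omega)
    have h2 : H.edist (y n) (y (n + 1)) = 1 := SimpleGraph.edist_eq_one_iff_adj.mpr (h n (by omega))
    calc H.edist (y 0) (y (n + 1)) ≤ H.edist (y 0) (y n) + H.edist (y n) (y (n + 1)) :=
          SimpleGraph.edist_triangle
      _ ≤ n + 1 := by rw [h2]; exact add_le_add h1 le_rfl
      _ = ((n + 1 : ℕ) : ℕ∞) := by push_cast; rfl

open Classical in
/-- at most 8 leaves start with a given letter -/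
theorem card_head_le (L : Finset Leaf) (l0 : Leaf) (h : ∀ l ∈ L, l.1.head? = l0.1.head?) :
    L.card ≤ 8 := by
  have hl0 := mem_W.mp l0.2
  have hne : l0.1 ≠ [] := by
    intro h0
    rw [h0] at hl0
    simp at hl0
  obtain ⟨i, t, hit⟩ := List.exists_cons_of_ne_nil hne
  have hu : ([i] : List (Fin 3)) ∈ W 1 := mem_W.mpr ⟨rfl, List.isChain_singleton _⟩
  have hc := card_take_eq (m := 4) hu le_rfl (by norm_num)
  have hsub : L.image Subtype.val ⊆ (W 4).filter (fun a => a.take 1 = [i]) := by
    intro a ha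
    obtain ⟨l, hl, rfl⟩ := Finset.mem_image.mp ha
    rw [Finset.mem_filter]
    refine ⟨l.2, ?_⟩
    have h1 := h l hl
    rw [hit] at h1
    rcases hla : l.1 with _ | ⟨j, t'⟩
    · rw [hla] at h1
      simp at h1
    · rw [hla] at h1
      simp only [List.head?_cons, Option.some.injEq] at h1
      simp [h1]
  have h2 := Finset.card_le_card hsub
  rw [Finset.card_image_of_injective _ Subtype.val_injective, hc] at h2
  simpa using h2

end GRG7aux

open Classical in
/-- GR-G7. A vertex `z` close to the root such that no direction at `z` contains more than 12 of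
the labels. `p l` (for `l` in `A`, at least 23 of the 24 leaves) is within `κ` of the end of the
walk `x l`. -/
theorem central {V : Type} {H : SimpleGraph V} {κ m : ℕ} (hκ : 1 ≤ κ)
    (hm : κ * (3 * κ + 1) < m) (hg : ((4 * (m + 2 * κ) : ℕ) : ℕ∞) < H.egirth)
    (x : Leaf → ℕ → V) (v0 : V) (hx0 : ∀ l, x l 0 = v0)
    (hadj : ∀ l t, t < m → H.Adj (x l t) (x l (t + 1)))
    (hne1 : ∀ l s t, s + κ ≤ t → t ≤ m → x l s ≠ x l t)
    (hne2 : ∀ l l' : Leaf, l.1.head? ≠ l'.1.head? → ∀ s t, κ ≤ s → s ≤ m → κ ≤ t → t ≤ m →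
      x l s ≠ x l' t)
    (A : Finset Leaf) (hA : 23 ≤ A.card) (p : Leaf → V)
    (hp : ∀ l ∈ A, H.edist (p l) (x l m) ≤ κ) :
    ∃ z, H.edist z v0 ≤ κ ∧ ∀ z', H.Adj z z' →
      (A.filter (fun l => H.edist z' (p l) < H.edist z (p l))).card ≤ 12 := by
  by_contra hcon
  push Not at hcon
  -- the heavy walk
  have hstep : ∀ z, ∃ z', H.edist z v0 ≤ κ → H.Adj z z' ∧
      12 < (A.filter (fun l => H.edist z' (p l) < H.edist z (p l))).card := by
    intro z
    by_cases hz : H.edist z v0 ≤ κ
    · obtain ⟨z', h1, h2⟩ := hcon z hz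
      exact ⟨z', fun _ => ⟨h1, h2⟩⟩
    · exact ⟨z, fun h => absurd h hz⟩
  choose nxt hnxt using hstep
  set z : ℕ → V := fun i => nxt^[i] v0 with hzdef
  have hz0 : z 0 = v0 := rfl
  have hzs : ∀ i, z (i + 1) = nxt (z i) := fun i => Function.iterate_succ_apply' _ _ _
  have hzd : ∀ i, i ≤ κ → H.edist (z i) v0 ≤ i := by
    intro i
    induction i with
    | zero => intro _; rw [hz0]; simp
    | succ i ih =>
      intro hi
      have h1 := ih (by omega)
      have h2 : H.edist (z i) v0 ≤ κ := h1.trans (by exact_mod_cast (by omega : i ≤ κ))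
      have h3 := (hnxt (z i) h2).1
      rw [← hzs] at h3
      calc H.edist (z (i + 1)) v0 ≤ H.edist (z (i + 1)) (z i) + H.edist (z i) v0 :=
            SimpleGraph.edist_triangle
        _ ≤ 1 + i := by
            rw [SimpleGraph.edist_eq_one_iff_adj.mpr h3.symm]
            exact add_le_add le_rfl h1
        _ = ((i + 1 : ℕ) : ℕ∞) := by push_cast; rw [add_comm]
  have hzk : ∀ i, i ≤ κ → H.edist (z i) v0 ≤ κ := fun i hi =>
    (hzd i hi).trans (by exact_mod_cast hi)
  have hzadj : ∀ i, i ≤ κ → H.Adj (z i) (z (i + 1)) := fun i hi => by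
    rw [hzs]; exact (hnxt (z i) (hzk i hi)).1
  have hzheavy : ∀ i, i ≤ κ →
      12 < (A.filter (fun l => H.edist (z (i + 1)) (p l) < H.edist (z i) (p l))).card :=
    fun i hi => by rw [hzs]; exact (hnxt (z i) (hzk i hi)).2
  have hA24 : A.card ≤ 24 := by
    have h1 : A.card ≤ Fintype.card Leaf := Finset.card_le_univ A
    have h2 : Fintype.card Leaf = 24 := by
      rw [Fintype.card_coe]
      have := card_W 3
      norm_num at this
      exact this
    omega
  have hnb : ∀ t, t + 2 ≤ κ + 1 → z t ≠ z (t + 2) := by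
    intro t ht heq
    have h1 := hzheavy t (by omega)
    have h2 := hzheavy (t + 1) (by omega)
    have hdis : Disjoint (A.filter (fun l => H.edist (z (t + 1)) (p l) < H.edist (z t) (p l)))
        (A.filter (fun l => H.edist (z (t + 1 + 1)) (p l) < H.edist (z (t + 1)) (p l))) := by
      rw [Finset.disjoint_left]
      intro l hl hl'
      have h3 := (Finset.mem_filter.mp hl).2
      have h4 := (Finset.mem_filter.mp hl').2
      rw [heq] at h3
      exact absurd (h3.trans h4) (lt_irrefl _)
    have h3 := Finset.card_le_card (Finset.union_subset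
      (Finset.filter_subset (fun l => H.edist (z (t + 1)) (p l) < H.edist (z t) (p l)) A)
      (Finset.filter_subset
        (fun l => H.edist (z (t + 1 + 1)) (p l) < H.edist (z (t + 1)) (p l)) A))
    rw [Finset.card_union_of_disjoint hdis] at h3
    omega
  have hκm : κ < m := by
    have : κ * 1 ≤ κ * (3 * κ + 1) := Nat.mul_le_mul_left _ (by omega)
    omega
  have hg' : ∀ N : ℕ, N ≤ 4 * (m + 2 * κ) → ((N : ℕ) : ℕ∞) < H.egirth := fun N hN =>
    lt_of_le_of_lt (by exact_mod_cast hN) hg
  have hd1 : H.edist (z 0) (z κ) = κ := nb_edist (fun t ht => hzadj t (by omega))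
    (fun t ht => hnb t (by omega)) (hg' _ (by omega))
  have hd2 : H.edist (z 0) (z (κ + 1)) = (κ + 1 : ℕ) := nb_edist (fun t ht => hzadj t (by omega))
    (fun t ht => hnb t (by omega)) (hg' _ (by omega))
  -- every heavy label forces the walk through `z κ`
  have hpass : ∀ l ∈ A, H.edist (z (κ + 1)) (p l) < H.edist (z κ) (p l) →
      ∃ t, κ ≤ t ∧ t ≤ m ∧ x l t = z κ := by
    intro l hl hlt
    have hxm : H.edist v0 (x l m) ≤ m := by
      have := GRG7aux.seq_edist_le (H := H) (x l) m (hadj l)
      rwa [hx0] at this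
    have hpl : H.edist (x l m) (p l) ≤ κ := by rw [SimpleGraph.edist_comm]; exact hp l hl
    have hzp : H.edist (z κ) (p l) ≤ ((m + 2 * κ : ℕ) : ℕ∞) := by
      calc H.edist (z κ) (p l) ≤ H.edist (z κ) v0 + H.edist v0 (p l) := SimpleGraph.edist_triangle
        _ ≤ H.edist (z κ) v0 + (H.edist v0 (x l m) + H.edist (x l m) (p l)) :=
            add_le_add le_rfl SimpleGraph.edist_triangle
        _ ≤ κ + (m + κ) := add_le_add (hzk κ le_rfl) (add_le_add hxm hpl)
        _ = ((m + 2 * κ : ℕ) : ℕ∞) := by push_cast; ring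
    have hzv : H.edist (z κ) v0 = κ := by rw [SimpleGraph.edist_comm]; exact hd1
    have hadd : H.edist v0 (z κ) + H.edist (z κ) (p l) = H.edist v0 (p l) := by
      refine edist_add (n := m + 2 * κ) (hzv.le.trans (by exact_mod_cast (by omega : κ ≤ m + 2 * κ)))
        hzp hg ?_
      intro z' hz' h1 h2
      have e := dir_unique (n := m + 2 * κ) hzp (hg' _ (by omega)) hz' (hzadj κ le_rfl) h2 hlt
      rw [e, hzv, SimpleGraph.edist_comm, ← hz0, hd2] at h1
      exact absurd h1 (by exact_mod_cast (by omega : ¬ (κ + 1 < κ)))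
    have hne : H.edist (x l m) (p l) ≠ ⊤ := fun h => by rw [h] at hpl; simp at hpl
    obtain ⟨q, hq⟩ := SimpleGraph.exists_walk_of_edist_ne_top hne
    have hqk : q.length ≤ κ := by rw [← hq] at hpl; exact_mod_cast hpl
    let y : ℕ → V := fun t => if t ≤ m then x l t else q.getVert (t - m)
    have hy1 : ∀ t, t ≤ m → y t = x l t := fun t ht => if_pos ht
    have hy2 : ∀ s, y (m + s) = q.getVert s := by
      intro s
      by_cases hs : s = 0
      · rw [hs, add_zero, hy1 m le_rfl, SimpleGraph.Walk.getVert_zero]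
      · have : ¬ (m + s ≤ m) := by omega
        simp only [y, if_neg this, Nat.add_sub_cancel_left]
    have hyadj : ∀ t, t < m + q.length → H.Adj (y t) (y (t + 1)) := by
      intro t ht
      by_cases htm : t < m
      · rw [hy1 t htm.le, hy1 (t + 1) htm]
        exact hadj l t htm
      · obtain ⟨s, rfl⟩ := Nat.exists_eq_add_of_le (not_lt.mp htm)
        rw [hy2, add_assoc, hy2]
        exact q.adj_getVert_succ (by omega)
    have hy0 : y 0 = v0 := by rw [hy1 0 (Nat.zero_le _), hx0]
    have hyn : y (m + q.length) = p l := by rw [hy2, SimpleGraph.Walk.getVert_length]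
    obtain ⟨t, ht, hyt⟩ := visits (H := H) (x := y) (n := m + q.length) (z := z κ) hyadj
      (by rw [hy0, hyn]; exact hadd) (hg' _ (by omega))
    have hfar := far (H := H) (x := x l) (m := m) (κ := κ) (r := 3 * κ) (hadj l) (hne1 l) hm
      (hg' _ (by omega))
    rw [hx0] at hfar
    have htm : t ≤ m := by
      by_contra htm
      obtain ⟨s, rfl⟩ := Nat.exists_eq_add_of_le (not_le.mp htm).le
      rw [hy2] at hyt
      have h1 : H.edist (x l m) (z κ) ≤ s := by
        have := GRG7aux.seq_edist_le (H := H) (fun s => q.getVert s) s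
          (fun t' ht' => q.adj_getVert_succ (by omega))
        simp only [SimpleGraph.Walk.getVert_zero] at this
        rwa [hyt] at this
      have h2 : H.edist v0 (x l m) ≤ ((3 * κ : ℕ) : ℕ∞) := by
        calc H.edist v0 (x l m) ≤ H.edist v0 (z κ) + H.edist (z κ) (x l m) :=
              SimpleGraph.edist_triangle
          _ ≤ κ + s := by
              refine add_le_add (by rw [SimpleGraph.edist_comm]; exact hzk κ le_rfl) ?_
              rw [SimpleGraph.edist_comm]
              exact h1
          _ = ((κ + s : ℕ) : ℕ∞) := by push_cast; rfl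
          _ ≤ ((3 * κ : ℕ) : ℕ∞) := by exact_mod_cast (by omega : κ + s ≤ 3 * κ)
      exact absurd hfar (not_lt.mpr h2)
    rw [hy1 t htm] at hyt
    refine ⟨t, ?_, htm, hyt⟩
    have h1 := GRG7aux.seq_edist_le (H := H) (x l) t (fun t' ht' => hadj l t' (by omega))
    rw [hx0, hyt, ← hz0, hd1] at h1
    exact_mod_cast h1
  -- two heavy labels in different branches
  have hheavy := hzheavy κ le_rfl
  have htwo : ∃ l ∈ A.filter (fun l => H.edist (z (κ + 1)) (p l) < H.edist (z κ) (p l)),
      ∃ l' ∈ A.filter (fun l => H.edist (z (κ + 1)) (p l) < H.edist (z κ) (p l)),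
      l.1.head? ≠ l'.1.head? := by
    by_contra hno
    push Not at hno
    obtain ⟨l0, hl0⟩ : (A.filter (fun l => H.edist (z (κ + 1)) (p l) <
        H.edist (z κ) (p l))).Nonempty := Finset.card_pos.mp (by omega)
    have := GRG7aux.card_head_le _ l0 (fun l hl => hno l hl l0 hl0)
    omega
  obtain ⟨l, hl, l', hl', hll⟩ := htwo
  obtain ⟨t, ht1, ht2, ht3⟩ := hpass l (Finset.mem_filter.mp hl).1 (Finset.mem_filter.mp hl).2
  obtain ⟨t', ht1', ht2', ht3'⟩ := hpass l' (Finset.mem_filter.mp hl').1 (Finset.mem_filter.mp hl').2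
  exact hne2 l l' hll t t' ht1 ht2 ht1' ht2' (ht3.trans ht3'.symm)

end Pool.Agent.Helper23.GR
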