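import Pool.Agent.Helper23.GR.Defs

open MeasureTheory Real Finset

namespace Pool.Agent.Helper23.GR

open Pool.Agent.Helper42.Ent Pool.Agent.Helper70.C4

namespace GRG8aux

open Classical in
theorem split_card (e : Fin 12 × Bool ≃ Leaf) (B : Finset Leaf) :
    B.card = (univ.filter (fun i : Fin 12 => e (i, false) ∈ B)).card +
      (univ.filter (fun i : Fin 12 => e (i, true) ∈ B)).card := by
  have h1 : (univ.filter (fun p : Fin 12 × Bool => e p ∈ B)) = B.map e.symm.toEmbedding := by
    ext p
    simp only [mem_filter, mem_univ, true_and, mem_map, Equiv.coe_toEmbedding]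
    constructor
    · intro h
      exact ⟨e p, h, by simp⟩
    · rintro ⟨l, hl, rfl⟩
      simpa using hl
  have h2 : B.card = (univ.filter (fun p : Fin 12 × Bool => e p ∈ B)).card := by
    rw [h1, card_map]
  rw [h2, card_filter, card_filter, card_filter, Fintype.sum_prod_type, ← sum_add_distrib]
  apply sum_congr rfl
  intro i _
  rw [Fintype.sum_bool, add_comm]

end GRG8aux

open GRG8aux in
open Classical in
/-- GR-G8. At a central vertex many pairs of labels are separated (pure counting).
`d l = none` means that the label is `z` itself, otherwise it is the direction. -/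
theorem count_pairs {V : Type} (A : Finset Leaf) (hA : 23 ≤ A.card) (d : Leaf → Option V)
    (hd : ∀ z' : V, (A.filter (fun l => d l = some z')).card ≤ 12) (e : Fin 12 × Bool ≃ Leaf) :
    60 ≤ ((univ : Finset (Fin 12 × Fin 12)).filter (fun ij =>
      e (ij.1, false) ∈ A ∧ e (ij.2, true) ∈ A ∧
      ∀ z', ¬ (d (e (ij.1, false)) = some z' ∧ d (e (ij.2, true)) = some z'))).card := by
  set A0 : Finset (Fin 12) := univ.filter (fun i => e (i, false) ∈ A) with hA0
  set A1 : Finset (Fin 12) := univ.filter (fun i => e (i, true) ∈ A) with hA1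
  have hsum : A.card = A0.card + A1.card := split_card e A
  have h0 : A0.card ≤ 12 := by
    have := card_le_univ A0
    simpa using this
  have h1 : A1.card ≤ 12 := by
    have := card_le_univ A1
    simpa using this
  have hA24 : A.card ≤ 24 := by omega
  -- the directions
  set Z : Finset (Option V) := (univ.image d).erase none with hZ
  set B : Finset (Fin 12 × Fin 12) := Z.biUnion (fun o =>
    (A0.filter (fun i => d (e (i, false)) = o)) ×ˢ (A1.filter (fun i => d (e (i, true)) = o)))
    with hB
  have hBcard : B.card ≤ 72 := by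
    have k1 : ∀ o ∈ Z, ((A0.filter (fun i => d (e (i, false)) = o)) ×ˢ
        (A1.filter (fun i => d (e (i, true)) = o))).card ≤
        3 * (A.filter (fun l => d l = o)).card := by
      intro o ho
      rw [hZ, mem_erase] at ho
      obtain ⟨z, rfl⟩ := Option.ne_none_iff_exists'.1 ho.1
      have k2 := split_card e (A.filter (fun l => d l = some z))
      have k3 : (univ.filter (fun i : Fin 12 => e (i, false) ∈ A.filter (fun l => d l = some z))) =
          A0.filter (fun i => d (e (i, false)) = some z) := by
        ext i
        simp only [hA0, mem_filter, mem_univ, true_and]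
      have k4 : (univ.filter (fun i : Fin 12 => e (i, true) ∈ A.filter (fun l => d l = some z))) =
          A1.filter (fun i => d (e (i, true)) = some z) := by
        ext i
        simp only [hA1, mem_filter, mem_univ, true_and]
      rw [k3, k4] at k2
      have k5 : (A.filter (fun l => d l = some z)).card ≤ 12 := hd z
      rw [card_product]
      generalize (A0.filter (fun i => d (e (i, false)) = some z)).card = a at k2 ⊢
      generalize (A1.filter (fun i => d (e (i, true)) = some z)).card = b at k2 ⊢
      rw [k2] at k5 ⊢
      have k6 : a ≤ 12 := by omega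
      have k7 : b ≤ 12 := by omega
      interval_cases a <;> omega
    have k8 : ∑ o ∈ Z, (A.filter (fun l => d l = o)).card ≤ A.card := by
      rw [← card_biUnion]
      · apply card_le_card
        intro l hl
        rw [mem_biUnion] at hl
        obtain ⟨o, _, ho⟩ := hl
        exact (mem_filter.1 ho).1
      · intro o _ o' _ hoo
        change Disjoint (A.filter (fun l => d l = o)) (A.filter (fun l => d l = o'))
        rw [disjoint_left]
        intro l hl hl'
        exact hoo ((mem_filter.1 hl).2.symm.trans (mem_filter.1 hl').2)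
    calc B.card ≤ ∑ o ∈ Z, ((A0.filter (fun i => d (e (i, false)) = o)) ×ˢ
        (A1.filter (fun i => d (e (i, true)) = o))).card := card_biUnion_le
      _ ≤ ∑ o ∈ Z, 3 * (A.filter (fun l => d l = o)).card := sum_le_sum k1
      _ = 3 * ∑ o ∈ Z, (A.filter (fun l => d l = o)).card := (mul_sum _ _ _).symm
      _ ≤ 72 := by omega
  have hS : 132 ≤ (A0 ×ˢ A1).card := by
    rw [card_product]
    generalize A0.card = a at hsum h0 ⊢
    generalize A1.card = b at hsum h1 ⊢
    have k1 : 11 ≤ a := by omega
    have k2 : 11 ≤ b := by omega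
    interval_cases a <;> omega
  have hsub : (A0 ×ˢ A1) \ B ⊆ ((univ : Finset (Fin 12 × Fin 12)).filter (fun ij =>
      e (ij.1, false) ∈ A ∧ e (ij.2, true) ∈ A ∧
      ∀ z', ¬ (d (e (ij.1, false)) = some z' ∧ d (e (ij.2, true)) = some z'))) := by
    intro ij hij
    rw [mem_sdiff, mem_product] at hij
    obtain ⟨⟨h2, h3⟩, h4⟩ := hij
    have h2' : e (ij.1, false) ∈ A := by simpa [hA0] using h2
    have h3' : e (ij.2, true) ∈ A := by simpa [hA1] using h3
    rw [mem_filter]
    refine ⟨mem_univ _, h2', h3', ?_⟩
    rintro z' ⟨h5, h6⟩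
    apply h4
    rw [hB, mem_biUnion]
    refine ⟨some z', ?_, ?_⟩
    · rw [hZ, mem_erase]
      exact ⟨by simp, mem_image.2 ⟨_, mem_univ _, h5⟩⟩
    · exact mem_product.2 ⟨mem_filter.2 ⟨h2, h5⟩, mem_filter.2 ⟨h3, h6⟩⟩
  have h7 := card_le_card hsub
  have h8 := le_card_sdiff B (A0 ×ˢ A1)
  omega

end Pool.Agent.Helper23.GR
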