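import Pool.Agent.Helper23.GR.Defs
import Pool.Agent.Helper23.GR.St.G3
import Pool.Agent.Helper23.GR.St.G7
import Pool.Agent.Helper23.GR.St.G8
import Pool.Agent.Helper23.GR.St.W1

open MeasureTheory Real Finset

namespace Pool.Agent.Helper23.GR

open Pool.Agent.Helper42.Ent Pool.Agent.Helper70.C4

namespace GRG9aux

theorem mem_filter' {α : Type*} {s : Finset α} {p : α → Prop} (inst : DecidablePred p) {a : α} :
    a ∈ @Finset.filter α p inst s ↔ a ∈ s ∧ p a := Finset.mem_filter

end GRG9aux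

open Classical in
/-- GR-G9. The geometric conclusion at a point. -/
theorem geo {V : Type} [Fintype V] {H : SimpleGraph V} {κ m : ℕ} (hκ : 1 ≤ κ)
    (hm : κ * (3 * κ + 1) < m) (hg : ((4 * (m + 2 * κ) : ℕ) : ℕ∞) < H.egirth)
    (x : Leaf → ℕ → V) (v0 : V) (hx0 : ∀ l, x l 0 = v0)
    (hadj : ∀ l t, t < m → H.Adj (x l t) (x l (t + 1)))
    (hne1 : ∀ l s t, s + κ ≤ t → t ≤ m → x l s ≠ x l t)
    (hne2 : ∀ l l' : Leaf, l.1.head? ≠ l'.1.head? → ∀ s t, κ ≤ s → s ≤ m → κ ≤ t → t ≤ m →
      x l s ≠ x l' t)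
    (o : Leaf → Option V)
    (ho : ∀ l l', l ≠ l' → Close H κ (o l) (x l m) ∨ Close H κ (o l') (x l' m))
    (e : Fin 12 × Bool ≃ Leaf) :
    ∃ z, H.edist z v0 ≤ κ ∧
      60 ≤ ((univ : Finset (Fin 12 × Fin 12)).filter (fun ij =>
        some z ∈ LstO H (2 * (m + 2 * κ)) (o (e (ij.1, false)), o (e (ij.2, true))))).card := by
  have hcard : Fintype.card Leaf = 24 := by
    rw [Fintype.card_coe]
    have := card_W 3
    norm_num at this
    exact this
  set A : Finset Leaf := univ.filter (fun l => Close H κ (o l) (x l m)) with hA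
  have hA23 : 23 ≤ A.card := by
    have h1 : Aᶜ.card ≤ 1 := by
      rw [Finset.card_le_one]
      intro l hl l' hl'
      by_contra hne
      rw [Finset.mem_compl, hA, Finset.mem_filter] at hl hl'
      rcases ho l l' hne with h | h
      · exact hl ⟨Finset.mem_univ _, h⟩
      · exact hl' ⟨Finset.mem_univ _, h⟩
    have h2 := Finset.card_add_card_compl A
    rw [hcard] at h2
    omega
  have hex : ∀ l, ∃ u : V, l ∈ A → o l = some u ∧ H.edist u (x l m) ≤ κ := by
    intro l
    by_cases hl : l ∈ A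
    · obtain ⟨-, u, hu1, hu2⟩ := Finset.mem_filter.mp hl
      exact ⟨u, fun _ => ⟨hu1, hu2⟩⟩
    · exact ⟨v0, fun h => absurd h hl⟩
  choose p hp using hex
  obtain ⟨z, hz, hz12⟩ := central hκ hm hg x v0 hx0 hadj hne1 hne2 A hA23 p
    (fun l hl => (hp l hl).2)
  refine ⟨z, hz, ?_⟩
  have hn : ∀ l ∈ A, H.edist z (p l) ≤ ((m + 2 * κ : ℕ) : ℕ∞) := by
    intro l hl
    have h1 : H.edist v0 (x l m) ≤ m := by
      have := GRG7aux.seq_edist_le (H := H) (x l) m (hadj l)
      rwa [hx0] at this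
    have h2 : H.edist (x l m) (p l) ≤ κ := by
      rw [SimpleGraph.edist_comm]
      exact (hp l hl).2
    calc H.edist z (p l) ≤ H.edist z v0 + H.edist v0 (p l) := SimpleGraph.edist_triangle
      _ ≤ H.edist z v0 + (H.edist v0 (x l m) + H.edist (x l m) (p l)) :=
          add_le_add le_rfl SimpleGraph.edist_triangle
      _ ≤ κ + (m + κ) := add_le_add hz (add_le_add h1 h2)
      _ = ((m + 2 * κ : ℕ) : ℕ∞) := by push_cast; ring
  have hg2 : ((2 * (m + 2 * κ) : ℕ) : ℕ∞) < H.egirth :=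
    lt_of_le_of_lt (by exact_mod_cast (by omega : 2 * (m + 2 * κ) ≤ 4 * (m + 2 * κ))) hg
  let d : Leaf → Option V := fun l =>
    if h : ∃ z', H.Adj z z' ∧ H.edist z' (p l) < H.edist z (p l) then some h.choose else none
  have hd1 : ∀ l z', d l = some z' → H.Adj z z' ∧ H.edist z' (p l) < H.edist z (p l) := by
    intro l z' h
    by_cases hex : ∃ z', H.Adj z z' ∧ H.edist z' (p l) < H.edist z (p l)
    · have h1 : d l = some hex.choose := dif_pos hex
      rw [h1, Option.some.injEq] at h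
      rw [← h]
      exact hex.choose_spec
    · have h1 : d l = none := dif_neg hex
      rw [h1] at h
      exact absurd h (by simp)
  have hd2 : ∀ l ∈ A, ∀ z', H.Adj z z' → H.edist z' (p l) < H.edist z (p l) → d l = some z' := by
    intro l hl z' hz' hlt
    have hex : ∃ z', H.Adj z z' ∧ H.edist z' (p l) < H.edist z (p l) := ⟨z', hz', hlt⟩
    have h1 : d l = some hex.choose := dif_pos hex
    rw [h1, Option.some.injEq]
    exact dir_unique (hn l hl) hg2 hex.choose_spec.1 hz' hex.choose_spec.2 hlt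
  have hcount := count_pairs A hA23 d (by
    intro z'
    by_cases hz' : H.Adj z z'
    · refine le_trans (Finset.card_le_card ?_) (hz12 z' hz')
      intro l hl
      rw [Finset.mem_filter] at hl ⊢
      exact ⟨hl.1, (hd1 l z' hl.2).2⟩
    · have : A.filter (fun l => d l = some z') = ∅ := by
        rw [Finset.filter_eq_empty_iff]
        intro l _ h
        exact hz' (hd1 l z' h).1
      rw [this, Finset.card_empty]
      omega) e
  refine le_trans hcount (Finset.card_le_card ?_)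
  intro ij hij
  obtain ⟨-, h1, h2, h3⟩ := (GRG9aux.mem_filter' _).mp hij
  refine Finset.mem_filter.mpr ⟨Finset.mem_univ _, ?_⟩
  rw [(hp _ h1).1, (hp _ h2).1]
  have hadd : H.edist (p (e (ij.1, false))) z + H.edist z (p (e (ij.2, true))) =
      H.edist (p (e (ij.1, false))) (p (e (ij.2, true))) := by
    refine edist_add (hn _ h1) (hn _ h2) hg ?_
    intro z' hz' ha hb
    exact h3 z' ⟨hd2 _ h1 z' hz' ha, hd2 _ h2 z' hz' hb⟩
  change some z ∈ (Lst H (2 * (m + 2 * κ)) (p (e (ij.1, false))) (p (e (ij.2, true)))).map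
    Function.Embedding.some
  rw [Finset.mem_map]
  refine ⟨z, ?_, rfl⟩
  rw [Lst, Finset.mem_filter]
  refine ⟨Finset.mem_univ _, hadd, ?_⟩
  rw [← hadd, SimpleGraph.edist_comm]
  calc H.edist z (p (e (ij.1, false))) + H.edist z (p (e (ij.2, true)))
      ≤ ((m + 2 * κ : ℕ) : ℕ∞) + ((m + 2 * κ : ℕ) : ℕ∞) := add_le_add (hn _ h1) (hn _ h2)
    _ = ((2 * (m + 2 * κ) : ℕ) : ℕ∞) := by push_cast; ring

end Pool.Agent.Helper23.GR
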