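import Pool.Agent.Helper23.GR.Defs

open MeasureTheory Real Finset

namespace Pool.Agent.Helper23.GR

open Pool.Agent.Helper42.Ent Pool.Agent.Helper70.C4

open Classical in
/-- words of length `m` extending the leaf `l` -/
noncomputable def ext4 (m : ℕ) (l : Leaf) : Finset (List (Fin 3)) :=
  (W m).filter (fun a => a.take 4 = l.1)

/-- the sum of `F` over all pairs of positions of leaf paths that must not meet -/
noncomputable def neSum (F : List (Fin 3) → ℝ) (κ m : ℕ) (a : Leaf → List (Fin 3)) : ℝ :=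
  (∑ l, ∑ t ∈ range (m + 1), ∑ s ∈ range (m + 1),
    if s + κ ≤ t then F (rel ((a l).take s) ((a l).take t)) else 0) +
  ∑ l : Leaf, ∑ l' : Leaf, if l.1.head? ≠ l'.1.head? then
    ∑ s ∈ Icc κ m, ∑ t ∈ Icc κ m, F (rel ((a l).take s) ((a l').take t)) else 0

/-- the sum of `G` over pairs of leaf words -/
noncomputable def prSum (G : List (Fin 3) → ℝ) (a : Leaf → List (Fin 3)) : ℝ :=
  ∑ l, ∑ l', if l ≠ l' then G (rel (a l) (a l')) else 0

end Pool.Agent.Helper23.GR
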