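import Pool.Agent.Helper23.GR.Defs
import Pool.Agent.Helper23.GR.St.R1
import Pool.Agent.Helper23.GR.St.W3D
import Pool.Agent.Helper23.GR.St.W1
import Pool.Agent.Helper23.GR.St.E2

open MeasureTheory Real Finset

namespace Pool.Agent.Helper23.GR

open Pool.Agent.Helper42.Ent Pool.Agent.Helper70.C4

/-- no unwanted meetings of the leaf paths of `x` -/
def NEev {Ω : Type} [MeasurableSpace Ω] (S : Sys Ω) {V : Type} (f : Ω → V) (κ m : ℕ)
    (a : Leaf → List (Fin 3)) (x : Ω) : Prop :=
  (∀ l s t, s + κ ≤ t → t ≤ m →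
    f (run S.T ((a l).take s) x) ≠ f (run S.T ((a l).take t) x)) ∧
  (∀ l l' : Leaf, l.1.head? ≠ l'.1.head? → ∀ s t, κ ≤ s → s ≤ m → κ ≤ t → t ≤ m →
    f (run S.T ((a l).take s) x) ≠ f (run S.T ((a l').take t) x))

namespace GRK1aux

theorem real_ite {Ω : Type} [MeasurableSpace Ω] (μ : Measure Ω) (c : Prop) [Decidable c]
    (A : Set Ω) : μ.real (if c then A else ∅) = if c then μ.real A else 0 := by
  split_ifs
  · rfl
  · simp

end GRK1aux

open GRK1aux in
/-- GR-K1. Union bound for meetings. -/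
theorem ne_prob {Ω : Type} [MeasurableSpace Ω] (S : Sys Ω) {V : Type} [Finite V]
    {f : Ω → V} (hf : ∀ v, MeasurableSet (f ⁻¹' {v})) (κ m : ℕ) (a : Leaf → List (Fin 3)) :
    S.μ.real {x | ¬ NEev S f κ m a x} ≤
      neSum (fun w => S.μ.real {x | f x = f (run S.T w x)}) κ m a := by
  classical
  let mV : MeasurableSpace V := ⊤
  have hV : MeasurableSingletonClass V := ⟨fun _ => trivial⟩
  have hfm : Measurable f := measurable_to_countable' hf
  have hpp : ∀ u v : List (Fin 3), S.μ.real {x | f (run S.T u x) = f (run S.T v x)} =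
      S.μ.real {x | f x = f (run S.T (rel u v) x)} := fun u v =>
    prob_pair S u v hfm hfm (fun p q => p = q)
  let A : List (Fin 3) → List (Fin 3) → Set Ω := fun u v =>
    {x | f (run S.T u x) = f (run S.T v x)}
  let U1 : Set Ω := ⋃ l : Leaf, ⋃ t ∈ range (m + 1), ⋃ s ∈ range (m + 1),
    if s + κ ≤ t then A ((a l).take s) ((a l).take t) else ∅
  let U2 : Set Ω := ⋃ l : Leaf, ⋃ l' : Leaf, if l.1.head? ≠ l'.1.head? then
    (⋃ s ∈ Icc κ m, ⋃ t ∈ Icc κ m, A ((a l).take s) ((a l').take t)) else ∅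
  have hsub : {x | ¬ NEev S f κ m a x} ⊆ U1 ∪ U2 := by
    intro x hx
    simp only [Set.mem_ofPred_eq, NEev, not_and_or] at hx
    rcases hx with hx | hx
    · left
      push Not at hx
      obtain ⟨l, s, t, h1, h2, h3⟩ := hx
      simp only [U1, Set.mem_iUnion, mem_range]
      refine ⟨l, t, by omega, s, by omega, ?_⟩
      rw [if_pos h1]
      exact h3
    · right
      push Not at hx
      obtain ⟨l, l', h0, s, t, h1, h2, h3, h4, h5⟩ := hx
      simp only [U2, Set.mem_iUnion]
      refine ⟨l, l', ?_⟩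
      rw [if_pos h0]
      simp only [Set.mem_iUnion, mem_Icc]
      exact ⟨s, ⟨h1, h2⟩, t, ⟨h3, h4⟩, h5⟩
  have h1 : S.μ.real U1 ≤ ∑ l : Leaf, ∑ t ∈ range (m + 1), ∑ s ∈ range (m + 1),
      if s + κ ≤ t then S.μ.real {x | f x = f (run S.T (rel ((a l).take s) ((a l).take t)) x)}
        else 0 := by
    refine (measureReal_iUnion_fintype_le _).trans (sum_le_sum fun l _ => ?_)
    refine (measureReal_biUnion_finset_le _ _).trans (sum_le_sum fun t _ => ?_)
    refine (measureReal_biUnion_finset_le _ _).trans (sum_le_sum fun s _ => ?_)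
    rw [real_ite]
    simp only [A, hpp]
    exact le_rfl
  have h2 : S.μ.real U2 ≤ ∑ l : Leaf, ∑ l' : Leaf, if l.1.head? ≠ l'.1.head? then
      ∑ s ∈ Icc κ m, ∑ t ∈ Icc κ m,
        S.μ.real {x | f x = f (run S.T (rel ((a l).take s) ((a l').take t)) x)} else 0 := by
    refine (measureReal_iUnion_fintype_le _).trans (sum_le_sum fun l _ => ?_)
    refine (measureReal_iUnion_fintype_le _).trans (sum_le_sum fun l' _ => ?_)
    rw [real_ite]
    split_ifs with hc
    · refine (measureReal_biUnion_finset_le _ _).trans (sum_le_sum fun s _ => ?_)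
      refine (measureReal_biUnion_finset_le _ _).trans (sum_le_sum fun t _ => ?_)
      simp only [A, hpp]
      exact le_rfl
    · exact le_rfl
  calc S.μ.real {x | ¬ NEev S f κ m a x} ≤ S.μ.real (U1 ∪ U2) :=
        measureReal_mono hsub (measure_ne_top _ _)
    _ ≤ S.μ.real U1 + S.μ.real U2 := measureReal_union_le _ _
    _ ≤ _ := add_le_add h1 h2

open GRK1aux in
/-- Union bound for two bad leaves. -/
theorem two_bad {Ω : Type} [MeasurableSpace Ω] (S : Sys Ω) {b : Ω → Bool} (hb : Measurable b)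
    {η : ℝ} (hη : S.μ.real {x | b x = true} ≤ η) (a : Leaf → List (Fin 3)) :
    S.μ.real {x | ∃ l l', l ≠ l' ∧ b (run S.T (a l) x) = true ∧ b (run S.T (a l') x) = true} ≤
      prSum (fun w => MI S.μ b (fun x => b (run S.T w x))) a + 1104 * η ^ 2 := by
  classical
  have hη0 : 0 ≤ S.μ.real {x | b x = true} := measureReal_nonneg
  have hpp : ∀ u v : List (Fin 3),
      S.μ.real {x | b (run S.T u x) = true ∧ b (run S.T v x) = true} =
      S.μ.real {x | b x = true ∧ b (run S.T (rel u v) x) = true} := fun u v =>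
    prob_pair S u v hb hb (fun p q => p = true ∧ q = true)
  have hle : ∀ w : List (Fin 3), S.μ.real {x | b x = true ∧ b (run S.T w x) = true} ≤
      MI S.μ b (fun x => b (run S.T w x)) + 2 * η ^ 2 := by
    intro w
    have h1 := lin_prod S.μ hb (hb.comp (mp_run S w).measurable) {true} {true}
    have h2 : S.μ.real {x | (b ∘ run S.T w) x ∈ ({true} : Set Bool)} =
        S.μ.real {x | b x = true} := by
      have h3 : {x | (b ∘ run S.T w) x ∈ ({true} : Set Bool)} =
        (run S.T w) ⁻¹' {x | b x = true} := rfl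
      have h3' := (mp_run S w).measure_preimage
        (hb (measurableSet_singleton true)).nullMeasurableSet
      rw [h3, measureReal_def, measureReal_def]
      exact congrArg ENNReal.toReal h3'
    rw [h2] at h1
    have h4 : S.μ.real {x | b x ∈ ({true} : Set Bool)} = S.μ.real {x | b x = true} := rfl
    rw [h4] at h1
    have h5 : S.μ.real {x | b x = true} * S.μ.real {x | b x = true} ≤ η ^ 2 := by
      nlinarith
    have h6 : {x | b x ∈ ({true} : Set Bool) ∧ (b ∘ run S.T w) x ∈ ({true} : Set Bool)} =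
      {x | b x = true ∧ b (run S.T w x) = true} := rfl
    rw [h6] at h1
    have h7 : MI S.μ b (b ∘ run S.T w) = MI S.μ b (fun x => b (run S.T w x)) := rfl
    rw [h7] at h1
    linarith
  have hsub : {x | ∃ l l', l ≠ l' ∧ b (run S.T (a l) x) = true ∧ b (run S.T (a l') x) = true} ⊆
      ⋃ l : Leaf, ⋃ l' : Leaf, if l ≠ l' then
        {x | b (run S.T (a l) x) = true ∧ b (run S.T (a l') x) = true} else ∅ := by
    rintro x ⟨l, l', h0, h1, h2⟩
    simp only [Set.mem_iUnion]
    refine ⟨l, l', ?_⟩
    rw [if_pos h0]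
    exact ⟨h1, h2⟩
  have hcard : (∑ l : Leaf, ∑ l' : Leaf, if l ≠ l' then (1 : ℝ) else 0) = 552 := by
    have h1 : ∀ l : Leaf, (∑ l' : Leaf, if l ≠ l' then (1 : ℝ) else 0) = 23 := by
      intro l
      rw [← sum_filter, sum_const, nsmul_eq_mul, mul_one]
      have h2 : (univ.filter (fun l' : Leaf => l ≠ l')) = univ.erase l := by
        ext l'
        simp [eq_comm]
      rw [h2, card_erase_of_mem (mem_univ _), card_univ, Fintype.card_coe, card_W 3]
      norm_num
    simp only [h1, sum_const, card_univ, Fintype.card_coe, card_W 3]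
    norm_num
  calc S.μ.real {x | ∃ l l', l ≠ l' ∧ b (run S.T (a l) x) = true ∧ b (run S.T (a l') x) = true}
      ≤ S.μ.real (⋃ l : Leaf, ⋃ l' : Leaf, if l ≠ l' then
        {x | b (run S.T (a l) x) = true ∧ b (run S.T (a l') x) = true} else ∅) :=
        measureReal_mono hsub (measure_ne_top _ _)
    _ ≤ ∑ l : Leaf, ∑ l' : Leaf, ((if l ≠ l' then
          MI S.μ b (fun x => b (run S.T (rel (a l) (a l')) x)) else 0) +
          2 * η ^ 2 * (if l ≠ l' then (1 : ℝ) else 0)) := by
        refine (measureReal_iUnion_fintype_le _).trans (sum_le_sum fun l _ => ?_)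
        refine (measureReal_iUnion_fintype_le _).trans (sum_le_sum fun l' _ => ?_)
        rw [real_ite]
        split_ifs with hc
        · rw [hpp, mul_one]
          exact hle _
        · simp
    _ = prSum (fun w => MI S.μ b (fun x => b (run S.T w x))) a + 1104 * η ^ 2 := by
        unfold prSum
        simp only [sum_add_distrib, ← mul_sum]
        rw [hcard]
        ring

end Pool.Agent.Helper23.GR
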