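import Pool.Agent.Helper23.GR.Defs
import Pool.Agent.Helper23.GR.St.S1
import Pool.Agent.Helper23.GR.St.E3
import Pool.Agent.Helper23.GR.St.G4

open MeasureTheory Real Finset

namespace Pool.Agent.Helper23.GR

open Pool.Agent.Helper42.Ent Pool.Agent.Helper70.C4

namespace GRK2aux

theorem negMulLog_le_one {x : ℝ} (h0 : 0 ≤ x) : negMulLog x ≤ 1 := by
  rcases h0.eq_or_lt with h | h
  · rw [← h]; simp
  · have h1 := Real.one_sub_inv_le_log_of_pos h
    have h2 : x * (1 - x⁻¹) ≤ x * Real.log x := mul_le_mul_of_nonneg_left h1 h0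
    have h3 : x * (1 - x⁻¹) = x - 1 := by field_simp
    unfold negMulLog
    linarith

/-- the shifted matching -/
def shift (e : Fin 12 × Bool ≃ Leaf) (s : Fin 12) : Fin 12 × Bool ≃ Leaf :=
  (Equiv.mk (fun kb : Fin 12 × Bool => ((if kb.2 then kb.1 + s else kb.1), kb.2))
    (fun kb : Fin 12 × Bool => ((if kb.2 then kb.1 - s else kb.1), kb.2))
    (by rintro ⟨k, b⟩; cases b <;> simp) (by rintro ⟨k, b⟩; cases b <;> simp)).trans e

theorem shift_false (e : Fin 12 × Bool ≃ Leaf) (s k : Fin 12) :
    shift e s (k, false) = e (k, false) := rfl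

theorem shift_true (e : Fin 12 × Bool ≃ Leaf) (s k : Fin 12) :
    shift e s (k, true) = e (k + s, true) := rfl

theorem sum_shift (f : Fin 12 → Fin 12 → ℝ) :
    ∑ s : Fin 12, ∑ k : Fin 12, f k (k + s) = ∑ ij : Fin 12 × Fin 12, f ij.1 ij.2 := by
  rw [Finset.sum_comm, Fintype.sum_prod_type]
  exact Finset.sum_congr rfl fun k _ => Fintype.sum_equiv (Equiv.addLeft k) _ _ fun s => rfl

end GRK2aux

open Classical in
/-- GR-K2. The entropy inequality of one contraction step. -/
theorem contr_ent {Ω : Type} [MeasurableSpace Ω] (S : Sys Ω) {V : Type} [Fintype V]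
    [MeasurableSpace (Option V)] [MeasurableSingletonClass (Option V)] {H : SimpleGraph V}
    {p m : ℕ} {a : Leaf → List (Fin 3)} (ha : Sep p m a) (e : Fin 12 × Bool ≃ Leaf) (D : ℕ)
    (hg : ((2 * D : ℕ) : ℕ∞) < H.egirth) {q Z : Ω → Option V} (hq : Measurable q)
    (hZ : Measurable Z)
    (h : ∀ x, Z x ≠ none → 60 ≤ ((univ : Finset (Fin 12 × Fin 12)).filter (fun ij =>
      Z x ∈ LstO H D
        (q (run S.T (a (e (ij.1, false))) x), q (run S.T (a (e (ij.2, true))) x)))).card) :
    ent S.μ Z ≤ ent S.μ q / 4 + 5 / 4 + 3 * Real.log (D + 2) := by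
  set P := S.μ with hP
  set Y : Fin 12 → Fin 12 → Ω → Option V × Option V := fun i j x =>
    (q (run S.T (a (e (i, false))) x), q (run S.T (a (e (j, true))) x)) with hY
  have hqa : ∀ l, Measurable fun x => q (run S.T (a l) x) := fun l =>
    hq.comp (mp_run S (a l)).measurable
  have hYm : ∀ i j, Measurable (Y i j) := fun i j => (hqa _).prodMk (hqa _)
  -- upper bound
  have hup : ∑ ij : Fin 12 × Fin 12, MI P Z (Y ij.1 ij.2) ≤ 12 * (ent P q + ent P Z) := by
    rw [← GRK2aux.sum_shift (fun i j => MI P Z (Y i j))]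
    calc ∑ s : Fin 12, ∑ k : Fin 12, MI P Z (Y k (k + s))
        ≤ ∑ s : Fin 12, (ent P q + ent P Z) := by
          refine Finset.sum_le_sum fun s _ => ?_
          exact matching S (GRK2aux.shift e s) ha hq hZ
      _ = 12 * (ent P q + ent P Z) := by
          rw [Finset.sum_const, Finset.card_univ, Fintype.card_fin, nsmul_eq_mul]
          norm_num
  -- lower bound for each pair
  set g : Option V × (Option V × Option V) → ℝ := fun s =>
    if s.1 ∈ LstO H D s.2 then -Real.log (pr P Z s.1) else 0 with hgdef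
  have hlow : ∀ i j, ∑ s, pr P (fun x => (Z x, Y i j x)) s * g s - Real.log (D + 2) ≤
      MI P Z (Y i j) := by
    intro i j
    have := list_bound P hZ (hYm i j) (LstO H D) (D + 1) (card_LstO_le H D hg)
    have e1 : ((D + 1 : ℕ) : ℝ) + 1 = D + 2 := by push_cast; ring
    rw [e1] at this
    refine le_trans (le_of_eq ?_) this
    congr 1
    refine Finset.sum_congr rfl fun s _ => ?_
    simp only [hgdef]
    by_cases hs : s.1 ∈ LstO H D s.2
    · rw [if_pos hs, if_pos hs]
    · rw [if_neg hs, if_neg hs, mul_zero]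
  -- the joint variable
  set F : Ω → Option V × (Leaf → Option V) := fun x => (Z x, fun l => q (run S.T (a l) x)) with hF
  have hFm : Measurable F := hZ.prodMk (measurable_pi_lambda _ hqa)
  set φ : Fin 12 → Fin 12 → Option V × (Leaf → Option V) → Option V × (Option V × Option V) :=
    fun i j f => (f.1, (f.2 (e (i, false)), f.2 (e (j, true)))) with hφ
  have hcomp : ∀ i j, ∑ s, pr P (fun x => (Z x, Y i j x)) s * g s =
      ∑ f, pr P F f * g (φ i j f) := fun i j => (sum_pr_comp P hFm (φ i j) g).symm
  set k : Option V → ℝ := fun z => if z = none then 0 else -Real.log (pr P Z z) with hk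
  have hpoint : ∀ f, pr P F f * (60 * k f.1) ≤
      pr P F f * ∑ ij : Fin 12 × Fin 12, g (φ ij.1 ij.2 f) := by
    intro f
    rcases (pr_nonneg P F f).eq_or_lt with h0 | h0
    · rw [← h0, zero_mul, zero_mul]
    · apply mul_le_mul_of_nonneg_left _ h0.le
      have hne : (F ⁻¹' {f}).Nonempty := by
        by_contra hcon
        rw [Set.not_nonempty_iff_eq_empty] at hcon
        rw [pr, hcon] at h0
        simp at h0
      obtain ⟨x, hx⟩ := hne
      have hx' : F x = f := hx
      rw [← hx']
      have hL : 0 ≤ -Real.log (pr P Z (Z x)) := by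
        rw [neg_nonneg]
        exact Real.log_nonpos (pr_nonneg _ _ _) (pr_le_one _ _ _)
      have hsum : ∑ ij : Fin 12 × Fin 12, g (φ ij.1 ij.2 (F x)) =
          (((univ : Finset (Fin 12 × Fin 12)).filter (fun ij => Z x ∈ LstO H D
            (q (run S.T (a (e (ij.1, false))) x), q (run S.T (a (e (ij.2, true))) x)))).card : ℝ) *
          (-Real.log (pr P Z (Z x))) := by
        rw [Finset.card_filter]
        push_cast
        rw [Finset.sum_mul]
        refine Finset.sum_congr rfl fun ij _ => ?_
        simp only [hgdef, hφ, hF, ite_mul, one_mul, zero_mul]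
      rw [hsum]
      by_cases hz : Z x = none
      · have hk0 : k (F x).1 = 0 := if_pos hz
        rw [hk0, mul_zero]
        positivity
      · have hk1 : k (F x).1 = -Real.log (pr P Z (Z x)) := if_neg hz
        rw [hk1]
        apply mul_le_mul_of_nonneg_right _ hL
        exact_mod_cast h x hz
  have hsum1 : ∑ f, pr P F f * (60 * k f.1) ≤
      ∑ ij : Fin 12 × Fin 12, ∑ s, pr P (fun x => (Z x, Y ij.1 ij.2 x)) s * g s := by
    calc ∑ f, pr P F f * (60 * k f.1) ≤
        ∑ f, pr P F f * ∑ ij : Fin 12 × Fin 12, g (φ ij.1 ij.2 f) :=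
          Finset.sum_le_sum fun f _ => hpoint f
      _ = ∑ ij : Fin 12 × Fin 12, ∑ f, pr P F f * g (φ ij.1 ij.2 f) := by
          simp only [Finset.mul_sum]
          rw [Finset.sum_comm]
      _ = _ := Finset.sum_congr rfl fun ij _ => (hcomp ij.1 ij.2).symm
  have hsum2 : ∑ f, pr P F f * (60 * k f.1) = 60 * ∑ z, pr P Z z * k z := by
    have h1 := sum_pr_comp P hFm (Prod.fst : Option V × (Leaf → Option V) → Option V)
      (fun z => 60 * k z)
    rw [h1, Finset.mul_sum]
    refine Finset.sum_congr rfl fun z _ => ?_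
    have : Prod.fst ∘ F = Z := rfl
    rw [this]
    ring
  have hent : ent P Z - 1 ≤ ∑ z, pr P Z z * k z := by
    have h1 : ent P Z = ∑ z, pr P Z z * k z + negMulLog (pr P Z none) := by
      unfold ent
      have : ∀ z, negMulLog (pr P Z z) = pr P Z z * k z +
          (if z = none then negMulLog (pr P Z none) else 0) := by
        intro z
        by_cases hz : z = none
        · simp [hk, hz]
        · simp only [hk, if_neg hz, add_zero, negMulLog]
          ring
      rw [Finset.sum_congr rfl fun z _ => this z, Finset.sum_add_distrib,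
        Finset.sum_ite_eq' univ none (fun _ => negMulLog (pr P Z none))]
      simp
    have h2 := GRK2aux.negMulLog_le_one (pr_nonneg P Z none)
    linarith
  have htotal : ∑ ij : Fin 12 × Fin 12, (∑ s, pr P (fun x => (Z x, Y ij.1 ij.2 x)) s * g s -
      Real.log (D + 2)) ≤ ∑ ij : Fin 12 × Fin 12, MI P Z (Y ij.1 ij.2) :=
    Finset.sum_le_sum fun ij _ => hlow ij.1 ij.2
  rw [Finset.sum_sub_distrib, Finset.sum_const, Finset.card_univ, Fintype.card_prod,
    Fintype.card_fin, nsmul_eq_mul] at htotal
  push_cast at htotal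
  rw [hsum2] at hsum1
  linarith

end Pool.Agent.Helper23.GR
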