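import Pool.Agent.Helper23.GR.Defs
import Pool.Agent.Helper23.GR.St.A2
import Pool.Agent.Helper23.GR.St.S1
import Pool.Agent.Helper23.GR.St.E2
import Pool.Agent.Helper23.GR.St.E6

open MeasureTheory Real Finset

namespace Pool.Agent.Helper23.GR

open Pool.Agent.Helper42.Ent Pool.Agent.Helper70.C4

namespace GRN1aux

theorem meas_comp {Ω : Type} [MeasurableSpace Ω] {V : Type} [Finite V] {f : Ω → V}
    (hf : ∀ v, MeasurableSet (f ⁻¹' {v})) {α : Type*} [MeasurableSpace α] (h : V → α) :
    Measurable (fun x => h (f x)) := by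
  intro A _
  have e : (fun x => h (f x)) ⁻¹' A = ⋃ v ∈ {v : V | h v ∈ A}, f ⁻¹' {v} := by
    ext x
    simp
  rw [e]
  exact MeasurableSet.biUnion (Set.to_countable _) fun v _ => hf v

end GRN1aux

/-- GR-N1. In large girth the colours at the two ends of a random word rarely agree. -/
theorem ne_avg (K : ℕ) (hK : 0 < K) (θ : ℝ) (hθ : 0 < θ) : ∃ G : ℕ, ∀ {Ω : Type}
    [MeasurableSpace Ω] (S : Sys Ω) {V : Type} [Finite V] {H : SimpleGraph V} {f : Ω → V},
    IsHom S H f → (G : ℕ∞) < H.egirth → ∀ k, 2 ≤ k →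
    ∑ w ∈ W k, S.μ.real {x | f x = f (run S.T w x)} ≤
      (2 * (2 * θ + 1 / K) + 3 / 2 ^ (k / 8) * Real.log K) * (W k).card := by
  classical
  obtain ⟨G, hG⟩ := heavy θ hθ ⌈1 / θ⌉₊
  refine ⟨G, ?_⟩
  intro Ω _ S V _ H f hf hgir k hk
  have _ : Fintype V := Fintype.ofFinite V
  -- the law of the colour
  set ν : V → ℝ := fun v => S.μ.real (f ⁻¹' {v}) with hν
  have hν0 : ∀ v, 0 ≤ ν v := fun v => measureReal_nonneg
  letI : MeasurableSpace V := ⊤
  haveI : MeasurableSingletonClass V := ⟨fun _ => trivial⟩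
  have hfm : Measurable f := GRN1aux.meas_comp hf.meas (fun v => v)
  have hν1 : ∑ v, ν v = 1 := sum_pr S.μ hfm
  have hνpr : ∀ v, ν v = pr S.μ f v := fun v => rfl
  have hνle : ∀ v, ν v ≤ 1 := fun v => pr_le_one S.μ f v
  -- heavy colours
  set S0 : Finset V := univ.filter (fun v => θ ≤ ν v) with hS0
  have hcard : S0.card ≤ ⌈1 / θ⌉₊ := by
    have h1 : (S0.card : ℝ) * θ ≤ 1 := by
      calc (S0.card : ℝ) * θ = ∑ _v ∈ S0, θ := by rw [sum_const, nsmul_eq_mul]
        _ ≤ ∑ v ∈ S0, ν v := sum_le_sum fun v hv => (mem_filter.1 hv).2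
        _ ≤ ∑ v, ν v := sum_le_sum_of_subset_of_nonneg (subset_univ _) fun v _ _ => hν0 v
        _ = 1 := hν1
    have h2 : (S0.card : ℝ) ≤ 1 / θ := by
      rw [le_div_iff₀ hθ]
      exact h1
    exact_mod_cast h2.trans (Nat.le_ceil _)
  have hheavy := hG S hf hgir S0 hcard
  have hS0sum : ∑ v ∈ S0, ν v = S.μ.real {x | f x ∈ S0} := by
    rw [sum_congr rfl fun v _ => hνpr v, GRE2aux.sum_pr_finset S.μ hfm S0]
    rfl
  have hsq : ∑ v, ν v ^ 2 ≤ 2 * θ := by
    rw [← sum_filter_add_sum_filter_not univ (fun v => θ ≤ ν v)]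
    have h1 : ∑ v ∈ univ.filter (fun v => θ ≤ ν v), ν v ^ 2 ≤ θ := by
      calc ∑ v ∈ S0, ν v ^ 2 ≤ ∑ v ∈ S0, ν v := by
            apply sum_le_sum
            intro v _
            have := hν0 v
            have := hνle v
            nlinarith
        _ ≤ θ := by rw [hS0sum]; exact hheavy.le
    have h2 : ∑ v ∈ univ.filter (fun v => ¬ θ ≤ ν v), ν v ^ 2 ≤ θ := by
      calc ∑ v ∈ univ.filter (fun v => ¬ θ ≤ ν v), ν v ^ 2
          ≤ ∑ v ∈ univ.filter (fun v => ¬ θ ≤ ν v), θ * ν v := by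
            apply sum_le_sum
            intro v hv
            have h3 := (mem_filter.1 hv).2
            push Not at h3
            have := hν0 v
            nlinarith
        _ ≤ ∑ v, θ * ν v := sum_le_sum_of_subset_of_nonneg (filter_subset _ _)
            fun v _ _ => mul_nonneg hθ.le (hν0 v)
        _ = θ := by rw [← mul_sum, hν1, mul_one]
    linarith
  -- the hash
  obtain ⟨h, hh⟩ := exists_hash ν hν0 hν1 K hK
  have hψ : Measurable (fun x => h (f x)) := GRN1aux.meas_comp hf.meas h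
  have hprc : ∀ c, pr S.μ (fun x => h (f x)) c = ∑ v ∈ univ.filter (fun v => h v = c), ν v := by
    intro c
    rw [sum_congr rfl fun v _ => hνpr v, GRE2aux.sum_pr_finset S.μ hfm]
    unfold pr
    congr 1
    ext x
    simp
  have hone : ∀ w, S.μ.real {x | f x = f (run S.T w x)} ≤
      MI S.μ (fun x => h (f x)) (fun x => h (f (run S.T w x))) + 2 * (2 * θ + 1 / K) := by
    intro w
    have hw : Measurable (fun x => h (f (run S.T w x))) := hψ.comp (mp_run S w).measurable
    have h1 := lin_diag S.μ hψ hw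
    have h2 : S.μ.real {x | f x = f (run S.T w x)} ≤
        S.μ.real {x | h (f x) = h (f (run S.T w x))} := by
      refine measureReal_mono ?_ (measure_ne_top _ _)
      intro x hx
      exact congrArg h hx
    have h3 : ∀ c, pr S.μ (fun x => h (f (run S.T w x))) c = pr S.μ (fun x => h (f x)) c := by
      intro c
      unfold pr
      exact (mp_run S w).measureReal_preimage (hψ (measurableSet_singleton c)).nullMeasurableSet
    have h4 : ∑ c, pr S.μ (fun x => h (f x)) c * pr S.μ (fun x => h (f (run S.T w x))) c ≤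
        2 * θ + 1 / K := by
      calc ∑ c, pr S.μ (fun x => h (f x)) c * pr S.μ (fun x => h (f (run S.T w x))) c
          = ∑ c, (∑ v ∈ univ.filter (fun v => h v = c), ν v) ^ 2 := by
            apply sum_congr rfl
            intro c _
            rw [h3 c, hprc c, sq]
        _ ≤ ∑ v, ν v ^ 2 + 1 / K := hh
        _ ≤ 2 * θ + 1 / K := by linarith
    linarith
  have hMI := avg_MI S hk hψ
  have hent : ent S.μ (fun x => h (f x)) ≤ Real.log K := by
    have h1 := ent_le_log_card S.μ hψ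
    rwa [Fintype.card_fin] at h1
  have hc0 : (0 : ℝ) ≤ 3 / 2 ^ (k / 8) * (W k).card := by positivity
  calc ∑ w ∈ W k, S.μ.real {x | f x = f (run S.T w x)}
      ≤ ∑ w ∈ W k, (MI S.μ (fun x => h (f x)) (fun x => h (f (run S.T w x))) +
          2 * (2 * θ + 1 / K)) := sum_le_sum fun w _ => hone w
    _ = ∑ w ∈ W k, MI S.μ (fun x => h (f x)) (fun x => h (f (run S.T w x))) +
          (W k).card * (2 * (2 * θ + 1 / K)) := by
        rw [sum_add_distrib, sum_const, nsmul_eq_mul]
    _ ≤ 3 / 2 ^ (k / 8) * (W k).card * ent S.μ (fun x => h (f x)) +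
          (W k).card * (2 * (2 * θ + 1 / K)) := by linarith
    _ ≤ 3 / 2 ^ (k / 8) * (W k).card * Real.log K +
          (W k).card * (2 * (2 * θ + 1 / K)) := by
        have := mul_le_mul_of_nonneg_left hent hc0
        linarith
    _ = (2 * (2 * θ + 1 / K) + 3 / 2 ^ (k / 8) * Real.log K) * (W k).card := by ring

end Pool.Agent.Helper23.GR
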