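import Pool.Agent.Helper23.GR.Defs
import Pool.Agent.Helper23.GR.St.N1

open MeasureTheory Real Finset

namespace Pool.Agent.Helper23.GR

open Pool.Agent.Helper42.Ent Pool.Agent.Helper70.C4

namespace GRN2aux

theorem choose_n (c : ℝ) (hc : 0 < c) : ∃ n : ℕ, 1 ≤ n ∧ 3 / (2 : ℝ) ^ n ≤ c ∧
    3 * ((8 * 8 ^ 4 / c + 1) * (n : ℝ) ^ 4) * (2 * 8 ^ 4 / c * (n : ℝ) ^ 4) ≤ (2 : ℝ) ^ n := by
  have h1 : Filter.Tendsto (fun n : ℕ => (n : ℝ) ^ 8 / (2 : ℝ) ^ n) Filter.atTop (nhds 0) :=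
    tendsto_pow_const_div_const_pow_of_one_lt 8 (by norm_num)
  have h2 : Filter.Tendsto (fun n : ℕ => (n : ℝ) ^ 0 / (2 : ℝ) ^ n) Filter.atTop (nhds 0) :=
    tendsto_pow_const_div_const_pow_of_one_lt 0 (by norm_num)
  set A : ℝ := 3 * (8 * 8 ^ 4 / c + 1) * (2 * 8 ^ 4 / c) with hA
  have hA0 : 0 < A := by positivity
  have e1 : ∀ᶠ n : ℕ in Filter.atTop, (n : ℝ) ^ 8 / (2 : ℝ) ^ n < 1 / A :=
    h1.eventually_lt_const (by positivity)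
  have e2 : ∀ᶠ n : ℕ in Filter.atTop, (n : ℝ) ^ 0 / (2 : ℝ) ^ n < c / 3 :=
    h2.eventually_lt_const (by positivity)
  have e3 : ∀ᶠ n : ℕ in Filter.atTop, 1 ≤ n := Filter.eventually_ge_atTop 1
  obtain ⟨n, hn1, hn2, hn3⟩ := (e1.and (e2.and e3)).exists
  refine ⟨n, hn3, ?_, ?_⟩
  · have h := hn2.le
    rw [pow_zero, div_le_iff₀ (by positivity)] at h
    rw [div_le_iff₀ (by positivity)]
    linarith
  · have h2n : (0 : ℝ) < 2 ^ n := by positivity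
    rw [div_lt_div_iff₀ h2n hA0] at hn1
    have : 3 * ((8 * 8 ^ 4 / c + 1) * (n : ℝ) ^ 4) * (2 * 8 ^ 4 / c * (n : ℝ) ^ 4) =
        (n : ℝ) ^ 8 * A := by
      rw [hA]; ring
    rw [this]
    linarith

end GRN2aux

/-- GR-N2. Choice of the length `κ`. -/
theorem exists_kappa (c : ℝ) (hc : 0 < c) : ∃ κ : ℕ, 4 ≤ κ ∧ 3 / 2 ^ (κ / 8) ≤ c ∧ ∃ G : ℕ,
    ∀ {Ω : Type} [MeasurableSpace Ω] (S : Sys Ω) {V : Type} [Finite V] {H : SimpleGraph V}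
    {f : Ω → V}, IsHom S H f → (G : ℕ∞) < H.egirth → ∀ k, κ ≤ k →
    ∑ w ∈ W k, S.μ.real {x | f x = f (run S.T w x)} ≤ c / (κ : ℝ) ^ 4 * (W k).card := by
  obtain ⟨n, hn1, hn2, hn3⟩ := GRN2aux.choose_n c hc
  have hn0 : (1 : ℝ) ≤ (n : ℝ) := by exact_mod_cast hn1
  have hdiv : 8 * n / 8 = n := by omega
  have hk4 : (0 : ℝ) < ((8 * n : ℕ) : ℝ) ^ 4 := by
    have : 0 < 8 * n := by omega
    positivity
  have hcast : ((8 * n : ℕ) : ℝ) ^ 4 = 8 ^ 4 * (n : ℝ) ^ 4 := by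
    push_cast; ring
  refine ⟨8 * n, by omega, by rw [hdiv]; exact hn2, ?_⟩
  set K : ℕ := ⌈8 * ((8 * n : ℕ) : ℝ) ^ 4 / c⌉₊ with hK
  have hKpos' : 0 < 8 * ((8 * n : ℕ) : ℝ) ^ 4 / c := by positivity
  have hK0 : 0 < K := Nat.ceil_pos.mpr hKpos'
  have hKge : 8 * ((8 * n : ℕ) : ℝ) ^ 4 / c ≤ (K : ℝ) := Nat.le_ceil _
  have hKle : (K : ℝ) ≤ 8 * ((8 * n : ℕ) : ℝ) ^ 4 / c + 1 := (Nat.ceil_lt_add_one hKpos'.le).le
  have hK0' : (0 : ℝ) < K := by exact_mod_cast hK0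
  obtain ⟨G, hG⟩ := ne_avg K hK0 (c / (16 * ((8 * n : ℕ) : ℝ) ^ 4)) (by positivity)
  refine ⟨G, ?_⟩
  intro Ω _ S V _ H f hf hg k hk
  have hk2 : 2 ≤ k := by omega
  refine (hG S hf hg k hk2).trans ?_
  refine mul_le_mul_of_nonneg_right ?_ (by positivity)
  -- first part
  have t1 : 2 * (2 * (c / (16 * ((8 * n : ℕ) : ℝ) ^ 4)) + 1 / (K : ℝ)) ≤
      c / (2 * ((8 * n : ℕ) : ℝ) ^ 4) := by
    have h1 : 1 / (K : ℝ) ≤ c / (8 * ((8 * n : ℕ) : ℝ) ^ 4) := by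
      rw [div_le_div_iff₀ hK0' (by positivity)]
      rw [div_le_iff₀ hc] at hKge
      linarith
    have h2 : 2 * (2 * (c / (16 * ((8 * n : ℕ) : ℝ) ^ 4)) + c / (8 * ((8 * n : ℕ) : ℝ) ^ 4)) =
        c / (2 * ((8 * n : ℕ) : ℝ) ^ 4) := by
      field_simp
      norm_num
    rw [← h2]
    linarith
  -- second part
  have hlog : Real.log K ≤ (8 * 8 ^ 4 / c + 1) * (n : ℝ) ^ 4 := by
    have h1 : Real.log K ≤ (K : ℝ) := (Real.log_le_sub_one_of_pos hK0').trans (by linarith)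
    have h2 : (1 : ℝ) ≤ (n : ℝ) ^ 4 := one_le_pow₀ hn0
    have h3 : 8 * ((8 * n : ℕ) : ℝ) ^ 4 / c + 1 ≤ (8 * 8 ^ 4 / c + 1) * (n : ℝ) ^ 4 := by
      rw [hcast]
      have : 8 * (8 ^ 4 * (n : ℝ) ^ 4) / c = 8 * 8 ^ 4 / c * (n : ℝ) ^ 4 := by ring
      rw [this]
      linarith
    linarith
  have hlog0 : 0 ≤ Real.log K := Real.log_natCast_nonneg K
  have hpow : (2 : ℝ) ^ n ≤ 2 ^ (k / 8) := by
    refine pow_le_pow_right₀ (by norm_num) ?_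
    omega
  have t2 : 3 / (2 : ℝ) ^ (k / 8) * Real.log K ≤ c / (2 * ((8 * n : ℕ) : ℝ) ^ 4) := by
    have h1 : 3 / (2 : ℝ) ^ (k / 8) ≤ 3 / (2 : ℝ) ^ n := by
      gcongr
    have h2 : 3 / (2 : ℝ) ^ (k / 8) * Real.log K ≤
        3 / (2 : ℝ) ^ n * ((8 * 8 ^ 4 / c + 1) * (n : ℝ) ^ 4) :=
      mul_le_mul h1 hlog hlog0 (by positivity)
    refine h2.trans ?_
    rw [hcast, div_mul_eq_mul_div, div_le_div_iff₀ (by positivity) (by positivity)]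
    have h3 : 3 * ((8 * 8 ^ 4 / c + 1) * (n : ℝ) ^ 4) * (2 * (8 ^ 4 * (n : ℝ) ^ 4)) =
        c * (3 * ((8 * 8 ^ 4 / c + 1) * (n : ℝ) ^ 4) * (2 * 8 ^ 4 / c * (n : ℝ) ^ 4)) := by
      field_simp
    rw [h3]
    exact mul_le_mul_of_nonneg_left hn3 hc.le
  have hsum : c / (2 * ((8 * n : ℕ) : ℝ) ^ 4) + c / (2 * ((8 * n : ℕ) : ℝ) ^ 4) =
      c / ((8 * n : ℕ) : ℝ) ^ 4 := by
    field_simp
    norm_num
  linarith

end Pool.Agent.Helper23.GR
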