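import Pool.Agent.Helper23.GR.Defs
import Pool.Agent.Helper23.GR.St.W1
import Pool.Agent.Helper23.GR.St.W3D

open MeasureTheory Real Finset

namespace Pool.Agent.Helper23.GR

open Pool.Agent.Helper42.Ent Pool.Agent.Helper70.C4

namespace W3A

theorem rel_append (u v : List (Fin 3)) : rel u (u ++ v) = v := by
  induction u with
  | nil => simp [rel]
  | cons i u ih =>
    rw [List.cons_append, rel, if_pos rfl, ih]

theorem rel_take (a : List (Fin 3)) {s t : ℕ} (hst : s ≤ t) :
    rel (a.take s) (a.take t) = (a.take t).drop s := by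
  have h1 : a.take t = a.take s ++ (a.take t).drop s := by
    conv_lhs => rw [← List.take_append_drop s (a.take t)]
    rw [List.take_take, min_eq_left hst]
  conv_lhs => rw [h1]
  exact rel_append _ _

theorem nb_reverse {w : List (Fin 3)} (h : NB w) : NB w.reverse := by
  unfold NB at h ⊢
  rw [List.isChain_reverse]
  exact h.imp fun a b hab => Ne.symm hab

theorem seg_mem {m s t : ℕ} {a : List (Fin 3)} (ha : a ∈ W m) (ht : t ≤ m) :
    (a.take t).drop s ∈ W (t - s) := by
  rw [mem_W] at ha ⊢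
  refine ⟨?_, ?_⟩
  · rw [List.length_drop, List.length_take, ha.1, min_eq_left ht]
  · exact (ha.2.take t).drop s

open Classical in
theorem card_suffix {s t : ℕ} (w : List (Fin 3)) (hw : w ∈ W (t - s)) (hst : s < t) :
    ((W t).filter (fun u => u.drop s = w)).card ≤ 2 ^ s := by
  have hw' : w.reverse ∈ W (t - s) := by
    rw [mem_W] at hw ⊢
    exact ⟨by rw [List.length_reverse, hw.1], nb_reverse hw.2⟩
  have h1 := card_take_eq (m := t) hw' (by omega) (by omega)
  have h2 : t - (t - s) = s := by omega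
  rw [h2] at h1
  rw [← h1]
  refine Finset.card_le_card_of_injOn List.reverse ?_ ?_
  · intro u hu
    rw [Finset.mem_coe, Finset.mem_filter] at hu
    rw [Finset.mem_coe, Finset.mem_filter]
    have hu1 := mem_W.1 hu.1
    refine ⟨mem_W.2 ⟨by rw [List.length_reverse, hu1.1], nb_reverse hu1.2⟩, ?_⟩
    rw [List.take_reverse, hu1.1, h2, hu.2]
  · intro u _ v _ h
    exact List.reverse_injective h

open Classical in
theorem card_seg {m s t : ℕ} (w : List (Fin 3)) (hw : w ∈ W (t - s)) (hst : s < t) (ht : t ≤ m) :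
    ((W m).filter (fun a => (a.take t).drop s = w)).card ≤ 2 ^ (m - (t - s)) := by
  have h1 : ((W m).filter (fun a => (a.take t).drop s = w)).card ≤
      2 ^ (m - t) * ((W t).filter (fun u => u.drop s = w)).card := by
    refine Finset.card_le_mul_card_image_of_maps_to (f := fun a => a.take t) ?_ _ ?_
    · intro a ha
      rw [Finset.mem_filter] at ha ⊢
      refine ⟨?_, ha.2⟩
      have := mem_W.1 ha.1
      exact mem_W.2 ⟨by rw [List.length_take, this.1, min_eq_left ht], this.2.take t⟩
    · intro u hu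
      rw [Finset.mem_filter] at hu
      refine le_trans (Finset.card_le_card ?_) (card_take_eq (m := m) hu.1 (by omega) ht).le
      intro a ha
      rw [Finset.mem_filter, Finset.mem_filter] at ha
      exact Finset.mem_filter.2 ⟨ha.1.1, ha.2⟩
  refine h1.trans ((Nat.mul_le_mul_left _ (card_suffix w hw hst)).trans ?_)
  rw [← pow_add]
  exact Nat.pow_le_pow_right (by norm_num) (by omega)

end W3A

/-- GR-W3A. Segments of a random extension of a leaf. -/
theorem avg_seg {κ m : ℕ} {γ : ℝ} (hγ : 0 ≤ γ) (F : List (Fin 3) → ℝ) (hF0 : ∀ w, 0 ≤ F w)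
    (hF : ∀ k, κ ≤ k → ∑ w ∈ W k, F w ≤ γ * (W k).card) (hκ : 4 ≤ κ) (l : Leaf) {s t : ℕ}
    (hst : s + κ ≤ t) (ht : t ≤ m) :
    ∑ a ∈ ext4 m l, F (rel (a.take s) (a.take t)) ≤ 24 * γ * (ext4 m l).card := by
  classical
  have hst' : s < t := by omega
  have h1 : ∑ a ∈ ext4 m l, F (rel (a.take s) (a.take t)) ≤
      ∑ a ∈ W m, F ((a.take t).drop s) := by
    have e1 : ∑ a ∈ ext4 m l, F (rel (a.take s) (a.take t)) =
        ∑ a ∈ ext4 m l, F ((a.take t).drop s) :=
      Finset.sum_congr rfl fun a _ => by rw [W3A.rel_take a hst'.le]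
    rw [e1]
    refine Finset.sum_le_sum_of_subset_of_nonneg ?_ fun a _ _ => hF0 _
    unfold ext4
    exact Finset.filter_subset _ _
  have h2 : ∑ a ∈ W m, F ((a.take t).drop s) ≤
      ∑ w ∈ W (t - s), (2 : ℝ) ^ (m - (t - s)) * F w := by
    rw [← Finset.sum_fiberwise_of_maps_to (s := W m) (t := W (t - s))
      (g := fun a => (a.take t).drop s) (fun a ha => W3A.seg_mem ha ht)]
    refine Finset.sum_le_sum fun w hw => ?_
    have e2 : ∑ a ∈ (W m).filter (fun a => (a.take t).drop s = w), F ((a.take t).drop s) =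
        ((W m).filter (fun a => (a.take t).drop s = w)).card * F w := by
      rw [Finset.sum_congr rfl fun a ha => by rw [(Finset.mem_filter.1 ha).2], Finset.sum_const,
        nsmul_eq_mul]
    rw [e2]
    refine mul_le_mul_of_nonneg_right ?_ (hF0 w)
    exact_mod_cast W3A.card_seg w hw hst' ht
  have h3 : ∑ w ∈ W (t - s), F w ≤ γ * (W (t - s)).card := hF (t - s) (by omega)
  have h4 : (W (t - s)).card = 3 * 2 ^ (t - s - 1) := by
    have := card_W (t - s - 1)
    rwa [show t - s - 1 + 1 = t - s by omega] at this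
  have h5 : (ext4 m l).card = 2 ^ (m - 4) := by
    unfold ext4
    exact card_take_eq l.2 (by omega) (by omega)
  have h6 : (2 : ℝ) ^ (m - (t - s)) * ((3 : ℝ) * 2 ^ (t - s - 1)) = 24 * 2 ^ (m - 4) := by
    have e3 : m - (t - s) + (t - s - 1) = m - 4 + 3 := by omega
    have : (2 : ℝ) ^ (m - (t - s)) * 2 ^ (t - s - 1) = 2 ^ (m - 4) * 8 := by
      rw [← pow_add, e3, pow_add]
      norm_num
    linear_combination 3 * this
  calc ∑ a ∈ ext4 m l, F (rel (a.take s) (a.take t))
      ≤ ∑ w ∈ W (t - s), (2 : ℝ) ^ (m - (t - s)) * F w := h1.trans h2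
    _ = (2 : ℝ) ^ (m - (t - s)) * ∑ w ∈ W (t - s), F w := by rw [Finset.mul_sum]
    _ ≤ (2 : ℝ) ^ (m - (t - s)) * (γ * (W (t - s)).card) :=
        mul_le_mul_of_nonneg_left h3 (by positivity)
    _ = γ * ((2 : ℝ) ^ (m - (t - s)) * ((3 : ℝ) * 2 ^ (t - s - 1))) := by
        rw [h4]; push_cast; ring
    _ = 24 * γ * (ext4 m l).card := by
        rw [h6, h5]; push_cast; ring

end Pool.Agent.Helper23.GR
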