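import Pool.Agent.Helper23.GR.Defs
import Pool.Agent.Helper23.GR.St.W1
import Pool.Agent.Helper23.GR.St.W3D

open MeasureTheory Real Finset

namespace Pool.Agent.Helper23.GR

open Pool.Agent.Helper42.Ent Pool.Agent.Helper70.C4

namespace GRW3Baux

theorem nb_reverse {u : List (Fin 3)} (hu : NB u) : NB u.reverse := by
  have h : List.IsChain (fun a b : Fin 3 => b ≠ a) u.reverse := by
    rw [List.isChain_reverse]
    exact hu
  exact h.imp (fun a b hab => hab.symm)

theorem exists_cons {m : ℕ} {l : Leaf} {a : List (Fin 3)} (ha : a ∈ ext4 m l) :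
    ∃ i a', a = i :: a' ∧ l.1.head? = some i := by
  classical
  unfold ext4 at ha
  rw [Finset.mem_filter] at ha
  obtain ⟨_, h2⟩ := ha
  have h3 := (mem_W.1 l.2).1
  cases a with
  | nil =>
    rw [← h2] at h3
    simp at h3
  | cons i a' =>
    refine ⟨i, a', rfl, ?_⟩
    rw [← h2]
    rfl

theorem rel_eq {m s t : ℕ} {l l' : Leaf} (hl : l.1.head? ≠ l'.1.head?) (hs : 1 ≤ s) (ht : 1 ≤ t)
    {a a' : List (Fin 3)} (ha : a ∈ ext4 m l) (ha' : a' ∈ ext4 m l') :
    rel (a.take s) (a'.take t) = (a.take s).reverse ++ a'.take t := by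
  obtain ⟨i, u, rfl, h1⟩ := exists_cons ha
  obtain ⟨j, v, rfl, h2⟩ := exists_cons ha'
  have hij : i ≠ j := by
    rintro rfl
    exact hl (h1.trans h2.symm)
  obtain ⟨s, rfl⟩ := Nat.exists_eq_succ_of_ne_zero (show s ≠ 0 by omega)
  obtain ⟨t, rfl⟩ := Nat.exists_eq_succ_of_ne_zero (show t ≠ 0 by omega)
  rw [Nat.succ_eq_add_one, Nat.succ_eq_add_one, List.take_succ_cons, List.take_succ_cons, rel,
    if_neg hij]

theorem rel_mem {m s t : ℕ} {l l' : Leaf} (hl : l.1.head? ≠ l'.1.head?) (hs : 1 ≤ s) (hsm : s ≤ m)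
    (ht : 1 ≤ t) (htm : t ≤ m) {a a' : List (Fin 3)} (ha : a ∈ ext4 m l) (ha' : a' ∈ ext4 m l') :
    (a.take s).reverse ++ a'.take t ∈ W (s + t) := by
  classical
  have haW : a ∈ W m := by
    unfold ext4 at ha
    exact (Finset.mem_filter.1 ha).1
  have haW' : a' ∈ W m := by
    unfold ext4 at ha'
    exact (Finset.mem_filter.1 ha').1
  have h1 := mem_W.1 (GRW1aux.take_mem_W haW hsm)
  have h2 := mem_W.1 (GRW1aux.take_mem_W haW' htm)
  rw [mem_W]
  refine ⟨by rw [List.length_append, List.length_reverse, h1.1, h2.1], ?_⟩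
  refine List.isChain_append.2 ⟨nb_reverse h1.2, h2.2, ?_⟩
  obtain ⟨i, u, rfl, h3⟩ := exists_cons ha
  obtain ⟨j, v, rfl, h4⟩ := exists_cons ha'
  have hij : i ≠ j := by
    rintro rfl
    exact hl (h3.trans h4.symm)
  obtain ⟨s, rfl⟩ := Nat.exists_eq_succ_of_ne_zero (show s ≠ 0 by omega)
  obtain ⟨t, rfl⟩ := Nat.exists_eq_succ_of_ne_zero (show t ≠ 0 by omega)
  intro x hx y hy
  rw [List.getLast?_reverse] at hx
  simp only [Nat.succ_eq_add_one, List.take_succ_cons, List.head?_cons, Option.mem_def,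
    Option.some.injEq] at hx hy
  subst hx
  subst hy
  exact hij

end GRW3Baux

open GRW3Baux in
/-- GR-W3B. Relative words of two random extensions of leaves in different branches. -/
theorem avg_cross {κ m : ℕ} {γ : ℝ} (hγ : 0 ≤ γ) (F : List (Fin 3) → ℝ) (hF0 : ∀ w, 0 ≤ F w)
    (hF : ∀ k, κ ≤ k → ∑ w ∈ W k, F w ≤ γ * (W k).card) (hκ : 4 ≤ κ) (l l' : Leaf)
    (hl : l.1.head? ≠ l'.1.head?) {s t : ℕ} (hs : κ ≤ s) (hsm : s ≤ m) (ht : κ ≤ t) (htm : t ≤ m) :
    ∑ a ∈ ext4 m l, ∑ a' ∈ ext4 m l', F (rel (a.take s) (a'.take t)) ≤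
      384 * γ * (ext4 m l).card * (ext4 m l').card := by
  classical
  have hcard : ∀ l : Leaf, (ext4 m l).card = 2 ^ (m - 4) := by
    intro l
    have h := card_take_eq (m := m) (j := 4) l.2 (by norm_num) (by omega)
    unfold ext4
    exact h
  have e1 : ∑ a ∈ ext4 m l, ∑ a' ∈ ext4 m l', F (rel (a.take s) (a'.take t)) =
      ∑ x ∈ ext4 m l ×ˢ ext4 m l', F ((x.1.take s).reverse ++ x.2.take t) := by
    rw [Finset.sum_product]
    refine Finset.sum_congr rfl fun a ha => Finset.sum_congr rfl fun a' ha' => ?_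
    rw [rel_eq hl (by omega) (by omega) ha ha']
  have hmaps : ∀ x ∈ ext4 m l ×ˢ ext4 m l',
      (x.1.take s).reverse ++ x.2.take t ∈ W (s + t) := by
    intro x hx
    rw [Finset.mem_product] at hx
    exact rel_mem hl (by omega) hsm (by omega) htm hx.1 hx.2
  rw [e1, ← Finset.sum_fiberwise_of_maps_to hmaps]
  have hfib : ∀ w ∈ W (s + t), ((ext4 m l ×ˢ ext4 m l').filter
      (fun x => (x.1.take s).reverse ++ x.2.take t = w)).card ≤ 2 ^ (m - s) * 2 ^ (m - t) := by
    intro w hw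
    have hwW := mem_W.1 hw
    have hu : (w.take s).reverse ∈ W s := by
      have h := mem_W.1 (GRW1aux.take_mem_W hw (Nat.le_add_right s t))
      rw [mem_W]
      exact ⟨by rw [List.length_reverse, h.1], nb_reverse h.2⟩
    have hv : w.drop s ∈ W t := by
      rw [mem_W]
      refine ⟨by rw [List.length_drop, hwW.1]; omega, hwW.2.drop s⟩
    rw [← card_take_eq hu (by omega) hsm, ← card_take_eq hv (by omega) htm,
      ← Finset.card_product]
    refine Finset.card_le_card ?_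
    rintro ⟨a, a'⟩ hx
    rw [Finset.mem_filter, Finset.mem_product] at hx
    obtain ⟨⟨h1, h2⟩, h3⟩ := hx
    have haW : a ∈ W m := by
      unfold ext4 at h1
      exact (Finset.mem_filter.1 h1).1
    have haW' : a' ∈ W m := by
      unfold ext4 at h2
      exact (Finset.mem_filter.1 h2).1
    have h4 := (mem_W.1 (GRW1aux.take_mem_W haW hsm)).1
    have h3' : (a.take s).reverse ++ a'.take t = w := h3
    have hlen : (a.take s).reverse.length = s := by rw [List.length_reverse, h4]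
    rw [Finset.mem_product, Finset.mem_filter, Finset.mem_filter]
    refine ⟨⟨haW, ?_⟩, haW', ?_⟩
    · show a.take s = (w.take s).reverse
      rw [← h3', List.take_left' hlen, List.reverse_reverse]
    · show a'.take t = w.drop s
      rw [← h3', List.drop_left' hlen]
  have h5 : ∀ w ∈ W (s + t), ∑ x ∈ (ext4 m l ×ˢ ext4 m l').filter
      (fun x => (x.1.take s).reverse ++ x.2.take t = w), F ((x.1.take s).reverse ++ x.2.take t) ≤
      ((2 : ℝ) ^ (m - s) * 2 ^ (m - t)) * F w := by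
    intro w hw
    rw [Finset.sum_congr rfl (g := fun _ => F w) fun x hx => by rw [(Finset.mem_filter.1 hx).2],
      Finset.sum_const, nsmul_eq_mul]
    refine mul_le_mul_of_nonneg_right ?_ (hF0 w)
    exact_mod_cast hfib w hw
  refine (Finset.sum_le_sum h5).trans ?_
  rw [← Finset.mul_sum]
  refine (mul_le_mul_of_nonneg_left (hF (s + t) (by omega)) (by positivity)).trans ?_
  have hW : ((W (s + t)).card : ℝ) = 3 * 2 ^ (s + t - 1) := by
    have h := card_W (s + t - 1)
    rw [Nat.sub_add_cancel (by omega)] at h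
    rw [h]
    push_cast
    ring
  rw [hW, hcard l, hcard l']
  push_cast
  have h6 : (2 : ℝ) ^ (m - s) * 2 ^ (m - t) * 2 ^ (s + t - 1) = 128 * (2 ^ (m - 4) * 2 ^ (m - 4)) := by
    rw [show (128 : ℝ) = 2 ^ 7 by norm_num, ← pow_add, ← pow_add, ← pow_add, ← pow_add]
    congr 1
    omega
  refine le_of_eq ?_
  calc (2 : ℝ) ^ (m - s) * 2 ^ (m - t) * (γ * (3 * 2 ^ (s + t - 1))) =
      3 * γ * ((2 : ℝ) ^ (m - s) * 2 ^ (m - t) * 2 ^ (s + t - 1)) := by ring
    _ = 384 * γ * 2 ^ (m - 4) * 2 ^ (m - 4) := by rw [h6]; ring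

end Pool.Agent.Helper23.GR
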