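import Pool.Agent.Helper23.GR.Defs
import Pool.Agent.Helper23.GR.St.W1
import Pool.Agent.Helper23.GR.St.W3D

open MeasureTheory Real Finset

namespace Pool.Agent.Helper23.GR

open Pool.Agent.Helper42.Ent Pool.Agent.Helper70.C4

namespace GRW3Caux

lemma split_ne : ∀ {l l' : List (Fin 3)}, l.length = l'.length → l ≠ l' →
    ∃ (u : List (Fin 3)) (i j : Fin 3) (p q : List (Fin 3)),
      l = u ++ i :: p ∧ l' = u ++ j :: q ∧ i ≠ j
  | [], [], _, h => absurd rfl h
  | [], _ :: _, h, _ => by simp at h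
  | _ :: _, [], h, _ => by simp at h
  | i :: l, j :: l', h, hne => by
    by_cases hij : i = j
    · subst hij
      have h1 : l.length = l'.length := by simpa using h
      have h2 : l ≠ l' := fun e => hne (by rw [e])
      obtain ⟨u, a, b, p, q, e1, e2, e3⟩ := split_ne h1 h2
      exact ⟨i :: u, a, b, p, q, by rw [e1]; rfl, by rw [e2]; rfl, e3⟩
    · exact ⟨[], i, j, l, l', rfl, rfl, hij⟩

lemma rel_append (u x y : List (Fin 3)) : rel (u ++ x) (u ++ y) = rel x y := by
  induction u with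
  | nil => rfl
  | cons i u ih =>
    change rel (i :: (u ++ x)) (i :: (u ++ y)) = _
    rw [rel, if_pos rfl, ih]

lemma rel_ne {i j : Fin 3} (hij : i ≠ j) (p q : List (Fin 3)) :
    rel (i :: p) (j :: q) = (i :: p).reverse ++ (j :: q) := by
  rw [rel, if_neg hij]

end GRW3Caux

open GRW3Caux

/-- GR-W3C. Relative words of two random extensions of different leaves. -/
theorem avg_full {κ m : ℕ} {γ : ℝ} (hγ : 0 ≤ γ) (G : List (Fin 3) → ℝ) (hG0 : ∀ w, 0 ≤ G w)
    (hG : ∀ k, κ ≤ k → ∑ w ∈ W k, G w ≤ γ * (W k).card) (hm : 32 ≤ m) (hκm : κ ≤ m)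
    (l l' : Leaf) (hl : l ≠ l') :
    ∑ a ∈ ext4 m l, ∑ a' ∈ ext4 m l', G (rel a a') ≤
      384 * γ * (ext4 m l).card * (ext4 m l').card := by
  classical
  have hl4 := (mem_W.mp l.2).1
  have hl4' := (mem_W.mp l'.2).1
  obtain ⟨u, i, j, p, q, e1, e2, hij⟩ := split_ne (hl4.trans hl4'.symm)
    (fun e => hl (Subtype.ext e))
  obtain ⟨c, hc⟩ : ∃ c, c = u.length := ⟨_, rfl⟩
  have hc3 : c ≤ 3 := by
    have h1 := congrArg List.length e1
    rw [hl4, List.length_append, List.length_cons] at h1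
    omega
  -- the structure of the elements of `ext4`
  have key : ∀ (L : Leaf) (k : Fin 3) (r : List (Fin 3)), L.1 = u ++ k :: r →
      ∀ a ∈ ext4 m L, a = u ++ a.drop c ∧ (a.drop c).length = m - c ∧ NB (a.drop c) ∧
        ∃ x, a.drop c = k :: x := by
    intro L k r hL a ha
    rw [ext4, Finset.mem_filter] at ha
    obtain ⟨ha1, ha2⟩ := ha
    obtain ⟨hlen, hnb⟩ := mem_W.mp ha1
    have h1 : a = u ++ k :: (r ++ a.drop 4) := by
      calc a = a.take 4 ++ a.drop 4 := (List.take_append_drop 4 a).symm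
        _ = _ := by rw [ha2, hL]; simp
    have h2 : a.drop c = k :: (r ++ a.drop 4) := by
      conv_lhs => rw [h1]
      rw [hc, List.drop_left]
    refine ⟨?_, ?_, hnb.drop c, _, h2⟩
    · rw [h2]
      exact h1
    · rw [List.length_drop, hlen]
  have hk1 := key l i p e1
  have hk2 := key l' j q e2
  let Φ : List (Fin 3) × List (Fin 3) → List (Fin 3) := fun a =>
    (a.1.drop c).reverse ++ a.2.drop c
  have hrel : ∀ a ∈ ext4 m l, ∀ a' ∈ ext4 m l', rel a a' = Φ (a, a') := by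
    intro a ha a' ha'
    obtain ⟨h1, -, -, x, hx⟩ := hk1 a ha
    obtain ⟨h2, -, -, y, hy⟩ := hk2 a' ha'
    change _ = (a.drop c).reverse ++ a'.drop c
    conv_lhs => rw [h1, h2]
    rw [rel_append, hx, hy, rel_ne hij]
  have hsum : ∑ a ∈ ext4 m l, ∑ a' ∈ ext4 m l', G (rel a a') =
      ∑ x ∈ ext4 m l ×ˢ ext4 m l', G (Φ x) := by
    rw [Finset.sum_product]
    refine Finset.sum_congr rfl fun a ha => Finset.sum_congr rfl fun a' ha' => ?_
    rw [hrel a ha a' ha']
  have hinj : Set.InjOn Φ (ext4 m l ×ˢ ext4 m l' : Finset _) := by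
    rintro ⟨a, a'⟩ ha ⟨b, b'⟩ hb hab
    rw [Finset.mem_coe, Finset.mem_product] at ha hb
    obtain ⟨ha1, ha2⟩ := ha
    obtain ⟨hb1, hb2⟩ := hb
    obtain ⟨h1, h1l, -, -⟩ := hk1 a ha1
    obtain ⟨h2, h2l, -, -⟩ := hk2 a' ha2
    obtain ⟨h3, h3l, -, -⟩ := hk1 b hb1
    obtain ⟨h4, h4l, -, -⟩ := hk2 b' hb2
    have h5 : (a.drop c).reverse ++ a'.drop c = (b.drop c).reverse ++ b'.drop c := hab
    obtain ⟨h6, h7⟩ := List.append_inj h5 (by
      rw [List.length_reverse, List.length_reverse, h1l, h3l])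
    have h8 : a.drop c = b.drop c := List.reverse_injective h6
    refine Prod.ext ?_ ?_
    · change a = b
      rw [h1, h3, h8]
    · change a' = b'
      rw [h2, h4, h7]
  have hsub : (ext4 m l ×ˢ ext4 m l').image Φ ⊆ W (2 * (m - c)) := by
    intro w hw
    obtain ⟨⟨a, a'⟩, ha, rfl⟩ := Finset.mem_image.mp hw
    rw [Finset.mem_product] at ha
    obtain ⟨-, h1l, h1n, x, hx⟩ := hk1 a ha.1
    obtain ⟨-, h2l, h2n, y, hy⟩ := hk2 a' ha.2
    rw [mem_W]
    change ((a.drop c).reverse ++ a'.drop c).length = _ ∧ NB ((a.drop c).reverse ++ a'.drop c)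
    refine ⟨by rw [List.length_append, List.length_reverse, h1l, h2l]; ring, ?_⟩
    refine List.IsChain.append ?_ h2n ?_
    · rw [List.isChain_reverse]
      exact h1n.imp fun _ _ h => h.symm
    · intro s hs t ht
      rw [hx, List.getLast?_reverse, List.head?_cons, Option.mem_def, Option.some_inj] at hs
      rw [hy, List.head?_cons, Option.mem_def, Option.some_inj] at ht
      rw [← hs, ← ht]
      exact hij
  have hcard : ∀ L : Leaf, ((ext4 m L).card : ℝ) = 2 ^ (m - 4) := by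
    intro L
    have := card_take_eq (m := m) (j := 4) L.2 (by norm_num) (by omega)
    rw [ext4, this]
    push_cast
    rfl
  have hW : ((W (2 * (m - c))).card : ℝ) = 3 * 2 ^ (2 * (m - c) - 1) := by
    have h1 : 2 * (m - c) = (2 * (m - c) - 1) + 1 := by omega
    have h2 := card_W (2 * (m - c) - 1)
    rw [← h1] at h2
    rw [h2]
    push_cast
    rfl
  calc ∑ a ∈ ext4 m l, ∑ a' ∈ ext4 m l', G (rel a a')
      = ∑ x ∈ ext4 m l ×ˢ ext4 m l', G (Φ x) := hsum
    _ = ∑ w ∈ (ext4 m l ×ˢ ext4 m l').image Φ, G w := (Finset.sum_image hinj).symm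
    _ ≤ ∑ w ∈ W (2 * (m - c)), G w :=
        Finset.sum_le_sum_of_subset_of_nonneg hsub fun w _ _ => hG0 w
    _ ≤ γ * (W (2 * (m - c))).card := hG _ (by omega)
    _ ≤ 384 * γ * (ext4 m l).card * (ext4 m l').card := by
        rw [hcard, hcard, hW]
        have h1 : (2 : ℝ) ^ (2 * (m - c) - 1) ≤ 2 ^ (2 * m - 1) :=
          pow_le_pow_right₀ (by norm_num) (by omega)
        have h2 : (2 : ℝ) ^ (2 * m - 1) = 128 * (2 ^ (m - 4) * 2 ^ (m - 4)) := by
          rw [← pow_add, show (128 : ℝ) = 2 ^ 7 by norm_num, ← pow_add]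
          congr 1
          omega
        have h3 : (3 : ℝ) * 2 ^ (2 * (m - c) - 1) ≤ 384 * (2 ^ (m - 4) * 2 ^ (m - 4)) := by
          rw [h2] at h1
          linarith
        calc γ * (3 * 2 ^ (2 * (m - c) - 1)) ≤ γ * (384 * (2 ^ (m - 4) * 2 ^ (m - 4))) :=
              mul_le_mul_of_nonneg_left h3 hγ
          _ = _ := by ring

end Pool.Agent.Helper23.GR
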