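import Pool.Agent.Helper23.GR.Defs
import Pool.Agent.Helper23.GR.St.W1
import Pool.Agent.Helper23.GR.St.W3D

open MeasureTheory Real Finset

namespace Pool.Agent.Helper23.GR

open Pool.Agent.Helper42.Ent Pool.Agent.Helper70.C4

namespace GRW3Eaux

open Classical in
/-- resampling one coordinate -/
theorem resample {ι α : Type} [Fintype ι] [DecidableEq ι] (S : ι → Finset α) (i : ι)
    (Q : (ι → α) → Prop) (N : ℕ)
    (h : ∀ a ∈ Fintype.piFinset S,
      ((S i).filter (fun y => Q (Function.update a i y))).card ≤ N) :
    (S i).card * ((Fintype.piFinset S).filter Q).card ≤ N * (Fintype.piFinset S).card := by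
  have h1 : (S i).card * ((Fintype.piFinset S).filter Q).card
      ≤ (((Fintype.piFinset S) ×ˢ (S i)).filter
          (fun q => Q (Function.update q.1 i q.2))).card := by
    rw [mul_comm, ← Finset.card_product]
    refine Finset.card_le_card_of_injOn
      (fun q => (Function.update q.1 i q.2, q.1 i)) ?_ ?_
    · intro q hq
      have hq' := Finset.mem_product.1 (Finset.mem_coe.1 hq)
      have hq1 := Finset.mem_filter.1 hq'.1
      have hA := Fintype.mem_piFinset.1 hq1.1
      refine Finset.mem_coe.2 (Finset.mem_filter.2 ⟨Finset.mem_product.2 ⟨?_, ?_⟩, ?_⟩)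
      · refine Fintype.mem_piFinset.2 fun j => ?_
        by_cases hj : j = i
        · subst hj
          simpa using hq'.2
        · simpa [Function.update_of_ne hj] using hA j
      · exact hA i
      · simpa using hq1.2
    · intro q _ q' _ hqq
      simp only [Prod.mk.injEq] at hqq
      obtain ⟨ha, hb⟩ := hqq
      have h2 : q.2 = q'.2 := by
        have := congrFun ha i
        simpa using this
      have h1 : q.1 = q'.1 := by
        funext j
        by_cases hj : j = i
        · subst hj; exact hb
        · have := congrFun ha j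
          simpa [Function.update_of_ne hj] using this
      exact Prod.ext h1 h2
  refine h1.trans ?_
  rw [Finset.card_filter, Finset.sum_product]
  calc ∑ x ∈ Fintype.piFinset S, ∑ y ∈ S i, (if Q (Function.update x i y) then 1 else 0)
      ≤ ∑ x ∈ Fintype.piFinset S, N := by
        refine Finset.sum_le_sum fun x hx => ?_
        rw [← Finset.card_filter]
        exact h x hx
    _ = N * (Fintype.piFinset S).card := by
        rw [Finset.sum_const, smul_eq_mul, mul_comm]

theorem card_leaf : Fintype.card Leaf = 24 := by
  rw [Fintype.card_coe, card_W 3]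
  norm_num

theorem card_ext4 {m : ℕ} (hm : 4 ≤ m) (l : Leaf) : (ext4 m l).card = 2 ^ (m - 4) := by
  classical
  exact card_take_eq l.2 (by norm_num) hm

theorem card_fix {m p : ℕ} (hm : 32 ≤ m) (hp : p = m / 2) (l : Leaf)
    (φ : List (Fin 3) → List (Fin 3)) (T : Finset (List (Fin 3)))
    (hT : ∀ a ∈ T, a ∈ ext4 m l ∧ a.reverse.take p = φ (a.take (m - p))) :
    T.card ≤ 2 ^ (m - p - 4) := by
  classical
  have h1 := card_det_le (m := m) (j := p) (by omega) (fun w => w.take 4 = l.1) φ
  have h2 : ((W (m - p)).filter (fun w => w.take 4 = l.1)).card = 2 ^ (m - p - 4) :=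
    card_take_eq l.2 (by norm_num) (by omega)
  refine le_trans (Finset.card_le_card ?_) (h1.trans (le_trans (Finset.card_le_card ?_) h2.le))
  swap
  · intro w hw
    simp only [Finset.mem_filter] at hw ⊢
    exact hw
  intro a ha
  obtain ⟨ha1, ha2⟩ := hT a ha
  have ha3 := Finset.mem_filter.1 ha1
  simp only [Finset.mem_filter]
  refine ⟨ha3.1, ?_, ha2⟩
  rw [List.take_take, min_eq_left (by omega)]
  exact ha3.2

/-- the bad events -/
def Bad (p : ℕ) (x : Leaf × Leaf × Bool) (a : Leaf → List (Fin 3)) : Prop :=
  if x.2.2 then (a x.1).take p = (a x.2.1).reverse.take p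
  else x.1 ≠ x.2.1 ∧ (a x.1).reverse.take p = (a x.2.1).reverse.take p

open Classical in
theorem card_bad {m p : ℕ} (hm : 32 ≤ m) (hp : p = m / 2) (x : Leaf × Leaf × Bool) :
    2 ^ p * ((Fintype.piFinset (fun l : Leaf => ext4 m l)).filter (Bad p x)).card ≤
      (Fintype.piFinset (fun l : Leaf => ext4 m l)).card := by
  obtain ⟨l, l', b⟩ := x
  have key : (ext4 m l').card *
      ((Fintype.piFinset (fun l : Leaf => ext4 m l)).filter (Bad p (l, l', b))).card ≤
      2 ^ (m - p - 4) * (Fintype.piFinset (fun l : Leaf => ext4 m l)).card := by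
    refine resample (fun l : Leaf => ext4 m l) l' (Bad p (l, l', b)) _ ?_
    intro a _
    cases b with
    | true =>
      by_cases hl : l = l'
      · subst hl
        refine card_fix hm hp l (fun w => w.take p) _ ?_
        intro y hy
        have hy' := Finset.mem_filter.1 hy
        refine ⟨hy'.1, ?_⟩
        have h := hy'.2
        simp only [Bad, if_true, Function.update_self] at h
        rw [List.take_take, min_eq_left (by omega)]
        exact h.symm
      · refine card_fix hm hp l' (fun _ => (a l).take p) _ ?_
        intro y hy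
        have hy' := Finset.mem_filter.1 hy
        refine ⟨hy'.1, ?_⟩
        have h := hy'.2
        simp only [Bad, if_true, Function.update_self, Function.update_of_ne hl] at h
        exact h.symm
    | false =>
      by_cases hl : l = l'
      · subst hl
        refine card_fix hm hp l (fun w => w.take p) _ ?_
        intro y hy
        have hy' := Finset.mem_filter.1 hy
        have h := hy'.2
        simp [Bad] at h
      · refine card_fix hm hp l' (fun _ => (a l).reverse.take p) _ ?_
        intro y hy
        have hy' := Finset.mem_filter.1 hy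
        refine ⟨hy'.1, ?_⟩
        have h := hy'.2
        simp only [Bad, Bool.false_eq_true, if_false, Function.update_self,
          Function.update_of_ne hl] at h
        exact h.2.symm
  rw [card_ext4 (by omega)] at key
  have h2 : 2 ^ (m - 4) = 2 ^ (m - p - 4) * 2 ^ p := by
    rw [← pow_add]; congr 1; omega
  rw [h2, mul_assoc] at key
  exact Nat.le_of_mul_le_mul_left key (by positivity)

end GRW3Eaux

open GRW3Eaux

open Classical in
/-- GR-W3E. Most families of extensions of the leaves are separated. -/
theorem not_sep_le {m : ℕ} (hm : 32 ≤ m) :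
    (((Fintype.piFinset (fun l : Leaf => ext4 m l)).filter
      (fun a => ¬ Sep (m / 2) m a)).card : ℝ) ≤
      (1 / 8) * (Fintype.piFinset (fun l : Leaf => ext4 m l)).card := by
  have hsub : (Fintype.piFinset (fun l : Leaf => ext4 m l)).filter
      (fun a => ¬ Sep (m / 2) m a) ⊆
      (Finset.univ : Finset (Leaf × Leaf × Bool)).biUnion
        (fun x => (Fintype.piFinset (fun l : Leaf => ext4 m l)).filter (Bad (m / 2) x)) := by
    intro a ha
    have ha' := Finset.mem_filter.1 ha
    have hA := Fintype.mem_piFinset.1 ha'.1
    have h4 : ∀ l : Leaf, (a l).take 4 = l.1 := fun l => (Finset.mem_filter.1 (hA l)).2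
    have hninj : ¬ Function.Injective
        (fun x : Leaf × Bool => (sg (a x.1) x.2).take (m / 2)) := by
      intro hinj
      exact ha'.2 ⟨by omega, by omega, fun l => (Finset.mem_filter.1 (hA l)).1, hinj⟩
    simp only [Function.Injective, not_forall] at hninj
    obtain ⟨⟨l, b⟩, ⟨l', b'⟩, heq, hne⟩ := hninj
    simp only [Finset.mem_biUnion, Finset.mem_univ, true_and, Finset.mem_filter]
    cases b <;> cases b'
    · exfalso
      simp only [sg, Bool.false_eq_true, if_false] at heq
      have h5 : ((a l).take (m / 2)).take 4 = ((a l').take (m / 2)).take 4 := by rw [heq]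
      rw [List.take_take, List.take_take, min_eq_left (by omega), h4, h4] at h5
      exact hne (by rw [Subtype.ext h5])
    · refine ⟨(l, l', true), ha'.1, ?_⟩
      simpa [Bad, sg] using heq
    · refine ⟨(l', l, true), ha'.1, ?_⟩
      simpa [Bad, sg] using heq.symm
    · refine ⟨(l, l', false), ha'.1, ?_⟩
      have hl : l ≠ l' := fun h => hne (by rw [h])
      simpa [Bad, sg, hl] using heq
  have hcard : 2 ^ (m / 2) * ((Fintype.piFinset (fun l : Leaf => ext4 m l)).filter
      (fun a => ¬ Sep (m / 2) m a)).card ≤
      1152 * (Fintype.piFinset (fun l : Leaf => ext4 m l)).card := by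
    calc 2 ^ (m / 2) * ((Fintype.piFinset (fun l : Leaf => ext4 m l)).filter
          (fun a => ¬ Sep (m / 2) m a)).card
        ≤ 2 ^ (m / 2) * ∑ x : Leaf × Leaf × Bool,
            ((Fintype.piFinset (fun l : Leaf => ext4 m l)).filter (Bad (m / 2) x)).card := by
          refine Nat.mul_le_mul_left _ ((Finset.card_le_card hsub).trans Finset.card_biUnion_le)
      _ = ∑ x : Leaf × Leaf × Bool, 2 ^ (m / 2) *
            ((Fintype.piFinset (fun l : Leaf => ext4 m l)).filter (Bad (m / 2) x)).card := by
          rw [Finset.mul_sum]
      _ ≤ ∑ x : Leaf × Leaf × Bool, (Fintype.piFinset (fun l : Leaf => ext4 m l)).card :=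
          Finset.sum_le_sum fun x _ => card_bad hm rfl x
      _ = 1152 * (Fintype.piFinset (fun l : Leaf => ext4 m l)).card := by
          rw [Finset.sum_const, smul_eq_mul, Finset.card_univ, Fintype.card_prod,
            Fintype.card_prod, card_leaf, Fintype.card_bool]
  have hpow : 65536 ≤ 2 ^ (m / 2) := by
    calc 65536 = 2 ^ 16 := by norm_num
      _ ≤ 2 ^ (m / 2) := Nat.pow_le_pow_right (by norm_num) (by omega)
  have h8 : 8 * ((Fintype.piFinset (fun l : Leaf => ext4 m l)).filter
      (fun a => ¬ Sep (m / 2) m a)).card ≤
      (Fintype.piFinset (fun l : Leaf => ext4 m l)).card := by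
    have h9 := Nat.mul_le_mul_right ((Fintype.piFinset (fun l : Leaf => ext4 m l)).filter
      (fun a => ¬ Sep (m / 2) m a)).card hpow
    omega
  have h10 : ((8 * ((Fintype.piFinset (fun l : Leaf => ext4 m l)).filter
      (fun a => ¬ Sep (m / 2) m a)).card : ℕ) : ℝ) ≤
      ((Fintype.piFinset (fun l : Leaf => ext4 m l)).card : ℝ) := by exact_mod_cast h8
  push_cast at h10
  linarith

end Pool.Agent.Helper23.GR
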