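import Pool.Agent.Helper23.GR.Defs
import Pool.Agent.Helper23.GR.St.W3A
import Pool.Agent.Helper23.GR.St.W3B
import Pool.Agent.Helper23.GR.St.W3C
import Pool.Agent.Helper23.GR.St.W3E

open MeasureTheory Real Finset

namespace Pool.Agent.Helper23.GR

open Pool.Agent.Helper42.Ent Pool.Agent.Helper70.C4

namespace GRW3aux

lemma sum_one {ι κ : Type*} [Fintype ι] [DecidableEq ι] [DecidableEq κ] (s : ι → Finset κ) (i : ι)
    (φ : κ → ℝ) : ((s i).card : ℝ) * ∑ a ∈ Fintype.piFinset s, φ (a i) =
      ((Fintype.piFinset s).card : ℝ) * ∑ x ∈ s i, φ x := by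
  have h1 : ∑ a ∈ Fintype.piFinset s, φ (a i) =
      ∑ x ∈ s i, ∑ a ∈ (Fintype.piFinset s).filter (fun a => a i = x), φ (a i) :=
    (Finset.sum_fiberwise_of_maps_to (fun a ha => Fintype.mem_piFinset.mp ha i) _).symm
  have h2 : ∀ x ∈ s i, ∑ a ∈ (Fintype.piFinset s).filter (fun a => a i = x), φ (a i) =
      ((∏ j ∈ univ.erase i, (s j).card : ℕ) : ℝ) * φ x := by
    intro x hx
    rw [Finset.sum_congr rfl (g := fun _ => φ x)
      (fun a ha => by rw [(Finset.mem_filter.mp ha).2]), Finset.sum_const, nsmul_eq_mul,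
      Fintype.card_filter_piFinset_eq_of_mem s i hx]
  rw [h1, Finset.sum_congr rfl h2, ← Finset.mul_sum, ← mul_assoc]
  congr 1
  rw [Fintype.card_piFinset, ← Finset.mul_prod_erase univ (fun j => (s j).card) (mem_univ i)]
  push_cast
  ring

lemma sum_two {ι κ : Type*} [Fintype ι] [DecidableEq ι] [DecidableEq κ] (s : ι → Finset κ)
    (i j : ι) (hij : i ≠ j) (φ : κ → κ → ℝ) :
    ((s i).card : ℝ) * (s j).card * ∑ a ∈ Fintype.piFinset s, φ (a i) (a j) =
      ((Fintype.piFinset s).card : ℝ) * ∑ x ∈ s i, ∑ y ∈ s j, φ x y := by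
  have h1 : ∑ a ∈ Fintype.piFinset s, φ (a i) (a j) =
      ∑ x ∈ s i, ∑ a ∈ (Fintype.piFinset s).filter (fun a => a i = x), φ (a i) (a j) :=
    (Finset.sum_fiberwise_of_maps_to (fun a ha => Fintype.mem_piFinset.mp ha i) _).symm
  have h2 : ∀ x ∈ s i, ((s j).card : ℝ) *
      ∑ a ∈ (Fintype.piFinset s).filter (fun a => a i = x), φ (a i) (a j) =
      ((∏ j ∈ univ.erase i, (s j).card : ℕ) : ℝ) * ∑ y ∈ s j, φ x y := by
    intro x hx
    have e1 : ∑ a ∈ (Fintype.piFinset s).filter (fun a => a i = x), φ (a i) (a j) =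
        ∑ a ∈ Fintype.piFinset (Function.update s i {x}), φ x (a j) := by
      rw [Fintype.piFinset_update_singleton_eq_filter_piFinset_eq s i hx]
      refine Finset.sum_congr rfl fun a ha => ?_
      rw [(Finset.mem_filter.mp ha).2]
    have e2 := sum_one (Function.update s i {x}) j (fun y => φ x y)
    have e3 : Function.update s i {x} j = s j := Function.update_of_ne hij.symm _ _
    rw [e3] at e2
    rw [e1, e2, Fintype.piFinset_update_singleton_eq_filter_piFinset_eq s i hx,
      Fintype.card_filter_piFinset_eq_of_mem s i hx]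
  rw [h1, mul_assoc, Finset.mul_sum (a := ((s j).card : ℝ)), Finset.sum_congr rfl h2,
    ← Finset.mul_sum, ← mul_assoc]
  congr 1
  rw [Fintype.card_piFinset, ← Finset.mul_prod_erase univ (fun j => (s j).card) (mem_univ i)]
  push_cast
  ring

lemma le_one {ι κ : Type*} [Fintype ι] [DecidableEq ι] [DecidableEq κ] (s : ι → Finset κ) (i : ι)
    (hi : 0 < (s i).card) (φ : κ → ℝ) (c : ℝ) (h : ∑ x ∈ s i, φ x ≤ c * (s i).card) :
    ∑ a ∈ Fintype.piFinset s, φ (a i) ≤ c * (Fintype.piFinset s).card := by
  have h1 := sum_one s i φ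
  have h2 : (0 : ℝ) < (s i).card := by exact_mod_cast hi
  have h3 : ((s i).card : ℝ) * ∑ a ∈ Fintype.piFinset s, φ (a i) ≤
      (s i).card * (c * (Fintype.piFinset s).card) := by
    rw [h1]
    calc ((Fintype.piFinset s).card : ℝ) * ∑ x ∈ s i, φ x
        ≤ (Fintype.piFinset s).card * (c * (s i).card) :=
          mul_le_mul_of_nonneg_left h (Nat.cast_nonneg _)
      _ = _ := by ring
  exact le_of_mul_le_mul_left h3 h2

lemma le_two {ι κ : Type*} [Fintype ι] [DecidableEq ι] [DecidableEq κ] (s : ι → Finset κ)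
    (i j : ι) (hij : i ≠ j) (hi : 0 < (s i).card) (hj : 0 < (s j).card) (φ : κ → κ → ℝ) (c : ℝ)
    (h : ∑ x ∈ s i, ∑ y ∈ s j, φ x y ≤ c * (s i).card * (s j).card) :
    ∑ a ∈ Fintype.piFinset s, φ (a i) (a j) ≤ c * (Fintype.piFinset s).card := by
  have h1 := sum_two s i j hij φ
  have h2 : (0 : ℝ) < (s i).card := by exact_mod_cast hi
  have h2' : (0 : ℝ) < (s j).card := by exact_mod_cast hj
  have h3 : ((s i).card : ℝ) * (s j).card * ∑ a ∈ Fintype.piFinset s, φ (a i) (a j) ≤
      (s i).card * (s j).card * (c * (Fintype.piFinset s).card) := by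
    rw [h1]
    calc ((Fintype.piFinset s).card : ℝ) * ∑ x ∈ s i, ∑ y ∈ s j, φ x y
        ≤ (Fintype.piFinset s).card * (c * (s i).card * (s j).card) :=
          mul_le_mul_of_nonneg_left h (Nat.cast_nonneg _)
      _ = _ := by ring
  exact le_of_mul_le_mul_left h3 (mul_pos h2 h2')

lemma markov {α : Type*} [DecidableEq α] (P : Finset α) (φ : α → ℝ) (h0 : ∀ a, 0 ≤ φ a) (T : ℝ)
    (hT : 0 < T) (h : ∑ a ∈ P, φ a ≤ 1 / 4 * T * P.card) :
    ((P.filter (fun a => T < φ a)).card : ℝ) ≤ 1 / 4 * P.card := by
  have h1 : ((P.filter (fun a => T < φ a)).card : ℝ) * T ≤ ∑ a ∈ P, φ a := by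
    calc ((P.filter (fun a => T < φ a)).card : ℝ) * T
        = ∑ a ∈ P.filter (fun a => T < φ a), T := by rw [Finset.sum_const, nsmul_eq_mul]
      _ ≤ ∑ a ∈ P.filter (fun a => T < φ a), φ a :=
          Finset.sum_le_sum fun a ha => (Finset.mem_filter.mp ha).2.le
      _ ≤ ∑ a ∈ P, φ a :=
          Finset.sum_le_sum_of_subset_of_nonneg (Finset.filter_subset _ _) fun a _ _ => h0 a
  have h2 : ((P.filter (fun a => T < φ a)).card : ℝ) * T ≤ 1 / 4 * P.card * T := by
    calc _ ≤ _ := h1.trans h
      _ = _ := by ring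
  exact le_of_mul_le_mul_right h2 hT

lemma card_ext4 {m : ℕ} (hm : 4 ≤ m) (l : Leaf) : 0 < (ext4 m l).card := by
  unfold ext4
  rw [card_take_eq l.2 (by norm_num) hm]
  positivity

end GRW3aux

open GRW3aux in
/-- GR-W3. Selection of the leaf words. -/
theorem select : ∃ C : ℝ, 0 < C ∧ ∀ (κ m : ℕ), 4 ≤ κ → 32 ≤ m → κ ≤ m →
    ∀ (γ γ' : ℝ), 0 < γ → 0 < γ' → ∀ (F G : List (Fin 3) → ℝ),
    (∀ w, 0 ≤ F w) → (∀ w, 0 ≤ G w) →
    (∀ k, κ ≤ k → ∑ w ∈ W k, F w ≤ γ * (W k).card) →
    (∀ k, κ ≤ k → ∑ w ∈ W k, G w ≤ γ' * (W k).card) →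
    ∃ a : Leaf → List (Fin 3), (∀ l, (a l).take 4 = l.1) ∧ Sep (m / 2) m a ∧
      neSum F κ m a ≤ C * (m : ℝ) ^ 2 * γ ∧ prSum G a ≤ C * γ' := by
  classical
  set c0 : ℝ := (Fintype.card Leaf : ℝ) with hc0
  have hc0n : 0 ≤ c0 := Nat.cast_nonneg _
  refine ⟨4 * (4 * (c0 * 24 + c0 * c0 * 384)) + 4 * (c0 * c0 * 384) + 1, by positivity, ?_⟩
  intro κ m hκ hm hκm γ γ' hγ hγ' F G hF0 hG0 hF hG
  set C : ℝ := 4 * (4 * (c0 * 24 + c0 * c0 * 384)) + 4 * (c0 * c0 * 384) + 1 with hC
  set P : Finset (Leaf → List (Fin 3)) := Fintype.piFinset (fun l : Leaf => ext4 m l) with hP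
  have hpos : ∀ l : Leaf, 0 < (ext4 m l).card := fun l => card_ext4 (by omega) l
  have hPn : P.Nonempty := by
    rw [hP, Fintype.piFinset_nonempty]
    exact fun l => Finset.card_pos.mp (hpos l)
  have hPc : (0 : ℝ) < P.card := by exact_mod_cast Finset.card_pos.mpr hPn
  have hmR : (32 : ℝ) ≤ m := by exact_mod_cast hm
  -- averages
  have hA1 : ∑ a ∈ P, ∑ l : Leaf, ∑ t ∈ range (m + 1), ∑ s ∈ range (m + 1),
      (if s + κ ≤ t then F (rel ((a l).take s) ((a l).take t)) else 0) ≤
      c0 * ((m + 1) * ((m + 1) * (24 * γ * P.card))) := by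
    rw [Finset.sum_comm]
    calc ∑ l : Leaf, ∑ a ∈ P, ∑ t ∈ range (m + 1), ∑ s ∈ range (m + 1),
          (if s + κ ≤ t then F (rel ((a l).take s) ((a l).take t)) else 0)
        ≤ ∑ _l : Leaf, ((m + 1 : ℝ) * ((m + 1) * (24 * γ * P.card))) := by
          refine Finset.sum_le_sum fun l _ => ?_
          rw [Finset.sum_comm]
          calc ∑ t ∈ range (m + 1), ∑ a ∈ P, ∑ s ∈ range (m + 1),
                (if s + κ ≤ t then F (rel ((a l).take s) ((a l).take t)) else 0)
              ≤ ∑ _t ∈ range (m + 1), ((m + 1 : ℝ) * (24 * γ * P.card)) := by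
                refine Finset.sum_le_sum fun t ht => ?_
                rw [Finset.sum_comm]
                calc ∑ s ∈ range (m + 1), ∑ a ∈ P,
                      (if s + κ ≤ t then F (rel ((a l).take s) ((a l).take t)) else 0)
                    ≤ ∑ _s ∈ range (m + 1), (24 * γ * P.card : ℝ) := by
                      refine Finset.sum_le_sum fun s _ => ?_
                      by_cases hst : s + κ ≤ t
                      · simp only [hst, if_true]
                        exact le_one (fun l : Leaf => ext4 m l) l (hpos l)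
                          (fun x => F (rel (x.take s) (x.take t))) (24 * γ)
                          (avg_seg hγ.le F hF0 hF hκ l hst
                            (Nat.lt_succ_iff.mp (Finset.mem_range.mp ht)))
                      · simp only [hst, if_false, Finset.sum_const_zero]
                        positivity
                  _ = _ := by
                      rw [Finset.sum_const, Finset.card_range, nsmul_eq_mul]
                      push_cast
                      ring
            _ = _ := by
                rw [Finset.sum_const, Finset.card_range, nsmul_eq_mul]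
                push_cast
                ring
      _ = _ := by
          rw [Finset.sum_const, Finset.card_univ, nsmul_eq_mul]
  have hA2 : ∑ a ∈ P, ∑ l : Leaf, ∑ l' : Leaf, (if l.1.head? ≠ l'.1.head? then
      ∑ s ∈ Icc κ m, ∑ t ∈ Icc κ m, F (rel ((a l).take s) ((a l').take t)) else 0) ≤
      c0 * (c0 * ((m + 1) * ((m + 1) * (384 * γ * P.card)))) := by
    rw [Finset.sum_comm]
    calc ∑ l : Leaf, ∑ a ∈ P, ∑ l' : Leaf, (if l.1.head? ≠ l'.1.head? then
          ∑ s ∈ Icc κ m, ∑ t ∈ Icc κ m, F (rel ((a l).take s) ((a l').take t)) else 0)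
        ≤ ∑ _l : Leaf, (c0 * ((m + 1 : ℝ) * ((m + 1) * (384 * γ * P.card)))) := by
          refine Finset.sum_le_sum fun l _ => ?_
          rw [Finset.sum_comm]
          calc ∑ l' : Leaf, ∑ a ∈ P, (if l.1.head? ≠ l'.1.head? then
                ∑ s ∈ Icc κ m, ∑ t ∈ Icc κ m, F (rel ((a l).take s) ((a l').take t)) else 0)
              ≤ ∑ _l' : Leaf, ((m + 1 : ℝ) * ((m + 1) * (384 * γ * P.card))) := by
                refine Finset.sum_le_sum fun l' _ => ?_
                by_cases hl : l.1.head? ≠ l'.1.head?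
                · simp only [hl, ne_eq, not_false_eq_true, if_true]
                  have hll : l ≠ l' := fun h => hl (by rw [h])
                  have hIcc : ((Icc κ m).card : ℝ) ≤ m + 1 := by
                    have : (Icc κ m).card ≤ m + 1 := by
                      rw [Nat.card_Icc]
                      omega
                    exact_mod_cast this
                  rw [Finset.sum_comm]
                  calc ∑ s ∈ Icc κ m, ∑ a ∈ P, ∑ t ∈ Icc κ m, F (rel ((a l).take s) ((a l').take t))
                      ≤ ∑ _s ∈ Icc κ m, ((m + 1 : ℝ) * (384 * γ * P.card)) := by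
                        refine Finset.sum_le_sum fun s hs => ?_
                        rw [Finset.sum_comm]
                        calc ∑ t ∈ Icc κ m, ∑ a ∈ P, F (rel ((a l).take s) ((a l').take t))
                            ≤ ∑ _t ∈ Icc κ m, (384 * γ * P.card : ℝ) := by
                              refine Finset.sum_le_sum fun t ht => ?_
                              rw [Finset.mem_Icc] at hs ht
                              exact le_two (fun l : Leaf => ext4 m l) l l' hll (hpos l) (hpos l')
                                (fun x y => F (rel (x.take s) (y.take t))) (384 * γ)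
                                (avg_cross hγ.le F hF0 hF hκ l l' hl hs.1 hs.2 ht.1 ht.2)
                          _ = (Icc κ m).card * (384 * γ * P.card : ℝ) := by
                              rw [Finset.sum_const, nsmul_eq_mul]
                          _ ≤ _ := mul_le_mul_of_nonneg_right hIcc (by positivity)
                    _ = (Icc κ m).card * ((m + 1 : ℝ) * (384 * γ * P.card)) := by
                        rw [Finset.sum_const, nsmul_eq_mul]
                    _ ≤ _ := mul_le_mul_of_nonneg_right hIcc (by positivity)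
                · simp only [hl, if_false, Finset.sum_const_zero]
                  positivity
            _ = _ := by
                rw [Finset.sum_const, Finset.card_univ, nsmul_eq_mul]
      _ = _ := by
          rw [Finset.sum_const, Finset.card_univ, nsmul_eq_mul]
  have hA : ∑ a ∈ P, neSum F κ m a ≤ 1 / 4 * (C * (m : ℝ) ^ 2 * γ) * P.card := by
    have e1 : ∑ a ∈ P, neSum F κ m a ≤ c0 * ((m + 1) * ((m + 1) * (24 * γ * P.card))) +
        c0 * (c0 * ((m + 1) * ((m + 1) * (384 * γ * P.card)))) := by
      unfold neSum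
      rw [Finset.sum_add_distrib]
      exact add_le_add hA1 hA2
    have e2 : ((m : ℝ) + 1) * (m + 1) ≤ 4 * (m : ℝ) ^ 2 := by nlinarith
    have e3 : 4 * (4 * (c0 * 24 + c0 * c0 * 384)) ≤ C := by
      rw [hC]
      have : 0 ≤ 4 * (c0 * c0 * 384) := by positivity
      linarith
    calc ∑ a ∈ P, neSum F κ m a ≤ _ := e1
      _ = (c0 * 24 + c0 * c0 * 384) * (((m : ℝ) + 1) * (m + 1)) * (γ * P.card) := by ring
      _ ≤ (c0 * 24 + c0 * c0 * 384) * (4 * (m : ℝ) ^ 2) * (γ * P.card) := by
          refine mul_le_mul_of_nonneg_right ?_ (by positivity)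
          exact mul_le_mul_of_nonneg_left e2 (by positivity)
      _ = 1 / 4 * (4 * (4 * (c0 * 24 + c0 * c0 * 384))) * (m : ℝ) ^ 2 * (γ * P.card) := by ring
      _ ≤ 1 / 4 * C * (m : ℝ) ^ 2 * (γ * P.card) := by
          refine mul_le_mul_of_nonneg_right ?_ (by positivity)
          refine mul_le_mul_of_nonneg_right ?_ (by positivity)
          linarith
      _ = _ := by ring
  have hB : ∑ a ∈ P, prSum G a ≤ 1 / 4 * (C * γ') * P.card := by
    have e1 : ∑ a ∈ P, prSum G a ≤ c0 * (c0 * (384 * γ' * P.card)) := by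
      unfold prSum
      rw [Finset.sum_comm]
      calc ∑ l : Leaf, ∑ a ∈ P, ∑ l' : Leaf, (if l ≠ l' then G (rel (a l) (a l')) else 0)
          ≤ ∑ _l : Leaf, (c0 * (384 * γ' * P.card)) := by
            refine Finset.sum_le_sum fun l _ => ?_
            rw [Finset.sum_comm]
            calc ∑ l' : Leaf, ∑ a ∈ P, (if l ≠ l' then G (rel (a l) (a l')) else 0)
                ≤ ∑ _l' : Leaf, (384 * γ' * P.card : ℝ) := by
                  refine Finset.sum_le_sum fun l' _ => ?_
                  by_cases hl : l ≠ l'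
                  · simp only [hl, ne_eq, not_false_eq_true, if_true]
                    exact le_two (fun l : Leaf => ext4 m l) l l' hl (hpos l) (hpos l')
                      (fun x y => G (rel x y)) (384 * γ')
                      (avg_full hγ'.le G hG0 hG hm hκm l l' hl)
                  · simp only [hl, if_false, Finset.sum_const_zero]
                    positivity
              _ = _ := by
                  rw [Finset.sum_const, Finset.card_univ, nsmul_eq_mul]
        _ = _ := by
            rw [Finset.sum_const, Finset.card_univ, nsmul_eq_mul]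
    have e3 : 4 * (c0 * c0 * 384) ≤ C := by
      rw [hC]
      have : 0 ≤ 4 * (4 * (c0 * 24 + c0 * c0 * 384)) := by positivity
      linarith
    calc ∑ a ∈ P, prSum G a ≤ _ := e1
      _ = 1 / 4 * (4 * (c0 * c0 * 384)) * (γ' * P.card) := by ring
      _ ≤ 1 / 4 * C * (γ' * P.card) := by
          refine mul_le_mul_of_nonneg_right ?_ (by positivity)
          linarith
      _ = _ := by ring
  have hCpos : 0 < C := by positivity
  have hne0 : ∀ a, 0 ≤ neSum F κ m a := by
    intro a
    unfold neSum
    refine add_nonneg ?_ ?_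
    · refine Finset.sum_nonneg fun l _ => Finset.sum_nonneg fun t _ => Finset.sum_nonneg fun s _ => ?_
      split_ifs
      · exact hF0 _
      · exact le_rfl
    · refine Finset.sum_nonneg fun l _ => Finset.sum_nonneg fun l' _ => ?_
      split_ifs
      · exact Finset.sum_nonneg fun s _ => Finset.sum_nonneg fun t _ => hF0 _
      · exact le_rfl
  have hpr0 : ∀ a, 0 ≤ prSum G a := by
    intro a
    unfold prSum
    refine Finset.sum_nonneg fun l _ => Finset.sum_nonneg fun l' _ => ?_
    split_ifs
    · exact hG0 _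
    · exact le_rfl
  have hm1 := markov P (fun a => neSum F κ m a) hne0 (C * (m : ℝ) ^ 2 * γ) (by positivity) hA
  have hm2 := markov P (fun a => prSum G a) hpr0 (C * γ') (by positivity) hB
  have hm3 := not_sep_le hm
  by_contra hcon
  have hcov : P ⊆ ((P.filter (fun a => C * (m : ℝ) ^ 2 * γ < neSum F κ m a)) ∪
      (P.filter (fun a => C * γ' < prSum G a))) ∪ P.filter (fun a => ¬ Sep (m / 2) m a) := by
    intro a ha
    by_contra hna
    simp only [Finset.mem_union, Finset.mem_filter, ha, true_and, not_or, not_lt, not_not] at hna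
    refine hcon ⟨a, fun l => ?_, hna.2, hna.1.1, hna.1.2⟩
    have h1 := Fintype.mem_piFinset.mp ha l
    unfold ext4 at h1
    exact (Finset.mem_filter.mp h1).2
  have hcard : (P.card : ℝ) ≤
      (P.filter (fun a => C * (m : ℝ) ^ 2 * γ < neSum F κ m a)).card +
      (P.filter (fun a => C * γ' < prSum G a)).card +
      (P.filter (fun a => ¬ Sep (m / 2) m a)).card := by
    have h1 := Finset.card_le_card hcov
    have h2 := Finset.card_union_le ((P.filter (fun a => C * (m : ℝ) ^ 2 * γ < neSum F κ m a)) ∪
      (P.filter (fun a => C * γ' < prSum G a))) (P.filter (fun a => ¬ Sep (m / 2) m a))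
    have h3 := Finset.card_union_le (P.filter (fun a => C * (m : ℝ) ^ 2 * γ < neSum F κ m a))
      (P.filter (fun a => C * γ' < prSum G a))
    exact_mod_cast h1.trans (h2.trans (Nat.add_le_add_right h3 _))
  have hm3' : ((P.filter (fun a => ¬ Sep (m / 2) m a)).card : ℝ) ≤ 1 / 8 * P.card := by
    refine le_trans (le_of_eq ?_) (hm3.trans (le_of_eq ?_))
    · congr 2
    · rfl
  have hm1' : ((P.filter (fun a => C * (m : ℝ) ^ 2 * γ < neSum F κ m a)).card : ℝ) ≤
      1 / 4 * P.card := hm1
  have hm2' : ((P.filter (fun a => C * γ' < prSum G a)).card : ℝ) ≤ 1 / 4 * P.card := hm2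
  linarith

end Pool.Agent.Helper23.GR
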