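import Pool.Agent.Helper23.GR.Defs
import Pool.Agent.Helper23.GR.St.K1
import Pool.Agent.Helper23.GR.St.K2
import Pool.Agent.Helper23.GR.St.G9
import Pool.Agent.Helper23.GR.St.N2
import Pool.Agent.Helper23.GR.St.W3

open MeasureTheory Real Finset

namespace Pool.Agent.Helper23.GR

open Pool.Agent.Helper42.Ent Pool.Agent.Helper70.C4

namespace GRK3aux

theorem card_leaf : Fintype.card Leaf = 24 := by
  rw [Fintype.card_coe]
  exact card_W 3

theorem take_succ' (w : List (Fin 3)) {t : ℕ} (ht : t < w.length) :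
    w.take (t + 1) = w.take t ++ [w[t]] := by
  simp

open Classical in
/-- the property of the chosen vertex -/
def Pr {V : Type} [Fintype V] (H : SimpleGraph V) (κ D : ℕ) (e : Fin 12 × Bool ≃ Leaf) (v0 : V)
    (o : Leaf → Option V) (z : V) : Prop :=
  H.edist z v0 ≤ κ ∧ 60 ≤ ((univ : Finset (Fin 12 × Fin 12)).filter (fun ij =>
        some z ∈ LstO H D (o (e (ij.1, false)), o (e (ij.2, true))))).card

open Classical in
/-- the chosen vertex -/
noncomputable def ch {V : Type} [Fintype V] (H : SimpleGraph V) (κ D : ℕ)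
    (e : Fin 12 × Bool ≃ Leaf) (d : V × (Leaf → Option V)) : Option V :=
  if h : ∃ z, Pr H κ D e d.1 d.2 z then some h.choose else none

theorem ch_spec {V : Type} [Fintype V] (H : SimpleGraph V) (κ D : ℕ)
    (e : Fin 12 × Bool ≃ Leaf) (d : V × (Leaf → Option V)) {z : V}
    (h : ch H κ D e d = some z) : Pr H κ D e d.1 d.2 z := by
  unfold ch at h
  split_ifs at h with h1
  have := h1.choose_spec
  rw [Option.some.injEq] at h
  rwa [h] at this

theorem ch_ne {V : Type} [Fintype V] (H : SimpleGraph V) (κ D : ℕ)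
    (e : Fin 12 × Bool ≃ Leaf) (d : V × (Leaf → Option V)) {z : V}
    (h : Pr H κ D e d.1 d.2 z) : ∃ z, ch H κ D e d = some z := by
  unfold ch
  rw [dif_pos ⟨z, h⟩]
  exact ⟨_, rfl⟩

end GRK3aux

open GRK3aux in
/-- GR-K3. The contraction step. -/
theorem contraction : ∃ (κ : ℕ) (C1 : ℝ) (G : ℕ), 0 ≤ C1 ∧ ∀ {Ω : Type} [MeasurableSpace Ω]
    (S : Sys Ω) {V : Type} [Fintype V] [MeasurableSpace (Option V)]
    [MeasurableSingletonClass (Option V)] {H : SimpleGraph V} {f : Ω → V}, IsHom S H f →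
    (G : ℕ∞) < H.egirth → ∀ q : Ω → Option V, Measurable q →
    S.μ.real {x | ¬ Close H κ (q x) (f x)} ≤ 1 / 3000 →
    ∃ q' : Ω → Option V, Measurable q' ∧ S.μ.real {x | ¬ Close H κ (q' x) (f x)} ≤ 1 / 3000 ∧
      ent S.μ q' ≤ ent S.μ q / 4 + C1 := by
  classical
  obtain ⟨C, hC, hsel⟩ := select
  obtain ⟨c, hc⟩ : ∃ c : ℝ, c = 1 / (3000 * 256 * C) := ⟨_, rfl⟩
  have hc0 : 0 < c := by rw [hc]; positivity
  obtain ⟨κ, hκ4, hκc, G0, hne⟩ := exists_kappa c hc0
  obtain ⟨m, hm⟩ : ∃ m : ℕ, m = 8 * κ ^ 2 := ⟨_, rfl⟩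
  have hm32 : 32 ≤ m := by rw [hm]; nlinarith
  have hκm : κ ≤ m := by rw [hm]; nlinarith
  have hκm2 : κ * (3 * κ + 1) < m := by rw [hm]; nlinarith
  obtain ⟨D, hD⟩ : ∃ D : ℕ, D = 2 * (m + 2 * κ) := ⟨_, rfl⟩
  refine ⟨κ, 5 / 4 + 3 * Real.log (D + 2), max G0 (4 * (m + 2 * κ)), ?_, ?_⟩
  · have : 0 ≤ Real.log ((D : ℝ) + 2) := Real.log_nonneg (by
      have : (0 : ℝ) ≤ D := Nat.cast_nonneg D
      linarith)
    linarith
  intro Ω _ S V _ _ _ H f hf hG q hq hbad
  have hG0 : (G0 : ℕ∞) < H.egirth :=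
    lt_of_le_of_lt (by exact_mod_cast le_max_left _ _) hG
  have hG1 : ((4 * (m + 2 * κ) : ℕ) : ℕ∞) < H.egirth :=
    lt_of_le_of_lt (by exact_mod_cast le_max_right G0 (4 * (m + 2 * κ))) hG
  have hG2 : ((2 * D : ℕ) : ℕ∞) < H.egirth := by
    have : 2 * D = 4 * (m + 2 * κ) := by rw [hD]; ring
    rw [this]; exact hG1
  letI : MeasurableSpace V := ⊤
  haveI : MeasurableSingletonClass V := ⟨fun _ => trivial⟩
  have hfm : Measurable f := measurable_to_countable' hf.meas
  -- the bad indicator
  let b : Ω → Bool := fun x => decide (¬ Close H κ (q x) (f x))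
  have hb : Measurable b := by
    have h1 : Measurable (fun z : Option V × V => decide (¬ Close H κ z.1 z.2)) :=
      measurable_of_countable _
    exact h1.comp (hq.prodMk hfm)
  have hbη : S.μ.real {x | b x = true} ≤ 1 / 3000 := by
    have : {x | b x = true} = {x | ¬ Close H κ (q x) (f x)} := by
      ext x; simp [b]
    rw [this]; exact hbad
  -- the choice of leaf words
  have hκpos : (0 : ℝ) < κ := by
    have : 0 < κ := by omega
    exact_mod_cast this
  have hent1 : ent S.μ b ≤ 1 := by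
    have h1 := ent_le_log_card S.μ hb
    have h2 : Real.log (Fintype.card Bool) ≤ 1 := by
      rw [Fintype.card_bool]
      have := Real.log_two_lt_d9
      push_cast
      linarith
    linarith
  obtain ⟨a, ha4, hsep, hne1, hpr⟩ := hsel κ m hκ4 hm32 hκm (c / (κ : ℝ) ^ 4) c
    (by positivity) hc0 (fun w => S.μ.real {x | f x = f (run S.T w x)})
    (fun w => MI S.μ b (fun x => b (run S.T w x))) (fun w => measureReal_nonneg)
    (fun w => MI_nonneg S.μ hb (hb.comp (mp_run S w).measurable))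
    (fun k hk => hne S hf hG0 k hk)
    (by
      intro k hk
      refine (avg_MI S (by omega) hb).trans ?_
      have h1 : (3 : ℝ) / 2 ^ (k / 8) ≤ c := by
        refine le_trans ?_ hκc
        apply div_le_div_of_nonneg_left (by norm_num) (by positivity)
        exact pow_le_pow_right₀ (by norm_num) (Nat.div_le_div_right hk)
      have h2 : 0 ≤ ent S.μ b := ent_nonneg S.μ b
      have h3 : (0 : ℝ) ≤ (W k).card := Nat.cast_nonneg _
      have h4 : (0 : ℝ) ≤ 3 / 2 ^ (k / 8) := by positivity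
      calc 3 / 2 ^ (k / 8) * ((W k).card : ℝ) * ent S.μ b
          ≤ 3 / 2 ^ (k / 8) * ((W k).card : ℝ) * 1 := by gcongr
        _ ≤ c * (W k).card := by rw [mul_one]; gcongr)
  have e : Fin 12 × Bool ≃ Leaf := Fintype.equivOfCardEq (by
    rw [card_leaf]; simp)
  have hlen : ∀ l, (a l).length = m := fun l => (mem_W.1 (hsep.mem l)).1
  -- the new variable
  let l0 : Leaf := e (0, false)
  let dat : Ω → V × (Leaf → Option V) := fun x => (f x, fun l => q (run S.T (a l) x))
  have hdat : Measurable dat := hfm.prodMk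
    (measurable_pi_lambda _ (fun l => hq.comp (mp_run S (a l)).measurable))
  let Z : Ω → Option V := fun x => ch H κ D e (dat x)
  have hZ : Measurable Z := (measurable_of_countable (ch H κ D e)).comp hdat
  have key : ∀ x, NEev S f κ m a x →
      (¬ ∃ l l', l ≠ l' ∧ b (run S.T (a l) x) = true ∧ b (run S.T (a l') x) = true) →
      Close H κ (Z x) (f x) := by
    intro x hx hx2
    obtain ⟨z, hz1, hz2⟩ := geo (H := H) (κ := κ) (m := m) (by omega) hκm2 hG1
      (fun l t => f (run S.T ((a l).take t) x)) (f x) (fun l => by simp [run])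
      (by
        intro l t ht
        have h1 : (a l).take (t + 1) = (a l).take t ++ [(a l)[t]'(by rw [hlen]; exact ht)] :=
          take_succ' _ _
        rw [h1, run_append]
        exact hf.adj _ _)
      hx.1 hx.2 (fun l => q (run S.T (a l) x))
      (by
        intro l l' hll
        by_contra hcon
        rw [not_or] at hcon
        apply hx2
        have h1 : ∀ l, (a l).take m = a l := fun l =>
          List.take_of_length_le (by rw [hlen])
        rw [h1, h1] at hcon
        exact ⟨l, l', hll, by simpa [b] using hcon.1, by simpa [b] using hcon.2⟩) e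
    have h1 : Pr H κ D e (dat x).1 (dat x).2 z := ⟨hz1, by rw [hD]; exact hz2⟩
    obtain ⟨z', hz'⟩ := ch_ne H κ D e (dat x) h1
    have h2 := ch_spec H κ D e (dat x) hz'
    exact ⟨z', hz', h2.1⟩
  refine ⟨Z, hZ, ?_, ?_⟩
  · have h1 : {x | ¬ Close H κ (Z x) (f x)} ⊆ {x | ¬ NEev S f κ m a x} ∪
        {x | ∃ l l', l ≠ l' ∧ b (run S.T (a l) x) = true ∧ b (run S.T (a l') x) = true} := by
      intro x hx
      by_contra hcon
      simp only [Set.mem_union, Set.mem_setOf_eq, not_or, not_not] at hcon hx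
      exact hx (key x hcon.1 hcon.2)
    have h2 := ne_prob S hf.meas κ m a
    have h3 := two_bad S hb hbη a
    have h4 : C * (m : ℝ) ^ 2 * (c / (κ : ℝ) ^ 4) = 1 / (4 * 3000) := by
      rw [hm, hc]
      push_cast
      field_simp
      norm_num
    have h5 : C * c = 1 / (3000 * 256) := by
      rw [hc]; field_simp
    calc S.μ.real {x | ¬ Close H κ (Z x) (f x)} ≤ _ := measureReal_mono h1 (measure_ne_top _ _)
      _ ≤ _ := measureReal_union_le _ _
      _ ≤ 1 / 3000 := by
        rw [h4] at hne1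
        rw [h5] at hpr
        have h6 : (1104 : ℝ) * (1 / 3000) ^ 2 ≤ 1104 / 9000000 := by norm_num
        linarith
  · have := contr_ent S hsep e D hG2 hq hZ (by
      intro x hx
      obtain ⟨z, hz⟩ := Option.ne_none_iff_exists'.1 hx
      have h1 := (ch_spec H κ D e (dat x) hz).2
      rw [hz]
      exact h1)
    linarith

end Pool.Agent.Helper23.GR
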