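import Pool.Agent.Helper23.GR.Defs
import Pool.Agent.Helper23.GR.St.K3
import Pool.Agent.Helper23.GR.St.C1

open MeasureTheory Real Finset

namespace Pool.Agent.Helper23.GR

open Pool.Agent.Helper42.Ent Pool.Agent.Helper70.C4

/-- GR-K4. The abstract theorem. -/
theorem abstract_main : ∃ G : ℕ, ∀ {Ω : Type} [MeasurableSpace Ω] (S : Sys Ω) {V : Type}
    [Finite V] {H : SimpleGraph V} {f : Ω → V}, IsHom S H f → ¬ (G : ℕ∞) < H.egirth := by
  classical
  obtain ⟨κ, C1, G0, hC1, hcon⟩ := contraction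
  obtain ⟨M, hM⟩ := exists_nat_ge (Real.exp (3000 * (4 / 3 * C1 + 1)))
  refine ⟨max G0 (2 * (2 * κ + 1) * M), ?_⟩
  intro Ω _ S V _ H f hf hG
  have hG0 : (G0 : ℕ∞) < H.egirth :=
    lt_of_le_of_lt (by exact_mod_cast le_max_left _ _) hG
  have hG1 : ((2 * (2 * κ + 1) * M : ℕ) : ℕ∞) < H.egirth :=
    lt_of_le_of_lt (by exact_mod_cast le_max_right G0 (2 * (2 * κ + 1) * M)) hG
  have : Fintype V := Fintype.ofFinite V
  let mO : MeasurableSpace (Option V) := ⊤
  have hO : MeasurableSingletonClass (Option V) := ⟨fun _ => trivial⟩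
  let mV : MeasurableSpace V := ⊤
  have hV : MeasurableSingletonClass V := ⟨fun _ => trivial⟩
  have hfm : Measurable f := measurable_to_countable' hf.meas
  -- the iteration
  have hit : ∀ n : ℕ, ∃ q : Ω → Option V, Measurable q ∧
      S.μ.real {x | ¬ Close H κ (q x) (f x)} ≤ 1 / 3000 ∧
      ent S.μ q ≤ ent S.μ (fun x => (some (f x) : Option V)) / 4 ^ n + 4 / 3 * C1 := by
    intro n
    induction n with
    | zero =>
      refine ⟨fun x => some (f x), (measurable_of_countable (fun v : V => some v)).comp hfm,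
        ?_, ?_⟩
      · have : {x | ¬ Close H κ (some (f x)) (f x)} = ∅ := by
          ext x
          simp only [Set.mem_ofPred_eq, Set.mem_empty_iff_false, iff_false, not_not]
          exact ⟨f x, rfl, by simp⟩
        rw [this]
        simp
      · simp only [pow_zero, div_one]
        linarith
    | succ n ih =>
      obtain ⟨q, hq, hq1, hq2⟩ := ih
      obtain ⟨q', hq', hq1', hq2'⟩ := hcon S hf hG0 q hq hq1
      refine ⟨q', hq', hq1', ?_⟩
      rw [pow_succ]
      have : ent S.μ (fun x => (some (f x) : Option V)) / (4 ^ n * 4) =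
        ent S.μ (fun x => (some (f x) : Option V)) / 4 ^ n / 4 := by
        rw [div_div]
      rw [this]
      linarith
  obtain ⟨n, hn⟩ : ∃ n : ℕ, ent S.μ (fun x => (some (f x) : Option V)) / 4 ^ n ≤ 1 := by
    obtain ⟨n, hn⟩ := pow_unbounded_of_one_lt (ent S.μ (fun x => (some (f x) : Option V)))
      (by norm_num : (1 : ℝ) < 4)
    exact ⟨n, by rw [div_le_one (by positivity)]; exact hn.le⟩
  obtain ⟨q, hq, hq1, hq2⟩ := hit n
  exact lemC S hf κ hq (4 / 3 * C1 + 1) (by linarith) hq1 M hM hG1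

end Pool.Agent.Helper23.GR
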