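import Pool.Agent.Helper23.GR.Defs
import Pool.Agent.Helper23.GR.St.D15
import Pool.Agent.Helper23.GR.St.K4

open MeasureTheory Real Finset

namespace Pool.Agent.Helper23.GR

open Pool.Agent.Helper42.Ent Pool.Agent.Helper70.C4

/-- GR-Z. The final theorem. -/
theorem main :
    ∃ (g : ℕ) (X : Type) (_ : MeasurableSpace X) (_ : StandardBorelSpace X) (μ : Measure X)
      (_ : IsProbabilityMeasure μ) (t : Fin 3 → X → X) (G : SimpleGraph X),
      (∀ i, MeasurePreserving (t i) μ μ) ∧ (∀ x y, G.Adj x y ↔ ∃ i, t i x = y) ∧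
      MeasurableSet {z : X × X | G.Adj z.1 z.2} ∧ G.IsAcyclic ∧
      (∀ x, (G.neighborSet x).ncard = 3) ∧
      ∀ (V : Type) [Finite V] (H : SimpleGraph V), (g : ℕ∞) ≤ H.egirth →
        ∀ f : X → V, (∀ v, MeasurableSet (f ⁻¹' {v})) →
          ¬ ∀ᵐ x ∂μ, ∀ y, G.Adj x y → H.Adj (f x) (f y) := by
  obtain ⟨G0, hG0⟩ := abstract_main
  obtain ⟨Ω, mΩ, sΩ, S, hF⟩ := exists_sys
  refine ⟨G0 + 1, Ω, mΩ, sΩ, S.μ, S.prob, S.T, gr S.invol hF, S.mp, fun x y => Iff.rfl, ?_,
    gr_acyclic S.invol hF, gr_regular S.invol hF, ?_⟩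
  · have h1 : {z : Ω × Ω | (gr S.invol hF).Adj z.1 z.2} = ⋃ i : Fin 3, {z | S.T i z.1 = z.2} := by
      ext z
      simp only [Set.mem_iUnion, Set.mem_ofPred_eq]
      exact Iff.rfl
    rw [h1]
    refine MeasurableSet.iUnion fun i => ?_
    exact measurableSet_eq_fun ((S.mp i).measurable.comp measurable_fst) measurable_snd
  · intro V _ H hgirth f hf hae
    have hBeq : {x : Ω | ∀ y, (gr S.invol hF).Adj x y → H.Adj (f x) (f y)} =
        ⋂ i : Fin 3, ⋃ (u : V) (v : V) (_ : H.Adj u v), (f ⁻¹' {u} ∩ S.T i ⁻¹' (f ⁻¹' {v})) := by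
      ext x
      simp only [Set.mem_ofPred_eq, Set.mem_iInter, Set.mem_iUnion, Set.mem_inter_iff,
        Set.mem_preimage, Set.mem_singleton_iff]
      constructor
      · intro h i
        exact ⟨f x, f (S.T i x), h _ ⟨i, rfl⟩, rfl, rfl⟩
      · rintro h y ⟨i, rfl⟩
        obtain ⟨u, v, huv, h1, h2⟩ := h i
        rw [h1, h2]
        exact huv
    have hBm : MeasurableSet {x : Ω | ∀ y, (gr S.invol hF).Adj x y → H.Adj (f x) (f y)} := by
      rw [hBeq]
      refine MeasurableSet.iInter fun i => MeasurableSet.iUnion fun u =>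
        MeasurableSet.iUnion fun v => MeasurableSet.iUnion fun _ => ?_
      exact (hf u).inter ((S.mp i).measurable (hf v))
    have hB0 : S.μ {x : Ω | ∀ y, (gr S.invol hF).Adj x y → H.Adj (f x) (f y)}ᶜ = 0 := hae
    obtain ⟨A, hAm, hA0, hAB, hAinv⟩ := exists_invariant S hBm hB0
    obtain ⟨S', hS', -⟩ := sys_restrict S hAm hA0 hAinv
    have hhom : IsHom S' H (fun x : A => f x) := by
      refine ⟨fun v => ?_, fun i x => ?_⟩
      · exact measurable_subtype_coe (hf v)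
      · rw [hS' i x]
        exact hAB x.2 _ ⟨i, rfl⟩
    refine hG0 S' hhom (lt_of_lt_of_le ?_ hgirth)
    exact_mod_cast Nat.lt_succ_self G0

end Pool.Agent.Helper23.GR
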